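import Pool.Agent.Helper3.BO.Nn

open scoped ENNReal NNReal lp
open Filter Topology

namespace BO

lemma ent_mul_dg (A : Hs →L[ℂ] Hs) (d : Linf) (K P : ℕ) : ent (A * dg d) K P = ent A K P * d P := by
  have h := hasSum_ent_mul A (dg d) K P
  have h2 : (fun Q => ent A K Q * ent (dg d) Q P) = fun Q => if Q = P then ent A K P * d P else 0 := by
    funext Q; rw [ent_dg]; split_ifs with hq
    · rw [hq]
    · simp
  rw [h2] at h
  exact h.unique (hasSum_ite_eq P _)

lemma ent_dg_mul (A : Hs →L[ℂ] Hs) (d : Linf) (K P : ℕ) : ent (dg d * A) K P = d K * ent A K P := by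
  show (dg d (A (e P))) K = _
  rw [dg_apply]; rfl

/-- Torus data: base frequency `h`, a length function with a Diophantine lower bound. -/
structure Tor extends Len where
  h : ℝ
  hpos : 0 < h
  a : ℝ
  apos : 0 < a
  b : ℕ
  dio : ∀ k : ℤ, k ≠ 0 → a ≤ h * |(k : ℝ)| * (ℓ k : ℝ) ^ b

/-- `[Λ, A] = G` entrywise. -/
def Ad (Λ : ℕ → ℂ) (A G : Hs →L[ℂ] Hs) : Prop := ∀ K P, (Λ K - Λ P) * ent A K P = ent G K P

lemma Ad.mul {Λ : ℕ → ℂ} {A B G H : Hs →L[ℂ] Hs} (hA : Ad Λ A G) (hB : Ad Λ B H) :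
    Ad Λ (A * B) (G * B + A * H) := by
  intro K P
  have h1 := (hasSum_ent_mul A B K P).mul_left (Λ K - Λ P)
  have h2 := (hasSum_ent_mul G B K P).add (hasSum_ent_mul A H K P)
  have h3 : (fun Q => (Λ K - Λ P) * (ent A K Q * ent B Q P))
      = fun Q => ent G K Q * ent B Q P + ent A K Q * ent H Q P := by
    funext Q
    rw [← hA K Q, ← hB Q P]; ring
  rw [h3] at h1
  rw [ent_add]
  exact h1.unique h2

lemma Ad.one_add {Λ : ℕ → ℂ} {A G : Hs →L[ℂ] Hs} (hA : Ad Λ A G) : Ad Λ (1 + A) G := by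
  intro K P
  rw [ent_add, mul_add, hA K P, ent_one]
  split_ifs with h
  · subst h; simp
  · simp

end BO
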