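import Pool.Agent.Helper3.BO.NLdef

open scoped ENNReal NNReal Topology
open Filter Set

namespace BO

/-- length function on a group of modes with frequency bound -/
structure Modes (G : Type*) [AddCommGroup G] where
  ℓ : G → ℕ
  neg : ∀ k, ℓ (-k) = ℓ k
  add_le : ∀ j k, ℓ (j + k) ≤ ℓ j + ℓ k
  ξ : G → ℝ
  ξ_neg : ∀ k, ξ (-k) = - ξ k
  Ω : ℝ
  Ω0 : 0 ≤ Ω
  hξ : ∀ k, |ξ k| ≤ Ω * ℓ k
  summ : ∀ σ : ℝ, 0 < σ → Summable fun k => Real.exp (-(σ * ℓ k))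

variable {G : Type*} [AddCommGroup G] (M : Modes G)

namespace Modes

/-- dispersion phase -/
noncomputable def θ (k : G) : ℝ := M.ξ k * |M.ξ k|

lemma θ_neg (k : G) : M.θ (-k) = - M.θ k := by
  unfold θ; rw [M.ξ_neg, abs_neg]; ring

/-- the exponential sum -/
noncomputable def S (σ : ℝ) : ℝ := ∑' k, Real.exp (-(σ * M.ℓ k))

lemma S_nonneg (σ : ℝ) : 0 ≤ M.S σ := tsum_nonneg fun _ => (Real.exp_pos _).le

lemma le_add (k m : G) : M.ℓ k ≤ M.ℓ m + M.ℓ (k - m) := by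
  have := M.add_le m (k - m)
  rwa [add_sub_cancel] at this

lemma exp_split {σ : ℝ} (hσ : 0 ≤ σ) (k m : G) :
    Real.exp (-(σ * M.ℓ m)) * Real.exp (-(σ * M.ℓ (k - m))) ≤
      Real.exp (-(σ / 2 * M.ℓ k)) * Real.exp (-(σ / 2 * M.ℓ m)) := by
  rw [← Real.exp_add, ← Real.exp_add]
  apply Real.exp_le_exp.mpr
  have h1 : (M.ℓ k : ℝ) ≤ M.ℓ m + M.ℓ (k - m) := by exact_mod_cast M.le_add k m
  have h2 : (0 : ℝ) ≤ M.ℓ (k - m) := by positivity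
  nlinarith

lemma conv_summable {σ A : ℝ} (hσ : 0 < σ) (hA : 0 ≤ A) {v w : G → ℂ}
    (hv : ∀ k, ‖v k‖ ≤ A * Real.exp (-(σ * M.ℓ k))) (hw : ∀ k, ‖w k‖ ≤ A * Real.exp (-(σ * M.ℓ k))) (k : G) :
    Summable fun m => ‖v m * w (k - m)‖ := by
  apply Summable.of_nonneg_of_le (fun _ => norm_nonneg _) (fun m => _)
    ((M.summ (σ / 2) (by positivity)).mul_left (A * A * Real.exp (-(σ / 2 * M.ℓ k))))
  intro m
  rw [norm_mul]
  calc ‖v m‖ * ‖w (k - m)‖ ≤ (A * Real.exp (-(σ * M.ℓ m))) * (A * Real.exp (-(σ * M.ℓ (k - m)))) :=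
        mul_le_mul (hv m) (hw _) (norm_nonneg _) (by positivity)
    _ = A * A * (Real.exp (-(σ * M.ℓ m)) * Real.exp (-(σ * M.ℓ (k - m)))) := by ring
    _ ≤ A * A * (Real.exp (-(σ / 2 * M.ℓ k)) * Real.exp (-(σ / 2 * M.ℓ m))) :=
        mul_le_mul_of_nonneg_left (M.exp_split hσ.le k m) (by positivity)
    _ = _ := by ring

lemma conv_bound {σ A : ℝ} (hσ : 0 < σ) (hA : 0 ≤ A) {v w : G → ℂ}
    (hv : ∀ k, ‖v k‖ ≤ A * Real.exp (-(σ * M.ℓ k))) (hw : ∀ k, ‖w k‖ ≤ A * Real.exp (-(σ * M.ℓ k))) (k : G) :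
    ‖∑' m, v m * w (k - m)‖ ≤ A * A * M.S (σ / 2) * Real.exp (-(σ / 2 * M.ℓ k)) := by
  have hs := M.conv_summable hσ hA hv hw k
  refine (norm_tsum_le_tsum_norm hs).trans ?_
  have h1 : ∀ m, ‖v m * w (k - m)‖ ≤ (A * A * Real.exp (-(σ / 2 * M.ℓ k))) * Real.exp (-(σ / 2 * M.ℓ m)) := by
    intro m
    rw [norm_mul]
    calc ‖v m‖ * ‖w (k - m)‖ ≤ (A * Real.exp (-(σ * M.ℓ m))) * (A * Real.exp (-(σ * M.ℓ (k - m)))) :=
          mul_le_mul (hv m) (hw _) (norm_nonneg _) (by positivity)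
      _ = A * A * (Real.exp (-(σ * M.ℓ m)) * Real.exp (-(σ * M.ℓ (k - m)))) := by ring
      _ ≤ A * A * (Real.exp (-(σ / 2 * M.ℓ k)) * Real.exp (-(σ / 2 * M.ℓ m))) :=
          mul_le_mul_of_nonneg_left (M.exp_split hσ.le k m) (by positivity)
      _ = _ := by ring
  calc ∑' m, ‖v m * w (k - m)‖
      ≤ ∑' m, (A * A * Real.exp (-(σ / 2 * M.ℓ k))) * Real.exp (-(σ / 2 * M.ℓ m)) :=
        hs.tsum_le_tsum h1 ((M.summ (σ / 2) (by positivity)).mul_left _)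
    _ = _ := by rw [tsum_mul_left]; unfold S; ring

/-- the constant of the majorant -/
noncomputable def cM (σ A : ℝ) : ℝ :=
  A + M.Ω ^ 2 * A * (2 * (4 / σ) ^ 2) + M.Ω * (4 / σ) * (A * A * M.S (σ / 2))

lemma lin_exp {σ : ℝ} (hσ : 0 < σ) (n : ℕ) :
    (n : ℝ) * Real.exp (-(σ / 2 * n)) ≤ 4 / σ * Real.exp (-(σ / 4 * n)) := by
  have h1 : σ / 4 * n ≤ Real.exp (σ / 4 * n) := by
    have := Real.add_one_le_exp (σ / 4 * (n : ℝ)); linarith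
  have h2 : Real.exp (-(σ / 4 * n)) = Real.exp (σ / 4 * n) * Real.exp (-(σ / 2 * n)) := by
    rw [← Real.exp_add]; congr 1; ring
  rw [h2]
  calc (n : ℝ) * Real.exp (-(σ / 2 * n)) = 4 / σ * ((σ / 4 * n) * Real.exp (-(σ / 2 * n))) := by
        field_simp
    _ ≤ 4 / σ * (Real.exp (σ / 4 * n) * Real.exp (-(σ / 2 * n))) := by gcongr

lemma sq_exp {σ : ℝ} (hσ : 0 < σ) (n : ℕ) :
    (n : ℝ) ^ 2 * Real.exp (-(σ * n)) ≤ 2 * (4 / σ) ^ 2 * Real.exp (-(σ / 4 * n)) := by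
  have h1 : (σ / 4 * (n : ℝ)) ^ 2 / Nat.factorial 2 ≤ Real.exp (σ / 4 * n) :=
    Real.pow_div_factorial_le_exp _ (by positivity) _
  have h2 : Real.exp (-(σ / 4 * n)) = Real.exp (σ / 4 * n) * Real.exp (-(σ / 2 * n)) := by
    rw [← Real.exp_add]; congr 1; ring
  have h3 : Real.exp (-(σ * n)) ≤ Real.exp (-(σ / 2 * n)) := by
    apply Real.exp_le_exp.mpr
    have : (0 : ℝ) ≤ σ * n := by positivity
    nlinarith
  have h4 : (Nat.factorial 2 : ℝ) = 2 := by norm_num [Nat.factorial]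
  rw [h4] at h1
  rw [h2]
  calc (n : ℝ) ^ 2 * Real.exp (-(σ * n)) ≤ (n : ℝ) ^ 2 * Real.exp (-(σ / 2 * n)) := by gcongr
    _ = 2 * (4 / σ) ^ 2 * (((σ / 4 * (n : ℝ)) ^ 2 / 2) * Real.exp (-(σ / 2 * n))) := by
        field_simp
    _ ≤ _ := by
        rw [← mul_assoc] 
        rw [← mul_assoc]
        gcongr

lemma NL_bound {σ A : ℝ} (hσ : 0 < σ) (hA : 0 ≤ A) {v : G → ℂ}
    (hv : ∀ k, ‖v k‖ ≤ A * Real.exp (-(σ * M.ℓ k))) (k : G) :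
    ‖v k‖ ≤ M.cM σ A * Real.exp (-(σ / 4 * M.ℓ k)) ∧
    M.ξ k ^ 2 * ‖v k‖ ≤ M.cM σ A * Real.exp (-(σ / 4 * M.ℓ k)) ∧
    ‖NL M.ξ v k‖ ≤ M.cM σ A * Real.exp (-(σ / 4 * M.ℓ k)) := by
  have hΩ := M.Ω0
  have hS := M.S_nonneg (σ / 2)
  have e1 : ‖v k‖ ≤ A * Real.exp (-(σ / 4 * M.ℓ k)) := by
    refine (hv k).trans ?_
    gcongr
    linarith
  have e2 : M.ξ k ^ 2 * ‖v k‖ ≤ M.Ω ^ 2 * A * (2 * (4 / σ) ^ 2) * Real.exp (-(σ / 4 * M.ℓ k)) := by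
    have h1 : M.ξ k ^ 2 ≤ (M.Ω * M.ℓ k) ^ 2 := by
      rw [← sq_abs]; gcongr; exact M.hξ k
    calc M.ξ k ^ 2 * ‖v k‖ ≤ (M.Ω * M.ℓ k) ^ 2 * (A * Real.exp (-(σ * M.ℓ k))) := by
          gcongr; exact hv k
      _ = M.Ω ^ 2 * A * ((M.ℓ k : ℝ) ^ 2 * Real.exp (-(σ * M.ℓ k))) := by ring
      _ ≤ M.Ω ^ 2 * A * (2 * (4 / σ) ^ 2 * Real.exp (-(σ / 4 * M.ℓ k))) :=
          mul_le_mul_of_nonneg_left (sq_exp hσ _) (by positivity)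
      _ = _ := by ring
  have e3 : |M.ξ k| * ‖∑' m, v m * v (k - m)‖
      ≤ M.Ω * (4 / σ) * (A * A * M.S (σ / 2)) * Real.exp (-(σ / 4 * M.ℓ k)) := by
    calc |M.ξ k| * ‖∑' m, v m * v (k - m)‖
        ≤ (M.Ω * M.ℓ k) * (A * A * M.S (σ / 2) * Real.exp (-(σ / 2 * M.ℓ k))) := by
          gcongr
          · exact M.hξ k
          · exact M.conv_bound hσ hA hv hv k
      _ = M.Ω * (A * A * M.S (σ / 2)) * (M.ℓ k * Real.exp (-(σ / 2 * M.ℓ k))) := by ring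
      _ ≤ M.Ω * (A * A * M.S (σ / 2)) * (4 / σ * Real.exp (-(σ / 4 * M.ℓ k))) :=
          mul_le_mul_of_nonneg_left (lin_exp hσ _) (by positivity)
      _ = _ := by ring
  have p1 : 0 ≤ A * Real.exp (-(σ / 4 * M.ℓ k)) := by positivity
  have p2 : 0 ≤ M.Ω ^ 2 * A * (2 * (4 / σ) ^ 2) * Real.exp (-(σ / 4 * M.ℓ k)) := by positivity
  have p3 : 0 ≤ M.Ω * (4 / σ) * (A * A * M.S (σ / 2)) * Real.exp (-(σ / 4 * M.ℓ k)) := by positivity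
  have hc : M.cM σ A * Real.exp (-(σ / 4 * M.ℓ k)) = A * Real.exp (-(σ / 4 * M.ℓ k))
      + M.Ω ^ 2 * A * (2 * (4 / σ) ^ 2) * Real.exp (-(σ / 4 * M.ℓ k))
      + M.Ω * (4 / σ) * (A * A * M.S (σ / 2)) * Real.exp (-(σ / 4 * M.ℓ k)) := by
    unfold cM; ring
  rw [hc]
  refine ⟨by linarith, by linarith, ?_⟩
  unfold NL
  refine (norm_sub_le _ _).trans ?_
  rw [norm_mul, norm_mul, norm_mul, norm_mul, Complex.norm_I, one_mul, one_mul, Complex.norm_real,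
    Complex.norm_real, Real.norm_eq_abs, Real.norm_eq_abs, abs_mul, abs_abs, abs_mul_abs_self, ← sq]
  linarith

end Modes

end BO
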