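import Pool.Agent.Helper3.BO.Ad
import Pool.Agent.Helper3.BO.Bound

open scoped ENNReal NNReal Topology ComplexConjugate
open Filter Set

namespace BO

variable {ν : ℕ}

/-- the `ℓ¹` norm of an integer vector -/
def nrm (n : Fin ν → ℤ) : ℕ := ∑ j, (n j).natAbs

def dot (n : Fin ν → ℤ) (ω : Fin ν → ℝ) : ℝ := ∑ j, (n j : ℝ) * ω j

def idot (n p : Fin ν → ℤ) : ℤ := ∑ j, n j * p j

lemma nrm_add_le (n m : Fin ν → ℤ) : nrm (n + m) ≤ nrm n + nrm m := by
  unfold nrm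
  rw [← Finset.sum_add_distrib]
  exact Finset.sum_le_sum fun j _ => Int.natAbs_add_le _ _

lemma nrm_neg (n : Fin ν → ℤ) : nrm (-n) = nrm n := by
  unfold nrm; simp

lemma nrm_zero : nrm (0 : Fin ν → ℤ) = 0 := by unfold nrm; simp

lemma nrm_sub_le (n m : Fin ν → ℤ) : nrm (n - m) ≤ nrm n + nrm m := by
  rw [sub_eq_add_neg, ← nrm_neg m]; exact nrm_add_le n (-m)

lemma nrm_pos {n : Fin ν → ℤ} (h : n ≠ 0) : 0 < nrm n := by
  by_contra h1
  apply h
  have h2 : nrm n = 0 := by omega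
  unfold nrm at h2
  rw [Finset.sum_eq_zero_iff] at h2
  funext j
  have := h2 j (Finset.mem_univ j)
  exact Int.natAbs_eq_zero.mp this

lemma dot_neg (n : Fin ν → ℤ) (ω : Fin ν → ℝ) : dot (-n) ω = - dot n ω := by
  unfold dot; simp

lemma dot_add (n m : Fin ν → ℤ) (ω : Fin ν → ℝ) : dot (n + m) ω = dot n ω + dot m ω := by
  unfold dot; rw [← Finset.sum_add_distrib]
  apply Finset.sum_congr rfl; intro j _; push_cast [Pi.add_apply]; ring

lemma dot_sub (n m : Fin ν → ℤ) (ω : Fin ν → ℝ) : dot (n - m) ω = dot n ω - dot m ω := by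
  rw [sub_eq_add_neg, dot_add, dot_neg]; ring

lemma idot_neg (n p : Fin ν → ℤ) : idot (-n) p = - idot n p := by
  unfold idot; simp

lemma idot_add (n m p : Fin ν → ℤ) : idot (n + m) p = idot n p + idot m p := by
  unfold idot; rw [← Finset.sum_add_distrib]
  apply Finset.sum_congr rfl; intro j _; rw [Pi.add_apply]; ring

lemma idot_sub (n m p : Fin ν → ℤ) : idot (n - m) p = idot n p - idot m p := by
  rw [sub_eq_add_neg, idot_add, idot_neg]; ring

lemma idot_zero (p : Fin ν → ℤ) : idot 0 p = 0 := by unfold idot; simp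

/-- `W = ∑ |ω_j|` -/
def Wsum (ω : Fin ν → ℝ) : ℝ := ∑ j, |ω j|

lemma abs_dot_le (n : Fin ν → ℤ) (x : Fin ν → ℝ) {C : ℝ} (hx : ∀ j, |x j| ≤ C) :
    |dot n x| ≤ nrm n * C := by
  unfold dot nrm
  refine (Finset.abs_sum_le_sum_abs _ _).trans ?_
  push_cast
  rw [Finset.sum_mul]
  apply Finset.sum_le_sum
  intro j _
  rw [abs_mul]
  have h1 : |((n j : ℤ) : ℝ)| = ((n j).natAbs : ℝ) := by
    rw [Nat.cast_natAbs, Int.cast_abs]
  rw [h1]
  gcongr
  · exact hx j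

lemma summ_int {σ : ℝ} (hσ : 0 < σ) : Summable fun k : ℤ => Real.exp (-(σ * k.natAbs)) := by
  have h1 : Summable fun n : ℕ => Real.exp (-(σ * n)) := by
    have := Real.summable_exp_nat_mul_iff.mpr (show -σ < 0 by linarith)
    refine this.congr fun n => ?_
    congr 1; ring
  apply Summable.of_nat_of_neg
  · simpa using h1
  · simpa using h1

lemma summ_nrm {σ : ℝ} (hσ : 0 < σ) : ∀ ν : ℕ, Summable fun n : Fin ν → ℤ => Real.exp (-(σ * nrm n)) := by
  intro ν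
  induction ν with
  | zero => exact Summable.of_finite
  | succ ν ih =>
    have h1 := (summ_int hσ).mul_of_nonneg ih (fun _ => (Real.exp_pos _).le) (fun _ => (Real.exp_pos _).le)
    rw [← (Fin.consEquiv (fun _ : Fin (ν + 1) => ℤ)).summable_iff]
    refine h1.congr fun x => ?_
    rw [← Real.exp_add]
    show _ = Real.exp (-(σ * nrm (Fin.cons x.1 x.2 : Fin (ν + 1) → ℤ)))
    congr 1
    unfold nrm
    rw [Fin.sum_univ_succ]
    simp only [Fin.cons_zero, Fin.cons_succ]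
    push_cast; ring

/-- the basic exponential sum, over `ℤ^ν × ℤ` -/
noncomputable def Sb (ν : ℕ) (σ : ℝ) : ℝ :=
  ∑' x : (Fin ν → ℤ) × ℤ, Real.exp (-(σ * (nrm x.1 + x.2.natAbs : ℕ)))

lemma summ_prod {σ : ℝ} (hσ : 0 < σ) (ν : ℕ) :
    Summable fun x : (Fin ν → ℤ) × ℤ => Real.exp (-(σ * (nrm x.1 + x.2.natAbs : ℕ))) := by
  have h1 := (summ_nrm hσ ν).mul_of_nonneg (summ_int hσ) (fun _ => (Real.exp_pos _).le)
    (fun _ => (Real.exp_pos _).le)
  refine h1.congr fun x => ?_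
  rw [← Real.exp_add]
  congr 1; push_cast; ring

lemma Sb_nonneg (ν : ℕ) (σ : ℝ) : 0 ≤ Sb ν σ := tsum_nonneg fun _ => (Real.exp_pos _).le

/-! ### lengths -/

/-- weighted length of a pair `(n, r)` -/
def wl (N : ℕ) (x : (Fin ν → ℤ) × ℤ) : ℕ := nrm x.1 + (N + 1) * x.2.natAbs

def ev2 (p : Fin ν → ℤ) (x : (Fin ν → ℤ) × ℤ) : ℤ := idot x.1 p + x.2

lemma exists_rep (N : ℕ) (p : Fin ν → ℤ) (K : ℤ) :
    ∃ x : (Fin ν → ℤ) × ℤ, ev2 p x = K ∧ ∀ y, ev2 p y = K → wl N x ≤ wl N y := by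
  have hne : {x : (Fin ν → ℤ) × ℤ | ev2 p x = K}.Nonempty := ⟨(0, K), by
    show idot 0 p + K = K
    rw [idot_zero, zero_add]⟩
  exact ⟨Function.argminOn (wl N) _ hne, Function.argminOn_mem (wl N) _ hne,
    fun y hy => Function.argminOn_le (wl N) _ hy⟩

/-- a minimal representative -/
noncomputable def rep (N : ℕ) (p : Fin ν → ℤ) (K : ℤ) : (Fin ν → ℤ) × ℤ := (exists_rep N p K).choose

lemma rep_ev (N : ℕ) (p : Fin ν → ℤ) (K : ℤ) : ev2 p (rep N p K) = K := (exists_rep N p K).choose_spec.1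

lemma rep_min (N : ℕ) (p : Fin ν → ℤ) {K : ℤ} {y : (Fin ν → ℤ) × ℤ} (hy : ev2 p y = K) :
    wl N (rep N p K) ≤ wl N y := (exists_rep N p K).choose_spec.2 y hy

lemma rep_inj (N : ℕ) (p : Fin ν → ℤ) : Function.Injective (rep N p) := by
  intro K K' h
  rw [← rep_ev N p K, h, rep_ev]

/-- the length of `K` -/
noncomputable def len (N : ℕ) (p : Fin ν → ℤ) (K : ℤ) : ℕ := wl N (rep N p K)

lemma len_le (N : ℕ) (p : Fin ν → ℤ) (x : (Fin ν → ℤ) × ℤ) : len N p (ev2 p x) ≤ wl N x :=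
  rep_min N p rfl

lemma len_idot_le (N : ℕ) (p n : Fin ν → ℤ) : len N p (idot n p) ≤ nrm n := by
  have := len_le N p (n, 0)
  simpa [ev2, wl] using this

/-- the length structure on `ℤ` -/
noncomputable def lenL (N : ℕ) (p : Fin ν → ℤ) : Len where
  ℓ := len N p
  zero := by
    have := len_idot_le N p 0
    rw [idot_zero, nrm_zero] at this
    omega
  neg K := by
    have key : ∀ K, len N p (-K) ≤ len N p K := by
      intro K
      have h1 := len_le N p (-(rep N p K).1, -(rep N p K).2)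
      have h2 : ev2 p (-(rep N p K).1, -(rep N p K).2) = -K := by
        have := rep_ev N p K
        unfold ev2 at this ⊢
        rw [idot_neg]; omega
      rw [h2] at h1
      refine h1.trans (le_of_eq ?_)
      unfold len wl
      rw [nrm_neg, Int.natAbs_neg]
    apply le_antisymm (key K)
    have := key (-K)
    rwa [neg_neg] at this
  add_le J K := by
    have h1 := len_le N p ((rep N p J).1 + (rep N p K).1, (rep N p J).2 + (rep N p K).2)
    have h2 : ev2 p ((rep N p J).1 + (rep N p K).1, (rep N p J).2 + (rep N p K).2) = J + K := by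
      have h3 := rep_ev N p J
      have h4 := rep_ev N p K
      unfold ev2 at h3 h4 ⊢
      rw [idot_add]; simp only; omega
    rw [h2] at h1
    refine h1.trans ?_
    unfold len wl
    have h5 := nrm_add_le (rep N p J).1 (rep N p K).1
    have h6 := Int.natAbs_add_le (rep N p J).2 (rep N p K).2
    have h7 : (N + 1) * ((rep N p J).2 + (rep N p K).2).natAbs
        ≤ (N + 1) * ((rep N p J).2.natAbs + (rep N p K).2.natAbs) := Nat.mul_le_mul_left _ h6
    rw [mul_add] at h7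
    dsimp only
    omega

lemma lenL_ℓ (N : ℕ) (p : Fin ν → ℤ) (K : ℤ) : (lenL N p).ℓ K = len N p K := rfl

/-- short elements have a representative without remainder -/
lemma rep_of_len_le {N : ℕ} {p : Fin ν → ℤ} {K : ℤ} (h : len N p K ≤ N) :
    (rep N p K).2 = 0 ∧ idot (rep N p K).1 p = K ∧ nrm (rep N p K).1 = len N p K := by
  have h1 : (rep N p K).2 = 0 := by
    by_contra h2
    have h3 : 1 ≤ (rep N p K).2.natAbs := Int.natAbs_pos.mpr h2
    unfold len wl at h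
    nlinarith
  refine ⟨h1, ?_, ?_⟩
  · have := rep_ev N p K
    unfold ev2 at this
    rw [h1, add_zero] at this
    exact this
  · unfold len wl; rw [h1]; simp

/-- approximation data -/
structure AppData (ω : Fin ν → ℝ) (a0 : ℝ) (b N : ℕ) (Q : ℝ) where
  q : ℕ
  p : Fin ν → ℤ
  hq : 1 ≤ q
  hQ : 1 ≤ Q
  hp : ∀ j, |(q : ℝ) * ω j - p j| ≤ 1 / Q
  hN1 : (N : ℝ) ^ (b + 1) ≤ a0 / 2 * (q * Q)
  hN2 : a0 / 2 * (q * Q) < ((N : ℝ) + 1) ^ (b + 1)

namespace AppData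

variable {ω : Fin ν → ℝ} {a0 : ℝ} {b N : ℕ} {Q : ℝ} (D : AppData ω a0 b N Q)

lemma q_pos : (0 : ℝ) < D.q := by have := D.hq; positivity

lemma dot_approx (n : Fin ν → ℤ) : |(idot n D.p : ℝ) / D.q - dot n ω| ≤ nrm n * (1 / (D.q * Q)) := by
  have hq := D.q_pos
  have hQ := D.hQ
  have h1 : (idot n D.p : ℝ) / D.q - dot n ω = - dot n (fun j => ω j - D.p j / D.q) := by
    unfold idot dot
    push_cast
    rw [Finset.sum_div, ← Finset.sum_sub_distrib, ← Finset.sum_neg_distrib]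
    apply Finset.sum_congr rfl
    intro j _
    ring
  rw [h1, abs_neg]
  apply abs_dot_le
  intro j
  have h2 := D.hp j
  have h3 : ω j - D.p j / D.q = (D.q * ω j - D.p j) / D.q := by field_simp
  rw [h3, abs_div, abs_of_pos hq, div_le_iff₀ hq]
  refine h2.trans (le_of_eq ?_)
  field_simp

lemma dio_p (ha0 : 0 < a0) (hω : ∀ n : Fin ν → ℤ, n ≠ 0 → a0 ≤ |dot n ω| * (nrm n : ℝ) ^ b) {n : Fin ν → ℤ}
    (hn : n ≠ 0) (hnN : nrm n ≤ N) : a0 / 2 ≤ |(idot n D.p : ℝ) / D.q| * (nrm n : ℝ) ^ b := by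
  have h1 := hω n hn
  have h2 := D.dot_approx n
  have hq := D.q_pos
  have hQ := D.hQ
  have h3 : |dot n ω| ≤ |(idot n D.p : ℝ) / D.q| + nrm n * (1 / (D.q * Q)) := by
    have h4 : dot n ω = (idot n D.p : ℝ) / D.q - ((idot n D.p : ℝ) / D.q - dot n ω) := by ring
    calc |dot n ω| = |(idot n D.p : ℝ) / D.q - ((idot n D.p : ℝ) / D.q - dot n ω)| := by rw [← h4]
      _ ≤ _ := (abs_sub _ _).trans (by linarith)
  have h5 : (nrm n : ℝ) * (1 / (D.q * Q)) * (nrm n : ℝ) ^ b ≤ a0 / 2 := by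
    have h6 : (nrm n : ℝ) ^ (b + 1) ≤ (N : ℝ) ^ (b + 1) := by gcongr
    have h7 := h6.trans D.hN1
    calc (nrm n : ℝ) * (1 / (D.q * Q)) * (nrm n : ℝ) ^ b = (nrm n : ℝ) ^ (b + 1) / (D.q * Q) := by
          rw [pow_succ]; ring
      _ ≤ _ := by rw [div_le_iff₀ (by positivity)]; exact h7
  have h8 : |dot n ω| * (nrm n : ℝ) ^ b ≤ (|(idot n D.p : ℝ) / D.q| + nrm n * (1 / (D.q * Q))) * (nrm n : ℝ) ^ b := by
    gcongr
  rw [add_mul] at h8
  linarith

lemma idot_ne (ha0 : 0 < a0) (hω : ∀ n : Fin ν → ℤ, n ≠ 0 → a0 ≤ |dot n ω| * (nrm n : ℝ) ^ b) {n : Fin ν → ℤ}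
    (hn : n ≠ 0) (hnN : nrm n ≤ N) : idot n D.p ≠ 0 := by
  intro h
  have := D.dio_p ha0 hω hn hnN
  rw [h] at this
  simp at this
  linarith

/-- exact length and representative for short vectors -/
lemma rep_idot (ha0 : 0 < a0) (hω : ∀ n : Fin ν → ℤ, n ≠ 0 → a0 ≤ |dot n ω| * (nrm n : ℝ) ^ b) {n : Fin ν → ℤ}
    (hn : 2 * nrm n ≤ N) : rep N D.p (idot n D.p) = (n, 0) := by
  have h1 := len_idot_le N D.p n
  obtain ⟨h2, h3, h4⟩ := rep_of_len_le (N := N) (p := D.p) (K := idot n D.p) (by omega)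
  have h5 : (rep N D.p (idot n D.p)).1 = n := by
    by_contra h6
    have h7 : (rep N D.p (idot n D.p)).1 - n ≠ 0 := sub_ne_zero.mpr h6
    have h8 := nrm_sub_le (rep N D.p (idot n D.p)).1 n
    have h9 := D.idot_ne ha0 hω h7 (by omega)
    apply h9
    rw [idot_sub, h3, sub_self]
  exact Prod.ext h5 h2

lemma len_idot (ha0 : 0 < a0) (hω : ∀ n : Fin ν → ℤ, n ≠ 0 → a0 ≤ |dot n ω| * (nrm n : ℝ) ^ b) {n : Fin ν → ℤ}
    (hn : 2 * nrm n ≤ N) : len N D.p (idot n D.p) = nrm n := by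
  unfold len
  rw [D.rep_idot ha0 hω hn]
  simp [wl]

/-- the torus data attached to an approximation -/
noncomputable def tor (ha0 : 0 < a0) (hω : ∀ n : Fin ν → ℤ, n ≠ 0 → a0 ≤ |dot n ω| * (nrm n : ℝ) ^ b) : Tor where
  toLen := lenL N D.p
  h := 1 / D.q
  hpos := by have := D.q_pos; positivity
  a := a0 / 2
  apos := by positivity
  b := b + 1
  dio := by
    intro K hK
    have hq := D.q_pos
    show a0 / 2 ≤ 1 / (D.q : ℝ) * |(K : ℝ)| * (len N D.p K : ℝ) ^ (b + 1)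
    rcases le_or_gt (len N D.p K) N with h | h
    · obtain ⟨h2, h3, h4⟩ := rep_of_len_le h
      set n := (rep N D.p K).1 with hn
      have hn0 : n ≠ 0 := by
        intro h0; rw [h0, idot_zero] at h3; exact hK h3.symm
      have h5 := D.dio_p ha0 hω hn0 (by omega)
      have h6 := nrm_pos hn0
      have h7 : (1 : ℝ) ≤ nrm n := by exact_mod_cast h6
      rw [← h4, ← h3]
      have h8 : |(idot n D.p : ℝ) / D.q| = 1 / (D.q : ℝ) * |(idot n D.p : ℝ)| := by
        rw [abs_div, abs_of_pos hq]; ring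
      rw [h8] at h5
      calc a0 / 2 ≤ 1 / (D.q : ℝ) * |(idot n D.p : ℝ)| * (nrm n : ℝ) ^ b := h5
        _ = 1 / (D.q : ℝ) * |(idot n D.p : ℝ)| * (nrm n : ℝ) ^ b * 1 := (mul_one _).symm
        _ ≤ 1 / (D.q : ℝ) * |(idot n D.p : ℝ)| * (nrm n : ℝ) ^ b * nrm n := by gcongr
        _ = _ := by rw [pow_succ]; ring
    · have h1 : (1 : ℝ) ≤ |(K : ℝ)| := by
        have : 1 ≤ |K| := Int.one_le_abs hK
        exact_mod_cast this
      have h2 : ((N : ℝ) + 1) ^ (b + 1) ≤ (len N D.p K : ℝ) ^ (b + 1) := by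
        gcongr; exact_mod_cast h
      have h3 := D.hN2.le.trans h2
      have hQ := D.hQ
      calc a0 / 2 ≤ a0 / 2 * Q := by nlinarith
        _ = 1 / (D.q : ℝ) * 1 * (a0 / 2 * (D.q * Q)) := by field_simp
        _ ≤ 1 / (D.q : ℝ) * |(K : ℝ)| * (len N D.p K : ℝ) ^ (b + 1) := by gcongr

lemma len_summ {σ : ℝ} (hσ : 0 < σ) (N : ℕ) (p : Fin ν → ℤ) :
    Summable (fun K => Real.exp (-(σ * len N p K))) ∧ ∑' K, Real.exp (-(σ * len N p K)) ≤ Sb ν σ := by
  have h1 := (summ_prod hσ ν).comp_injective (rep_inj N p)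
  have h2 : ∀ K, Real.exp (-(σ * len N p K)) ≤
      ((fun x : (Fin ν → ℤ) × ℤ => Real.exp (-(σ * (nrm x.1 + x.2.natAbs : ℕ)))) ∘ rep N p) K := by
    intro K
    apply Real.exp_le_exp.mpr
    unfold len wl
    have h3 : nrm (rep N p K).1 + (rep N p K).2.natAbs ≤ nrm (rep N p K).1 + (N + 1) * (rep N p K).2.natAbs := by
      have : (rep N p K).2.natAbs ≤ (N + 1) * (rep N p K).2.natAbs := Nat.le_mul_of_pos_left _ (by omega)
      omega
    have h4 : ((nrm (rep N p K).1 + (rep N p K).2.natAbs : ℕ) : ℝ)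
        ≤ ((nrm (rep N p K).1 + (N + 1) * (rep N p K).2.natAbs : ℕ) : ℝ) := by exact_mod_cast h3
    have := mul_le_mul_of_nonneg_left h4 hσ.le
    linarith
  have h3 := Summable.of_nonneg_of_le (fun _ => (Real.exp_pos _).le) h2 h1
  refine ⟨h3, (h3.tsum_le_tsum h2 h1).trans ?_⟩
  exact tsum_comp_le_tsum_of_inj (summ_prod hσ ν) (fun _ => (Real.exp_pos _).le) (rep_inj N p)

/-- the modes attached to an approximation -/
noncomputable def modes : Modes ℤ where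
  ℓ := len N D.p
  neg := (lenL N D.p).neg
  add_le := (lenL N D.p).add_le
  ξ := fun k => 1 / (D.q : ℝ) * k
  ξ_neg := by intro k; push_cast; ring
  Ω := Wsum ω + 1
  Ω0 := by unfold Wsum; positivity
  hξ := by
    intro K
    have hq := D.q_pos
    have hW : 0 ≤ Wsum ω := by unfold Wsum; positivity
    have h1 := rep_ev N D.p K
    set x := rep N D.p K with hx
    have h2 : (K : ℝ) = idot x.1 D.p + x.2 := by rw [← h1]; unfold ev2; push_cast; ring
    have h3 : |(idot x.1 D.p : ℝ) / D.q| ≤ nrm x.1 * (Wsum ω + 1) := by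
      have h4 : (idot x.1 D.p : ℝ) / D.q = dot x.1 (fun j => (D.p j : ℝ) / D.q) := by
        unfold idot dot; push_cast; rw [Finset.sum_div]
        apply Finset.sum_congr rfl; intro j _; ring
      rw [h4]
      apply abs_dot_le
      intro j
      have h5 := D.hp j
      have hQ := D.hQ
      have h6 : |ω j| ≤ Wsum ω := Finset.single_le_sum (f := fun j => |ω j|) (fun _ _ => abs_nonneg _) (Finset.mem_univ j)
      have h7 : (D.p j : ℝ) / D.q = ω j - (D.q * ω j - D.p j) / D.q := by field_simp; ring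
      rw [h7]
      refine (abs_sub _ _).trans ?_
      rw [abs_div, abs_of_pos hq]
      have h8 : |(D.q : ℝ) * ω j - D.p j| / D.q ≤ 1 := by
        rw [div_le_one hq]
        have h9 : 1 / Q ≤ 1 := by rw [div_le_one (by linarith)]; exact hQ
        have h10 : (1 : ℝ) ≤ D.q := by exact_mod_cast D.hq
        linarith
      linarith
    have h4 : |(x.2 : ℝ) / D.q| ≤ (N + 1) * x.2.natAbs * (Wsum ω + 1) := by
      rw [abs_div, abs_of_pos hq]
      have h5 : |(x.2 : ℝ)| = x.2.natAbs := by rw [Nat.cast_natAbs, Int.cast_abs]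
      rw [h5]
      have h10 : (1 : ℝ) ≤ D.q := by exact_mod_cast D.hq
      have h11 : (x.2.natAbs : ℝ) / D.q ≤ x.2.natAbs := div_le_self (by positivity) h10
      have h12 : (0 : ℝ) ≤ x.2.natAbs := by positivity
      have h13 : (0 : ℝ) ≤ N := by positivity
      have h14 : (x.2.natAbs : ℝ) * 1 ≤ (x.2.natAbs : ℝ) * ((N + 1) * (Wsum ω + 1)) := by
        gcongr
        nlinarith [mul_nonneg h13 hW]
      linarith
    have h5 : 1 / (D.q : ℝ) * K = (idot x.1 D.p : ℝ) / D.q + (x.2 : ℝ) / D.q := by rw [h2]; ring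
    rw [h5]
    refine (abs_add_le _ _).trans ?_
    have h6 : (len N D.p K : ℝ) = nrm x.1 + (N + 1) * x.2.natAbs := by
      unfold len wl; rw [← hx]; push_cast; ring
    rw [h6]
    linarith
  summ := fun σ hσ => (len_summ hσ N D.p).1

end AppData

/-- simultaneous Dirichlet approximation (qualitative) -/
lemma dirichlet (ω : Fin ν → ℝ) (j : ℕ) (hj : 1 ≤ j) :
    ∃ (q : ℕ) (p : Fin ν → ℤ), 1 ≤ q ∧ ∀ i, |(q : ℝ) * ω i - p i| ≤ 1 / (j : ℝ) := by
  have hj0 : (0 : ℝ) < j := by positivity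
  have hfl : ∀ x : ℝ, (⌊(j : ℝ) * Int.fract x⌋).toNat < j := by
    intro x
    have h1 : 0 ≤ (j : ℝ) * Int.fract x := mul_nonneg hj0.le (Int.fract_nonneg x)
    have h2 : (j : ℝ) * Int.fract x < j := by
      have := Int.fract_lt_one x; nlinarith
    have h3 : ⌊(j : ℝ) * Int.fract x⌋ < j := by rw [Int.floor_lt]; exact_mod_cast h2
    have h4 : 0 ≤ ⌊(j : ℝ) * Int.fract x⌋ := Int.floor_nonneg.mpr h1
    omega
  let f : ℕ → (Fin ν → Fin j) := fun m i => ⟨(⌊(j : ℝ) * Int.fract ((m : ℝ) * ω i)⌋).toNat, hfl _⟩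
  obtain ⟨m, m', hne, hf⟩ := Finite.exists_ne_map_eq_of_infinite f
  wlog hlt : m < m' generalizing m m'
  · exact this m' m hne.symm hf.symm (by omega)
  refine ⟨m' - m, fun i => ⌊(m' : ℝ) * ω i⌋ - ⌊(m : ℝ) * ω i⌋, by omega, ?_⟩
  intro i
  have h1 := congrFun hf i
  simp only [f, Fin.mk.injEq] at h1
  have h2 : 0 ≤ ⌊(j : ℝ) * Int.fract ((m : ℝ) * ω i)⌋ :=
    Int.floor_nonneg.mpr (mul_nonneg hj0.le (Int.fract_nonneg _))
  have h3 : 0 ≤ ⌊(j : ℝ) * Int.fract ((m' : ℝ) * ω i)⌋ :=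
    Int.floor_nonneg.mpr (mul_nonneg hj0.le (Int.fract_nonneg _))
  have h4 : ⌊(j : ℝ) * Int.fract ((m : ℝ) * ω i)⌋ = ⌊(j : ℝ) * Int.fract ((m' : ℝ) * ω i)⌋ := by omega
  have h5 := Int.abs_sub_lt_one_of_floor_eq_floor h4
  have h6 : ((m' - m : ℕ) : ℝ) * ω i - ((⌊(m' : ℝ) * ω i⌋ - ⌊(m : ℝ) * ω i⌋ : ℤ) : ℝ)
      = -(Int.fract ((m : ℝ) * ω i) - Int.fract ((m' : ℝ) * ω i)) := by
    rw [Nat.cast_sub hlt.le]
    unfold Int.fract
    push_cast; ring
  rw [h6, abs_neg, le_div_iff₀ hj0]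
  rw [← mul_sub, abs_mul, abs_of_pos hj0] at h5
  linarith

lemma exists_app (ω : Fin ν → ℝ) {a0 : ℝ} (ha0 : 0 < a0) (b : ℕ) (j : ℕ) :
    ∃ N, Nonempty (AppData ω a0 b N ((j + 1 : ℕ) : ℝ)) ∧ a0 / 2 * ((j + 1 : ℕ) : ℝ) < ((N : ℝ) + 1) ^ (b + 1) := by
  classical
  obtain ⟨q, p, hq, hp⟩ := dirichlet ω (j + 1) (by omega)
  set Q : ℝ := ((j + 1 : ℕ) : ℝ) with hQ
  have hQ1 : 1 ≤ Q := by rw [hQ]; push_cast; linarith [(Nat.cast_nonneg j : (0:ℝ) ≤ j)]
  have hq1 : (1 : ℝ) ≤ q := by exact_mod_cast hq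
  set x : ℝ := a0 / 2 * (q * Q) with hx
  have hx0 : 0 < x := by positivity
  have hex : ∃ n : ℕ, x < ((n : ℝ) + 1) ^ (b + 1) := by
    obtain ⟨n, hn⟩ := exists_nat_gt x
    refine ⟨n, lt_of_lt_of_le hn ?_⟩
    have h1 : (1 : ℝ) ≤ (n : ℝ) + 1 := by linarith [(Nat.cast_nonneg n : (0:ℝ) ≤ n)]
    have h2 : ((n : ℝ) + 1) ^ 1 ≤ ((n : ℝ) + 1) ^ (b + 1) := pow_le_pow_right₀ h1 (by omega)
    rw [pow_one] at h2
    linarith
  refine ⟨Nat.find hex, ⟨⟨q, p, hq, hQ1, hp, ?_, Nat.find_spec hex⟩⟩, ?_⟩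
  · rcases Nat.eq_zero_or_pos (Nat.find hex) with h | h
    · rw [h]; simp; positivity
    · have h1 := Nat.find_min hex (m := Nat.find hex - 1) (by omega)
      rw [not_lt] at h1
      have h2 : (((Nat.find hex - 1 : ℕ) : ℝ) + 1) = (Nat.find hex : ℝ) := by
        rw [Nat.cast_sub h]; push_cast; ring
      rw [h2] at h1
      exact h1
  · refine lt_of_le_of_lt ?_ (Nat.find_spec hex)
    rw [hx]
    have : 1 * Q ≤ q * Q := by gcongr
    nlinarith

/-- A sequence of approximations. -/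
lemma exists_app_seq (ω : Fin ν → ℝ) {a0 : ℝ} (ha0 : 0 < a0) (b : ℕ) :
    ∃ (N : ℕ → ℕ) (_ : ∀ j : ℕ, AppData ω a0 b (N j) ((j + 1 : ℕ) : ℝ)), Tendsto N atTop atTop := by
  choose N hN hN2 using exists_app ω ha0 b
  refine ⟨N, fun j => (hN j).some, ?_⟩
  rw [tendsto_atTop]
  intro M
  obtain ⟨J, hJ⟩ := exists_nat_gt (((M : ℝ)) ^ (b + 1) / (a0 / 2))
  filter_upwards [eventually_ge_atTop J] with j hj
  by_contra hlt
  rw [not_le] at hlt
  have h1 := hN2 j
  have h2 : ((N j : ℝ) + 1) ^ (b + 1) ≤ (M : ℝ) ^ (b + 1) := by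
    gcongr
    exact_mod_cast hlt
  rw [div_lt_iff₀ (by positivity)] at hJ
  have h3 : (J : ℝ) ≤ ((j + 1 : ℕ) : ℝ) := by push_cast; have : (J : ℝ) ≤ j := by exact_mod_cast hj
                                              linarith
  have h4 : (J : ℝ) * (a0 / 2) ≤ ((j + 1 : ℕ) : ℝ) * (a0 / 2) := by gcongr
  linarith

end BO
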