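import Pool.Agent.Helper3.BO.Lax

open scoped ENNReal NNReal lp ComplexConjugate Topology
open Filter Set

namespace BO

open scoped ComplexInnerProductSpace

/-- solution on the torus -/
structure TSol (h : ℝ) (t0 t1 : ℝ) (v : ℝ → ℤ → ℂ) : Prop where
  real : ∀ t ∈ Icc t0 t1, ∀ k, v t (-k) = conj (v t k)
  ode : ∀ t ∈ Icc t0 t1, ∀ k,
    HasDerivWithinAt (fun s => v s k) (NL (fun k : ℤ => h * k) (v t) k) (Icc t0 t1) t
  maj : ∃ u : ℤ → ℝ, Summable u ∧ ∀ t ∈ Icc t0 t1, ∀ k, ‖v t k‖ ≤ u k ∧ (h * k) ^ 2 * ‖v t k‖ ≤ u k ∧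
    ‖NL (fun k : ℤ => h * k) (v t) k‖ ≤ u k

lemma TSol.mono {h t0 t1 : ℝ} {v : ℝ → ℤ → ℂ} (hv : TSol h t0 t1 v) {s0 s1 : ℝ}
    (hs : Icc s0 s1 ⊆ Icc t0 t1) : TSol h s0 s1 v := by
  refine ⟨fun t ht => hv.real t (hs ht), fun t ht k => (hv.ode t (hs ht) k).mono hs, ?_⟩
  obtain ⟨u, hu, hb⟩ := hv.maj
  exact ⟨u, hu, fun t ht => hb t (hs ht)⟩

lemma sy_bound {h : ℝ} {v : ℤ → ℂ} {k : ℤ} {c : ℝ} (h1 : ‖v k‖ ≤ c) (h2 : (h * k) ^ 2 * ‖v k‖ ≤ c) :
    ‖sy1 h v k‖ ≤ c ∧ ‖syA h v k‖ ≤ c ∧ ‖sy2 h v k‖ ≤ c := by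
  have h3 : |h * k| * ‖v k‖ ≤ c := by
    rcases le_total |h * k| 1 with h4 | h4
    · calc _ ≤ 1 * ‖v k‖ := by gcongr
        _ ≤ c := by rw [one_mul]; exact h1
    · have h5 : |h * k| ≤ (h * k) ^ 2 := by rw [← sq_abs]; nlinarith
      exact (mul_le_mul_of_nonneg_right h5 (norm_nonneg _)).trans h2
  refine ⟨?_, ?_, ?_⟩
  · unfold sy1; rw [norm_mul, Complex.norm_real, Real.norm_eq_abs, abs_abs]; exact h3
  · unfold syA; rw [norm_mul, Complex.norm_real, Real.norm_eq_abs]; exact h3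
  · unfold sy2; rw [norm_mul, Complex.norm_real, Real.norm_eq_abs, abs_mul, abs_abs, abs_mul_abs_self, ← sq]
    exact h2

lemma Sm.of_bound {h : ℝ} {v : ℤ → ℂ} {u : ℤ → ℝ} (hu : Summable u)
    (hb : ∀ k, ‖v k‖ ≤ u k ∧ (h * k) ^ 2 * ‖v k‖ ≤ u k) : Sm h v := by
  refine ⟨?_, ?_, ?_, ?_⟩
  · exact Summable.of_nonneg_of_le (fun _ => norm_nonneg _) (fun k => (hb k).1) hu
  · exact Summable.of_nonneg_of_le (fun _ => norm_nonneg _) (fun k => (sy_bound (hb k).1 (hb k).2).1) hu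
  · exact Summable.of_nonneg_of_le (fun _ => norm_nonneg _) (fun k => (sy_bound (hb k).1 (hb k).2).2.1) hu
  · exact Summable.of_nonneg_of_le (fun _ => norm_nonneg _) (fun k => (sy_bound (hb k).1 (hb k).2).2.2) hu

lemma real_sy1 {h : ℝ} {v : ℤ → ℂ} (hr : ∀ k, v (-k) = conj (v k)) (k : ℤ) :
    sy1 h v (-k) = conj (sy1 h v k) := by
  unfold sy1
  rw [hr, map_mul, Complex.conj_ofReal]
  push_cast
  rw [mul_neg, abs_neg]

lemma skew_B {h : ℝ} {v : ℤ → ℂ} (hv : Sm h v) (hr : ∀ k, v (-k) = conj (v k)) (f g : Hs) :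
    ⟪Bo h v f, g⟫ = - ⟪f, Bo h v g⟫ := by
  have h1 := Tp_sym hv.s0 hr
  have h2 := Tp_sym hv.s1 (real_sy1 hr)
  have e : ∀ f : Hs, Bo h v f = Complex.I • (Tp (sy1 h v) f - Tp v (Tp v f)) := fun f => rfl
  rw [e, e, inner_smul_left, inner_smul_right, inner_sub_left, inner_sub_right, h2 f g,
    h1 (Tp v f) g, h1 f (Tp v g), Complex.conj_I]
  ring

section alg
variable {h : ℝ} {v : ℤ → ℂ} {f g : Hs} {μ lam : ℝ}

lemma eig_zero {A : Hs →L[ℂ] Hs} (hf : IsEig h A (lam : ℂ) f) : (A f) 0 = -((lam : ℂ) * f 0) := by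
  have := hf 0
  simp at this
  linear_combination (-1 : ℂ) * this

/-- action of `B` on the zeroth coefficient of an eigenvector -/
lemma B_zero (hh : 0 < h) (hv : Sm h v) (hf : IsEig h (Tp v) (lam : ℂ) f) :
    (Bo h v f) 0 = Complex.I * ((-(lam ^ 2) : ℝ) : ℂ) * f 0 := by
  have e : (Bo h v f) 0 = Complex.I * ((Tp (sy1 h v) f) 0 - (Tp v (Tp v f)) 0) := rfl
  have h1 := hasSum_apply (Tp (sy1 h v)) f 0
  have h2 := hasSum_apply (Tp v) ((lam : ℂ) • f + Tp v f) 0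
  have h3 : (fun P => ent (Tp (sy1 h v)) 0 P * f P) = fun P => ent (Tp v) 0 P * ((lam : ℂ) • f + Tp v f) P := by
    funext P
    rw [hf.isD P, ent_Tp hv.s1, ent_Tp hv.s0]
    unfold sy1
    have : |h * (((0 : ℕ) : ℤ) - (P : ℤ) : ℤ)| = h * P := by
      push_cast
      rw [zero_sub, mul_neg, abs_neg, abs_of_nonneg (by positivity)]
    rw [this]; ring
  rw [h3] at h1
  have h4 := h1.unique h2
  rw [e, h4, map_add, map_smul]
  have h5 : ((lam : ℂ) • Tp v f + Tp v (Tp v f)) 0 = (lam : ℂ) * (Tp v f) 0 + (Tp v (Tp v f)) 0 := rfl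
  rw [h5, eig_zero hf]
  push_cast; ring

/-- `a`-vector of a symbol : `n ↦ g (n+1)` -/
noncomputable def av (g : ℤ → ℂ) : Hs := Sh (-1) (Tp g (e 0))

lemma Sh_neg_apply (f : Hs) (n : ℕ) : (Sh (-1) f) n = f (n + 1) := by
  rw [Sh_apply, if_pos (by omega)]; congr 1

lemma av_apply {g : ℤ → ℂ} (hg : Summable fun k => ‖g k‖) (n : ℕ) : (av g) n = g (n + 1) := by
  unfold av
  rw [Sh_neg_apply, apply_e, ent_Tp hg]
  congr 1

/-- commutator with the backward shift -/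
lemma shift_comm {g : ℤ → ℂ} (hg : Summable fun k => ‖g k‖) (f : Hs) :
    Sh (-1) (Tp g f) = Tp g (Sh (-1) f) + f 0 • av g := by
  ext n
  rw [Sh_neg_apply]
  have h1 := hasSum_apply (Tp g) f (n + 1)
  have h2 := hasSum_apply (Tp g) (Sh (-1) f) n
  have h3 := (hasSum_nat_add_iff' 1).mpr h1
  simp only [Finset.range_one, Finset.sum_singleton] at h3
  have h4 : (fun P => ent (Tp g) (n + 1) (P + 1) * f (P + 1)) = fun P => ent (Tp g) n P * (Sh (-1) f) P := by
    funext P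
    rw [Tp_toep hg, Sh_neg_apply]
  rw [h4] at h3
  have h5 := h3.unique h2
  have h6 : (Tp g (Sh (-1) f) + f 0 • av g) n = (Tp g (Sh (-1) f)) n + f 0 * (av g) n := rfl
  rw [h6, ← h5, av_apply hg, ent_Tp hg]
  push_cast
  ring_nf

lemma isD_shift (hf : IsEig h (Tp v) (lam : ℂ) f) :
    IsD h (Sh (-1) f) (Sh (-1) ((lam : ℂ) • f + Tp v f) - (h : ℂ) • Sh (-1) f) := by
  intro n
  have h1 := hf.isD (n + 1)
  have h2 : (Sh (-1) ((lam : ℂ) • f + Tp v f) - (h : ℂ) • Sh (-1) f) n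
    = (Sh (-1) ((lam : ℂ) • f + Tp v f)) n - (h : ℂ) * (Sh (-1) f) n := rfl
  rw [h2, Sh_neg_apply, Sh_neg_apply, h1]
  push_cast; ring

/-- the basic relation for `M` -/
lemma M_rel (hv : Sm h v) (hr : ∀ k, v (-k) = conj (v k))
    (hf : IsEig h (Tp v) (lam : ℂ) f) (hg : IsEig h (Tp v) (μ : ℂ) g) :
    ((lam : ℂ) - μ - h) * ⟪g, Sh (-1) f⟫ = - (f 0 * ⟪g, av v⟫) := by
  have h1 := hg.isD.sym (isD_shift hf)
  rw [inner_add_left, inner_smul_left, Complex.conj_ofReal, inner_sub_right, inner_smul_right, map_add,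
    map_smul, inner_add_right, inner_smul_right, shift_comm hv.s0, inner_add_right, inner_smul_right,
    Tp_sym hv.s0 hr g] at h1
  linear_combination (-1 : ℂ) * h1

lemma M_comm (hh : 0 < h) (hv : Sm h v) (hr : ∀ k, v (-k) = conj (v k))
    (hf : IsEig h (Tp v) (lam : ℂ) f) (hg : IsEig h (Tp v) (μ : ℂ) g) :
    ⟪g, Sh (-1) (Bo h v f) - Bo h v (Sh (-1) f)⟫
      = Complex.I * f 0 * ((lam : ℂ) + μ + h) * ⟪g, av v⟫ := by
  have e : ∀ f : Hs, Bo h v f = Complex.I • (Tp (sy1 h v) f - Tp v (Tp v f)) := fun f => rfl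
  have h1 : Sh (-1) (Bo h v f) - Bo h v (Sh (-1) f)
      = (Complex.I * f 0) • (av (sy1 h v) + (lam : ℂ) • av v - Tp v (av v)) := by
    rw [e, e, map_smul, map_sub, shift_comm hv.s1, shift_comm hv.s0 (Tp v f), shift_comm hv.s0 f,
      map_add, map_smul, eig_zero hf]
    module
  have h2 : IsD h (av v) (av (sy1 h v) - (h : ℂ) • av v) := by
    intro n
    have h3 : (av (sy1 h v) - (h : ℂ) • av v) n = (av (sy1 h v)) n - (h : ℂ) * (av v) n := rfl
    rw [h3, av_apply hv.s1, av_apply hv.s0]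
    unfold sy1
    rw [abs_of_nonneg (by push_cast; positivity)]
    push_cast; ring
  have h4 := hg.isD.sym h2
  rw [inner_add_left, inner_smul_left, Complex.conj_ofReal, inner_sub_right, inner_smul_right,
    Tp_sym hv.s0 hr g] at h4
  rw [h1, inner_smul_right, inner_sub_right, inner_add_right, inner_smul_right]
  linear_combination (-Complex.I * f 0) * h4

end alg

/-- spectral data -/
structure Spec (h : ℝ) (v : ℤ → ℂ) (lam : ℕ → ℝ) (w : ℕ → ℝ) (m : ℕ → ℕ → ℝ) (b : HilbertBasis ℕ ℂ Hs) :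
    Prop where
  eig : ∀ P, IsEig h (Tp v) (lam P : ℂ) (b P)
  hw : ∀ P, ‖b P 0‖ = w P
  hm : ∀ N P, ‖⟪b N, Sh (-1) (b P)⟫‖ = m N P

section flow

variable {h t0 t1 : ℝ} {v : ℝ → ℤ → ℂ}

lemma contB (hv : TSol h t0 t1 v) : ContinuousOn (fun t => Bo h (v t)) (Icc t0 t1) := by
  obtain ⟨u, hu, hb⟩ := hv.maj
  have h1 : ContinuousOn (fun t => Tp (v t)) (Icc t0 t1) :=
    continuousOn_Tp hu (fun k t ht => (hv.ode t ht k).continuousWithinAt) (fun t ht k => (hb t ht k).1)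
  have h2 : ContinuousOn (fun t => Tp (sy1 h (v t))) (Icc t0 t1) := by
    apply continuousOn_Tp hu
    · intro k
      unfold sy1
      exact continuousOn_const.mul (fun t ht => (hv.ode t ht k).continuousWithinAt)
    · intro t ht k
      exact (sy_bound (hb t ht k).1 (hb t ht k).2.1).1
  unfold Bo
  exact (h2.sub (h1.mul h1)).const_smul Complex.I

lemma TSol.sm (hv : TSol h t0 t1 v) {t : ℝ} (ht : t ∈ Icc t0 t1) : Sm h (v t) := by
  obtain ⟨u, hu, hb⟩ := hv.maj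
  exact Sm.of_bound hu fun k => ⟨(hb t ht k).1, (hb t ht k).2.1⟩

lemma bound_C (hv : TSol h t0 t1 v) : ∃ γ, ∀ t ∈ Icc t0 t1, ‖Co h (v t)‖ ≤ γ := by
  obtain ⟨u, hu, hb⟩ := hv.maj
  set U := ∑' k, u k with hU
  refine ⟨U + (U * U + U * U), fun t ht => ?_⟩
  have hsm := hv.sm ht
  have h0 : ‖Tp (v t)‖ ≤ U := (norm_Tp_le hsm.s0).trans
    (hsm.s0.tsum_le_tsum (fun k => (hb t ht k).1) hu)
  have hA : ‖Tp (syA h (v t))‖ ≤ U := (norm_Tp_le hsm.sA).trans
    (hsm.sA.tsum_le_tsum (fun k => (sy_bound (hb t ht k).1 (hb t ht k).2.1).2.1) hu)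
  have h2 : ‖Tp (sy2 h (v t))‖ ≤ U := (norm_Tp_le hsm.s2).trans
    (hsm.s2.tsum_le_tsum (fun k => (sy_bound (hb t ht k).1 (hb t ht k).2.1).2.2) hu)
  have hU0 : 0 ≤ U := (norm_nonneg _).trans h0
  unfold Co
  rw [norm_smul, Complex.norm_I, one_mul]
  refine (norm_sub_le _ _).trans (add_le_add h2 ((norm_add_le _ _).trans (add_le_add ?_ ?_)))
  · exact (norm_mul_le _ _).trans (mul_le_mul hA h0 (norm_nonneg _) hU0)
  · exact (norm_mul_le _ _).trans (mul_le_mul h0 hA (norm_nonneg _) hU0)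

/-- eigenvectors are transported by the flow of `B` -/
lemma eig_persist (hh : 0 < h) (hv : TSol h t0 t1 v) {lam : ℝ} {f : ℝ → Hs}
    (hf : ∀ t ∈ Icc t0 t1, HasDerivWithinAt f (Bo h (v t) (f t)) (Icc t0 t1) t)
    (h0 : IsEig h (Tp (v t0)) (lam : ℂ) (f t0)) :
    ∀ t ∈ Icc t0 t1, IsEig h (Tp (v t)) (lam : ℂ) (f t) := by
  obtain ⟨u, hu, hb⟩ := hv.maj
  have hA := hasDeriv_Tp hu hv.ode (fun t ht k => (hb t ht k).1) (fun t ht k => (hb t ht k).2.2)
  set q : ℝ → Hs := fun t => f t - Gr h hh (Tp (v t) (f t) + (lam : ℂ) • f t + f t) with hq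
  obtain ⟨γ, hγ⟩ := bound_C hv
  obtain ⟨β, hβ⟩ : ∃ β, ∀ t ∈ Icc t0 t1, ‖Bo h (v t)‖ ≤ β := by
    have := (isCompact_Icc (a := t0) (b := t1)).exists_bound_of_continuousOn (contB hv)
    exact this
  have hq' : ∀ t ∈ Icc t0 t1, HasDerivWithinAt q
      ((Bo h (v t) - Gr h hh * Co h (v t)) (q t)) (Icc t0 t1) t := by
    intro t ht
    have hsm := hv.sm ht
    have d1 := hasDeriv_apply (hA t ht) (hf t ht)
    have d2 : HasDerivWithinAt (fun t => (lam : ℂ) • f t) ((lam : ℂ) • (Bo h (v t) (f t))) (Icc t0 t1) t :=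
      (hf t ht).const_smul (lam : ℂ)
    have d3 := hasDeriv_const_apply (Gr h hh) ((d1.add d2).add (hf t ht))
    have d4 := (hf t ht).sub d3
    have hN : Summable fun k => ‖NL (fun k : ℤ => h * k) (v t) k‖ :=
      Summable.of_nonneg_of_le (fun _ => norm_nonneg _) (fun k => (hb t ht k).2.2) hu
    have hlax := lax hh hsm hN
    have hgr := Gr_comm hh (ad_B hsm)
    set G := Gr h hh
    set B := Bo h (v t)
    set C := Co h (v t)
    set A := Tp (v t)
    have hBG : ∀ x : Hs, B (G x) = G (B x) + G (C (G x)) := by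
      intro x
      have h1 : B * G = G * B + G * C * G := by
        have := hgr
        have h2 : B * G = G * B - (G * B - B * G) := by abel
        rw [h2, this]; abel
      calc B (G x) = (B * G) x := rfl
        _ = (G * B + G * C * G) x := by rw [h1]
        _ = _ := rfl
    have hA' : (Tp (NL (fun k : ℤ => h * k) (v t))) (f t) = B (A (f t)) - A (B (f t)) + C (f t) := by
      rw [hlax]; rfl
    have hqt : q t = f t - G (A (f t) + (lam : ℂ) • f t + f t) := rfl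
    have hap : (B - G * C) (q t) = B (q t) - G (C (q t)) := rfl
    have hval : (B - G * C) (q t) = B (f t) - G ((Tp (NL (fun k : ℤ => h * k) (v t))) (f t) + A (B (f t))
        + (lam : ℂ) • B (f t) + B (f t)) := by
      rw [hA', hap, hqt]
      rw [map_sub, hBG, map_sub C, map_sub G]
      simp only [map_add, map_sub, map_smul]
      abel
    rw [hval]
    exact d4
  have hq0 : q t0 = 0 := (isEig_iff hh).mp h0
  have hz := eq_zero_of_abs_deriv_le_mul_abs_self_of_eq_zero_right (f := q)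
    (f' := fun t => (Bo h (v t) - Gr h hh * Co h (v t)) (q t)) (K := β + ‖Gr h hh‖ * γ) (a := t0) (b := t1)
    (fun t ht => (hq' t ht).continuousWithinAt)
    (fun t ht => deriv_Ici ht (hq' t (Ico_subset_Icc_self ht))) hq0
    (by
      intro t ht
      have ht' := Ico_subset_Icc_self ht
      refine (ContinuousLinearMap.le_opNorm _ _).trans ?_
      gcongr
      refine (norm_sub_le _ _).trans (add_le_add (hβ t ht') ?_)
      refine (norm_mul_le _ _).trans ?_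
      gcongr
      exact hγ t ht')
  intro t ht
  exact (isEig_iff hh).mpr (hz t ht)

lemma spec_step (hh : 0 < h) (h01 : t0 ≤ t1) (hv : TSol h t0 t1 v) {β : ℝ} (hβ0 : 0 ≤ β)
    (hβ : ∀ t ∈ Icc t0 t1, ‖Bo h (v t)‖ ≤ β) (hsmall : 2 * β * (t1 - t0) ≤ 1)
    {lam w : ℕ → ℝ} {m : ℕ → ℕ → ℝ} {b : HilbertBasis ℕ ℂ Hs} (hb : Spec h (v t0) lam w m b) :
    ∃ b' : HilbertBasis ℕ ℂ Hs, Spec h (v t1) lam w m b' := by
  have m0 : t0 ∈ Icc t0 t1 := left_mem_Icc.mpr h01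
  have m1 : t1 ∈ Icc t0 t1 := right_mem_Icc.mpr h01
  have hcB := contB hv
  have hskew : ∀ t ∈ Icc t0 t1, ∀ f g, ⟪Bo h (v t) f, g⟫ = - ⟪f, Bo h (v t) g⟫ := fun t ht =>
    skew_B (hv.sm ht) (hv.real t ht)
  have hex := fun P => exists_flow (fun t => Bo h (v t)) hcB hβ0 hβ hsmall ⟨t0, m0⟩ (b P)
  choose f hf0 hf using hex
  have hf0' : ∀ P, f P t0 = b P := hf0
  have heig : ∀ P, ∀ t ∈ Icc t0 t1, IsEig h (Tp (v t)) (lam P : ℂ) (f P t) := fun P =>
    eig_persist hh hv (hf P) (by rw [hf0']; exact hb.eig P)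
  have hinner : ∀ N P, ⟪f N t1, f P t1⟫ = ⟪b N, b P⟫ := by
    intro N P
    have := inner_const (B := fun t x => Bo h (v t) x) hskew (hf N) (hf P) t1 m1 t0 m0
    rw [this, hf0', hf0']
  have hon : Orthonormal ℂ (fun P => f P t1) := by
    rw [orthonormal_iff_ite]
    intro N P
    rw [hinner]
    exact (orthonormal_iff_ite.mp b.orthonormal) N P
  have hspan : ⊤ ≤ (Submodule.span ℂ (Set.range (fun P => f P t1))).topologicalClosure := by
    rw [top_le_iff, Submodule.topologicalClosure_eq_top_iff, Submodule.eq_bot_iff]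
    intro g hg
    rw [Submodule.mem_orthogonal] at hg
    obtain ⟨γ, hγ1, hγ⟩ := exists_flow (fun t => Bo h (v t)) hcB hβ0 hβ hsmall ⟨t1, m1⟩ g
    have hγ1' : γ t1 = g := hγ1
    have h1 : ∀ P, ⟪b P, γ t0⟫ = 0 := by
      intro P
      have h2 := inner_const (B := fun t x => Bo h (v t) x) hskew (hf P) hγ t0 m0 t1 m1
      rw [hf0', hγ1'] at h2
      rw [h2]
      exact hg _ (Submodule.subset_span ⟨P, rfl⟩)
    have h3 : γ t0 = 0 := by
      have h4 := b.hasSum_repr (γ t0)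
      have h5 : (fun i => (b.repr (γ t0)) i • b i) = fun _ => 0 := by
        funext i
        rw [b.repr_apply_apply, h1, zero_smul]
      rw [h5] at h4
      exact h4.unique hasSum_zero
    have h6 := norm_const (B := fun t x => Bo h (v t) x) hskew hγ t0 m0 t1 m1
    rw [h3, hγ1', norm_zero] at h6
    exact norm_eq_zero.mp h6.symm
  set b' : HilbertBasis ℕ ℂ Hs := HilbertBasis.mk hon hspan with hb'
  have hbu : ∀ P, b' P = f P t1 := fun P => by rw [hb', HilbertBasis.coe_mk]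
  refine ⟨b', ?_, ?_, ?_⟩
  · intro P
    rw [hbu]; exact heig P t1 m1
  · intro P
    rw [hbu, ← hb.hw P, ← hf0']
    apply norm_const_scalar (m := fun t => (f P t) 0) (r := -(lam P ^ 2)) (t0 := t0) (t1 := t1) _ t1 m1 t0 m0
    intro t ht
    rw [← B_zero hh (hv.sm ht) (heig P t ht)]
    exact (((ev 0).restrictScalars ℝ).hasFDerivAt).comp_hasDerivWithinAt t (hf P t ht)
  · intro N P
    rw [hbu, hbu, ← hb.hm N P, ← hf0', ← hf0']
    apply norm_const_scalar (m := fun t => ⟪f N t, Sh (-1) (f P t)⟫)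
      (r := -((lam P + lam N + h) * (lam P - lam N - h))) (t0 := t0) (t1 := t1) _ t1 m1 t0 m0
    intro t ht
    have h1 := (hf N t ht).inner ℂ (hasDeriv_const_apply (Sh (-1)) (hf P t ht))
    have h2 := M_comm hh (hv.sm ht) (hv.real t ht) (heig P t ht) (heig N t ht)
    have h3 := M_rel (hv.sm ht) (hv.real t ht) (heig P t ht) (heig N t ht)
    have h4 := hskew t ht (f N t) (Sh (-1) (f P t))
    have h5 : Complex.I * ((-((lam P + lam N + h) * (lam P - lam N - h)) : ℝ) : ℂ) * ⟪f N t, Sh (-1) (f P t)⟫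
        = ⟪f N t, Sh (-1) (Bo h (v t) (f P t))⟫ + ⟪Bo h (v t) (f N t), Sh (-1) (f P t)⟫ := by
      rw [h4, ← sub_eq_add_neg, ← inner_sub_right, h2]
      push_cast
      linear_combination (-Complex.I * ((lam P : ℂ) + lam N + h)) * h3
    rw [h5]
    exact h1

/-- propagation of the spectral data -/
theorem spec_prop (hh : 0 < h) (h01 : t0 ≤ t1) (hv : TSol h t0 t1 v)
    {lam w : ℕ → ℝ} {m : ℕ → ℕ → ℝ} {b : HilbertBasis ℕ ℂ Hs} (hb : Spec h (v t0) lam w m b) :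
    ∃ b' : HilbertBasis ℕ ℂ Hs, Spec h (v t1) lam w m b' := by
  obtain ⟨β, hβ⟩ : ∃ β, ∀ t ∈ Icc t0 t1, ‖Bo h (v t)‖ ≤ β :=
    (isCompact_Icc (a := t0) (b := t1)).exists_bound_of_continuousOn (contB hv)
  have hβ0 : 0 ≤ β := (norm_nonneg _).trans (hβ t0 (left_mem_Icc.mpr h01))
  obtain ⟨n, hn⟩ := exists_nat_gt (2 * β * (t1 - t0))
  have hn0 : (0 : ℝ) < n := lt_of_le_of_lt (by have : 0 ≤ t1 - t0 := by linarith
                                               positivity) hn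
  have key : ∀ j : ℕ, j ≤ n → ∃ b' : HilbertBasis ℕ ℂ Hs,
      Spec h (v (t0 + (t1 - t0) * (j / n))) lam w m b' := by
    intro j
    induction j with
    | zero => intro _; exact ⟨b, by simpa using hb⟩
    | succ j ih =>
      intro hj
      obtain ⟨b1, hb1⟩ := ih (by omega)
      have hd : 0 ≤ t1 - t0 := by linarith
      have hs1 : (((j + 1 : ℕ) : ℝ) / n) ≤ 1 := by
        rw [div_le_one hn0]; exact_mod_cast hj
      have hs2 : ((j : ℝ) / n) ≤ (((j + 1 : ℕ) : ℝ) / n) := by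
        gcongr; push_cast; linarith
      have hs0 : (0 : ℝ) ≤ (j : ℝ) / n := by positivity
      have hsub : Icc (t0 + (t1 - t0) * (j / n)) (t0 + (t1 - t0) * ((j + 1 : ℕ) / n)) ⊆ Icc t0 t1 := by
        apply Icc_subset_Icc
        · nlinarith
        · nlinarith
      refine spec_step hh (by nlinarith) (hv.mono hsub) hβ0 (fun t ht => hβ t (hsub ht)) ?_ hb1
      have h1 : (t0 + (t1 - t0) * ((j + 1 : ℕ) / n)) - (t0 + (t1 - t0) * (j / n)) = (t1 - t0) / n := by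
        push_cast; ring
      rw [h1]
      have h2 : 2 * β * ((t1 - t0) / n) = (2 * β * (t1 - t0)) / n := by ring
      rw [h2, div_le_one hn0]
      exact hn.le
  obtain ⟨b', hb'⟩ := key n le_rfl
  rw [div_self hn0.ne', mul_one, add_sub_cancel] at hb'
  exact ⟨b', hb'⟩

end flow

end BO
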