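import Pool.Agent.Helper3.BO.Diff

open scoped ENNReal NNReal lp
open Filter Topology

namespace BO

noncomputable def Lam (T : Tor) (y : Linf) (K : ℕ) : ℂ := ((T.h * K : ℝ) : ℂ) + y K

/-- Smallness package for the KAM theorem. -/
structure KPar (T : Tor) (ρ1 κ ε : ℝ) : Prop where
  h0 : 0 ≤ ρ1
  hκ : 0 < κ
  hε : 0 ≤ ε
  small : 42 * kd T.a T.b κ ε ≤ (1 / 2) ^ (T.b + 1)
  small' : 6 * kd T.a T.b κ ε ≤ 1 / 24

structure Sol (T : Tor) (ρ1 κ ε : ℝ) (V : Hs →L[ℂ] Hs) (y : Linf) : Prop where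
  ex : ∃ Z W, Rel (Lam T y) V Z W (-y) 0 ∧ Nn T.toLen ρ1 Z ≤ ENNReal.ofReal (6 * kd T.a T.b κ ε) ∧
    Nn T.toLen ρ1 (W - 1) ≤ ENNReal.ofReal (6 * kd T.a T.b κ ε)

lemma im_Lam (T : Tor) (y : Linf) (K : ℕ) : |(Lam T y K).im| ≤ ‖y‖ := by
  have : (Lam T y K).im = (y K).im := by unfold Lam; simp
  rw [this]
  exact (Complex.abs_im_le_norm _).trans (norm_Linf_apply_le y K)

lemma cont_step (T : Tor) {ρ1 κ ε : ℝ} (hp : KPar T ρ1 κ ε) {V V' : Hs →L[ℂ] Hs}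
    (hV' : Nn T.toLen (ρ1 + κ) V' ≤ ENNReal.ofReal ε)
    {y0 : Linf} (hsep : ∀ K P : ℕ, K ≠ P → T.h * |(K : ℝ) - P| ≤ ‖Lam T y0 K - Lam T y0 P‖)
    (hs : Sol T ρ1 κ ε V y0) (hVV : ‖V' - V‖ ≤ T.h / 16) :
    ∃ y : Linf, ‖y - y0‖ ≤ T.h / 4 ∧ Sol T ρ1 κ ε V' y := by
  have hh := T.hpos
  have hk0 : 0 ≤ kd T.a T.b κ ε := by
    have := T.apos; have := hp.hκ; have := hp.hε
    unfold kd; positivity
  set B : Set Linf := Metric.closedBall y0 (T.h / 4) with hB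
  have hsepB : ∀ y ∈ B, ∀ K P : ℕ, K ≠ P → T.h / 2 * |(K : ℝ) - P| ≤ ‖Lam T y K - Lam T y P‖ := by
    intro y hy K P hKP
    have h1 := hsep K P hKP
    have h2 : Lam T y0 K - Lam T y0 P = (Lam T y K - Lam T y P) - ((y - y0) K - (y - y0) P) := by
      unfold Lam; simp only [lp.coeFn_sub, Pi.sub_apply]; ring
    rw [hB, Metric.mem_closedBall, dist_eq_norm] at hy
    have h3 : ‖(y - y0) K - (y - y0) P‖ ≤ T.h / 2 := by
      refine (norm_sub_le _ _).trans ?_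
      have := norm_Linf_apply_le (y - y0) K
      have := norm_Linf_apply_le (y - y0) P
      linarith
    rw [h2] at h1
    have h4 := norm_sub_le (Lam T y K - Lam T y P) ((y - y0) K - (y - y0) P)
    have h5 : 1 ≤ |(K : ℝ) - P| := by
      have : (1 : ℤ) ≤ |(K : ℤ) - P| := Int.one_le_abs (by omega)
      exact_mod_cast this
    nlinarith
  have hex : ∀ y ∈ B, ∃ (X : Linf) (Z W : Hs →L[ℂ] Hs), Rel (Lam T y) V' Z W X 0 ∧
      Nn T.toLen ρ1 Z ≤ ENNReal.ofReal (6 * kd T.a T.b κ ε) ∧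
      Nn T.toLen ρ1 (W - 1) ≤ ENNReal.ofReal (6 * kd T.a T.b κ ε) := by
    intro y hy
    obtain ⟨Z, W, X, h1, h2, h3, -⟩ := kam T hp.h0 hp.hκ hp.hε hp.small (hsepB y hy) V' hV'
    exact ⟨X, Z, W, h1, h2, h3⟩
  classical
  let F : Linf → Linf := fun y => if hy : y ∈ B then -(hex y hy).choose else y0
  have hF : ∀ y (hy : y ∈ B), F y = -(hex y hy).choose := fun y hy => dif_pos hy
  have hnZ : ∀ {Z : Hs →L[ℂ] Hs}, Nn T.toLen ρ1 Z ≤ ENNReal.ofReal (6 * kd T.a T.b κ ε) → ‖Z‖ ≤ 1 / 24 :=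
    fun h => (norm_le_of_Nn T.toLen hp.h0 (by positivity) h).trans hp.small'
  have hlip : ∀ y ∈ B, ∀ y' ∈ B, ‖F y' - F y‖ ≤ 1 / 2 * ‖y' - y‖ := by
    intro y hy y' hy'
    rw [hF y hy, hF y' hy']
    obtain ⟨Z, W, h1, h2, h3⟩ := (hex y hy).choose_spec
    obtain ⟨Z', W', h1', h2', h3'⟩ := (hex y' hy').choose_spec
    have h4 := diff_bound (im_Lam T y) (y' - y) (by intro K; unfold Lam; simp) h1 h1' (hnZ h3) (hnZ h2')
    rw [sub_self, norm_zero, mul_zero, add_zero] at h4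
    calc _ = ‖(hex y' hy').choose - (hex y hy).choose‖ := by rw [← norm_neg]; congr 1; abel
      _ ≤ _ := h4
  have hy0 : y0 ∈ B := Metric.mem_closedBall_self (by positivity)
  have hF0 : ‖F y0 - y0‖ ≤ T.h / 8 := by
    rw [hF y0 hy0]
    obtain ⟨Z, W, h1, h2, h3⟩ := (hex y0 hy0).choose_spec
    obtain ⟨Z', W', h1', h2', h3'⟩ := hs.ex
    have h4 := diff_bound (im_Lam T y0) 0 (by intro K; simp) h1' h1 (hnZ h3') (hnZ h2)
    rw [norm_zero, mul_zero, zero_add] at h4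
    calc _ = ‖(hex y0 hy0).choose - (-y0)‖ := by rw [← norm_neg]; congr 1; abel
      _ ≤ 2 * ‖V' - V‖ := h4
      _ ≤ _ := by linarith
  have hmaps : Set.MapsTo F B B := by
    intro y hy
    have h1 := hlip y0 hy0 y hy
    rw [hB, Metric.mem_closedBall, dist_eq_norm] at hy ⊢
    calc ‖F y - y0‖ = ‖(F y - F y0) + (F y0 - y0)‖ := by congr 1; abel
      _ ≤ ‖F y - F y0‖ + ‖F y0 - y0‖ := norm_add_le _ _
      _ ≤ T.h / 4 := by linarith
  have hcon : ContractingWith (1 / 2 : ℝ≥0) (hmaps.restrict F B B) := by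
    refine ⟨by norm_num [← NNReal.coe_lt_coe], ?_⟩
    apply LipschitzWith.of_dist_le_mul
    rintro ⟨y, hy⟩ ⟨y', hy'⟩
    show dist (F y) (F y') ≤ ((1 / 2 : ℝ≥0) : ℝ) * dist y y'
    rw [dist_eq_norm, dist_eq_norm]
    have := hlip y' hy' y hy
    simpa using this
  obtain ⟨y, hy, hfix, -, -⟩ := ContractingWith.exists_fixedPoint' (IsClosed.isComplete Metric.isClosed_closedBall)
    hmaps hcon hy0 (edist_ne_top _ _)
  refine ⟨y, ?_, ?_⟩
  · rw [hB, Metric.mem_closedBall, dist_eq_norm] at hy; exact hy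
  · obtain ⟨Z, W, h1, h2, h3⟩ := (hex y hy).choose_spec
    have h4 : (hex y hy).choose = -y := by
      have h5 : F y = y := hfix
      rw [hF y hy] at h5
      exact neg_eq_iff_eq_neg.mp h5
    rw [h4] at h1
    exact ⟨Z, W, h1, h2, h3⟩

end BO
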