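import Pool.Agent.Helper3.BO.Kam

open scoped ENNReal NNReal lp
open Filter Topology

namespace BO

/-- boundedness of the commutator with the inverse -/
lemma Ad.inv {Λ : ℕ → ℂ} {C : ℝ} (hC : ∀ K, |(Λ K).im| ≤ C) {A A' G : Hs →L[ℂ] Hs}
    (hA : Ad Λ A G) (h1 : A * A' = 1) (h2 : A' * A = 1) : Ad Λ A' (-(A' * G * A')) := by
  set Y : ℝ := C + 1 + ‖G‖ * ‖A'‖ * 2 with hY
  have hC0 : 0 ≤ C := (abs_nonneg _).trans (hC 0)
  have hGA : 0 ≤ ‖G‖ * ‖A'‖ := by positivity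
  have hden : ∀ K, Y - C ≤ ‖Λ K - (Y : ℂ) * Complex.I‖ := by
    intro K
    have h3 := Complex.abs_im_le_norm (Λ K - (Y : ℂ) * Complex.I)
    have h4 : (Λ K - (Y : ℂ) * Complex.I).im = (Λ K).im - Y := by simp
    rw [h4] at h3
    have h5 := hC K
    rw [abs_le] at h5
    have h6 := neg_abs_le ((Λ K).im - Y)
    linarith [h5.2]
  have hYC : 1 ≤ Y - C := by rw [hY]; linarith
  have hden0 : ∀ K, Λ K - (Y : ℂ) * Complex.I ≠ 0 := by
    intro K h
    have := hden K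
    rw [h, norm_zero] at this; linarith
  have hb : ∀ K, ‖1 / (Λ K - (Y : ℂ) * Complex.I)‖ ≤ 1 / (Y - C) := by
    intro K
    rw [norm_div, norm_one]
    exact one_div_le_one_div_of_le (by linarith) (hden K)
  set γ : Linf := mkInf (fun K => 1 / (Λ K - (Y : ℂ) * Complex.I)) (1 / (Y - C)) hb with hγ
  set Γ := dg γ with hΓ
  have hΓn : ‖Γ‖ ≤ 1 / (Y - C) := (norm_dg_le _).trans (norm_mkInf_le _ _ _)
  have hγa : ∀ K, γ K = 1 / (Λ K - (Y : ℂ) * Complex.I) := fun K => rfl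
  have e1 : A * Γ - Γ * A = Γ * G * Γ := by
    apply ext_ent; intro K P
    rw [ent_sub, ent_mul_dg, ent_dg_mul, ent_mul_dg, ent_dg_mul, ← hA K P, hγa, hγa]
    have := hden0 K; have := hden0 P
    field_simp
    ring
  set x := A' * Γ with hx
  set y := Γ * A' with hy
  have e2 : x * (1 + G * y) = y := by
    have h3 : A' * (A * Γ - Γ * A) * A' = A' * (Γ * G * Γ) * A' := by rw [e1]
    have h4 : A' * (A * Γ - Γ * A) * A' = y - x := by
      calc A' * (A * Γ - Γ * A) * A' = (A' * A) * Γ * A' - A' * Γ * (A * A') := by noncomm_ring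
        _ = y - x := by rw [h1, h2, one_mul, mul_one]
    rw [h4] at h3
    calc x * (1 + G * y) = x + A' * (Γ * G * Γ) * A' := by rw [hx, hy]; noncomm_ring
      _ = x + (y - x) := by rw [← h3]
      _ = y := by abel
  have hGy : ‖-(G * y)‖ < 1 := by
    rw [norm_neg]
    calc ‖G * y‖ ≤ ‖G‖ * (‖Γ‖ * ‖A'‖) := (norm_mul_le _ _).trans (by gcongr; exact norm_mul_le _ _)
      _ ≤ ‖G‖ * (1 / (Y - C) * ‖A'‖) := by gcongr
      _ = (‖G‖ * ‖A'‖) / (Y - C) := by ring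
      _ < 1 := by
        rw [div_lt_one (by linarith)]
        rw [hY]; linarith
  have e3 : G * y * (∑' i : ℕ, (-(G * y)) ^ i) = (∑' i : ℕ, (-(G * y)) ^ i) * (G * y) := by
    have h3 := mul_neg_geom_series (-(G * y)) hGy
    have h4 := geom_series_mul_neg (-(G * y)) hGy
    rw [sub_neg_eq_add] at h3 h4
    have h5 : (1 + G * y) * (∑' i : ℕ, (-(G * y)) ^ i) = (∑' i : ℕ, (-(G * y)) ^ i) * (1 + G * y) := by
      rw [h3, h4]
    rw [add_mul, mul_add, one_mul, mul_one] at h5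
    exact add_left_cancel h5
  have e4 : x = y * (∑' i : ℕ, (-(G * y)) ^ i) := by
    have h3 := mul_neg_geom_series (-(G * y)) hGy
    rw [sub_neg_eq_add] at h3
    calc x = x * ((1 + G * y) * (∑' i : ℕ, (-(G * y)) ^ i)) := by rw [h3, mul_one]
      _ = (x * (1 + G * y)) * (∑' i : ℕ, (-(G * y)) ^ i) := by noncomm_ring
      _ = _ := by rw [e2]
  have e5 : y * G * x = x * G * y := by
    calc y * G * x = y * (G * y * (∑' i : ℕ, (-(G * y)) ^ i)) := by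
          conv_lhs => rw [e4]
          noncomm_ring
      _ = y * ((∑' i : ℕ, (-(G * y)) ^ i) * (G * y)) := by rw [e3]
      _ = (y * (∑' i : ℕ, (-(G * y)) ^ i)) * G * y := by noncomm_ring
      _ = x * G * y := by rw [← e4]
  have e6 : Γ * A' - A' * Γ = Γ * (A' * G * A') * Γ := by
    have h3 : y - x = x * G * y := by
      have h4 : x + x * G * y = y := by
        rw [← e2]
        conv_rhs => rw [mul_add, mul_one, ← mul_assoc]
        rw [e2]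
      exact sub_eq_of_eq_add' h4.symm
    calc Γ * A' - A' * Γ = y - x := rfl
      _ = y * G * x := by rw [h3, e5]
      _ = _ := by rw [hx, hy]; noncomm_ring
  intro K P
  have h3 : ent (Γ * A' - A' * Γ) K P = ent (Γ * (A' * G * A') * Γ) K P := by rw [e6]
  rw [ent_sub, ent_mul_dg, ent_dg_mul, ent_mul_dg, ent_dg_mul, hγa, hγa] at h3
  rw [ent_neg]
  have h4 := hden0 K; have h5 := hden0 P
  field_simp at h3
  linear_combination (-1 : ℂ) * h3

/-- exact difference identity between two solutions -/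
lemma diff_identity {Λ1 Λ2 : ℕ → ℂ} {C : ℝ} (hC : ∀ K, |(Λ1 K).im| ≤ C) (y : Linf)
    (hy : ∀ K, y K = Λ2 K - Λ1 K) {V1 V2 Z1 Z2 W1 W2 : Hs →L[ℂ] Hs} {X1 X2 : Linf}
    (h1 : Rel Λ1 V1 Z1 W1 X1 0) (h2 : Rel Λ2 V2 Z2 W2 X2 0) (K : ℕ) :
    y K * ent (W1 * (1 + Z2)) K K
      = ent (W1 * (dg (y + X2 - X1) + (V2 - V1)) * (1 + Z2)) K K := by
  have a1 := (h1.ad.one_add).inv hC h1.inv1 h1.inv2
  have e1 : -(W1 * ((1 + Z1) * 0 - (dg X1 + V1) * (1 + Z1)) * W1) = W1 * (dg X1 + V1) := by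
    rw [show -(W1 * ((1 + Z1) * 0 - (dg X1 + V1) * (1 + Z1)) * W1)
      = W1 * (dg X1 + V1) * ((1 + Z1) * W1) by noncomm_ring, h1.inv1, mul_one]
  rw [e1] at a1
  have a2 := h2.ad.one_add
  have h3 := (hasSum_ent_mul W1 (1 + Z2) K K).mul_left (Λ1 K - Λ2 K)
  have h4 := (hasSum_ent_mul (W1 * (dg X1 + V1)) (1 + Z2) K K).add
    ((hasSum_ent_mul W1 (-(dg X2 + V2) * (1 + Z2)) K K).sub (hasSum_ent_mul W1 (dg y * (1 + Z2)) K K))
  have h5 : (fun Q => (Λ1 K - Λ2 K) * (ent W1 K Q * ent (1 + Z2) Q K))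
      = fun Q => ent (W1 * (dg X1 + V1)) K Q * ent (1 + Z2) Q K +
        (ent W1 K Q * ent (-(dg X2 + V2) * (1 + Z2)) Q K - ent W1 K Q * ent (dg y * (1 + Z2)) Q K) := by
    funext Q
    rw [← a1 K Q]
    have h6 := a2 Q K
    have h7 : (1 + Z2) * 0 - (dg X2 + V2) * (1 + Z2) = -(dg X2 + V2) * (1 + Z2) := by noncomm_ring
    rw [h7] at h6
    rw [← h6, ent_dg_mul, hy]
    ring
  rw [h5] at h3
  have h6 := h3.unique h4
  have h7 : ent (W1 * (dg (y + X2 - X1) + (V2 - V1)) * (1 + Z2)) K K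
      = -(ent (W1 * (dg X1 + V1) * (1 + Z2)) K K + (ent (W1 * (-(dg X2 + V2) * (1 + Z2))) K K
        - ent (W1 * (dg y * (1 + Z2))) K K)) := by
    rw [← ent_sub, ← ent_add, ← ent_neg]
    congr 1
    rw [dg_sub, dg_add]
    noncomm_ring
  rw [h7, ← h6, hy]
  ring

lemma diff_bound {Λ1 Λ2 : ℕ → ℂ} {C : ℝ} (hC : ∀ K, |(Λ1 K).im| ≤ C) (y : Linf)
    (hy : ∀ K, y K = Λ2 K - Λ1 K) {V1 V2 Z1 Z2 W1 W2 : Hs →L[ℂ] Hs} {X1 X2 : Linf}
    (h1 : Rel Λ1 V1 Z1 W1 X1 0) (h2 : Rel Λ2 V2 Z2 W2 X2 0)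
    (hW1 : ‖W1 - 1‖ ≤ 1 / 24) (hZ2 : ‖Z2‖ ≤ 1 / 24) :
    ‖X2 - X1‖ ≤ 1 / 2 * ‖y‖ + 2 * ‖V2 - V1‖ := by
  set E := dg (y + X2 - X1) + (V2 - V1) with hE
  have hdgE : ‖dg (y + X2 - X1)‖ ≤ ‖y‖ + ‖X2 - X1‖ := by
    refine (norm_dg_le _).trans ?_
    rw [add_sub_assoc]; exact norm_add_le _ _
  have hEn : ‖E‖ ≤ ‖y‖ + ‖X2 - X1‖ + ‖V2 - V1‖ := (norm_add_le _ _).trans (by gcongr)
  set En := ‖y‖ + ‖X2 - X1‖ + ‖V2 - V1‖ with hEndef
  have hW : ‖W1‖ ≤ 25 / 24 := by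
    calc ‖W1‖ = ‖1 + (W1 - 1)‖ := by congr 1; abel
      _ ≤ ‖(1 : Hs →L[ℂ] Hs)‖ + ‖W1 - 1‖ := norm_add_le _ _
      _ ≤ 1 + 1 / 24 := by gcongr; exact ContinuousLinearMap.norm_id_le
      _ = _ := by norm_num
  have hQ : ‖W1 * (1 + Z2) - 1‖ ≤ 1 / 8 := by
    have : W1 * (1 + Z2) - 1 = (W1 - 1) + W1 * Z2 := by noncomm_ring
    rw [this]
    calc _ ≤ ‖W1 - 1‖ + ‖W1‖ * ‖Z2‖ := (norm_add_le _ _).trans (by gcongr; exact norm_mul_le _ _)
      _ ≤ 1 / 24 + 25 / 24 * (1 / 24) := by gcongr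
      _ ≤ 1 / 8 := by norm_num
  have hF : ‖W1 * E * (1 + Z2) - E‖ ≤ 1 / 8 * En := by
    have : W1 * E * (1 + Z2) - E = (W1 - 1) * E + W1 * (E * Z2) := by noncomm_ring
    rw [this]
    calc _ ≤ ‖W1 - 1‖ * ‖E‖ + ‖W1‖ * (‖E‖ * ‖Z2‖) := by
          refine (norm_add_le _ _).trans ?_
          gcongr
          · exact norm_mul_le _ _
          · exact (norm_mul_le _ _).trans (by gcongr; exact norm_mul_le _ _)
      _ ≤ 1 / 24 * En + 25 / 24 * (En * (1 / 24)) := by gcongr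
      _ ≤ 1 / 8 * En := by
        have : 0 ≤ En := (norm_nonneg _).trans hEn
        nlinarith
  have key : ∀ K, ‖(X2 - X1) K‖ ≤ ‖V2 - V1‖ + 1 / 8 * ‖y‖ + 1 / 8 * En := by
    intro K
    have h3 := diff_identity hC y hy h1 h2 K
    rw [← hE] at h3
    have h4 : (X2 - X1) K = y K * ent (W1 * (1 + Z2) - 1) K K - ent (W1 * E * (1 + Z2) - E) K K
        - ent (V2 - V1) K K := by
      rw [ent_sub, ent_sub (W1 * E * (1 + Z2)), ← h3, hE, ent_add, ent_dg, if_pos rfl, ent_one,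
        if_pos rfl]
      simp only [lp.coeFn_sub, lp.coeFn_add, Pi.sub_apply, Pi.add_apply]
      ring
    rw [h4]
    calc _ ≤ ‖y K‖ * ‖ent (W1 * (1 + Z2) - 1) K K‖ + ‖ent (W1 * E * (1 + Z2) - E) K K‖
          + ‖ent (V2 - V1) K K‖ := by
          refine (norm_sub_le _ _).trans ?_
          gcongr
          refine (norm_sub_le _ _).trans ?_
          gcongr
          exact norm_mul_le _ _
      _ ≤ ‖y‖ * (1 / 8) + 1 / 8 * En + ‖V2 - V1‖ := by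
          gcongr
          · exact norm_Linf_apply_le y K
          · exact (norm_ent_le _ _ _).trans hQ
          · exact (norm_ent_le _ _ _).trans hF
          · exact norm_ent_le _ _ _
      _ = _ := by ring
  have h5 : ‖X2 - X1‖ ≤ ‖V2 - V1‖ + 1 / 8 * ‖y‖ + 1 / 8 * En :=
    lp.norm_le_of_forall_le (by positivity) key
  rw [hEndef] at h5
  have := norm_nonneg y
  have := norm_nonneg (V2 - V1)
  linarith

end BO
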