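import Pool.Agent.Helper3.BO.Tpz
import Pool.Agent.Helper3.BO.Cont

open scoped ENNReal NNReal lp ComplexConjugate
open Filter Topology

open scoped ComplexInnerProductSpace

namespace BO

/-- The columns of `1 + Z` are eigenvectors. -/
lemma eig_of_rel {T : Tor} {A Z W : Hs →L[ℂ] Hs} {y : Linf}
    (hr : Rel (Lam T y) (-A) Z W (-y) 0) (P : ℕ) : IsEig T.h A (Lam T y P) ((1 + Z) (e P)) := by
  intro n
  have h1 := hr.ad.one_add n P
  have h2 : (1 + Z) * 0 - (dg (-y) + -A) * (1 + Z) = dg y * (1 + Z) + A * (1 + Z) := by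
    rw [dg_neg]; noncomm_ring
  rw [h2, ent_add (dg y * (1 + Z)) (A * (1 + Z)), ent_dg_mul] at h1
  have h3 : ent (1 + Z) n P = ((1 + Z) (e P)) n := rfl
  have h4 : ent (A * (1 + Z)) n P = (A ((1 + Z) (e P))) n := rfl
  rw [h3, h4] at h1
  have h5 : Lam T y n = ((T.h * n : ℝ) : ℂ) + y n := rfl
  rw [h5] at h1
  linear_combination h1

/-- From a solution of the counterterm equation with real increasing eigenvalues, get a basis. -/
lemma basis_of_sol (T : Tor) {ρ1 κ ε : ℝ} (hp : KPar T ρ1 κ ε) {A : Hs →L[ℂ] Hs} (hA : SymOp A)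
    (hT : ∀ K P : ℕ, ent A (K + 1) (P + 1) = ent A K P) {y : Linf}
    (hs : Sol T ρ1 κ ε (-A) y) (hinc : ∀ K, (Lam T y K).re < (Lam T y (K + 1)).re) :
    (∀ K, (Lam T y K).im = 0) ∧
      ∃ b : HilbertBasis ℕ ℂ Hs, LocBasis T ρ1 A b (fun K => (Lam T y K).re) := by
  obtain ⟨Z, W, hr, hZ, hW⟩ := hs.ex
  have hk0 : 0 ≤ kd T.a T.b κ ε := by
    have := T.apos; have := hp.hκ; have := hp.hε
    unfold kd; positivity
  have hnZ : ‖Z‖ ≤ 1 / 24 := (norm_le_of_Nn T.toLen hp.h0 (by positivity) hZ).trans hp.small'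
  set c : ℕ → Hs := fun P => (1 + Z) (e P) with hc
  have hce : ∀ P, c P = e P + Z (e P) := fun P => rfl
  have hZe : ∀ P, ‖Z (e P)‖ ≤ 1 / 24 := fun P => by
    calc ‖Z (e P)‖ ≤ ‖Z‖ * ‖e P‖ := Z.le_opNorm _
      _ ≤ 1 / 24 := by rw [norm_e, mul_one]; exact hnZ
  have hcn : ∀ P, 23 / 24 ≤ ‖c P‖ := fun P => by
    have h1 := norm_sub_norm_le (e P) (-(Z (e P)))
    rw [sub_neg_eq_add, ← hce, norm_neg, norm_e] at h1
    have := hZe P
    linarith
  have hcn0 : ∀ P, ‖c P‖ ≠ 0 := fun P => by have := hcn P; positivity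
  have hc0 : ∀ P, c P ≠ 0 := fun P => norm_ne_zero_iff.mp (hcn0 P)
  have heig : ∀ P, IsEig T.h A (Lam T y P) (c P) := fun P => eig_of_rel hr P
  have him : ∀ K, (Lam T y K).im = 0 := fun K => (heig K).im_eq_zero hA (hc0 K)
  have hre : ∀ K, (((Lam T y K).re : ℝ) : ℂ) = Lam T y K := fun K =>
    Complex.ext (by simp) (by simp [him K])
  refine ⟨him, ?_⟩
  have hmono : StrictMono (fun K => (Lam T y K).re) := strictMono_nat_of_lt_succ hinc
  have horth : ∀ K P, K ≠ P → ⟪c K, c P⟫ = 0 := by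
    intro K P hKP
    have h1 := IsEig.inner_eq hA (heig K) (heig P)
    rcases mul_eq_zero.mp h1 with h2 | h2
    · exfalso
      apply hKP
      apply hmono.injective
      have h3 := congrArg Complex.re h2
      simp only [Complex.sub_re, Complex.conj_re, Complex.zero_re] at h3
      show (Lam T y K).re = (Lam T y P).re
      linarith
    · exact h2
  set u : ℕ → Hs := fun P => ((‖c P‖⁻¹ : ℝ) : ℂ) • c P with hu
  have huon : Orthonormal ℂ u := by
    constructor
    · intro P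
      rw [hu]
      simp only
      rw [norm_smul, Complex.norm_real, norm_inv, norm_norm, inv_mul_cancel₀ (hcn0 P)]
    · intro K P hKP
      simp only [hu]
      rw [inner_smul_left, inner_smul_right, horth K P hKP]; simp
  have hspan : ⊤ ≤ (Submodule.span ℂ (Set.range u)).topologicalClosure := by
    rw [top_le_iff, Submodule.topologicalClosure_eq_top_iff, Submodule.eq_bot_iff]
    intro g hg
    rw [Submodule.mem_orthogonal] at hg
    have h1 : ∀ P, ⟪c P, g⟫ = 0 := by
      intro P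
      have h2 := hg (u P) (Submodule.subset_span ⟨P, rfl⟩)
      simp only [hu] at h2
      rw [inner_smul_left] at h2
      have h3 := mul_eq_zero.mp h2
      rcases h3 with h3 | h3
      · exfalso
        rw [Complex.conj_ofReal, Complex.ofReal_eq_zero] at h3
        exact hcn0 P (inv_eq_zero.mp h3)
      · exact h3
    -- adjoint (1+Z) g = 0
    have h2 : ContinuousLinearMap.adjoint (1 + Z) g = 0 := by
      ext K
      have h7 := inner_e K (ContinuousLinearMap.adjoint (1 + Z) g)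
      rw [ContinuousLinearMap.adjoint_inner_right] at h7
      rw [← h7]
      exact h1 K
    have h3 : ContinuousLinearMap.adjoint W (ContinuousLinearMap.adjoint (1 + Z) g) = g := by
      have h4 : ContinuousLinearMap.adjoint ((1 + Z) * W) = 1 := by
        rw [hr.inv1]
        exact star_one _
      have h5 : ContinuousLinearMap.adjoint ((1 + Z) * W)
          = ContinuousLinearMap.adjoint W * ContinuousLinearMap.adjoint (1 + Z) := star_mul _ _
      rw [h5] at h4
      have h6 := congrArg (fun R : Hs →L[ℂ] Hs => R g) h4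
      exact h6
    rw [h2, map_zero] at h3
    exact h3.symm
  set b : HilbertBasis ℕ ℂ Hs := HilbertBasis.mk huon hspan with hb
  have hbu : ∀ P, b P = u P := fun P => by rw [hb, HilbertBasis.coe_mk]
  have hbeig : ∀ P, IsEig T.h A (((Lam T y P).re : ℝ) : ℂ) (b P) := by
    intro P
    rw [hbu, hre]
    exact (heig P).smul _
  refine ⟨b, hbeig, ?_, ?_⟩
  · intro K
    exact interlace hA hT b (fun K => (Lam T y K).re) hmono.monotone hbeig K
  · intro P
    have h1 : ∀ n : ℕ, ‖b P n‖ₑ * wt T.toLen ρ1 ((n : ℤ) - P)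
        ≤ ENNReal.ofReal (24 / 23) * (ds (ent (1 + Z)) ((n : ℤ) - P) * wt T.toLen ρ1 ((n : ℤ) - P)) := by
      intro n
      rw [← mul_assoc]
      gcongr
      rw [hbu, hu]
      have h2 : (((‖c P‖⁻¹ : ℝ) : ℂ) • c P) n = ((‖c P‖⁻¹ : ℝ) : ℂ) * ent (1 + Z) n P := rfl
      rw [h2, enorm_mul]
      apply mul_le_mul' _ (le_ds _ _ _)
      rw [← ofReal_norm, Complex.norm_real, norm_inv, norm_norm]
      apply ENNReal.ofReal_le_ofReal
      calc ‖c P‖⁻¹ ≤ (23 / 24 : ℝ)⁻¹ := by
            apply inv_anti₀ (by norm_num) (hcn P)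
        _ = 24 / 23 := by norm_num
    have h3 : Nn T.toLen ρ1 (1 + Z) ≤ ENNReal.ofReal (25 / 24) := by
      refine (Nn_add_le' T.toLen (r := 1) (t := 1 / 24) (by norm_num) (by norm_num) (Nn_one_le' _ _) ?_).trans ?_
      · exact hZ.trans (ENNReal.ofReal_le_ofReal hp.small')
      · apply ENNReal.ofReal_le_ofReal; norm_num
    calc ∑' n : ℕ, ‖b P n‖ₑ * wt T.toLen ρ1 ((n : ℤ) - P)
        ≤ ∑' n : ℕ, ENNReal.ofReal (24 / 23) * (ds (ent (1 + Z)) ((n : ℤ) - P) * wt T.toLen ρ1 ((n : ℤ) - P)) :=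
          ENNReal.tsum_le_tsum h1
      _ = ENNReal.ofReal (24 / 23) * ∑' n : ℕ, (ds (ent (1 + Z)) ((n : ℤ) - P) * wt T.toLen ρ1 ((n : ℤ) - P)) :=
          ENNReal.tsum_mul_left
      _ ≤ ENNReal.ofReal (24 / 23) * Nn T.toLen ρ1 (1 + Z) := by
          gcongr
          exact ENNReal.tsum_comp_le_tsum_of_injective (f := fun n : ℕ => (n : ℤ) - P)
            (by intro a b hab; simp only at hab; omega)
            (fun k => ds (ent (1 + Z)) k * wt T.toLen ρ1 k)
      _ ≤ ENNReal.ofReal (24 / 23) * ENNReal.ofReal (25 / 24) := by gcongr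
      _ = ENNReal.ofReal (24 / 23 * (25 / 24)) := by rw [← ENNReal.ofReal_mul (by norm_num)]
      _ ≤ ENNReal.ofReal 2 := by apply ENNReal.ofReal_le_ofReal; norm_num
      _ = 2 := by simp

/-- The direct spectral theorem. -/
theorem direct (T : Tor) {ρ1 κ ε : ℝ} (hp : KPar T ρ1 κ ε) {A : Hs →L[ℂ] Hs} (hA : SymOp A)
    (hT : ∀ K P : ℕ, ent A (K + 1) (P + 1) = ent A K P)
    (hN : Nn T.toLen (ρ1 + κ) A ≤ ENNReal.ofReal ε) :
    ∃ (b : HilbertBasis ℕ ℂ Hs) (lam : ℕ → ℝ), LocBasis T ρ1 A b lam := by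
  have hh := T.hpos
  obtain ⟨n, hn⟩ := exists_nat_gt (16 * ‖A‖ / T.h)
  have hn0 : (0 : ℝ) < n := lt_of_le_of_lt (by positivity) hn
  have hstep : ‖A‖ / n ≤ T.h / 16 := by
    rw [div_lt_iff₀ hh] at hn
    rw [div_le_iff₀ hn0]
    nlinarith
  have hNs : ∀ s : ℝ, 0 ≤ s → s ≤ 1 → Nn T.toLen (ρ1 + κ) (-((s : ℂ) • A)) ≤ ENNReal.ofReal ε := by
    intro s hs0 hs1
    rw [Nn_neg]
    refine le_trans ?_ hN
    apply Nm_le_of_le
    intro K P
    rw [ent_smul, enorm_mul]
    have : ‖(s : ℂ)‖ₑ ≤ 1 := by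
      rw [← ofReal_norm, Complex.norm_real, Real.norm_eq_abs, abs_of_nonneg hs0]
      exact_mod_cast ENNReal.ofReal_le_one.mpr hs1
    calc _ ≤ 1 * ‖ent A K P‖ₑ := by gcongr
      _ = _ := one_mul _
  have hSym : ∀ s : ℝ, SymOp ((s : ℂ) • A) := by
    intro s f g
    show ⟪(s : ℂ) • A f, g⟫ = ⟪f, (s : ℂ) • A g⟫
    rw [inner_smul_left, inner_smul_right, hA, Complex.conj_ofReal]
  have hToep : ∀ s : ℝ, ∀ K P : ℕ, ent ((s : ℂ) • A) (K + 1) (P + 1) = ent ((s : ℂ) • A) K P := by
    intro s K P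
    rw [ent_smul, ent_smul, hT]
  have key : ∀ j : ℕ, j ≤ n → ∃ y : Linf, Sol T ρ1 κ ε (-(((j / n : ℝ) : ℂ) • A)) y ∧
      (∀ K, (Lam T y K).im = 0) ∧
      ∃ b : HilbertBasis ℕ ℂ Hs, LocBasis T ρ1 (((j / n : ℝ) : ℂ) • A) b (fun K => (Lam T y K).re) := by
    intro j
    induction j with
    | zero =>
      intro _
      have h0 : (((0 : ℕ) / n : ℝ) : ℂ) • A = 0 := by simp
      have hsol : Sol T ρ1 κ ε (-((((0 : ℕ) / n : ℝ) : ℂ) • A)) 0 := by
        rw [h0]
        refine ⟨0, 1, ⟨?_, by simp, by simp⟩, ?_, ?_⟩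
        · intro K P
          simp [dg_zero, ent_zero]
        · rw [Nn_zero]; exact zero_le
        · rw [sub_self, Nn_zero]; exact zero_le
      refine ⟨0, hsol, ?_⟩
      apply basis_of_sol T hp (hSym _) (hToep _) hsol
      intro K
      unfold Lam
      simp
      nlinarith
    | succ j ih =>
      intro hj
      obtain ⟨y0, hs0, him0, b0, hb0⟩ := ih (by omega)
      have hgap := hb0.gap
      have hmono : ∀ m K : ℕ, (Lam T y0 K).re + T.h * m ≤ (Lam T y0 (K + m)).re := by
        intro m K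
        induction m with
        | zero => simp
        | succ m ihm =>
          have := hgap (K + m)
          rw [← add_assoc]; push_cast; linarith
      have hsep : ∀ K P : ℕ, K ≠ P → T.h * |(K : ℝ) - P| ≤ ‖Lam T y0 K - Lam T y0 P‖ := by
        intro K P hKP
        refine le_trans ?_ (Complex.abs_re_le_norm _)
        rw [Complex.sub_re]
        rcases lt_or_gt_of_ne hKP with h | h
        · obtain ⟨m, rfl⟩ := Nat.exists_eq_add_of_lt h
          have := hmono (m + 1) K
          rw [← add_assoc] at this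
          rw [abs_sub_comm, abs_sub_comm (Lam T y0 K).re]
          rw [abs_of_nonneg (by push_cast; linarith : (0:ℝ) ≤ ((K + m + 1 : ℕ) : ℝ) - K)]
          refine le_trans ?_ (le_abs_self _)
          push_cast at this ⊢; linarith
        · obtain ⟨m, rfl⟩ := Nat.exists_eq_add_of_lt h
          have := hmono (m + 1) P
          rw [← add_assoc] at this
          rw [abs_of_nonneg (by push_cast; linarith : (0:ℝ) ≤ ((P + m + 1 : ℕ) : ℝ) - P)]
          refine le_trans ?_ (le_abs_self _)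
          push_cast at this ⊢; linarith
      have hs1 : (((j + 1 : ℕ) : ℝ) / n) ≤ 1 := by
        rw [div_le_one hn0]; exact_mod_cast hj
      have hd : ‖-((((j + 1 : ℕ) / n : ℝ) : ℂ) • A) - -(((j / n : ℝ) : ℂ) • A)‖ ≤ T.h / 16 := by
        have h1 : -((((j + 1 : ℕ) / n : ℝ) : ℂ) • A) - -(((j / n : ℝ) : ℂ) • A)
            = (((-(1 / n) : ℝ)) : ℂ) • A := by
          rw [neg_sub_neg, ← sub_smul]
          congr 1
          rw [← Complex.ofReal_sub]
          congr 1; push_cast; ring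
        rw [h1, norm_smul, Complex.norm_real, norm_neg, Real.norm_eq_abs, abs_of_nonneg (by positivity)]
        calc 1 / (n : ℝ) * ‖A‖ = ‖A‖ / n := by ring
          _ ≤ _ := hstep
      obtain ⟨y, hy, hsol⟩ := cont_step T hp (hNs _ (by positivity) hs1) hsep hs0 hd
      refine ⟨y, hsol, ?_⟩
      apply basis_of_sol T hp (hSym _) (hToep _) hsol
      intro K
      have h1 := hgap K
      have h2 : ∀ K, |(Lam T y K).re - (Lam T y0 K).re| ≤ T.h / 4 := by
        intro K
        have h3 : (Lam T y K).re - (Lam T y0 K).re = ((y - y0) K).re := by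
          unfold Lam; simp
        rw [h3]
        exact (Complex.abs_re_le_norm _).trans ((norm_Linf_apply_le _ K).trans hy)
      have h4 := abs_le.mp (h2 K)
      have h5 := abs_le.mp (h2 (K + 1))
      linarith [h4.1, h4.2, h5.1, h5.2]
  obtain ⟨y, -, -, b, hb⟩ := key n le_rfl
  have h1 : (((n : ℝ) / n : ℝ) : ℂ) • A = A := by
    rw [div_self hn0.ne']; simp
  rw [h1] at hb
  exact ⟨b, _, hb⟩

end BO
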