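import Pool.Agent.Helper3.BO.Op

open scoped ENNReal NNReal lp ComplexConjugate
open Filter Topology

namespace BO

open scoped ComplexInnerProductSpace

/-- `f' = D f`, with `D = diag (h n)`. -/
def IsD (h : ℝ) (f f' : Hs) : Prop := ∀ n : ℕ, f' n = ((h * n : ℝ) : ℂ) * f n

/-- `(D - A) f = μ f`. -/
def IsEig (h : ℝ) (A : Hs →L[ℂ] Hs) (μ : ℂ) (f : Hs) : Prop :=
  ∀ n : ℕ, ((h * n : ℝ) : ℂ) * f n - (A f) n = μ * f n

def SymOp (A : Hs →L[ℂ] Hs) : Prop := ∀ f g : Hs, ⟪A f, g⟫ = ⟪f, A g⟫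

lemma IsEig.isD {h : ℝ} {A : Hs →L[ℂ] Hs} {μ : ℂ} {f : Hs} (hf : IsEig h A μ f) :
    IsD h f (μ • f + A f) := by
  intro n
  have := hf n
  show μ * f n + (A f) n = _
  linear_combination (-1 : ℂ) * this

lemma IsD.sym {h : ℝ} {f f' g g' : Hs} (hf : IsD h f f') (hg : IsD h g g') : ⟪f', g⟫ = ⟪f, g'⟫ := by
  have h1 := lp.hasSum_inner (𝕜 := ℂ) f' g
  have h2 := lp.hasSum_inner (𝕜 := ℂ) f g'
  have h3 : (fun i => ⟪f' i, g i⟫) = fun i => ⟪f i, g' i⟫ := by
    funext i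
    rw [hf i, hg i, RCLike.inner_apply, RCLike.inner_apply, map_mul, Complex.conj_ofReal]
    ring
  rw [h3] at h1
  exact h1.unique h2

lemma IsD.add {h : ℝ} {f f' g g' : Hs} (hf : IsD h f f') (hg : IsD h g g') : IsD h (f + g) (f' + g') := by
  intro n
  have := hf n; have := hg n
  simp only [lp.coeFn_add, Pi.add_apply]
  rw [hf n, hg n]; ring

lemma IsD.smul {h : ℝ} {f f' : Hs} (hf : IsD h f f') (c : ℂ) : IsD h (c • f) (c • f') := by
  intro n
  simp only [lp.coeFn_smul, Pi.smul_apply, smul_eq_mul]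
  rw [hf n]; ring

lemma IsD.sum {h : ℝ} {ι : Type*} (s : Finset ι) {f f' : ι → Hs} (hf : ∀ i, IsD h (f i) (f' i)) :
    IsD h (∑ i ∈ s, f i) (∑ i ∈ s, f' i) := by
  classical
  induction s using Finset.induction_on with
  | empty => intro n; simp
  | insert i s hi ih => rw [Finset.sum_insert hi, Finset.sum_insert hi]; exact (hf i).add ih

lemma IsEig.inner_eq {h : ℝ} {A : Hs →L[ℂ] Hs} (hA : SymOp A) {μ ν : ℂ} {f g : Hs}
    (hf : IsEig h A μ f) (hg : IsEig h A ν g) : (conj μ - ν) * ⟪f, g⟫ = 0 := by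
  have h1 := hf.isD.sym hg.isD
  rw [inner_add_left, inner_add_right, inner_smul_left, inner_smul_right, hA f g] at h1
  linear_combination h1

lemma IsEig.im_eq_zero {h : ℝ} {A : Hs →L[ℂ] Hs} (hA : SymOp A) {μ : ℂ} {f : Hs}
    (hf : IsEig h A μ f) (hf0 : f ≠ 0) : μ.im = 0 := by
  have h1 := IsEig.inner_eq hA hf hf
  have h2 : ⟪f, f⟫ ≠ 0 := by simpa using hf0
  have h3 : conj μ - μ = 0 := (mul_eq_zero.mp h1).resolve_right h2
  have h4 := congrArg Complex.im h3
  simp at h4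
  linarith

lemma IsEig.smul {h : ℝ} {A : Hs →L[ℂ] Hs} {μ : ℂ} {f : Hs} (hf : IsEig h A μ f) (c : ℂ) :
    IsEig h A μ (c • f) := by
  intro n
  have := hf n
  rw [map_smul]
  simp only [lp.coeFn_smul, Pi.smul_apply, smul_eq_mul]
  linear_combination c * this

/-- Interlacing. -/
theorem interlace {h : ℝ} {A : Hs →L[ℂ] Hs} (hA : SymOp A)
    (hT : ∀ K P : ℕ, ent A (K + 1) (P + 1) = ent A K P)
    (b : HilbertBasis ℕ ℂ Hs) (lam : ℕ → ℝ) (hmono : Monotone lam)
    (hb : ∀ P, IsEig h A (lam P) (b P)) (K : ℕ) : lam K + h ≤ lam (K + 1) := by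
  classical
  -- a nonzero combination
  let Φ : (Fin (K + 2) → ℂ) →ₗ[ℂ] Hs := Fintype.linearCombination ℂ (fun i : Fin (K + 2) => b i)
  let Ψ : (Fin (K + 2) → ℂ) →ₗ[ℂ] (Fin (K + 1) → ℂ) :=
    LinearMap.pi (fun j : Fin (K + 1) =>
      if (j : ℕ) = K then (ev 0 : Hs →ₗ[ℂ] ℂ) ∘ₗ Φ
      else ((innerSL ℂ (b j) : Hs →L[ℂ] ℂ).comp (Sh (-1)) : Hs →ₗ[ℂ] ℂ) ∘ₗ Φ)
  have hker : LinearMap.ker Ψ ≠ ⊥ := by
    apply LinearMap.ker_ne_bot_of_finrank_lt
    simp
  obtain ⟨c, hc, hc0⟩ := (Submodule.ne_bot_iff _).mp hker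
  rw [LinearMap.mem_ker] at hc
  set g : Hs := Φ c with hg
  have hgsum : g = ∑ i, c i • b i := by
    rw [hg]; simp [Φ, Fintype.linearCombination_apply]
  have hg0 : g 0 = 0 := by
    have := congrFun hc ⟨K, by omega⟩
    have h : ev 0 (Φ c) = 0 := by simpa [Ψ] using this
    exact h
  have hort : ∀ j < K, ⟪b j, Sh (-1) g⟫ = 0 := by
    intro j hj
    have := congrFun hc ⟨j, by omega⟩
    simp only [Ψ, LinearMap.pi_apply] at this
    rw [if_neg (by show ¬ (j = K); omega)] at this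
    simpa using this
  have hgne : g ≠ 0 := by
    intro h0
    apply hc0
    funext i
    have h1 : ⟪b i, g⟫ = c i := by
      rw [hgsum]
      have hin : Orthonormal ℂ (fun i : Fin (K + 2) => b i) := b.orthonormal.comp _ Fin.val_injective
      exact hin.inner_right_fintype c i
    rw [← h1, h0, inner_zero_right]; rfl
  set gp : Hs := Sh (-1) g with hgp
  have hgpn : ∀ n, gp n = g (n + 1) := by
    intro n
    rw [hgp, Sh_apply, if_pos (by omega)]
    congr 1
  -- D g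
  set gD : Hs := ∑ i : Fin (K + 2), c i • ((lam i : ℂ) • (b i : Hs) + A (b i)) with hgD
  have hD1 : IsD h g gD := by
    rw [hgsum, hgD]
    exact IsD.sum _ (fun i => ((hb i).isD).smul (c i))
  set Lg : Hs := ∑ i : Fin (K + 2), c i • ((lam i : ℂ) • (b i : Hs)) with hLg
  have hLg' : gD = Lg + A g := by
    rw [hgD, hLg, hgsum, map_sum, ← Finset.sum_add_distrib]
    apply Finset.sum_congr rfl
    intro i _
    rw [map_smul, smul_add]
  set Lgp : Hs := Sh (-1) Lg - (h : ℂ) • gp with hLgp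
  have hshA : Sh (-1) (A g) = A gp := by
    ext n
    rw [Sh_apply, if_pos (by omega)]
    have h1 : ((n : ℤ) - -1).toNat = n + 1 := by omega
    rw [h1]
    have h2 := hasSum_apply A g (n + 1)
    have h3 := hasSum_apply A gp n
    have h4 := (hasSum_nat_add_iff' 1).mpr h2
    simp only [Finset.range_one, Finset.sum_singleton, hg0, mul_zero, sub_zero] at h4
    have h5 : (fun P => ent A (n + 1) (P + 1) * g (P + 1)) = fun P => ent A n P * gp P := by
      funext P; rw [hT, hgpn]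
    rw [h5] at h4
    exact h4.unique h3
  have hD2 : IsD h gp (Lgp + A gp) := by
    intro n
    have h1 := hD1 (n + 1)
    rw [hLg'] at h1
    have h2 : (Sh (-1) Lg) n = Lg (n + 1) := by
      rw [Sh_apply, if_pos (by omega)]; congr 1
    have h3 : (A gp) n = (A g) (n + 1) := by
      rw [← hshA, Sh_apply, if_pos (by omega)]; congr 1
    rw [hLgp]
    simp only [lp.coeFn_add, lp.coeFn_sub, lp.coeFn_smul, Pi.add_apply, Pi.sub_apply, Pi.smul_apply,
      smul_eq_mul] at h1 ⊢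
    rw [h2, h3, hgpn]
    push_cast at h1 ⊢
    linear_combination h1
  -- norms
  have hnorm : ⟪gp, gp⟫ = ⟪g, g⟫ := by
    have h1 := lp.hasSum_inner (𝕜 := ℂ) g g
    have h2 := (hasSum_nat_add_iff' 1).mpr h1
    simp only [Finset.range_one, Finset.sum_singleton, hg0, inner_zero_left, sub_zero] at h2
    have h3 := lp.hasSum_inner (𝕜 := ℂ) gp gp
    simp only [hgpn] at h3
    exact h3.unique h2
  have hform : ⟪gp, Sh (-1) Lg⟫ = ⟪g, Lg⟫ := by
    have h1 := lp.hasSum_inner (𝕜 := ℂ) g Lg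
    have h2 := (hasSum_nat_add_iff' 1).mpr h1
    simp only [Finset.range_one, Finset.sum_singleton, hg0, inner_zero_left, sub_zero] at h2
    have h3 := lp.hasSum_inner (𝕜 := ℂ) gp (Sh (-1) Lg)
    have h4 : ∀ n, (Sh (-1) Lg) n = Lg (n + 1) := by
      intro n; rw [Sh_apply, if_pos (by omega)]; congr 1
    simp only [hgpn, h4] at h3
    exact h3.unique h2
  have horth : Orthonormal ℂ (fun i : Fin (K + 2) => b i) := b.orthonormal.comp _ Fin.val_injective
  have hgg : ⟪g, g⟫ = ∑ i : Fin (K + 2), ((‖c i‖ ^ 2 : ℝ) : ℂ) := by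
    rw [hgsum, horth.inner_sum]
    apply Finset.sum_congr rfl
    intro i _
    rw [← Complex.normSq_eq_norm_sq, Complex.normSq_eq_conj_mul_self]
  have hgL : ⟪g, Lg⟫ = ∑ i : Fin (K + 2), ((lam i * ‖c i‖ ^ 2 : ℝ) : ℂ) := by
    have h1 : Lg = ∑ i : Fin (K + 2), (c i * lam i) • (b i : Hs) := by
      rw [hLg]; apply Finset.sum_congr rfl; intro i _; rw [smul_smul]
    rw [h1, hgsum, horth.inner_sum]
    apply Finset.sum_congr rfl
    intro i _
    push_cast
    have := Complex.normSq_eq_conj_mul_self (z := c i)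
    rw [Complex.normSq_eq_norm_sq] at this
    push_cast at this
    linear_combination (-(lam i : ℂ)) * this
  set N : ℝ := ∑ i : Fin (K + 2), ‖c i‖ ^ 2 with hN
  have hNpos : 0 < N := by
    have h1 : ⟪g, g⟫ = ((N : ℝ) : ℂ) := by rw [hgg, hN]; push_cast; rfl
    have h2 : ⟪g, g⟫ ≠ 0 := by simpa using hgne
    have h3 : N ≠ 0 := by
      intro h; rw [h1, h] at h2; exact h2 rfl
    exact lt_of_le_of_ne (Finset.sum_nonneg fun i _ => by positivity) (Ne.symm h3)
  have hub : (⟪g, Lg⟫).re ≤ lam (K + 1) * N := by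
    rw [hgL, ← Complex.ofReal_sum, Complex.ofReal_re, hN, Finset.mul_sum]
    apply Finset.sum_le_sum
    intro i _
    have : lam i ≤ lam (K + 1) := hmono (by have := i.2; omega)
    gcongr
  have hLgpv : (⟪gp, Lgp⟫).re = (⟪g, Lg⟫).re - h * N := by
    rw [hLgp, inner_sub_right, inner_smul_right, hform, hnorm]
    have h1 : ⟪g, g⟫ = ((N : ℝ) : ℂ) := by rw [hgg, hN]; push_cast; rfl
    rw [h1]; simp
  -- lower bound
  have hcoef : ∀ P, ⟪b P, Lgp⟫ = lam P * ⟪b P, gp⟫ := by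
    intro P
    have h1 := (hb P).isD.sym hD2
    rw [inner_add_left, inner_add_right, inner_smul_left, Complex.conj_ofReal, hA] at h1
    linear_combination (-1 : ℂ) * h1
  have h1 := b.hasSum_inner_mul_inner gp Lgp
  have h2 := b.hasSum_inner_mul_inner gp gp
  have h3 := (Complex.hasSum_re h1)
  have h4 := (Complex.hasSum_re h2)
  have h5 : ∀ P, (⟪gp, b P⟫ * ⟪b P, Lgp⟫).re = lam P * ‖⟪b P, gp⟫‖ ^ 2 := by
    intro P
    rw [hcoef, ← inner_conj_symm gp (b P)]
    have := Complex.normSq_eq_conj_mul_self (z := ⟪b P, gp⟫)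
    rw [Complex.normSq_eq_norm_sq] at this
    have h6 : (starRingEnd ℂ) ⟪b P, gp⟫ * ((lam P : ℂ) * ⟪b P, gp⟫)
        = ((lam P * ‖⟪b P, gp⟫‖ ^ 2 : ℝ) : ℂ) := by
      push_cast at this ⊢
      linear_combination (-(lam P : ℂ)) * this
    rw [h6, Complex.ofReal_re]
  have h6 : ∀ P, (⟪gp, b P⟫ * ⟪b P, gp⟫).re = ‖⟪b P, gp⟫‖ ^ 2 := by
    intro P
    rw [← inner_conj_symm gp (b P)]
    have := Complex.normSq_eq_conj_mul_self (z := ⟪b P, gp⟫)
    rw [Complex.normSq_eq_norm_sq] at this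
    rw [← this, Complex.ofReal_re]
  simp only [h5] at h3
  simp only [h6] at h4
  have h7 : lam K * (⟪gp, gp⟫).re ≤ (⟪gp, Lgp⟫).re := by
    refine hasSum_le (fun P => ?_) (h4.mul_left (lam K)) h3
    rcases lt_or_ge P K with hP | hP
    · rw [hort P hP]; simp
    · gcongr; exact hmono hP
  have h8 : (⟪gp, gp⟫).re = N := by
    rw [hnorm, hgg, hN, ← Complex.ofReal_sum, Complex.ofReal_re]
  rw [h8, hLgpv] at h7
  have h9 : (lam K + h) * N ≤ lam (K + 1) * N := by nlinarith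
  exact le_of_mul_le_mul_right h9 hNpos

end BO
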