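import Pool.Agent.Helper3.BO.Path

open scoped ENNReal NNReal lp ComplexConjugate Topology
open Filter Set

namespace BO

open scoped ComplexInnerProductSpace

lemma wt_add_rho (L : Len) (ρ σ : ℝ) (k : ℤ) : wt L (ρ + σ) k = wt L ρ k * wt L σ k := by
  unfold wt
  rw [← ENNReal.ofReal_mul (Real.exp_pos _).le, ← Real.exp_add, add_mul]

lemma pow_le_wt (ℓ b : ℕ) {δ : ℝ} (hδ : 0 < δ) :
    (ℓ : ℝ) ^ b ≤ b.factorial / δ ^ b * Real.exp (δ * (ℓ : ℝ)) := by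
  have h11 : (δ * (ℓ : ℝ)) ^ b / b.factorial ≤ Real.exp (δ * (ℓ : ℝ)) :=
    Real.pow_div_factorial_le_exp _ (by positivity) _
  rw [mul_pow] at h11
  rw [div_le_iff₀ (by positivity)] at h11
  rw [div_mul_eq_mul_div, le_div_iff₀ (by positivity)]
  linarith

/-- pairing of a localised vector with a decaying sequence -/
lemma pair_bound {T : Tor} {ρ : ℝ} (hρ : 0 ≤ ρ) {f g : Hs} {P : ℕ} {s : ℤ}
    (hf : ∑' n : ℕ, ‖f n‖ₑ * wt T.toLen ρ ((n : ℤ) - P) ≤ 2) {c : ℝ≥0∞}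
    (hg : ∀ n : ℕ, ‖g n‖ₑ * wt T.toLen ρ ((n : ℤ) + s) ≤ c) :
    ‖⟪f, g⟫‖ₑ * wt T.toLen ρ ((P : ℤ) + s) ≤ 2 * c := by
  have h1 : ‖⟪f, g⟫‖ₑ ≤ ∑' n : ℕ, ‖f n‖ₑ * ‖g n‖ₑ := by
    rw [← (lp.hasSum_inner (𝕜 := ℂ) f g).tsum_eq]
    refine enorm_tsum_le_tsum_enorm.trans ?_
    apply ENNReal.tsum_le_tsum
    intro n
    rw [RCLike.inner_apply, enorm_mul, mul_comm]
    gcongr
    rw [← ofReal_norm, RCLike.norm_conj, ofReal_norm]
  calc ‖⟪f, g⟫‖ₑ * wt T.toLen ρ ((P : ℤ) + s) ≤ (∑' n : ℕ, ‖f n‖ₑ * ‖g n‖ₑ) * wt T.toLen ρ ((P : ℤ) + s) := by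
        gcongr
    _ = ∑' n : ℕ, ‖f n‖ₑ * ‖g n‖ₑ * wt T.toLen ρ ((P : ℤ) + s) := by rw [ENNReal.tsum_mul_right]
    _ ≤ ∑' n : ℕ, ‖f n‖ₑ * wt T.toLen ρ ((n : ℤ) - P) * c := by
        apply ENNReal.tsum_le_tsum
        intro n
        have h2 : wt T.toLen ρ ((P : ℤ) + s) ≤ wt T.toLen ρ ((n : ℤ) - P) * wt T.toLen ρ ((n : ℤ) + s) := by
          have h3 : (P : ℤ) + s = -((n : ℤ) - P) + ((n : ℤ) + s) := by ring
          rw [h3]
          refine (wt_add_le T.toLen hρ _ _).trans ?_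
          rw [wt_neg]
        calc _ ≤ ‖f n‖ₑ * ‖g n‖ₑ * (wt T.toLen ρ ((n : ℤ) - P) * wt T.toLen ρ ((n : ℤ) + s)) := by gcongr
          _ = ‖f n‖ₑ * wt T.toLen ρ ((n : ℤ) - P) * (‖g n‖ₑ * wt T.toLen ρ ((n : ℤ) + s)) := by ring
          _ ≤ _ := by gcongr; exact hg n
    _ = (∑' n : ℕ, ‖f n‖ₑ * wt T.toLen ρ ((n : ℤ) - P)) * c := by rw [ENNReal.tsum_mul_right]
    _ ≤ 2 * c := by gcongr

lemma norm_ShOp_le (k : ℤ) : ‖Sh k‖ ≤ 1 := norm_Sh_le k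

lemma gap_mono {T : Tor} {lam : ℕ → ℝ} (hgap : ∀ K, lam K + T.h ≤ lam (K + 1)) (K m : ℕ) :
    lam K + T.h * m ≤ lam (K + m) := by
  induction m with
  | zero => simp
  | succ m ihm =>
    have := hgap (K + m)
    rw [← add_assoc]; push_cast; linarith

lemma gap_sep {T : Tor} {lam : ℕ → ℝ} (hgap : ∀ K, lam K + T.h ≤ lam (K + 1)) {K P : ℕ} (hKP : K + 1 ≠ P) :
    T.h * |(((K : ℤ) + 1 - P : ℤ) : ℝ)| ≤ |lam P - lam K - T.h| := by
  have hh := T.hpos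
  rcases lt_or_gt_of_ne hKP with h | h
  · obtain ⟨m, rfl⟩ := Nat.exists_eq_add_of_lt h
    have h1 := gap_mono hgap (K + 1) (m + 1)
    have h2 := hgap K
    rw [← add_assoc] at h1
    refine le_trans ?_ (le_abs_self _)
    have h3 : |(((K : ℤ) + 1 - (K + 1 + m + 1 : ℕ) : ℤ) : ℝ)| = (m : ℝ) + 1 := by
      push_cast
      rw [abs_of_nonpos (by linarith)]; ring
    rw [h3]
    push_cast at h1
    linarith
  · have h1 := gap_mono hgap P (K - P)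
    have h4 : P + (K - P) = K := by omega
    rw [h4] at h1
    refine le_trans ?_ (neg_le_abs _)
    have h3 : |(((K : ℤ) + 1 - P : ℤ) : ℝ)| = ((K - P : ℕ) : ℝ) + 1 := by
      have h5 : ((K - P : ℕ) : ℝ) = (K : ℝ) - P := by rw [Nat.cast_sub (by omega)]
      have h6 : (P : ℝ) ≤ K := by exact_mod_cast (by omega : P ≤ K)
      push_cast
      rw [h5, abs_of_nonneg (by linarith)]; ring
    rw [h3]
    linarith

theorem path_init (T : Tor) {ρ1 ρ2 : ℝ} (h0 : 0 ≤ ρ2) (h12 : ρ2 < ρ1) {v : ℤ → ℂ} (hv : Sm T.h v)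
    (hr : ∀ k, v (-k) = conj (v k)) {ε : ℝ} (hε : 0 ≤ ε)
    (hvb : ∀ k, ‖v k‖ₑ * wt T.toLen ρ1 k ≤ ENNReal.ofReal ε)
    {b : HilbertBasis ℕ ℂ Hs} {lam : ℕ → ℝ} (hb : LocBasis T ρ1 (Tp v) b lam) {S : ℝ} (hS0 : 0 ≤ S)
    (hS : ∑' k : ℤ, wt T.toLen (-((ρ1 - ρ2) / 2)) k ≤ ENNReal.ofReal S)
    (hsmall : 4 * ε / T.a * (T.b.factorial / ((ρ1 - ρ2) / 2) ^ T.b) * S ^ 2 ≤ 1 / 2) :
    Spec T.h v lam (fun P => ‖b P 0‖) (fun N P => ‖⟪b N, Sh (-1) (b P)⟫‖) b ∧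
    PathHyp T.toLen ρ2 lam (fun P => ‖b P 0‖) (fun N P => ‖⟪b N, Sh (-1) (b P)⟫‖)
      (ENNReal.ofReal (2 * S)) (ENNReal.ofReal (2 * ε * S)) := by
  have hρ1 : 0 ≤ ρ1 := by linarith
  set δ : ℝ := (ρ1 - ρ2) / 2 with hδ
  have hδ0 : 0 < δ := by rw [hδ]; linarith
  set L := T.toLen with hL
  have ha := T.apos
  have hspec : Spec T.h v lam (fun P => ‖b P 0‖) (fun N P => ‖⟪b N, Sh (-1) (b P)⟫‖) b :=
    ⟨hb.eig, fun _ => rfl, fun _ _ => rfl⟩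
  refine ⟨hspec, ?_⟩
  -- (1)
  have hw1 : ∀ P : ℕ, ‖b P 0‖ₑ * wt L ρ1 P ≤ 2 := by
    intro P
    refine le_trans ?_ (hb.loc P)
    have := ENNReal.le_tsum (f := fun n : ℕ => ‖b P n‖ₑ * wt T.toLen ρ1 ((n : ℤ) - P)) 0
    refine le_trans (le_of_eq ?_) this
    have h3 : ((0 : ℕ) : ℤ) - P = -(P : ℤ) := by simp
    rw [h3, wt_neg]
  -- (2)
  have hp1 : ∀ P : ℕ, ‖⟪b P, Tp v (e 0)⟫‖ₑ * wt L ρ1 P ≤ 2 * ENNReal.ofReal ε := by
    intro P
    have := pair_bound hρ1 (T := T) (f := b P) (g := Tp v (e 0)) (P := P) (s := 0) (hb.loc P)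
      (c := ENNReal.ofReal ε) (by
        intro n
        rw [apply_e, ent_Tp hv.s0, add_zero]
        have h3 : (n : ℤ) - ((0 : ℕ) : ℤ) = n := by simp
        rw [h3]; exact hvb n)
    rwa [add_zero] at this
  have hp2 : ∀ P : ℕ, ENNReal.ofReal (|lam P| * ‖b P 0‖) * wt L ρ1 P ≤ 2 * ENNReal.ofReal ε := by
    intro P
    refine le_trans (le_of_eq ?_) (hp1 P)
    congr 1
    rw [← Tp_sym hv.s0 hr, inner_e_right, eig_zero (hb.eig P), ← ofReal_norm, RCLike.norm_conj, norm_neg,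
      norm_mul, Complex.norm_real, Real.norm_eq_abs]
  -- (3)
  have ha1 : ∀ K : ℕ, ‖⟪b K, av v⟫‖ₑ * wt L ρ1 ((K : ℤ) + 1) ≤ 2 * ENNReal.ofReal ε := by
    intro K
    apply pair_bound hρ1 (T := T) (f := b K) (g := av v) (P := K) (s := 1) (hb.loc K)
    intro n
    rw [av_apply hv.s0]
    exact hvb _
  have hsplit : ∀ (ρ : ℝ) (x : ℝ≥0∞) (k : ℤ) (c : ℝ≥0∞), x * wt L ρ1 k ≤ c →
      x * wt L ρ k ≤ c * wt L (ρ - ρ1) k := by
    intro ρ x k c h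
    have : wt L ρ k = wt L ρ1 k * wt L (ρ - ρ1) k := by rw [← wt_add_rho]; congr 1; ring
    rw [this, ← mul_assoc]
    gcongr
  have hnat : ∀ f : ℤ → ℝ≥0∞, ∑' n : ℕ, f n ≤ ∑' k : ℤ, f k := fun f =>
    ENNReal.tsum_comp_le_tsum_of_injective (f := fun n : ℕ => (n : ℤ)) Nat.cast_injective f
  have hnat1 : ∀ f : ℤ → ℝ≥0∞, ∑' n : ℕ, f ((n : ℤ) + 1) ≤ ∑' k : ℤ, f k := fun f =>
    ENNReal.tsum_comp_le_tsum_of_injective (f := fun n : ℕ => (n : ℤ) + 1)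
      (by intro a b hab; simp only at hab; omega) f
  have hrho2 : ∀ k, wt L (ρ2 - ρ1) k ≤ wt L (-δ) k := fun k => wt_mono L (by rw [hδ]; linarith) k
  refine ⟨?_, ?_, ?_, ?_⟩
  · intro N P
    calc ‖⟪b N, Sh (-1) (b P)⟫‖ ≤ ‖b N‖ * ‖Sh (-1) (b P)‖ := norm_inner_le_norm _ _
      _ ≤ 1 * (1 * 1) := by
        have h1 : ‖b N‖ = 1 := b.orthonormal.1 N
        have h2 : ‖b P‖ = 1 := b.orthonormal.1 P
        rw [h1]
        gcongr
        refine ((Sh (-1)).le_opNorm _).trans ?_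
        rw [h2]
        gcongr
        exact norm_Sh_le _
      _ = 1 := by norm_num
  · set c0 : ℝ := 1 / T.a * (T.b.factorial / δ ^ T.b) with hc0
    have hc00 : 0 ≤ c0 := by positivity
    have hG : ∀ K P : ℕ, GG L ρ2 (fun N P => ‖⟪b N, Sh (-1) (b P)⟫‖) K P
        ≤ ENNReal.ofReal c0 * ((2 * ENNReal.ofReal ε * wt L (-δ) ((K : ℤ) + 1)) * (2 * wt L (-δ) P)) := by
      intro K P
      unfold GG
      split_ifs with hKP
      · exact zero_le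
      · set k : ℤ := (K : ℤ) + 1 - P with hk
        have hk0 : k ≠ 0 := by omega
        have hdio := T.dio k hk0
        have hgs := gap_sep hb.gap hKP
        rw [← hk] at hgs
        have hrel := M_rel hv hr (hb.eig P) (hb.eig K)
        have hreln : |lam P - lam K - T.h| * ‖⟪b K, Sh (-1) (b P)⟫‖ = ‖b P 0‖ * ‖⟪b K, av v⟫‖ := by
          have := congrArg norm hrel
          rw [norm_mul, norm_neg, norm_mul] at this
          rw [← this]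
          congr 1
          rw [← Complex.ofReal_sub, ← Complex.ofReal_sub, Complex.norm_real, Real.norm_eq_abs]
        have hm : ‖⟪b K, Sh (-1) (b P)⟫‖ ≤ c0 * Real.exp (δ * (L.ℓ k : ℝ)) * (‖⟪b K, av v⟫‖ * ‖b P 0‖) := by
          have h1 : T.a * ‖⟪b K, Sh (-1) (b P)⟫‖ ≤ (L.ℓ k : ℝ) ^ T.b * (‖b P 0‖ * ‖⟪b K, av v⟫‖) := by
            rw [← hreln]
            calc T.a * ‖⟪b K, Sh (-1) (b P)⟫‖
                ≤ (T.h * |(k : ℝ)| * (T.ℓ k : ℝ) ^ T.b) * ‖⟪b K, Sh (-1) (b P)⟫‖ := by gcongr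
              _ ≤ (|lam P - lam K - T.h| * (T.ℓ k : ℝ) ^ T.b) * ‖⟪b K, Sh (-1) (b P)⟫‖ := by gcongr
              _ = _ := by ring
          have h2 := pow_le_wt (L.ℓ k) T.b hδ0
          calc ‖⟪b K, Sh (-1) (b P)⟫‖ = 1 / T.a * (T.a * ‖⟪b K, Sh (-1) (b P)⟫‖) := by field_simp
            _ ≤ 1 / T.a * ((L.ℓ k : ℝ) ^ T.b * (‖b P 0‖ * ‖⟪b K, av v⟫‖)) := by gcongr
            _ ≤ 1 / T.a * ((T.b.factorial / δ ^ T.b * Real.exp (δ * (L.ℓ k : ℝ))) * (‖b P 0‖ * ‖⟪b K, av v⟫‖)) := by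
                gcongr
            _ = _ := by rw [hc0]; ring
        have hm' : ENNReal.ofReal ‖⟪b K, Sh (-1) (b P)⟫‖
            ≤ ENNReal.ofReal c0 * wt L δ k * (‖⟪b K, av v⟫‖ₑ * ‖b P 0‖ₑ) := by
          refine (ENNReal.ofReal_le_ofReal hm).trans (le_of_eq ?_)
          rw [ENNReal.ofReal_mul (by positivity), ENNReal.ofReal_mul hc00, ENNReal.ofReal_mul (norm_nonneg _),
            ofReal_norm, ofReal_norm]
          rfl
        have hwt : wt L δ k * wt L ρ2 k ≤ wt L (ρ1 - δ) ((K : ℤ) + 1) * wt L (ρ1 - δ) P := by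
          rw [← wt_add_rho]
          have h3 : δ + ρ2 = ρ1 - δ := by rw [hδ]; ring
          rw [h3]
          have h4 : k = ((K : ℤ) + 1) + (-(P : ℤ)) := by rw [hk]; ring
          rw [h4]
          refine (wt_add_le L (by rw [hδ]; linarith) _ _).trans ?_
          rw [wt_neg]
        calc ENNReal.ofReal ‖⟪b K, Sh (-1) (b P)⟫‖ * wt L ρ2 k
            ≤ (ENNReal.ofReal c0 * wt L δ k * (‖⟪b K, av v⟫‖ₑ * ‖b P 0‖ₑ)) * wt L ρ2 k := by gcongr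
          _ = ENNReal.ofReal c0 * (‖⟪b K, av v⟫‖ₑ * ‖b P 0‖ₑ) * (wt L δ k * wt L ρ2 k) := by ring
          _ ≤ ENNReal.ofReal c0 * (‖⟪b K, av v⟫‖ₑ * ‖b P 0‖ₑ) *
              (wt L (ρ1 - δ) ((K : ℤ) + 1) * wt L (ρ1 - δ) P) := by gcongr
          _ = ENNReal.ofReal c0 * ((‖⟪b K, av v⟫‖ₑ * wt L (ρ1 - δ) ((K : ℤ) + 1)) *
              (‖b P 0‖ₑ * wt L (ρ1 - δ) P)) := by ring
          _ ≤ _ := by
              refine mul_le_mul' le_rfl (mul_le_mul' ?_ ?_)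
              · have := hsplit (ρ1 - δ) _ _ _ (ha1 K)
                rwa [show ρ1 - δ - ρ1 = -δ by ring] at this
              · have := hsplit (ρ1 - δ) _ _ _ (hw1 P)
                rwa [show ρ1 - δ - ρ1 = -δ by ring] at this
    calc ∑' P, ∑' K, GG L ρ2 (fun N P => ‖⟪b N, Sh (-1) (b P)⟫‖) K P
        ≤ ∑' P : ℕ, ∑' K : ℕ, ENNReal.ofReal c0 * ((2 * ENNReal.ofReal ε * wt L (-δ) ((K : ℤ) + 1)) * (2 * wt L (-δ) P)) :=
          ENNReal.tsum_le_tsum fun P => ENNReal.tsum_le_tsum fun K => hG K P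
      _ = ENNReal.ofReal c0 * ((2 * ENNReal.ofReal ε * ∑' K : ℕ, wt L (-δ) ((K : ℤ) + 1)) *
            (2 * ∑' P : ℕ, wt L (-δ) P)) := by
          rw [← ENNReal.tsum_mul_left (a := 2), ← ENNReal.tsum_mul_left, ← ENNReal.tsum_mul_left]
          congr 1; funext P
          rw [← ENNReal.tsum_mul_left, ← ENNReal.tsum_mul_right, ← ENNReal.tsum_mul_left]
      _ ≤ ENNReal.ofReal c0 * ((2 * ENNReal.ofReal ε * ENNReal.ofReal S) * (2 * ENNReal.ofReal S)) := by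
          gcongr
          · exact (hnat1 _).trans hS
          · exact (hnat _).trans hS
      _ = ENNReal.ofReal (c0 * ((2 * ε * S) * (2 * S))) := by
          rw [ENNReal.ofReal_mul hc00, ENNReal.ofReal_mul (by positivity), ENNReal.ofReal_mul (by positivity),
            ENNReal.ofReal_mul (by positivity), ENNReal.ofReal_mul (by positivity)]
          simp
      _ ≤ ENNReal.ofReal (1 / 2) := by
          apply ENNReal.ofReal_le_ofReal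
          calc c0 * ((2 * ε * S) * (2 * S)) = 4 * ε / T.a * (T.b.factorial / δ ^ T.b) * S ^ 2 := by
                rw [hc0]; ring
            _ ≤ _ := hsmall
      _ = 1 / 2 := by
          rw [ENNReal.ofReal_div_of_pos (by norm_num)]; simp
  · calc ∑' N : ℕ, ENNReal.ofReal ‖b N 0‖ * wt L ρ2 N ≤ ∑' N : ℕ, 2 * wt L (-δ) N := by
          apply ENNReal.tsum_le_tsum
          intro N
          rw [ofReal_norm]
          refine (hsplit ρ2 _ _ _ (hw1 N)).trans ?_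
          gcongr
          exact hrho2 N
      _ = 2 * ∑' N : ℕ, wt L (-δ) N := ENNReal.tsum_mul_left
      _ ≤ 2 * ENNReal.ofReal S := by gcongr; exact (hnat _).trans hS
      _ = ENNReal.ofReal (2 * S) := by rw [ENNReal.ofReal_mul (by norm_num)]; simp
  · calc ∑' P : ℕ, ENNReal.ofReal (|lam P| * ‖b P 0‖) * wt L ρ2 P
        ≤ ∑' P : ℕ, 2 * ENNReal.ofReal ε * wt L (-δ) P := by
          apply ENNReal.tsum_le_tsum
          intro P
          refine (hsplit ρ2 _ _ _ (hp2 P)).trans ?_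
          gcongr
          exact hrho2 P
      _ = 2 * ENNReal.ofReal ε * ∑' P : ℕ, wt L (-δ) P := ENNReal.tsum_mul_left
      _ ≤ 2 * ENNReal.ofReal ε * ENNReal.ofReal S := by gcongr; exact (hnat _).trans hS
      _ = ENNReal.ofReal (2 * ε * S) := by
          rw [ENNReal.ofReal_mul (by positivity), ENNReal.ofReal_mul (by norm_num)]; simp

end BO
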