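import Pool.Agent.Helper3.BO.Local
import Pool.Agent.Helper3.BO.Init
import Pool.Agent.Helper3.BO.Direct

open scoped ENNReal NNReal Topology ComplexConjugate
open Filter Set MeasureTheory

namespace BO

lemma tsol_of_local (M : Modes ℤ) {h : ℝ} (hξ : M.ξ = fun k : ℤ => h * k) {t0 t1 : ℝ} {v : ℝ → ℤ → ℂ}
    {σ A : ℝ} (hσ : 0 < σ) (hA : 0 ≤ A)
    (hode : ∀ t ∈ Icc t0 t1, ∀ k, HasDerivWithinAt (fun s => v s k) (NL M.ξ (v t) k) (Icc t0 t1) t)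
    (hb : ∀ t ∈ Icc t0 t1, ∀ k, ‖v t k‖ ≤ A * Real.exp (-(σ * M.ℓ k)))
    (hr : ∀ t ∈ Icc t0 t1, ∀ k, v t (-k) = conj (v t k)) : TSol h t0 t1 v := by
  refine ⟨hr, ?_, ?_⟩
  · intro t ht k
    have := hode t ht k
    rw [hξ] at this
    exact this
  · refine ⟨fun k => M.cM σ A * Real.exp (-(σ / 4 * M.ℓ k)), (M.summ (σ / 4) (by positivity)).mul_left _, ?_⟩
    intro t ht k
    have := M.NL_bound hσ hA (hb t ht) k
    rw [hξ] at this
    exact this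

lemma hasDeriv_shift {f : ℝ → ℂ} {f' : ℂ} {T0 t1 t : ℝ} (ht : t ∈ Icc t1 (t1 + T0))
    (h : HasDerivWithinAt f f' (Icc 0 T0) (t - t1)) :
    HasDerivWithinAt (fun s => f (s - t1)) f' (Icc t1 (t1 + T0)) t := by
  have h1 : HasDerivWithinAt (fun s : ℝ => s - t1) 1 (Icc t1 (t1 + T0)) t :=
    (hasDerivWithinAt_id t _).sub_const t1
  have h2 : MapsTo (fun s : ℝ => s - t1) (Icc t1 (t1 + T0)) (Icc 0 T0) := by
    intro s hs
    exact ⟨by linarith [hs.1], by linarith [hs.2]⟩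
  have := HasDerivWithinAt.scomp t h h1 h2
  rw [one_smul] at this
  exact this

lemma hasDeriv_glue {f g : ℝ → ℂ} {f' : ℂ} {t1 t2 t : ℝ} (h01 : 0 ≤ t1) (h12 : t1 ≤ t2)
    (hfg : f t1 = g t1) (ht : t ∈ Icc 0 t2)
    (hf : t ∈ Icc 0 t1 → HasDerivWithinAt f f' (Icc 0 t1) t)
    (hg : t ∈ Icc t1 t2 → HasDerivWithinAt g f' (Icc t1 t2) t) :
    HasDerivWithinAt (fun s => if s ≤ t1 then f s else g s) f' (Icc 0 t2) t := by
  rw [← Icc_union_Icc_eq_Icc h01 h12]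
  apply HasDerivWithinAt.union
  · by_cases h : t ∈ Icc 0 t1
    · exact (hf h).congr (fun s hs => by simp [hs.2]) (by simp [h.2])
    · rw [hasDerivWithinAt_iff_hasFDerivWithinAt]
      apply HasFDerivWithinAt.of_notMem_closure
      rwa [isClosed_Icc.closure_eq]
  · by_cases h : t ∈ Icc t1 t2
    · refine (hg h).congr (fun s hs => ?_) ?_
      · rcases hs.1.eq_or_lt with h1 | h1
        · rw [← h1]; simp [hfg]
        · rw [if_neg (by linarith)]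
      · rcases h.1.eq_or_lt with h1 | h1
        · rw [← h1]; simp [hfg]
        · rw [if_neg (by linarith)]
    · rw [hasDerivWithinAt_iff_hasFDerivWithinAt]
      apply HasFDerivWithinAt.of_notMem_closure
      rwa [isClosed_Icc.closure_eq]

lemma TSol.glue {h t1 t2 : ℝ} (h01 : 0 ≤ t1) (h12 : t1 ≤ t2) {v w : ℝ → ℤ → ℂ} (hv : TSol h 0 t1 v)
    (hw : TSol h t1 t2 w) (hvw : v t1 = w t1) :
    TSol h 0 t2 (fun s => if s ≤ t1 then v s else w s) := by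
  have hval1 : ∀ t ∈ Icc 0 t1, (if t ≤ t1 then v t else w t) = v t := by
    intro t ht; simp [ht.2]
  have hval2 : ∀ t ∈ Icc t1 t2, (if t ≤ t1 then v t else w t) = w t := by
    intro t ht
    rcases ht.1.eq_or_lt with h1 | h1
    · rw [← h1]; simp [hvw]
    · rw [if_neg (by linarith)]
  have hcase : ∀ t ∈ Icc 0 t2, t ∈ Icc 0 t1 ∨ t ∈ Icc t1 t2 := by
    intro t ht
    rcases le_total t t1 with h | h
    · exact Or.inl ⟨ht.1, h⟩
    · exact Or.inr ⟨h, ht.2⟩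
  refine ⟨?_, ?_, ?_⟩
  · intro t ht k
    rcases hcase t ht with h | h
    · rw [hval1 t h]; exact hv.real t h k
    · rw [hval2 t h]; exact hw.real t h k
  · intro t ht k
    have e : (fun s => (fun s => if s ≤ t1 then v s else w s) s k) = fun s => if s ≤ t1 then v s k else w s k := by
      funext s; simp only; split_ifs <;> rfl
    rw [e]
    apply hasDeriv_glue h01 h12 (by rw [hvw]) ht
    · intro h; rw [hval1 t h]; exact hv.ode t h k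
    · intro h; rw [hval2 t h]; exact hw.ode t h k
  · obtain ⟨u, hu, hbu⟩ := hv.maj
    obtain ⟨u', hu', hbu'⟩ := hw.maj
    have p1 : ∀ k, 0 ≤ u k := fun k => (norm_nonneg _).trans (hbu 0 (left_mem_Icc.mpr h01) k).1
    have p2 : ∀ k, 0 ≤ u' k := fun k => (norm_nonneg _).trans (hbu' t1 (left_mem_Icc.mpr h12) k).1
    refine ⟨fun k => u k + u' k, hu.add hu', ?_⟩
    intro t ht k
    rcases hcase t ht with h | h
    · rw [hval1 t h]
      have := hbu t h k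
      have := p2 k
      exact ⟨by linarith, by linarith, by linarith⟩
    · rw [hval2 t h]
      have := hbu' t h k
      have := p1 k
      exact ⟨by linarith, by linarith, by linarith⟩

lemma NL_congr_shift {h T0 t1 : ℝ} {w : ℝ → ℤ → ℂ} (hw : TSol h 0 T0 w) :
    TSol h t1 (t1 + T0) (fun s => w (s - t1)) := by
  have hm : ∀ t ∈ Icc t1 (t1 + T0), t - t1 ∈ Icc 0 T0 := fun t ht => ⟨by linarith [ht.1], by linarith [ht.2]⟩
  refine ⟨fun t ht k => hw.real _ (hm t ht) k, fun t ht k => ?_, ?_⟩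
  · exact hasDeriv_shift ht (hw.ode _ (hm t ht) k)
  · obtain ⟨u, hu, hb⟩ := hw.maj
    exact ⟨u, hu, fun t ht k => hb _ (hm t ht) k⟩

lemma le_of_enorm_wt {L : Len} {ρ : ℝ} {z : ℂ} {k : ℤ} {A : ℝ} (hA : 0 ≤ A)
    (h : ‖z‖ₑ * wt L ρ k ≤ ENNReal.ofReal A) : ‖z‖ ≤ A * Real.exp (-(ρ * L.ℓ k)) := by
  unfold wt at h
  rw [← ofReal_norm, ← ENNReal.ofReal_mul (norm_nonneg _), ENNReal.ofReal_le_ofReal_iff hA] at h
  calc ‖z‖ = ‖z‖ * Real.exp (ρ * L.ℓ k) * Real.exp (-(ρ * L.ℓ k)) := by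
        rw [mul_assoc, ← Real.exp_add, add_neg_cancel, Real.exp_zero, mul_one]
    _ ≤ _ := by gcongr

theorem torus_global (T : Tor) (M : Modes ℤ) (hξ : M.ξ = fun k : ℤ => T.h * k) (hℓ : M.ℓ = T.ℓ)
    {ρ1 ρ2 κ ε : ℝ} (hp : KPar T ρ1 κ ε) (h0 : 0 < ρ2) (h12 : ρ2 < ρ1) {S : ℝ} (hS0 : 0 ≤ S)
    (hS : ∑' k : ℤ, wt T.toLen (-((ρ1 - ρ2) / 2)) k ≤ ENNReal.ofReal S)
    (hsmall : 4 * ε / T.a * (T.b.factorial / ((ρ1 - ρ2) / 2) ^ T.b) * S ^ 2 ≤ 1 / 2)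
    (v0 : ℤ → ℂ) (hr : ∀ k, v0 (-k) = conj (v0 k))
    (hv0 : ∑' k, ‖v0 k‖ₑ * wt T.toLen (ρ1 + κ) k ≤ ENNReal.ofReal ε) (Tend : ℝ) (hTend : 0 ≤ Tend) :
    ∃ v : ℝ → ℤ → ℂ, v 0 = v0 ∧ TSol T.h 0 Tend v ∧
      ∀ t ∈ Icc 0 Tend, ∀ k, ‖v t k‖ ≤ 8 * ε * S ^ 2 * Real.exp (-(ρ2 * T.ℓ k)) := by
  have hε := hp.hε
  have hκ := hp.hκ
  have hρ1 : 0 < ρ1 := h0.trans h12
  have hh := T.hpos
  -- pointwise bound
  have hpt : ∀ k, ‖v0 k‖ₑ * wt T.toLen (ρ1 + κ) k ≤ ENNReal.ofReal ε := fun k =>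
    (ENNReal.le_tsum k).trans hv0
  have hpt' : ∀ k, ‖v0 k‖ ≤ ε * Real.exp (-((ρ1 + κ) * M.ℓ k)) := fun k => by
    rw [hℓ]; exact le_of_enorm_wt hε (hpt k)
  have hb0 := fun k => M.NL_bound (by linarith : 0 < ρ1 + κ) hε hpt' k
  have hsm : Sm T.h v0 := by
    apply Sm.of_bound ((M.summ ((ρ1 + κ) / 4) (by positivity)).mul_left (M.cM (ρ1 + κ) ε))
    intro k
    have := hb0 k
    rw [hξ] at this
    exact ⟨this.1, this.2.1⟩
  -- spectral data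
  obtain ⟨b, lam, hb⟩ := direct T hp (Tp_sym hsm.s0 hr) (Tp_toep hsm.s0)
    ((Nn_Tp_le T.toLen (ρ1 + κ) hsm.s0).trans hv0)
  obtain ⟨hspec, hpath⟩ := path_init T h0.le h12 hsm hr hε
    (fun k => (mul_le_mul_right (wt_mono T.toLen (by linarith) k) _).trans (hpt k)) hb hS0 hS hsmall
  set A : ℝ := 8 * ε * S ^ 2 with hA
  have hA0 : 0 ≤ A := by positivity
  -- a priori bound for any solution
  have key : ∀ (t1 : ℝ) (v : ℝ → ℤ → ℂ), 0 ≤ t1 → v 0 = v0 → TSol T.h 0 t1 v →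
      ∀ t ∈ Icc 0 t1, ∀ k, ‖v t k‖ ≤ A * Real.exp (-(ρ2 * T.ℓ k)) := by
    intro t1 v ht1 hv00 hv t ht k
    have hvt : TSol T.h 0 t v := hv.mono (Icc_subset_Icc le_rfl ht.2)
    have hspec0 : Spec T.h (v 0) lam (fun P => ‖b P 0‖) (fun N P => ‖inner ℂ (b N) (Sh (-1) (b P))‖) b := by
      rw [hv00]; exact hspec
    obtain ⟨b', hb'⟩ := spec_prop hh ht.1 hvt hspec0
    have h1 := apriori h0.le (hv.sm ht) (hv.real t ht) hpath hb' k
    apply le_of_enorm_wt hA0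
    refine h1.trans (le_of_eq ?_)
    have h2 : (2 : ℝ≥0∞) = ENNReal.ofReal 2 := by simp
    rw [h2, ← ENNReal.ofReal_mul (by norm_num), ← ENNReal.ofReal_mul (by positivity)]
    congr 1; rw [hA]; ring
  -- local existence
  obtain ⟨T0, hT0, A', hA', hloc⟩ := M.local_exist (ρ := ρ2) (σ := 2 * ρ2 / 3) (σ' := ρ2 / 3) (A := A)
    (by positivity) (by linarith) (by linarith) hA0
  have hloc' : ∀ w0 : ℤ → ℂ, (∀ k, ‖w0 k‖ ≤ A * Real.exp (-(ρ2 * T.ℓ k))) → (∀ k, w0 (-k) = conj (w0 k)) →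
      ∃ w : ℝ → ℤ → ℂ, w 0 = w0 ∧ TSol T.h 0 T0 w := by
    intro w0 h1 h2
    obtain ⟨w, h3, h4, h5, h6⟩ := hloc w0 (by rw [hℓ]; exact h1) h2
    exact ⟨w, h3, tsol_of_local M hξ (by positivity) hA' h4 h5 h6⟩
  have hv0A : ∀ k, ‖v0 k‖ ≤ A * Real.exp (-(ρ2 * T.ℓ k)) := by
    intro k
    have h1 := apriori h0.le hsm hr hpath hspec k
    apply le_of_enorm_wt hA0
    refine h1.trans (le_of_eq ?_)
    have h2 : (2 : ℝ≥0∞) = ENNReal.ofReal 2 := by simp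
    rw [h2, ← ENNReal.ofReal_mul (by norm_num), ← ENNReal.ofReal_mul (by positivity)]
    congr 1; rw [hA]; ring
  have hind : ∀ n : ℕ, ∃ v : ℝ → ℤ → ℂ, v 0 = v0 ∧ TSol T.h 0 ((n + 1 : ℕ) * T0) v := by
    intro n
    induction n with
    | zero =>
      obtain ⟨w, h1, h2⟩ := hloc' v0 hv0A hr
      exact ⟨w, h1, by simpa using h2⟩
    | succ n ih =>
      obtain ⟨v, hv1, hv2⟩ := ih
      set t1 : ℝ := (n + 1 : ℕ) * T0 with ht1
      have ht10 : 0 ≤ t1 := by positivity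
      have hmem : t1 ∈ Icc 0 t1 := right_mem_Icc.mpr ht10
      obtain ⟨w, h1, h2⟩ := hloc' (v t1) (key t1 v ht10 hv1 hv2 t1 hmem) (hv2.real t1 hmem)
      have h3 := NL_congr_shift (t1 := t1) h2
      have h4 := TSol.glue ht10 (by linarith) hv2 h3 (by simp [h1])
      refine ⟨fun s => if s ≤ t1 then v s else w (s - t1), ?_, ?_⟩
      · simp only [if_pos ht10]; exact hv1
      · have e : ((n + 1 + 1 : ℕ) : ℝ) * T0 = t1 + T0 := by rw [ht1]; push_cast; ring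
        rw [e]; exact h4
  obtain ⟨n, hn⟩ := exists_nat_gt (Tend / T0)
  rw [div_lt_iff₀ hT0] at hn
  obtain ⟨v, hv1, hv2⟩ := hind n
  have hv3 : TSol T.h 0 Tend v := hv2.mono (Icc_subset_Icc le_rfl (by push_cast; nlinarith))
  exact ⟨v, hv1, hv3, key Tend v hTend hv1 hv3⟩

end BO
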