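import Pool.Agent.Helper3.BO.Limit
import Pool.Agent.Helper3.BO.Global

open scoped ENNReal NNReal Topology ComplexConjugate
open Filter Set

namespace BO

lemma small_of_le {x d ε : ℝ} (hx : 0 ≤ x) (hd : 0 < d) (hε : 0 ≤ ε) (h : ε ≤ d / (x + 1)) : x * ε ≤ d := by
  rw [le_div_iff₀ (by positivity)] at h
  nlinarith

lemma sum_nrm_le (ν : ℕ) {σ : ℝ} (hσ : 0 < σ) : ∑' n : Fin ν → ℤ, Real.exp (-(σ * nrm n)) ≤ Sb ν σ := by
  have hinj : Function.Injective (fun n : Fin ν → ℤ => ((n, 0) : (Fin ν → ℤ) × ℤ)) := fun a b h => by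
    simpa using h
  have h1 := tsum_comp_le_tsum_of_inj (summ_prod hσ ν) (fun _ => (Real.exp_pos _).le) hinj
  refine le_trans (le_of_eq ?_) h1
  congr 1

lemma data_sum {ν : ℕ} {ρ σ ε : ℝ} (hσρ : σ < ρ) (hε : 0 ≤ ε) {v0 : (Fin ν → ℤ) → ℂ}
    (hv0 : ∀ n, ‖v0 n‖ ≤ ε * Real.exp (-(ρ * nrm n))) :
    ∑' n, ‖v0 n‖ₑ * ENNReal.ofReal (Real.exp (σ * nrm n)) ≤ ENNReal.ofReal (ε * Sb ν (ρ - σ)) := by
  have h1 : ∀ n, ‖v0 n‖ₑ * ENNReal.ofReal (Real.exp (σ * nrm n))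
      ≤ ENNReal.ofReal (ε * Real.exp (-((ρ - σ) * nrm n))) := by
    intro n
    rw [← ofReal_norm, ← ENNReal.ofReal_mul (norm_nonneg _)]
    apply ENNReal.ofReal_le_ofReal
    calc ‖v0 n‖ * Real.exp (σ * nrm n) ≤ (ε * Real.exp (-(ρ * nrm n))) * Real.exp (σ * nrm n) := by
          gcongr; exact hv0 n
      _ = ε * (Real.exp (-(ρ * nrm n)) * Real.exp (σ * nrm n)) := by ring
      _ = _ := by rw [← Real.exp_add]; congr 2; ring
  have hs : Summable fun n : Fin ν → ℤ => ε * Real.exp (-((ρ - σ) * nrm n)) :=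
    (summ_nrm (by linarith) ν).mul_left ε
  refine (ENNReal.tsum_le_tsum h1).trans ?_
  rw [← ENNReal.ofReal_tsum_of_nonneg (fun n => by positivity) hs]
  apply ENNReal.ofReal_le_ofReal
  rw [tsum_mul_left]
  gcongr
  exact sum_nrm_le ν (by linarith)

theorem exist_NL (ν : ℕ) {a0 ρ0 : ℝ} (ha0 : 0 < a0) (hρ0 : 0 < ρ0) (b : ℕ) :
    ∃ ε0 > 0, ∃ K : ℝ, 0 ≤ K ∧ ∀ ε, 0 < ε → ε ≤ ε0 → ∀ ω : Fin ν → ℝ,
      (∀ n : Fin ν → ℤ, n ≠ 0 → a0 ≤ |dot n ω| * (nrm n : ℝ) ^ b) →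
      ∀ v0 : (Fin ν → ℤ) → ℂ, (∀ n, ‖v0 n‖ ≤ ε * Real.exp (-(ρ0 * nrm n))) → (∀ n, v0 (-n) = conj (v0 n)) →
      ∃ C : ℝ → (Fin ν → ℤ) → ℂ, C 0 = v0 ∧
        (∀ t, 0 ≤ t → ∀ n, ‖C t n‖ ≤ K * ε * Real.exp (-(ρ0 / 4 * nrm n))) ∧
        (∀ t, 0 ≤ t → ∀ n, C t (-n) = conj (C t n)) ∧
        (∀ t, 0 ≤ t → ∀ n, HasDerivWithinAt (fun s => C s n) (NL (fun n => dot n ω) (C t) n) (Ici 0) t) := by
  set S4 : ℝ := Sb ν (ρ0 / 4) with hS4
  set S8 : ℝ := Sb ν (ρ0 / 8) with hS8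
  have hS40 : 0 ≤ S4 := Sb_nonneg _ _
  have hS80 : 0 ≤ S8 := Sb_nonneg _ _
  set c1 : ℝ := 6 * ((b + 1).factorial * (2 / (ρ0 / 4)) ^ (b + 1)) / (a0 / 2) with hc1
  have hc10 : 0 ≤ c1 := by positivity
  set c3 : ℝ := 4 / (a0 / 2) * ((b + 1).factorial / (ρ0 / 8) ^ (b + 1)) * S8 ^ 2 with hc3
  have hc30 : 0 ≤ c3 := by positivity
  set e1 : ℝ := (1 / 2) ^ (b + 1 + 1) / (42 * c1 * S4 + 1) with he1
  set e2 : ℝ := (1 / 24) / (6 * c1 * S4 + 1) with he2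
  set e3 : ℝ := (1 / 2) / (c3 * S4 + 1) with he3
  have he10 : 0 < e1 := by positivity
  have he20 : 0 < e2 := by positivity
  have he30 : 0 < e3 := by positivity
  refine ⟨min e1 (min e2 e3), lt_min he10 (lt_min he20 he30), 8 * S4 * S8 ^ 2, by positivity, ?_⟩
  intro ε hε hεle ω hω v0 hv0 hreal
  have hε1 : ε ≤ e1 := hεle.trans (min_le_left _ _)
  have hε2 : ε ≤ e2 := hεle.trans ((min_le_right _ _).trans (min_le_left _ _))
  have hε3 : ε ≤ e3 := hεle.trans ((min_le_right _ _).trans (min_le_right _ _))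
  set ε' : ℝ := ε * S4 with hε'
  have hε'0 : 0 ≤ ε' := by positivity
  have hk1 : kd (a0 / 2) (b + 1) (ρ0 / 4) ε' = c1 * ε' := by
    unfold kd; rw [hc1]; ring
  have cond1 : 42 * kd (a0 / 2) (b + 1) (ρ0 / 4) ε' ≤ (1 / 2) ^ (b + 1 + 1) := by
    rw [hk1]
    have := small_of_le (by positivity) (by positivity) hε.le hε1
    calc 42 * (c1 * ε') = 42 * c1 * S4 * ε := by rw [hε']; ring
      _ ≤ _ := this
  have cond2 : 6 * kd (a0 / 2) (b + 1) (ρ0 / 4) ε' ≤ 1 / 24 := by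
    rw [hk1]
    have := small_of_le (by positivity) (by positivity) hε.le hε2
    calc 6 * (c1 * ε') = 6 * c1 * S4 * ε := by rw [hε']; ring
      _ ≤ _ := this
  have cond3 : 4 * ε' / (a0 / 2) * ((b + 1).factorial / (ρ0 / 8) ^ (b + 1)) * S8 ^ 2 ≤ 1 / 2 := by
    have := small_of_le (by positivity) (by positivity) hε.le hε3
    calc _ = c3 * S4 * ε := by rw [hε', hc3]; ring
      _ ≤ _ := this
  obtain ⟨N, D, hN⟩ := exists_app_seq ω ha0 b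
  have hrho : (ρ0 / 2 - ρ0 / 4) / 2 = ρ0 / 8 := by ring
  have hex : ∀ j : ℕ, ∃ v : ℝ → ℤ → ℂ, v 0 = pf (D j).p v0 ∧ TSol ((D j).tor ha0 hω).h 0 j v ∧
      ∀ t ∈ Icc (0 : ℝ) j, ∀ k, ‖v t k‖ ≤ 8 * ε' * S8 ^ 2 *
        Real.exp (-(ρ0 / 4 * ((D j).tor ha0 hω).ℓ k)) := by
    intro j
    apply torus_global ((D j).tor ha0 hω) (D j).modes rfl rfl (ρ1 := ρ0 / 2) (ρ2 := ρ0 / 4) (κ := ρ0 / 4) (ε := ε')
      ⟨by positivity, by positivity, hε'0, cond1, cond2⟩ (by positivity) (by linarith) hS80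
    · rw [hrho]
      have h1 := AppData.len_summ (ν := ν) (σ := ρ0 / 8) (by positivity) (N j) (D j).p
      have h2 : ∀ k, wt ((D j).tor ha0 hω).toLen (-(ρ0 / 8)) k
          = ENNReal.ofReal (Real.exp (-(ρ0 / 8 * len (N j) (D j).p k))) := by
        intro k
        unfold wt
        congr 2
        rw [neg_mul]; rfl
      simp only [h2]
      rw [← ENNReal.ofReal_tsum_of_nonneg (fun n => by positivity) h1.1]
      exact ENNReal.ofReal_le_ofReal h1.2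
    · rw [hrho]; exact cond3
    · exact pf_real _ hreal
    · have h1 := pf_bound (N j) (D j).p v0 (σ := ρ0 / 2 + ρ0 / 4) (by positivity)
      refine h1.trans ?_
      have h2 := data_sum (σ := ρ0 / 2 + ρ0 / 4) (by linarith) hε.le hv0
      have h3 : ρ0 - (ρ0 / 2 + ρ0 / 4) = ρ0 / 4 := by ring
      rw [h3] at h2
      exact h2
    · positivity
  choose v hv1 hv2 hv3 using hex
  have hsum : Summable fun n => ‖v0 n‖ :=
    Summable.of_nonneg_of_le (fun _ => norm_nonneg _) hv0 ((summ_nrm hρ0 ν).mul_left ε)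
  obtain ⟨C, hC1, hC2, hC3, hC4⟩ := limit_sol D ha0 hω hN (A := 8 * ε' * S8 ^ 2) (ρ := ρ0 / 4) (by positivity)
    (by positivity) (v := v) (v0 := v0) (fun j t ht K => (hv2 j).ode t ht K) (fun j t ht K => hv3 j t ht K)
    (fun j t ht K => (hv2 j).real t ht K) (by
      intro n
      simp only [hv1]
      exact pf_tendsto D ha0 hω hN hsum n)
  refine ⟨C, hC1, ?_, hC3, hC4⟩
  intro t ht n
  refine (hC2 t ht n).trans (le_of_eq ?_)
  rw [hε']; ring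

end BO
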