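import Mathlib

open scoped Topology
open Filter Set

namespace BO

lemma deriv_Ici {E : Type*} [NormedAddCommGroup E] [NormedSpace ℝ E] {f : ℝ → E} {f' : E} {t0 t1 t : ℝ}
    (ht : t ∈ Ico t0 t1) (h : HasDerivWithinAt f f' (Icc t0 t1) t) : HasDerivWithinAt f f' (Ici t) t :=
  h.mono_of_mem_nhdsWithin (Icc_mem_nhdsGE_of_mem ht)

/-- The (transformed) Benjamin-Ono vector field in Fourier variables, on a group `G` of modes with
frequency map `ξ`. -/
noncomputable def NL {G : Type*} [AddCommGroup G] (ξ : G → ℝ) (v : G → ℂ) (k : G) : ℂ :=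
  Complex.I * ((ξ k * |ξ k| : ℝ) : ℂ) * v k - Complex.I * (ξ k : ℂ) * ∑' m, v m * v (k - m)

end BO
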