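import Pool.Agent.Helper3.BO.Tpz
import Pool.Agent.Helper3.BO.NLdef

open scoped ENNReal NNReal lp ComplexConjugate Topology
open Filter Set

namespace BO

open scoped ComplexInnerProductSpace

/-! ### General ODE facts -/

lemma const_of_deriv_zero {E : Type*} [NormedAddCommGroup E] [NormedSpace ℝ E] {f : ℝ → E} {t0 t1 : ℝ}
    (h : ∀ t ∈ Icc t0 t1, HasDerivWithinAt f 0 (Icc t0 t1) t) :
    ∀ s ∈ Icc t0 t1, ∀ t ∈ Icc t0 t1, f s = f t := by
  have h1 := constant_of_has_deriv_right_zero (f := f) (a := t0) (b := t1)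
    (fun t ht => (h t ht).continuousWithinAt) (fun t ht => deriv_Ici ht (h t (Ico_subset_Icc_self ht)))
  intro s hs t ht
  rw [h1 s hs, h1 t ht]

section inner
variable {E : Type*} [NormedAddCommGroup E] [InnerProductSpace ℂ E]

lemma inner_const {B : ℝ → E → E} {t0 t1 : ℝ}
    (hB : ∀ t ∈ Icc t0 t1, ∀ f g, ⟪B t f, g⟫ = - ⟪f, B t g⟫) {α γ : ℝ → E}
    (hα : ∀ t ∈ Icc t0 t1, HasDerivWithinAt α (B t (α t)) (Icc t0 t1) t)
    (hγ : ∀ t ∈ Icc t0 t1, HasDerivWithinAt γ (B t (γ t)) (Icc t0 t1) t) :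
    ∀ s ∈ Icc t0 t1, ∀ t ∈ Icc t0 t1, ⟪α s, γ s⟫ = ⟪α t, γ t⟫ := by
  apply const_of_deriv_zero
  intro t ht
  have h1 := (hα t ht).inner ℂ (hγ t ht)
  rw [hB t ht, add_neg_cancel] at h1
  exact h1

lemma norm_const {B : ℝ → E → E} {t0 t1 : ℝ}
    (hB : ∀ t ∈ Icc t0 t1, ∀ f g, ⟪B t f, g⟫ = - ⟪f, B t g⟫) {α : ℝ → E}
    (hα : ∀ t ∈ Icc t0 t1, HasDerivWithinAt α (B t (α t)) (Icc t0 t1) t) :
    ∀ s ∈ Icc t0 t1, ∀ t ∈ Icc t0 t1, ‖α s‖ = ‖α t‖ := by
  intro s hs t ht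
  have h1 := inner_const hB hα hα s hs t ht
  rw [inner_self_eq_norm_sq_to_K, inner_self_eq_norm_sq_to_K] at h1
  have h2 : ‖α s‖ ^ 2 = ‖α t‖ ^ 2 := by exact_mod_cast h1
  exact (sq_eq_sq₀ (norm_nonneg _) (norm_nonneg _)).mp h2

end inner

/-- scalar phase rotation -/
lemma norm_const_scalar {m : ℝ → ℂ} {r t0 t1 : ℝ}
    (hm : ∀ t ∈ Icc t0 t1, HasDerivWithinAt m (Complex.I * (r : ℂ) * m t) (Icc t0 t1) t) :
    ∀ s ∈ Icc t0 t1, ∀ t ∈ Icc t0 t1, ‖m s‖ = ‖m t‖ := by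
  apply norm_const (B := fun _ z => Complex.I * (r : ℂ) * z) _ hm
  intro t _ f g
  simp only [RCLike.inner_apply, map_mul, Complex.conj_I, Complex.conj_ofReal]
  ring

lemma exists_flow {t0 t1 : ℝ} (B : ℝ → Hs →L[ℂ] Hs) (hB : ContinuousOn B (Icc t0 t1)) {β : ℝ}
    (hβ0 : 0 ≤ β) (hβ : ∀ t ∈ Icc t0 t1, ‖B t‖ ≤ β) (hsmall : 2 * β * (t1 - t0) ≤ 1)
    (s : Icc t0 t1) (x : Hs) :
    ∃ α : ℝ → Hs, α s = x ∧ ∀ t ∈ Icc t0 t1, HasDerivWithinAt α (B t (α t)) (Icc t0 t1) t := by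
  have hf : IsPicardLindelof (fun t y => B t y) s x ⟨‖x‖, norm_nonneg _⟩ 0
      ⟨2 * β * ‖x‖, by positivity⟩ ⟨β, hβ0⟩ := by
    refine ⟨?_, ?_, ?_, ?_⟩
    · intro t ht
      apply LipschitzOnWith.of_dist_le_mul
      intro y _ z _
      rw [dist_eq_norm, dist_eq_norm, ← map_sub]
      exact ((B t).le_opNorm _).trans (mul_le_mul_of_nonneg_right (hβ t ht) (norm_nonneg _))
    · intro y _
      exact (ContinuousLinearMap.apply ℂ Hs y).continuous.comp_continuousOn hB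
    · intro t ht y hy
      have h1 : ‖y‖ ≤ 2 * ‖x‖ := by
        rw [Metric.mem_closedBall, dist_eq_norm] at hy
        have h2 := norm_le_norm_sub_add y x
        have hy' : ‖y - x‖ ≤ ‖x‖ := hy
        linarith
      calc ‖B t y‖ ≤ ‖B t‖ * ‖y‖ := (B t).le_opNorm _
        _ ≤ β * (2 * ‖x‖) := mul_le_mul (hβ t ht) h1 (norm_nonneg _) hβ0
        _ = 2 * β * ‖x‖ := by ring
    · show 2 * β * ‖x‖ * max (t1 - s) (s - t0) ≤ ‖x‖ - 0
      have h1 : max (t1 - (s : ℝ)) (s - t0) ≤ t1 - t0 := by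
        apply max_le <;> linarith [s.2.1, s.2.2]
      calc 2 * β * ‖x‖ * max (t1 - (s : ℝ)) (s - t0) ≤ 2 * β * ‖x‖ * (t1 - t0) := by gcongr
        _ = ‖x‖ * (2 * β * (t1 - t0)) := by ring
        _ ≤ ‖x‖ * 1 := by gcongr
        _ = ‖x‖ - 0 := by ring
  exact hf.exists_eq_forall_mem_Icc_hasDerivWithinAt₀

/-! ### Families of Toeplitz operators -/

lemma continuousOn_Tp {v : ℝ → ℤ → ℂ} {s : Set ℝ} {u : ℤ → ℝ} (hu : Summable u)
    (hv : ∀ k, ContinuousOn (fun t => v t k) s) (hb : ∀ t ∈ s, ∀ k, ‖v t k‖ ≤ u k) :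
    ContinuousOn (fun t => Tp (v t)) s := by
  apply continuousOn_tsum (u := u)
  · intro k
    exact (hv k).smul continuousOn_const
  · exact hu
  · intro k t ht
    rw [norm_smul]
    calc ‖v t k‖ * ‖Sh k‖ ≤ ‖v t k‖ * 1 := by gcongr; exact norm_Sh_le k
      _ ≤ u k := by rw [mul_one]; exact hb t ht k

lemma hasDeriv_Tp {v v' : ℝ → ℤ → ℂ} {t0 t1 : ℝ} {u : ℤ → ℝ} (hu : Summable u)
    (hv : ∀ t ∈ Icc t0 t1, ∀ k, HasDerivWithinAt (fun t => v t k) (v' t k) (Icc t0 t1) t)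
    (hb : ∀ t ∈ Icc t0 t1, ∀ k, ‖v t k‖ ≤ u k) (hb' : ∀ t ∈ Icc t0 t1, ∀ k, ‖v' t k‖ ≤ u k) :
    ∀ t ∈ Icc t0 t1, HasDerivWithinAt (fun t => Tp (v t)) (Tp (v' t)) (Icc t0 t1) t := by
  intro t ht
  rw [hasDerivWithinAt_iff_tendsto_slope]
  have hsum : ∀ s ∈ Icc t0 t1, Summable fun k => ‖v s k‖ := fun s hs =>
    Summable.of_nonneg_of_le (fun _ => norm_nonneg _) (hb s hs) hu
  have h1 : ∀ s ∈ Icc t0 t1, slope (fun t => Tp (v t)) t s
      = ∑' k, (slope (fun t => v t k) t s) • Sh k := by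
    intro s hs
    rw [slope_def_module]
    unfold Tp
    rw [← (summable_Tp (hsum s hs)).of_norm.tsum_sub (summable_Tp (hsum t ht)).of_norm]
    rw [← Summable.tsum_const_smul]
    · congr 1; funext k
      rw [slope_def_module, ← sub_smul, smul_assoc]
    · exact (summable_Tp (hsum s hs)).of_norm.sub (summable_Tp (hsum t ht)).of_norm
  have h2 : Tendsto (fun s => ∑' k, (slope (fun t => v t k) t s) • Sh k) (𝓝[Icc t0 t1 \ {t}] t)
      (𝓝 (∑' k, v' t k • Sh k)) := by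
    apply tendsto_tsum_of_dominated_convergence hu
    · intro k
      exact ((hasDerivWithinAt_iff_tendsto_slope.mp (hv t ht k))).smul_const _
    · filter_upwards [self_mem_nhdsWithin] with s hs k
      rw [norm_smul]
      have h3 : ‖slope (fun t => v t k) t s‖ ≤ u k := by
        rw [slope_def_module, norm_smul, norm_inv]
        have h4 := (convex_Icc t0 t1).norm_image_sub_le_of_norm_hasDerivWithin_le (f := fun t => v t k)
          (f' := fun t => v' t k) (C := u k) (fun x hx => hv x hx k) (fun x hx => hb' x hx k) ht hs.1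
        have h5 : 0 < ‖s - t‖ := by
          rw [norm_pos_iff, sub_ne_zero]; exact hs.2
        rw [inv_mul_le_iff₀ h5]
        linarith
      calc _ ≤ ‖slope (fun t => v t k) t s‖ * 1 := by gcongr; exact norm_Sh_le k
        _ ≤ u k := by rw [mul_one]; exact h3
  refine h2.congr' ?_
  filter_upwards [self_mem_nhdsWithin] with s hs
  exact (h1 s hs.1).symm

lemma hasDeriv_apply {A : ℝ → Hs →L[ℂ] Hs} {A' : Hs →L[ℂ] Hs} {f : ℝ → Hs} {f' : Hs} {s : Set ℝ} {t : ℝ}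
    (hA : HasDerivWithinAt A A' s t) (hf : HasDerivWithinAt f f' s t) :
    HasDerivWithinAt (fun t => A t (f t)) (A' (f t) + A t f') s t := by
  have h1 : HasDerivWithinAt (fun t => (A t).restrictScalars ℝ) (A'.restrictScalars ℝ) s t :=
    (ContinuousLinearMap.restrictScalarsL ℂ Hs Hs ℝ ℝ).hasFDerivAt.comp_hasDerivWithinAt t hA
  exact h1.clm_apply hf

lemma hasDeriv_const_apply (A : Hs →L[ℂ] Hs) {f : ℝ → Hs} {f' : Hs} {s : Set ℝ} {t : ℝ}
    (hf : HasDerivWithinAt f f' s t) :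
    HasDerivWithinAt (fun t => A (f t)) (A f') s t :=
  (A.restrictScalars ℝ).hasFDerivAt.comp_hasDerivWithinAt t hf

end BO
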