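import Pool.Agent.Helper3.BO.Ad

open scoped ENNReal NNReal lp
open Filter Topology

namespace BO

/-- solving the homological equation -/
lemma solve (T : Tor) {ρ ρ' : ℝ} (h0 : 0 ≤ ρ') (h1 : ρ' < ρ) {Λ : ℕ → ℂ}
    (hΛ : ∀ K P : ℕ, K ≠ P → T.h / 2 * |(K : ℝ) - P| ≤ ‖Λ K - Λ P‖)
    (R : Hs →L[ℂ] Hs) (hR : Nn T.toLen ρ R ≠ ∞) :
    ∃ D : Hs →L[ℂ] Hs, Ad Λ D (dg (dia R) - R) ∧
      Nn T.toLen ρ' D ≤ ENNReal.ofReal (2 / T.a * (T.b.factorial / (ρ - ρ') ^ T.b)) * Nn T.toLen ρ R := by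
  set c : ℝ := 2 / T.a * (T.b.factorial / (ρ - ρ') ^ T.b) with hc
  have hρ : 0 < ρ - ρ' := by linarith
  have hc0 : 0 ≤ c := by have := T.apos; positivity
  let d : ℕ → ℕ → ℂ := fun K P => if K = P then 0 else - ent R K P / (Λ K - Λ P)
  have key : ∀ (k : ℤ), ds d k * wt T.toLen ρ' k ≤ ENNReal.ofReal c * (ds (ent R) k * wt T.toLen ρ k) := by
    intro k
    by_cases hk : k = 0
    · have : ds d k = 0 := by
        apply le_antisymm _ zero_le
        apply ds_le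
        intro Q P hQ
        have : Q = P := by omega
        simp [d, this]
      rw [this, zero_mul]; exact zero_le
    · have h2 : ds d k ≤ ENNReal.ofReal (2 / T.a * (T.ℓ k : ℝ) ^ T.b) * ds (ent R) k := by
        apply ds_le
        intro Q P hQ
        have hne : Q ≠ P := by rintro rfl; apply hk; omega
        simp only [d, if_neg hne]
        have h3 := hΛ Q P hne
        have h4 := T.dio k hk
        have h5 : |(k : ℝ)| = |(Q : ℝ) - P| := by rw [← hQ]; push_cast; rfl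
        rw [h5] at h4
        have h6 : 0 < |(Q : ℝ) - P| := by
          rw [abs_pos]; intro h; apply hne; exact_mod_cast (sub_eq_zero.mp h)
        have h7 : 0 < ‖Λ Q - Λ P‖ := lt_of_lt_of_le (by have := T.hpos; positivity) h3
        rw [← ofReal_norm, norm_div, norm_neg]
        have h8 : ‖ent R Q P‖ / ‖Λ Q - Λ P‖ ≤ 2 / T.a * (T.ℓ k : ℝ) ^ T.b * ‖ent R Q P‖ := by
          rw [div_le_iff₀ h7]
          have h9 : 1 ≤ 2 / T.a * (T.ℓ k : ℝ) ^ T.b * ‖Λ Q - Λ P‖ := by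
            calc (1 : ℝ) = T.a / T.a := (div_self T.apos.ne').symm
              _ ≤ (T.h * |(Q : ℝ) - P| * (T.ℓ k : ℝ) ^ T.b) / T.a := by
                  gcongr; exact T.apos.le
              _ = 2 / T.a * (T.ℓ k : ℝ) ^ T.b * (T.h / 2 * |(Q : ℝ) - P|) := by ring
              _ ≤ 2 / T.a * (T.ℓ k : ℝ) ^ T.b * ‖Λ Q - Λ P‖ := by
                  have := T.apos
                  gcongr
          calc ‖ent R Q P‖ = 1 * ‖ent R Q P‖ := (one_mul _).symm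
            _ ≤ (2 / T.a * (T.ℓ k : ℝ) ^ T.b * ‖Λ Q - Λ P‖) * ‖ent R Q P‖ := by gcongr
            _ = _ := by ring
        refine (ENNReal.ofReal_le_ofReal h8).trans ?_
        rw [ENNReal.ofReal_mul (by have := T.apos; positivity)]
        gcongr
        rw [ofReal_norm, ← hQ]
        exact le_ds _ _ _
      have h10 : ENNReal.ofReal (2 / T.a * (T.ℓ k : ℝ) ^ T.b) * wt T.toLen ρ' k
          ≤ ENNReal.ofReal c * wt T.toLen ρ k := by
        unfold wt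
        rw [← ENNReal.ofReal_mul (by have := T.apos; positivity), ← ENNReal.ofReal_mul hc0]
        apply ENNReal.ofReal_le_ofReal
        have h11 : ((ρ - ρ') * (T.ℓ k : ℝ)) ^ T.b / T.b.factorial ≤ Real.exp ((ρ - ρ') * (T.ℓ k : ℝ)) :=
          Real.pow_div_factorial_le_exp _ (by positivity) _
        have h12 : (T.ℓ k : ℝ) ^ T.b ≤ T.b.factorial / (ρ - ρ') ^ T.b * Real.exp ((ρ - ρ') * (T.ℓ k : ℝ)) := by
          rw [mul_pow] at h11
          rw [div_le_iff₀ (by positivity)] at h11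
          rw [div_mul_eq_mul_div, le_div_iff₀ (by positivity)]
          linarith
        calc 2 / T.a * (T.ℓ k : ℝ) ^ T.b * Real.exp (ρ' * (T.ℓ k : ℝ))
            ≤ 2 / T.a * (T.b.factorial / (ρ - ρ') ^ T.b * Real.exp ((ρ - ρ') * (T.ℓ k : ℝ)))
              * Real.exp (ρ' * (T.ℓ k : ℝ)) := by have := T.apos; gcongr
          _ = c * (Real.exp ((ρ - ρ') * (T.ℓ k : ℝ)) * Real.exp (ρ' * (T.ℓ k : ℝ))) := by rw [hc]; ring
          _ = c * Real.exp (ρ * (T.ℓ k : ℝ)) := by rw [← Real.exp_add]; congr 2; ring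
      calc ds d k * wt T.toLen ρ' k
          ≤ (ENNReal.ofReal (2 / T.a * (T.ℓ k : ℝ) ^ T.b) * ds (ent R) k) * wt T.toLen ρ' k := by gcongr
        _ = (ENNReal.ofReal (2 / T.a * (T.ℓ k : ℝ) ^ T.b) * wt T.toLen ρ' k) * ds (ent R) k := by ring
        _ ≤ (ENNReal.ofReal c * wt T.toLen ρ k) * ds (ent R) k := by gcongr
        _ = _ := by ring
  have hN : Nm T.toLen ρ' d ≤ ENNReal.ofReal c * Nn T.toLen ρ R := by
    unfold Nn
    rw [show Nm T.toLen ρ (ent R) = ∑' k, ds (ent R) k * wt T.toLen ρ k from rfl, ← ENNReal.tsum_mul_left]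
    exact ENNReal.tsum_le_tsum key
  obtain ⟨D, hD, -⟩ := exists_op_of_Nm T.toLen h0 d
    (ne_top_of_le_ne_top (ENNReal.mul_ne_top ENNReal.ofReal_ne_top hR) hN)
  refine ⟨D, ?_, ?_⟩
  · intro K P
    rw [hD, ent_sub, ent_dg]
    simp only [d]
    split_ifs with h
    · subst h; rw [dia_apply]; ring
    · have h3 := hΛ K P h
      have h6 : 0 < |(K : ℝ) - P| := by
        rw [abs_pos]; intro h'; apply h; exact_mod_cast (sub_eq_zero.mp h')
      have h7 : 0 < ‖Λ K - Λ P‖ := lt_of_lt_of_le (by have := T.hpos; positivity) h3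
      have h8 : Λ K - Λ P ≠ 0 := norm_pos_iff.mp h7
      field_simp
      ring
  · have : Nn T.toLen ρ' D = Nm T.toLen ρ' d := by
      unfold Nn; congr 1; funext K P; exact hD K P
    rw [this]; exact hN

/-- Neumann inverse -/
lemma neumann (L : Len) {ρ : ℝ} (hρ : 0 ≤ ρ) (D : Hs →L[ℂ] Hs) {δ : ℝ} (hδ0 : 0 ≤ δ) (hδ : δ ≤ 1 / 4)
    (hD : Nn L ρ D ≤ ENNReal.ofReal δ) :
    ∃ D' : Hs →L[ℂ] Hs, (1 + D) * D' = 1 ∧ D' * (1 + D) = 1 ∧
      Nn L ρ (D' - 1) ≤ ENNReal.ofReal (2 * δ) := by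
  have hn : ‖-D‖ < 1 := by
    have h1 := (enorm_le_Nn L hρ D).trans hD
    rw [← ofReal_norm] at h1
    have h2 := (ENNReal.ofReal_le_ofReal_iff hδ0).mp h1
    rw [norm_neg]; linarith
  have hs := summable_geometric_of_norm_lt_one (x := -D) hn
  refine ⟨∑' i : ℕ, (-D) ^ i, ?_, ?_, ?_⟩
  · have := mul_neg_geom_series (-D) hn
    rwa [sub_neg_eq_add] at this
  · have := geom_series_mul_neg (-D) hn
    rwa [sub_neg_eq_add] at this
  · have h1 : ∀ n : ℕ, Nn L ρ ((-D) ^ n) ≤ ENNReal.ofReal δ ^ n := by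
      intro n
      induction n with
      | zero => simpa using Nn_one_le L ρ
      | succ n ih =>
        rw [pow_succ, pow_succ]
        refine (Nn_mul_le L hρ _ _).trans ?_
        rw [Nn_neg]
        exact mul_le_mul' ih hD
    have h2 : ∀ n : ℕ, Nn L ρ (∑ i ∈ Finset.range n, (-D) ^ (i + 1)) ≤ ENNReal.ofReal (2 * δ) := by
      intro n
      have h3 : ∀ n : ℕ, Nn L ρ (∑ i ∈ Finset.range n, (-D) ^ (i + 1))
          ≤ ENNReal.ofReal (2 * δ * (1 - (1 / 2) ^ n)) := by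
        intro n
        induction n with
        | zero => simp [Nn_zero]
        | succ n ih =>
          rw [Finset.sum_range_succ]
          refine (Nn_add_le L ρ _ _).trans ?_
          refine (add_le_add ih (h1 (n + 1))).trans ?_
          rw [← ENNReal.ofReal_pow hδ0, ← ENNReal.ofReal_add]
          · apply ENNReal.ofReal_le_ofReal
            have h4 : δ ^ (n + 1) ≤ δ * (1 / 2) ^ n := by
              rw [pow_succ, mul_comm]
              gcongr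
              linarith
            rw [pow_succ (1 / 2 : ℝ) n]
            nlinarith
          · have : (1 / 2 : ℝ) ^ n ≤ 1 := pow_le_one₀ (by norm_num) (by norm_num)
            nlinarith
          · positivity
      refine (h3 n).trans (ENNReal.ofReal_le_ofReal ?_)
      have : (0 : ℝ) ≤ (1 / 2) ^ n := by positivity
      nlinarith
    apply Nn_le_of_tendsto L ρ (R := fun n => ∑ i ∈ Finset.range n, (-D) ^ (i + 1)) _ h2
    intro K P
    apply tendsto_ent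
    have h5 := hs.hasSum.tendsto_sum_nat
    have h6 : Tendsto (fun n => ∑ i ∈ Finset.range (n + 1), (-D) ^ i - 1) atTop
        (𝓝 (∑' i : ℕ, (-D) ^ i - 1)) := ((tendsto_add_atTop_iff_nat 1).mpr h5).sub_const 1
    refine h6.congr ?_
    intro n
    rw [Finset.sum_range_succ']
    simp

/-- the exact relation satisfied at each KAM step -/
structure Rel (Λ : ℕ → ℂ) (V Z W' : Hs →L[ℂ] Hs) (X : Linf) (P : Hs →L[ℂ] Hs) : Prop where
  ad : Ad Λ Z ((1 + Z) * P - (dg X + V) * (1 + Z))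
  inv1 : (1 + Z) * W' = 1
  inv2 : W' * (1 + Z) = 1

lemma enorm_le_ofReal_iff {x : Hs →L[ℂ] Hs} {c : ℝ} (hc : 0 ≤ c) : ‖x‖ₑ ≤ ENNReal.ofReal c ↔ ‖x‖ ≤ c := by
  rw [← ofReal_norm]; exact ENNReal.ofReal_le_ofReal_iff hc

lemma norm_le_of_Nn (L : Len) {ρ : ℝ} (hρ : 0 ≤ ρ) {R : Hs →L[ℂ] Hs} {c : ℝ} (hc : 0 ≤ c)
    (h : Nn L ρ R ≤ ENNReal.ofReal c) : ‖R‖ ≤ c :=
  (enorm_le_ofReal_iff hc).mp ((enorm_le_Nn L hρ R).trans h)

lemma norm_dia_le (R : Hs →L[ℂ] Hs) : ‖dia R‖ ≤ ‖R‖ := norm_mkInf_le _ _ _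

lemma Nn_mul_le' (L : Len) {ρ : ℝ} (hρ : 0 ≤ ρ) {R T : Hs →L[ℂ] Hs} {r t : ℝ} (hr0 : 0 ≤ r)
    (hr : Nn L ρ R ≤ ENNReal.ofReal r) (ht : Nn L ρ T ≤ ENNReal.ofReal t) :
    Nn L ρ (R * T) ≤ ENNReal.ofReal (r * t) := by
  rw [ENNReal.ofReal_mul hr0]
  exact (Nn_mul_le L hρ R T).trans (mul_le_mul' hr ht)

lemma Nn_add_le' (L : Len) {ρ : ℝ} {R T : Hs →L[ℂ] Hs} {r t : ℝ} (hr0 : 0 ≤ r) (ht0 : 0 ≤ t)
    (hr : Nn L ρ R ≤ ENNReal.ofReal r) (ht : Nn L ρ T ≤ ENNReal.ofReal t) :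
    Nn L ρ (R + T) ≤ ENNReal.ofReal (r + t) := by
  rw [ENNReal.ofReal_add hr0 ht0]
  exact (Nn_add_le L ρ R T).trans (add_le_add hr ht)

lemma Nn_sub_le' (L : Len) {ρ : ℝ} {R T : Hs →L[ℂ] Hs} {r t : ℝ} (hr0 : 0 ≤ r) (ht0 : 0 ≤ t)
    (hr : Nn L ρ R ≤ ENNReal.ofReal r) (ht : Nn L ρ T ≤ ENNReal.ofReal t) :
    Nn L ρ (R - T) ≤ ENNReal.ofReal (r + t) := by
  rw [ENNReal.ofReal_add hr0 ht0]
  exact (Nn_sub_le L ρ R T).trans (add_le_add hr ht)

lemma Nn_one_le' (L : Len) (ρ : ℝ) : Nn L ρ 1 ≤ ENNReal.ofReal 1 := by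
  rw [ENNReal.ofReal_one]; exact Nn_one_le L ρ

lemma kam_step (T : Tor) {ρ ρ' : ℝ} (h0 : 0 ≤ ρ') (h1 : ρ' < ρ) {Λ : ℕ → ℂ}
    (hΛ : ∀ K P : ℕ, K ≠ P → T.h / 2 * |(K : ℝ) - P| ≤ ‖Λ K - Λ P‖)
    (V Z W' : Hs →L[ℂ] Hs) (X : Linf) (P : Hs →L[ℂ] Hs) (hrel : Rel Λ V Z W' X P)
    {z p δ : ℝ} (hz0 : 0 ≤ z) (hz : z ≤ 1 / 4) (hp0 : 0 ≤ p)
    (hδ : 2 / T.a * (T.b.factorial / (ρ - ρ') ^ T.b) * (3 * p) ≤ δ) (hδ4 : δ ≤ 1 / 4)
    (hP : Nn T.toLen ρ P ≤ ENNReal.ofReal p)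
    (hZ : Nn T.toLen ρ Z ≤ ENNReal.ofReal z)
    (hW : Nn T.toLen ρ (W' - 1) ≤ ENNReal.ofReal z) :
    ∃ (Z1 W1 : Hs →L[ℂ] Hs) (X1 : Linf) (P1 : Hs →L[ℂ] Hs), Rel Λ V Z1 W1 X1 P1 ∧
      Nn T.toLen ρ' P1 ≤ ENNReal.ofReal (6 * p * (z + δ)) ∧
      Nn T.toLen ρ' Z1 ≤ ENNReal.ofReal (z + 3 * δ) ∧
      Nn T.toLen ρ' (W1 - 1) ≤ ENNReal.ofReal (z + 3 * δ) ∧
      ‖Z1 - Z‖ ≤ 3 * δ ∧ ‖W1 - W'‖ ≤ 3 * δ ∧ ‖X1 - X‖ ≤ p := by
  have hρ0 : 0 ≤ ρ := by linarith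
  set L := T.toLen with hL
  have hc0 : 0 ≤ 2 / T.a * (T.b.factorial / (ρ - ρ') ^ T.b) := by
    have := T.apos
    have h2 : 0 < ρ - ρ' := by linarith
    positivity
  have hδ0 : 0 ≤ δ := le_trans (by positivity) hδ
  set Y : Linf := - dia P with hY
  have hYn : ‖Y‖ ≤ p := by
    rw [hY, norm_neg]; exact (norm_dia_le P).trans (norm_le_of_Nn L hρ0 hp0 hP)
  have hYN : ∀ r, Nn L r (dg Y) ≤ ENNReal.ofReal p := fun r =>
    (Nn_dg_le L r Y).trans (ENNReal.ofReal_le_ofReal hYn)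
  set C := W' * dg Y * (1 + Z) with hC
  set R := P + C with hR
  set Rd := dg (dia R) with hRd
  -- norms of 1+Z, W'
  have hoZ : Nn L ρ (1 + Z) ≤ ENNReal.ofReal (1 + z) := Nn_add_le' L (by norm_num) hz0 (Nn_one_le' L ρ) hZ
  have hW1 : Nn L ρ W' ≤ ENNReal.ofReal (1 + z) := by
    have : W' = 1 + (W' - 1) := by abel
    rw [this]; exact Nn_add_le' L (by norm_num) hz0 (Nn_one_le' L ρ) hW
  have hCN : Nn L ρ C ≤ ENNReal.ofReal ((1 + z) * p * (1 + z)) :=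
    Nn_mul_le' L hρ0 (by positivity) (Nn_mul_le' L hρ0 (by positivity) hW1 (hYN ρ)) hoZ
  have hRN : Nn L ρ R ≤ ENNReal.ofReal (3 * p) := by
    refine (Nn_add_le' L hp0 (by positivity) hP hCN).trans (ENNReal.ofReal_le_ofReal ?_)
    nlinarith [mul_nonneg hp0 hz0, mul_nonneg (mul_nonneg hp0 hz0) hz0]
  have hdiaR : ‖dia R‖ ≤ 3 * z * p := by
    have h2 : dia R = dia (C - dg Y) := by
      ext K
      rw [dia_apply, dia_apply, ent_sub, ent_dg, if_pos rfl, hR, ent_add, hY]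
      show _ = ent C K K - (- (dia P K))
      rw [dia_apply]; ring
    have h3 : C - dg Y = (W' - 1) * dg Y * (1 + Z) + dg Y * Z := by rw [hC]; noncomm_ring
    have h4 : Nn L ρ (C - dg Y) ≤ ENNReal.ofReal (z * p * (1 + z) + p * z) := by
      rw [h3]
      exact Nn_add_le' L (by positivity) (by positivity)
        (Nn_mul_le' L hρ0 (by positivity) (Nn_mul_le' L hρ0 hz0 hW (hYN ρ)) hoZ)
        (Nn_mul_le' L hρ0 hp0 (hYN ρ) hZ)
    rw [h2]
    refine (norm_dia_le _).trans ((norm_le_of_Nn L hρ0 (by positivity) h4).trans ?_)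
    nlinarith [mul_nonneg hz0 hp0, mul_nonneg (mul_nonneg hp0 hz0) hz0]
  have hRdN : ∀ r, Nn L r Rd ≤ ENNReal.ofReal (3 * z * p) := fun r =>
    (Nn_dg_le L r _).trans (ENNReal.ofReal_le_ofReal hdiaR)
  obtain ⟨D, hD, hDN⟩ := solve T h0 h1 hΛ R (ne_top_of_le_ne_top ENNReal.ofReal_ne_top hRN)
  have hDN' : Nn L ρ' D ≤ ENNReal.ofReal δ := by
    refine hDN.trans ?_
    refine (mul_le_mul' le_rfl hRN).trans ?_
    rw [← ENNReal.ofReal_mul hc0]
    exact ENNReal.ofReal_le_ofReal hδ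
  obtain ⟨D', hD1, hD2, hD3⟩ := neumann L h0 D hδ0 hδ4 hDN'
  have hD'N : Nn L ρ' D' ≤ ENNReal.ofReal 2 := by
    have : D' = 1 + (D' - 1) := by abel
    rw [this]
    refine (Nn_add_le' L (by norm_num) (by positivity) (Nn_one_le' L ρ') hD3).trans
      (ENNReal.ofReal_le_ofReal (by linarith))
  have hmono : ∀ R : Hs →L[ℂ] Hs, Nn L ρ' R ≤ Nn L ρ R := fun R => Nn_mono L h1.le R
  refine ⟨Z + D + Z * D, D' * W', X + Y, D' * (Rd + R * D), ⟨?_, ?_, ?_⟩, ?_, ?_, ?_, ?_, ?_, ?_⟩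
  · -- Ad
    have hfac : (1 + Z) * (1 + D) = 1 + (Z + D + Z * D) := by noncomm_ring
    have h5 := (hrel.ad.one_add).mul (hD.one_add)
    rw [hfac] at h5
    have h6 : (1 + (Z + D + Z * D)) * (D' * (Rd + R * D)) - (dg (X + Y) + V) * (1 + (Z + D + Z * D))
        = ((1 + Z) * P - (dg X + V) * (1 + Z)) * (1 + D) + (1 + Z) * (dg (dia R) - R) := by
      rw [← hfac, dg_add]
      have h7 : (1 + Z) * (1 + D) * (D' * (Rd + R * D)) = (1 + Z) * (Rd + R * D) := by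
        rw [show (1 + Z) * (1 + D) * (D' * (Rd + R * D)) = (1 + Z) * ((1 + D) * D') * (Rd + R * D) by
          noncomm_ring, hD1, mul_one]
      rw [h7]
      have h8 : (1 + Z) * C = dg Y * (1 + Z) := by
        rw [hC, show (1 + Z) * (W' * dg Y * (1 + Z)) = ((1 + Z) * W') * dg Y * (1 + Z) by noncomm_ring,
          hrel.inv1, one_mul]
      have h9 : (1 + Z) * R * D = (1 + Z) * P * D + dg Y * (1 + Z) * D := by
        rw [hR, ← h8]; noncomm_ring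
      have h10 : (1 + Z) * R = (1 + Z) * P + dg Y * (1 + Z) := by
        rw [hR, ← h8]; noncomm_ring
      rw [← hRd]
      calc (1 + Z) * (Rd + R * D) - (dg X + dg Y + V) * ((1 + Z) * (1 + D))
          = (1 + Z) * Rd + (1 + Z) * R * D - (dg X + dg Y + V) * ((1 + Z) * (1 + D)) := by noncomm_ring
        _ = (1 + Z) * Rd + ((1 + Z) * P * D + dg Y * (1 + Z) * D)
            - (dg X + dg Y + V) * ((1 + Z) * (1 + D)) := by rw [h9]
        _ = ((1 + Z) * P - (dg X + V) * (1 + Z)) * (1 + D)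
            + ((1 + Z) * Rd - ((1 + Z) * P + dg Y * (1 + Z))) := by noncomm_ring
        _ = ((1 + Z) * P - (dg X + V) * (1 + Z)) * (1 + D) + ((1 + Z) * Rd - (1 + Z) * R) := by rw [h10]
        _ = _ := by noncomm_ring
    rw [h6]
    intro K P'
    have h11 := h5 K P'
    rw [← h11, ent_add 1 (Z + D + Z * D), mul_add, ent_one]
    split_ifs with h
    · subst h; simp
    · simp
  · rw [show 1 + (Z + D + Z * D) = (1 + Z) * (1 + D) by noncomm_ring,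
      show (1 + Z) * (1 + D) * (D' * W') = (1 + Z) * ((1 + D) * D') * W' by noncomm_ring, hD1, mul_one,
      hrel.inv1]
  · rw [show 1 + (Z + D + Z * D) = (1 + Z) * (1 + D) by noncomm_ring,
      show (D' * W') * ((1 + Z) * (1 + D)) = D' * (W' * (1 + Z)) * (1 + D) by noncomm_ring,
      hrel.inv2, mul_one, hD2]
  · have h5 : Nn L ρ' (R * D) ≤ ENNReal.ofReal (3 * p * δ) :=
      Nn_mul_le' L h0 (by positivity) ((hmono R).trans hRN) hDN'
    have h6 : Nn L ρ' (Rd + R * D) ≤ ENNReal.ofReal (3 * z * p + 3 * p * δ) :=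
      Nn_add_le' L (by positivity) (by positivity) (hRdN ρ') h5
    refine (Nn_mul_le' L h0 (by norm_num) hD'N h6).trans (ENNReal.ofReal_le_ofReal ?_)
    nlinarith
  · have h5 : Nn L ρ' (Z * D) ≤ ENNReal.ofReal (z * δ) := Nn_mul_le' L h0 hz0 ((hmono Z).trans hZ) hDN'
    refine (Nn_add_le' L (by positivity) (by positivity)
      (Nn_add_le' L hz0 hδ0 ((hmono Z).trans hZ) hDN') h5).trans (ENNReal.ofReal_le_ofReal ?_)
    nlinarith
  · have h5 : D' * W' - 1 = (D' - 1) * W' + (W' - 1) := by noncomm_ring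
    rw [h5]
    refine (Nn_add_le' L (by positivity) hz0
      (Nn_mul_le' L h0 (by positivity) hD3 ((hmono W').trans hW1)) ((hmono _).trans hW)).trans
      (ENNReal.ofReal_le_ofReal ?_)
    nlinarith
  · have h5 : Z + D + Z * D - Z = (1 + Z) * D := by noncomm_ring
    rw [h5]
    have h6 := norm_le_of_Nn L h0 (by positivity) (Nn_mul_le' L h0 (by positivity) ((hmono _).trans hoZ) hDN')
    refine h6.trans ?_
    nlinarith
  · have h5 : D' * W' - W' = (D' - 1) * W' := by noncomm_ring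
    rw [h5]
    have h6 := norm_le_of_Nn L h0 (by positivity)
      (Nn_mul_le' L h0 (by positivity) hD3 ((hmono W').trans hW1))
    refine h6.trans ?_
    nlinarith
  · rw [add_sub_cancel_left]; exact hYn

structure KSt where
  Z : Hs →L[ℂ] Hs
  W : Hs →L[ℂ] Hs
  X : Linf
  P : Hs →L[ℂ] Hs

/-- smallness parameter of the KAM scheme -/
noncomputable def kd (a : ℝ) (b : ℕ) (κ ε : ℝ) : ℝ := 6 * ε * (b.factorial * (2 / κ) ^ b) / a

noncomputable def rj (ρ1 κ : ℝ) (j : ℕ) : ℝ := ρ1 + κ * (1 / 2) ^ j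

structure KInv (T : Tor) (Λ : ℕ → ℂ) (V : Hs →L[ℂ] Hs) (ρ1 κ ε : ℝ) (j : ℕ) (s : KSt) : Prop where
  rel : Rel Λ V s.Z s.W s.X s.P
  hP : Nn T.toLen (rj ρ1 κ j) s.P ≤ ENNReal.ofReal (ε * ((1 / 2) ^ (T.b + 1)) ^ j)
  hZ : Nn T.toLen (rj ρ1 κ j) s.Z ≤ ENNReal.ofReal (6 * kd T.a T.b κ ε * (1 - (1 / 2) ^ j))
  hW : Nn T.toLen (rj ρ1 κ j) (s.W - 1) ≤ ENNReal.ofReal (6 * kd T.a T.b κ ε * (1 - (1 / 2) ^ j))

lemma kam_iter (T : Tor) {ρ1 κ ε : ℝ} (h0 : 0 ≤ ρ1) (hκ : 0 < κ) (hε : 0 ≤ ε)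
    (hsmall : 42 * kd T.a T.b κ ε ≤ (1 / 2) ^ (T.b + 1)) {Λ : ℕ → ℂ}
    (hΛ : ∀ K P : ℕ, K ≠ P → T.h / 2 * |(K : ℝ) - P| ≤ ‖Λ K - Λ P‖)
    (V : Hs →L[ℂ] Hs) (j : ℕ) (s : KSt) (hs : KInv T Λ V ρ1 κ ε j s) :
    ∃ s' : KSt, KInv T Λ V ρ1 κ ε (j + 1) s' ∧ ‖s'.Z - s.Z‖ ≤ 3 * kd T.a T.b κ ε * (1 / 2) ^ j ∧
      ‖s'.W - s.W‖ ≤ 3 * kd T.a T.b κ ε * (1 / 2) ^ j ∧ ‖s'.X - s.X‖ ≤ ε * (1 / 2) ^ j := by
  set k := kd T.a T.b κ ε with hk
  have ha := T.apos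
  have hk0 : 0 ≤ k := by rw [hk]; unfold kd; positivity
  have hr1 : ((1 : ℝ) / 2) ^ (T.b + 1) ≤ 1 / 2 := by
    rw [pow_succ]
    have : ((1 : ℝ) / 2) ^ T.b ≤ 1 := pow_le_one₀ (by norm_num) (by norm_num)
    linarith
  have hk42 : 42 * k ≤ 1 / 2 := hsmall.trans hr1
  have hj1 : ((1 : ℝ) / 2) ^ j ≤ 1 := pow_le_one₀ (by norm_num) (by norm_num)
  have hj0 : (0 : ℝ) < (1 / 2) ^ j := by positivity
  set r : ℝ := (1 / 2) ^ (T.b + 1) with hr
  have hrj : r ^ j ≤ (1 / 2) ^ j := pow_le_pow_left₀ (by positivity) hr1 j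
  have hρ : rj ρ1 κ (j + 1) < rj ρ1 κ j := by
    unfold rj; rw [pow_succ]
    have := mul_pos hκ hj0
    nlinarith
  have hdiff : rj ρ1 κ j - rj ρ1 κ (j + 1) = κ / 2 * (1 / 2) ^ j := by
    unfold rj; rw [pow_succ]; ring
  obtain ⟨Z1, W1, X1, P1, h1, h2, h3, h4, h5, h6, h7⟩ := kam_step T (ρ := rj ρ1 κ j)
    (ρ' := rj ρ1 κ (j + 1)) (by unfold rj; positivity) hρ hΛ V s.Z s.W s.X s.P hs.rel
    (z := 6 * k * (1 - (1 / 2) ^ j)) (p := ε * r ^ j) (δ := k * (1 / 2) ^ j)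
    (by have : (0:ℝ) ≤ 1 - (1 / 2) ^ j := by linarith
        positivity) (by nlinarith) (by positivity)
    (by
      rw [hdiff]
      apply le_of_eq
      have h8 : (κ / 2 * (1 / 2) ^ j) ^ T.b = (κ / 2) ^ T.b * ((1 / 2) ^ j) ^ T.b := mul_pow _ _ _
      have h9 : r ^ j = ((1 / 2) ^ j) ^ T.b * (1 / 2) ^ j := by
        rw [hr, ← pow_mul, ← pow_mul, ← pow_add]; congr 1; ring
      rw [h8, h9, hk]
      unfold kd
      have h10 : (2 / κ) ^ T.b = 1 / (κ / 2) ^ T.b := by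
        rw [← one_div_pow]; congr 1; field_simp
      rw [h10]
      have h11 : (((1:ℝ) / 2) ^ j) ^ T.b ≠ 0 := by positivity
      have h12 : (κ / 2) ^ T.b ≠ 0 := by positivity
      field_simp
      ring)
    (by nlinarith) hs.hP hs.hZ hs.hW
  have hz : 6 * k * (1 - (1 / 2) ^ j) + 3 * (k * (1 / 2) ^ j) = 6 * k * (1 - (1 / 2) ^ (j + 1)) := by
    rw [pow_succ]; ring
  rw [hz] at h3 h4
  refine ⟨⟨Z1, W1, X1, P1⟩, ⟨h1, ?_, h3, h4⟩, ?_, ?_, ?_⟩
  · refine h2.trans (ENNReal.ofReal_le_ofReal ?_)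
    rw [← hr]
    have h13 : 6 * k * (1 - (1 / 2) ^ j) + k * (1 / 2) ^ j ≤ 7 * k := by nlinarith
    calc 6 * (ε * r ^ j) * (6 * k * (1 - (1 / 2) ^ j) + k * (1 / 2) ^ j)
        ≤ 6 * (ε * r ^ j) * (7 * k) := by gcongr
      _ = (ε * r ^ j) * (42 * k) := by ring
      _ ≤ (ε * r ^ j) * r := by gcongr
      _ = ε * r ^ (j + 1) := by rw [pow_succ]; ring
  · simp only; linarith
  · simp only; linarith
  · simp only; exact h7.trans (by gcongr)

theorem kam (T : Tor) {ρ1 κ ε : ℝ} (h0 : 0 ≤ ρ1) (hκ : 0 < κ) (hε : 0 ≤ ε)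
    (hsmall : 42 * kd T.a T.b κ ε ≤ (1 / 2) ^ (T.b + 1)) {Λ : ℕ → ℂ}
    (hΛ : ∀ K P : ℕ, K ≠ P → T.h / 2 * |(K : ℝ) - P| ≤ ‖Λ K - Λ P‖)
    (V : Hs →L[ℂ] Hs) (hV : Nn T.toLen (ρ1 + κ) V ≤ ENNReal.ofReal ε) :
    ∃ (Z W : Hs →L[ℂ] Hs) (X : Linf), Rel Λ V Z W X 0 ∧
      Nn T.toLen ρ1 Z ≤ ENNReal.ofReal (6 * kd T.a T.b κ ε) ∧
      Nn T.toLen ρ1 (W - 1) ≤ ENNReal.ofReal (6 * kd T.a T.b κ ε) ∧ ‖X‖ ≤ 2 * ε := by
  have ha := T.apos
  have hk0 : 0 ≤ kd T.a T.b κ ε := by unfold kd; positivity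
  have hstep := kam_iter T h0 hκ hε hsmall hΛ V
  have hinit : KInv T Λ V ρ1 κ ε 0 ⟨0, 1, 0, V⟩ := by
    refine ⟨⟨?_, by simp, by simp⟩, ?_, ?_, ?_⟩
    · intro K P
      simp [dg_zero, ent_zero]
    · simp only [rj, pow_zero, mul_one]; exact hV
    · simp [Nn_zero]
    · simp [Nn_zero]
  let F : (j : ℕ) → {s : KSt // KInv T Λ V ρ1 κ ε j s} := fun j => Nat.rec
    (⟨⟨0, 1, 0, V⟩, hinit⟩ : {s : KSt // KInv T Λ V ρ1 κ ε 0 s})
    (fun j s => ⟨(hstep j s.1 s.2).choose, (hstep j s.1 s.2).choose_spec.1⟩) j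
  have hF : ∀ j, ‖(F (j + 1)).1.Z - (F j).1.Z‖ ≤ 3 * kd T.a T.b κ ε * (1 / 2) ^ j ∧
      ‖(F (j + 1)).1.W - (F j).1.W‖ ≤ 3 * kd T.a T.b κ ε * (1 / 2) ^ j ∧
      ‖(F (j + 1)).1.X - (F j).1.X‖ ≤ ε * (1 / 2) ^ j := fun j =>
    (hstep j (F j).1 (F j).2).choose_spec.2
  have hcZ : CauchySeq fun j => (F j).1.Z := by
    apply cauchySeq_of_le_geometric (1 / 2) (3 * kd T.a T.b κ ε) (by norm_num)
    intro j; rw [dist_comm, dist_eq_norm]; exact (hF j).1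
  have hcW : CauchySeq fun j => (F j).1.W := by
    apply cauchySeq_of_le_geometric (1 / 2) (3 * kd T.a T.b κ ε) (by norm_num)
    intro j; rw [dist_comm, dist_eq_norm]; exact (hF j).2.1
  have hdX : ∀ j, dist ((F j).1.X) ((F (j + 1)).1.X) ≤ ε * (1 / 2) ^ j := by
    intro j; rw [dist_comm, dist_eq_norm]; exact (hF j).2.2
  have hcX : CauchySeq fun j => (F j).1.X :=
    cauchySeq_of_le_geometric (1 / 2) ε (by norm_num) hdX
  obtain ⟨Z, hZ⟩ := cauchySeq_tendsto_of_complete hcZ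
  obtain ⟨W, hW⟩ := cauchySeq_tendsto_of_complete hcW
  obtain ⟨X, hX⟩ := cauchySeq_tendsto_of_complete hcX
  have hP : Tendsto (fun j => (F j).1.P) atTop (𝓝 0) := by
    apply squeeze_zero_norm (a := fun j => ε * ((1 / 2) ^ (T.b + 1)) ^ j)
    · intro j
      exact norm_le_of_Nn T.toLen (ρ := rj ρ1 κ j) (by unfold rj; positivity) (by positivity) (F j).2.hP
    · have : Tendsto (fun j : ℕ => (((1:ℝ) / 2) ^ (T.b + 1)) ^ j) atTop (𝓝 0) := by
        apply tendsto_pow_atTop_nhds_zero_of_lt_one (by positivity)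
        exact pow_lt_one₀ (by norm_num) (by norm_num) (by omega)
      simpa using this.const_mul ε
  have hdgX : Tendsto (fun j => dg (F j).1.X) atTop (𝓝 (dg X)) := by
    rw [tendsto_iff_norm_sub_tendsto_zero] at hX ⊢
    refine squeeze_zero (fun _ => norm_nonneg _) (fun j => ?_) hX
    rw [← dg_sub]; exact norm_dg_le _
  refine ⟨Z, W, X, ⟨?_, ?_, ?_⟩, ?_, ?_, ?_⟩
  · intro K P
    have h1 : Tendsto (fun j => (Λ K - Λ P) * ent (F j).1.Z K P) atTop (𝓝 ((Λ K - Λ P) * ent Z K P)) :=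
      (tendsto_ent hZ K P).const_mul _
    have h2 : Tendsto (fun j => (1 + (F j).1.Z) * (F j).1.P - (dg (F j).1.X + V) * (1 + (F j).1.Z)) atTop
        (𝓝 ((1 + Z) * 0 - (dg X + V) * (1 + Z))) :=
      ((hZ.const_add 1).mul hP).sub ((hdgX.add_const V).mul (hZ.const_add 1))
    have h3 := tendsto_ent h2 K P
    have h4 : (fun j => (Λ K - Λ P) * ent (F j).1.Z K P)
        = fun j => ent ((1 + (F j).1.Z) * (F j).1.P - (dg (F j).1.X + V) * (1 + (F j).1.Z)) K P := by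
      funext j; exact (F j).2.rel.ad K P
    rw [h4] at h1
    exact tendsto_nhds_unique h1 h3
  · have h1 : Tendsto (fun j => (1 + (F j).1.Z) * (F j).1.W) atTop (𝓝 ((1 + Z) * W)) :=
      (hZ.const_add 1).mul hW
    have h2 : (fun j => (1 + (F j).1.Z) * (F j).1.W) = fun _ => 1 := by
      funext j; exact (F j).2.rel.inv1
    rw [h2] at h1
    exact (tendsto_nhds_unique h1 tendsto_const_nhds)
  · have h1 : Tendsto (fun j => (F j).1.W * (1 + (F j).1.Z)) atTop (𝓝 (W * (1 + Z))) :=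
      hW.mul (hZ.const_add 1)
    have h2 : (fun j => (F j).1.W * (1 + (F j).1.Z)) = fun _ => 1 := by
      funext j; exact (F j).2.rel.inv2
    rw [h2] at h1
    exact (tendsto_nhds_unique h1 tendsto_const_nhds)
  · apply Nn_le_of_tendsto T.toLen ρ1 (R := fun j => (F j).1.Z) (fun K P => tendsto_ent hZ K P)
    intro j
    refine (Nn_mono T.toLen (ρ' := rj ρ1 κ j) (by unfold rj; have : 0 ≤ κ * (1/2)^j := by positivity
                                                  linarith) _).trans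
      ((F j).2.hZ.trans (ENNReal.ofReal_le_ofReal ?_))
    have : (0 : ℝ) ≤ (1 / 2) ^ j := by positivity
    nlinarith
  · apply Nn_le_of_tendsto T.toLen ρ1 (R := fun j => (F j).1.W - 1)
      (fun K P => tendsto_ent (hW.sub_const 1) K P)
    intro j
    refine (Nn_mono T.toLen (ρ' := rj ρ1 κ j) (by unfold rj; have : 0 ≤ κ * (1/2)^j := by positivity
                                                  linarith) _).trans
      ((F j).2.hW.trans (ENNReal.ofReal_le_ofReal ?_))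
    have : (0 : ℝ) ≤ (1 / 2) ^ j := by positivity
    nlinarith
  · have h1 := dist_le_of_le_geometric_of_tendsto₀ (1 / 2) ε (by norm_num) hdX hX
    have h2 : (F 0).1.X = 0 := rfl
    rw [h2, dist_comm, dist_zero_right] at h1
    have h3 : ε / (1 - 1 / 2) = 2 * ε := by ring
    linarith

end BO
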