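import Pool.Agent.Helper3.BO.Flow

open scoped ENNReal NNReal lp ComplexConjugate Topology
open Filter Set

namespace BO

open scoped ComplexInnerProductSpace

/-- the symbols -/
noncomputable def sy1 (h : ℝ) (v : ℤ → ℂ) (k : ℤ) : ℂ := ((|h * k| : ℝ) : ℂ) * v k
noncomputable def syA (h : ℝ) (v : ℤ → ℂ) (k : ℤ) : ℂ := ((h * k : ℝ) : ℂ) * v k
noncomputable def sy2 (h : ℝ) (v : ℤ → ℂ) (k : ℤ) : ℂ := ((h * k * |h * k| : ℝ) : ℂ) * v k

/-- summability package for a symbol -/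
structure Sm (h : ℝ) (v : ℤ → ℂ) : Prop where
  s0 : Summable fun k => ‖v k‖
  s1 : Summable fun k => ‖sy1 h v k‖
  sA : Summable fun k => ‖syA h v k‖
  s2 : Summable fun k => ‖sy2 h v k‖

noncomputable def Bo (h : ℝ) (v : ℤ → ℂ) : Hs →L[ℂ] Hs := Complex.I • (Tp (sy1 h v) - Tp v * Tp v)
noncomputable def Co (h : ℝ) (v : ℤ → ℂ) : Hs →L[ℂ] Hs :=
  Complex.I • (Tp (sy2 h v) - (Tp (syA h v) * Tp v + Tp v * Tp (syA h v)))

noncomputable def hL (h : ℝ) (K : ℕ) : ℂ := ((h * K : ℝ) : ℂ)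

lemma Ad.smul {Λ : ℕ → ℂ} {A G : Hs →L[ℂ] Hs} (hA : Ad Λ A G) (c : ℂ) : Ad Λ (c • A) (c • G) := by
  intro K P
  rw [ent_smul, ent_smul, ← hA K P]; ring

lemma Ad.sub {Λ : ℕ → ℂ} {A G B H : Hs →L[ℂ] Hs} (hA : Ad Λ A G) (hB : Ad Λ B H) :
    Ad Λ (A - B) (G - H) := by
  intro K P
  rw [ent_sub, ent_sub, ← hA K P, ← hB K P]; ring

lemma ad_A {h : ℝ} {v : ℤ → ℂ} (hv : Sm h v) : Ad (hL h) (Tp v) (Tp (syA h v)) := by
  intro K P
  rw [ent_Tp hv.s0, ent_Tp hv.sA]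
  unfold hL syA
  push_cast; ring

lemma ad_T1 {h : ℝ} {v : ℤ → ℂ} (hv : Sm h v) : Ad (hL h) (Tp (sy1 h v)) (Tp (sy2 h v)) := by
  intro K P
  rw [ent_Tp hv.s1, ent_Tp hv.s2]
  unfold hL sy1 sy2
  push_cast; ring

lemma ad_B {h : ℝ} {v : ℤ → ℂ} (hv : Sm h v) : Ad (hL h) (Bo h v) (Co h v) :=
  ((ad_T1 hv).sub ((ad_A hv).mul (ad_A hv))).smul _

/-- the resolvent `(D+1)^{-1}` -/
noncomputable def Gr (h : ℝ) (hh : 0 < h) : Hs →L[ℂ] Hs :=
  dg (mkInf (fun n => ((1 / (h * n + 1) : ℝ) : ℂ)) 1 (fun n => by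
    rw [Complex.norm_real, Real.norm_eq_abs, abs_of_nonneg (by positivity)]
    rw [div_le_one (by positivity)]
    have : 0 ≤ h * n := by positivity
    linarith))

lemma Gr_comm {h : ℝ} (hh : 0 < h) {B C : Hs →L[ℂ] Hs} (hB : Ad (hL h) B C) :
    Gr h hh * B - B * Gr h hh = - (Gr h hh * C * Gr h hh) := by
  apply ext_ent
  intro K P
  rw [ent_sub, ent_neg]
  unfold Gr
  rw [ent_dg_mul, ent_mul_dg, ent_mul_dg, ent_dg_mul, ← hB K P, mkInf_apply, mkInf_apply]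
  unfold hL
  have h1 : (h : ℂ) * K + 1 ≠ 0 := by
    have : (0 : ℝ) < h * K + 1 := by positivity
    exact_mod_cast this.ne'
  have h2 : (h : ℂ) * P + 1 ≠ 0 := by
    have : (0 : ℝ) < h * P + 1 := by positivity
    exact_mod_cast this.ne'
  push_cast
  field_simp
  ring

lemma isEig_iff {h : ℝ} (hh : 0 < h) {A : Hs →L[ℂ] Hs} {μ : ℂ} {f : Hs} :
    IsEig h A μ f ↔ f - Gr h hh (A f + μ • f + f) = 0 := by
  have h0 : ∀ n : ℕ, (Gr h hh (A f + μ • f + f)) n = ((1 / (h * n + 1) : ℝ) : ℂ) * ((A f) n + μ * f n + f n) :=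
    fun n => rfl
  have h1 : ∀ n : ℕ, (h : ℂ) * n + 1 ≠ 0 := fun n => by
    have : (0 : ℝ) < h * n + 1 := by positivity
    exact_mod_cast this.ne'
  constructor
  · intro hf
    ext n
    rw [lp.coeFn_sub, Pi.sub_apply, h0]
    have h2 := hf n
    push_cast at h2 ⊢
    have h3 := h1 n
    field_simp
    simp
    linear_combination h2
  · intro hf n
    have h2 : (f - Gr h hh (A f + μ • f + f)) n = (0 : Hs) n := by rw [hf]
    rw [lp.coeFn_sub, Pi.sub_apply, h0] at h2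
    have h3 := h1 n
    push_cast at h2 ⊢
    field_simp at h2
    simp at h2
    linear_combination h2

/-- The Lax identity. -/
lemma lax {h : ℝ} (hh : 0 < h) {v : ℤ → ℂ} (hv : Sm h v) (hN : Summable fun k => ‖NL (fun k : ℤ => h * k) v k‖) :
    Tp (NL (fun k : ℤ => h * k) v) = Bo h v * Tp v - Tp v * Bo h v + Co h v := by
  have e1 : Bo h v * Tp v - Tp v * Bo h v + Co h v
      = Complex.I • (Tp (sy1 h v) * Tp v - Tp v * Tp (sy1 h v) - (Tp (syA h v) * Tp v + Tp v * Tp (syA h v)))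
        + Complex.I • Tp (sy2 h v) := by
    unfold Bo Co
    rw [smul_mul_assoc, mul_smul_comm]
    rw [sub_mul, mul_sub, mul_assoc (Tp v) (Tp v) (Tp v)]
    rw [smul_sub, smul_sub, smul_sub, smul_sub, smul_sub]
    abel
  rw [e1]
  apply ext_ent
  intro N P
  rw [ent_Tp hN, ent_add, ent_smul, ent_smul, ent_Tp hv.s2, ent_sub, ent_sub, ent_add]
  unfold NL
  set k : ℤ := (N : ℤ) - P with hk
  -- the function s
  let s : ℤ → ℂ := fun Q => v (N - Q) * v (Q - P)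
  let E : ℤ → ℂ := fun Q => ((|h * ((N - Q : ℤ) : ℝ)| - |h * ((Q - P : ℤ) : ℝ)| - h * ((N - Q : ℤ) : ℝ) - h * ((Q - P : ℤ) : ℝ) : ℝ) : ℂ) * s Q
  have hsn : ∀ Q, ‖s Q‖ = ‖v (N - Q)‖ * ‖v (Q - P)‖ := fun Q => norm_mul _ _
  obtain ⟨M, hM⟩ : ∃ M, ∀ k, ‖v k‖ ≤ M := by
    refine ⟨∑' k, ‖v k‖, fun k => hv.s0.le_tsum k (fun _ _ => norm_nonneg _)⟩
  have hM0 : 0 ≤ M := (norm_nonneg _).trans (hM 0)
  have hsub : Function.Injective (fun Q : ℤ => (N : ℤ) - Q) := fun a b hab => by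
    simp only at hab; omega
  have hsub' : Function.Injective (fun Q : ℤ => Q - (P : ℤ)) := fun a b hab => by
    simp only at hab; omega
  have hs_sum : Summable s := by
    apply Summable.of_norm
    apply Summable.of_nonneg_of_le (fun _ => norm_nonneg _) (fun Q => _)
      ((hv.s0.comp_injective hsub).mul_right M)
    intro Q
    rw [hsn]
    exact mul_le_mul_of_nonneg_left (hM _) (norm_nonneg _)
  have hr1 : Summable fun Q : ℤ => ((|h * ((N - Q : ℤ) : ℝ)| : ℝ) : ℂ) * s Q := by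
    apply Summable.of_norm
    apply Summable.of_nonneg_of_le (fun _ => norm_nonneg _) (fun Q => _)
      ((hv.s1.comp_injective hsub).mul_right M)
    intro Q
    have : ((|h * ((N - Q : ℤ) : ℝ)| : ℝ) : ℂ) * s Q = sy1 h v (N - Q) * v (Q - P) := by
      simp only [s]; unfold sy1; ring
    rw [this, norm_mul]
    exact mul_le_mul_of_nonneg_left (hM _) (norm_nonneg _)
  have hr2 : Summable fun Q : ℤ => ((|h * ((Q - P : ℤ) : ℝ)| : ℝ) : ℂ) * s Q := by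
    apply Summable.of_norm
    apply Summable.of_nonneg_of_le (fun _ => norm_nonneg _) (fun Q => _)
      ((hv.s1.comp_injective hsub').mul_left M)
    intro Q
    have : ((|h * ((Q - P : ℤ) : ℝ)| : ℝ) : ℂ) * s Q = v (N - Q) * sy1 h v (Q - P) := by
      simp only [s]; unfold sy1; ring
    rw [this, norm_mul]
    exact mul_le_mul_of_nonneg_right (hM _) (norm_nonneg _)
  have hr12 : ∑' Q : ℤ, ((|h * ((N - Q : ℤ) : ℝ)| : ℝ) : ℂ) * s Q
      = ∑' Q : ℤ, ((|h * ((Q - P : ℤ) : ℝ)| : ℝ) : ℂ) * s Q := by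
    rw [← (Equiv.subLeft ((N : ℤ) + P)).tsum_eq]
    congr 1; funext Q
    simp only [Equiv.subLeft_apply, s]
    have h1 : (N : ℤ) - (N + P - Q) = Q - P := by ring
    have h2 : (N : ℤ) + P - Q - P = N - Q := by ring
    rw [h1, h2]; ring
  have hs_tsum : ∑' Q, s Q = ∑' m, v m * v (k - m) := by
    rw [← (Equiv.subLeft (N : ℤ)).tsum_eq]
    congr 1; funext Q
    simp only [Equiv.subLeft_apply, s, hk]
    have h1 : (N : ℤ) - (N - Q) = Q := by ring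
    have h2 : (N : ℤ) - Q - P = N - P - Q := by ring
    rw [h1, h2]
  have hEsum : HasSum E (-((h * k : ℝ) : ℂ) * ∑' m, v m * v (k - m)) := by
    have h1 := (hr1.hasSum.sub hr2.hasSum).sub (hs_sum.hasSum.mul_left ((h * k : ℝ) : ℂ))
    rw [hr12, sub_self, hs_tsum, zero_sub] at h1
    have h2 : (fun Q : ℤ => ((|h * ((N - Q : ℤ) : ℝ)| : ℝ) : ℂ) * s Q
        - ((|h * ((Q - P : ℤ) : ℝ)| : ℝ) : ℂ) * s Q - ((h * k : ℝ) : ℂ) * s Q) = E := by
      funext Q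
      simp only [E, hk]
      push_cast; ring
    rw [h2] at h1
    rw [neg_mul]; exact h1
  have hEzero : ∀ Q ∉ Set.range (Nat.cast : ℕ → ℤ), E Q = 0 := by
    intro Q hQ
    have hQ0 : Q < 0 := by
      by_contra h1
      apply hQ
      exact ⟨Q.toNat, by omega⟩
    simp only [E]
    have h1 : 0 ≤ h * ((N - Q : ℤ) : ℝ) := by
      have : (0 : ℝ) ≤ ((N - Q : ℤ) : ℝ) := by exact_mod_cast (by omega : (0:ℤ) ≤ N - Q)
      positivity
    have h2 : h * ((Q - P : ℤ) : ℝ) ≤ 0 := by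
      have : ((Q - P : ℤ) : ℝ) ≤ 0 := by exact_mod_cast (by omega : (Q - P : ℤ) ≤ 0)
      nlinarith
    rw [abs_of_nonneg h1, abs_of_nonpos h2]
    simp
  have hE2 : HasSum (fun Q : ℕ => E Q) (-((h * k : ℝ) : ℂ) * ∑' m, v m * v (k - m)) :=
    (Nat.cast_injective.hasSum_iff hEzero).mpr hEsum
  have t1 := hasSum_ent_mul (Tp (sy1 h v)) (Tp v) N P
  have t2 := hasSum_ent_mul (Tp v) (Tp (sy1 h v)) N P
  have t3 := hasSum_ent_mul (Tp (syA h v)) (Tp v) N P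
  have t4 := hasSum_ent_mul (Tp v) (Tp (syA h v)) N P
  have t5 := (t1.sub t2).sub (t3.add t4)
  have t6 : (fun Q : ℕ => ent (Tp (sy1 h v)) N Q * ent (Tp v) Q P - ent (Tp v) N Q * ent (Tp (sy1 h v)) Q P
      - (ent (Tp (syA h v)) N Q * ent (Tp v) Q P + ent (Tp v) N Q * ent (Tp (syA h v)) Q P))
      = fun Q : ℕ => E Q := by
    funext Q
    rw [ent_Tp hv.s1, ent_Tp hv.s0, ent_Tp hv.s0, ent_Tp hv.s1, ent_Tp hv.sA, ent_Tp hv.sA]
    simp only [E, s]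
    unfold sy1 syA
    push_cast; ring
  rw [t6] at t5
  rw [t5.unique hE2]
  unfold sy2
  push_cast; ring

end BO
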