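import Pool.Agent.Helper3.BO.Bound

open scoped ENNReal NNReal Topology ComplexConjugate
open Filter Set

namespace BO

namespace Modes
variable {G : Type*} [AddCommGroup G] (M : Modes G)

lemma NL_sub_bound {σ A E : ℝ} (hσ : 0 < σ) (hA : 0 ≤ A) (hE : 0 ≤ E) {v w : G → ℂ}
    (hv : ∀ k, ‖v k‖ ≤ A * Real.exp (-(σ * M.ℓ k))) (hw : ∀ k, ‖w k‖ ≤ A * Real.exp (-(σ * M.ℓ k)))
    (hd : ∀ k, ‖v k - w k‖ ≤ E * Real.exp (-(σ * M.ℓ k))) (k : G) :
    ‖NL M.ξ v k - NL M.ξ w k‖ ≤ (M.ξ k ^ 2 + |M.ξ k| * (2 * A * M.S σ)) * E := by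
  have he1 : ∀ m, Real.exp (-(σ * M.ℓ m)) ≤ 1 := fun m => by
    rw [Real.exp_le_one_iff]
    have : 0 ≤ σ * M.ℓ m := by positivity
    linarith
  have hsv := (M.conv_summable hσ hA hv hv k).of_norm
  have hsw := (M.conv_summable hσ hA hw hw k).of_norm
  have h1 : NL M.ξ v k - NL M.ξ w k = Complex.I * ((M.ξ k * |M.ξ k| : ℝ) : ℂ) * (v k - w k)
      - Complex.I * (M.ξ k : ℂ) * ∑' m, (v m * v (k - m) - w m * w (k - m)) := by
    rw [hsv.tsum_sub hsw]
    unfold NL; ring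
  have h2 : ∀ m, ‖v m * v (k - m) - w m * w (k - m)‖ ≤ (2 * A * E) * Real.exp (-(σ * M.ℓ m)) := by
    intro m
    have e : v m * v (k - m) - w m * w (k - m) = (v m - w m) * v (k - m) + w m * (v (k - m) - w (k - m)) := by ring
    rw [e]
    refine (norm_add_le _ _).trans ?_
    rw [norm_mul, norm_mul]
    have b1 : ‖v (k - m)‖ ≤ A := (hv _).trans (by have := he1 (k - m); nlinarith)
    have b2 : ‖v (k - m) - w (k - m)‖ ≤ E := (hd _).trans (by have := he1 (k - m); nlinarith)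
    calc ‖v m - w m‖ * ‖v (k - m)‖ + ‖w m‖ * ‖v (k - m) - w (k - m)‖
        ≤ (E * Real.exp (-(σ * M.ℓ m))) * A + (A * Real.exp (-(σ * M.ℓ m))) * E := by
          gcongr
          · exact hd m
          · exact hw m
      _ = _ := by ring
  have h3 : ‖∑' m, (v m * v (k - m) - w m * w (k - m))‖ ≤ 2 * A * E * M.S σ := by
    have h4 := (M.summ σ hσ).mul_left (2 * A * E)
    refine (tsum_of_norm_bounded h4.hasSum h2).trans (le_of_eq ?_)
    rw [tsum_mul_left]; rfl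
  rw [h1]
  refine (norm_sub_le _ _).trans ?_
  rw [norm_mul, norm_mul, norm_mul, norm_mul, Complex.norm_I, one_mul, one_mul, Complex.norm_real,
    Complex.norm_real, Real.norm_eq_abs, Real.norm_eq_abs, abs_mul, abs_abs, abs_mul_abs_self, ← sq]
  have h5 : ‖v k - w k‖ ≤ E := (hd _).trans (by have := he1 k; nlinarith)
  calc M.ξ k ^ 2 * ‖v k - w k‖ + |M.ξ k| * ‖∑' m, (v m * v (k - m) - w m * w (k - m))‖
      ≤ M.ξ k ^ 2 * E + |M.ξ k| * (2 * A * E * M.S σ) := by gcongr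
    _ = _ := by ring

lemma cM_nonneg {σ A : ℝ} (hσ : 0 < σ) (hA : 0 ≤ A) : 0 ≤ M.cM σ A := by
  have := M.Ω0
  have := M.S_nonneg (σ / 2)
  unfold cM; positivity

lemma lip {σ A : ℝ} (hσ : 0 < σ) (hA : 0 ≤ A) {v : ℝ → G → ℂ} {I : Set ℝ} (hI : Convex ℝ I)
    (hode : ∀ t ∈ I, ∀ k, HasDerivWithinAt (fun s => v s k) (NL M.ξ (v t) k) I t)
    (hb : ∀ t ∈ I, ∀ k, ‖v t k‖ ≤ A * Real.exp (-(σ * M.ℓ k))) {s t : ℝ} (hs : s ∈ I) (ht : t ∈ I) (k : G) :
    ‖v t k - v s k‖ ≤ M.cM σ A * |t - s| * Real.exp (-(σ / 4 * M.ℓ k)) := by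
  have h1 := hI.norm_image_sub_le_of_norm_hasDerivWithin_le (f := fun t => v t k)
    (f' := fun t => NL M.ξ (v t) k) (C := M.cM σ A * Real.exp (-(σ / 4 * M.ℓ k)))
    (fun x hx => hode x hx k) (fun x hx => (M.NL_bound hσ hA (hb x hx) k).2.2) hs ht
  rw [Real.norm_eq_abs] at h1
  refine h1.trans (le_of_eq ?_)
  ring

/-- second order Taylor estimate -/
lemma second {σ A : ℝ} (hσ : 0 < σ) (hA : 0 ≤ A) {v : ℝ → G → ℂ} {I : Set ℝ} (hI : Convex ℝ I)
    (hode : ∀ t ∈ I, ∀ k, HasDerivWithinAt (fun s => v s k) (NL M.ξ (v t) k) I t)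
    (hb : ∀ t ∈ I, ∀ k, ‖v t k‖ ≤ A * Real.exp (-(σ * M.ℓ k))) {s t : ℝ} (hs : s ∈ I) (ht : t ∈ I) (k : G) :
    ‖v t k - v s k - ((t - s : ℝ) : ℂ) * NL M.ξ (v s) k‖ ≤
      (M.ξ k ^ 2 + |M.ξ k| * (2 * A * M.S (σ / 4))) * M.cM σ A * |t - s| ^ 2 := by
  have hcM := M.cM_nonneg hσ hA
  have hS := M.S_nonneg (σ / 4)
  set J : Set ℝ := uIcc s t with hJ
  have hJI : J ⊆ I := hI.ordConnected.uIcc_subset hs ht
  have hb4 : ∀ t ∈ I, ∀ k, ‖v t k‖ ≤ A * Real.exp (-(σ / 4 * M.ℓ k)) := by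
    intro t ht k
    refine (hb t ht k).trans ?_
    gcongr
    linarith
  set f : ℝ → ℂ := fun r => v r k - ((r - s : ℝ) : ℂ) * NL M.ξ (v s) k with hf
  have hderiv : ∀ x ∈ J, HasDerivWithinAt f (NL M.ξ (v x) k - NL M.ξ (v s) k) J x := by
    intro x hx
    have d1 := (hode x (hJI hx) k).mono hJI
    have d2 : HasDerivWithinAt (fun r : ℝ => ((r - s : ℝ) : ℂ) * NL M.ξ (v s) k) (1 * NL M.ξ (v s) k) J x := by
      apply HasDerivWithinAt.mul_const
      have : HasDerivAt (fun r : ℝ => ((r - s : ℝ) : ℂ)) 1 x := by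
        have := ((hasDerivAt_id x).sub_const s).ofReal_comp
        simpa using this
      exact this.hasDerivWithinAt
    rw [one_mul] at d2
    exact d1.sub d2
  have hbound : ∀ x ∈ J, ‖NL M.ξ (v x) k - NL M.ξ (v s) k‖ ≤
      (M.ξ k ^ 2 + |M.ξ k| * (2 * A * M.S (σ / 4))) * (M.cM σ A * |t - s|) := by
    intro x hx
    have h1 : |x - s| ≤ |t - s| := by
      rcases le_total s t with h | h
      · rw [hJ, uIcc_of_le h] at hx
        rw [abs_of_nonneg (by linarith [hx.1]), abs_of_nonneg (by linarith)]; linarith [hx.2]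
      · rw [hJ, uIcc_of_ge h] at hx
        rw [abs_of_nonpos (by linarith [hx.2]), abs_of_nonpos (by linarith)]; linarith [hx.1]
    apply M.NL_sub_bound (by positivity) hA (by positivity) (hb4 x (hJI hx)) (hb4 s hs)
    intro m
    refine (M.lip hσ hA hI hode hb hs (hJI hx) m).trans ?_
    gcongr
  have h2 := (convex_uIcc s t).norm_image_sub_le_of_norm_hasDerivWithin_le hderiv hbound left_mem_uIcc right_mem_uIcc
  have h3 : f t - f s = v t k - v s k - ((t - s : ℝ) : ℂ) * NL M.ξ (v s) k := by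
    simp only [hf, sub_self, Complex.ofReal_zero, zero_mul, sub_zero]; ring
  rw [h3, Real.norm_eq_abs] at h2
  refine h2.trans (le_of_eq ?_)
  ring

end Modes

end BO
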