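import Pool.Agent.Helper3.BO.Approx
import Pool.Agent.Helper3.BO.Second

open scoped ENNReal NNReal Topology ComplexConjugate
open Filter Set

namespace BO

variable {ν : ℕ}

/-! ### Push-forward of the data -/

open Classical in
noncomputable def pf (p : Fin ν → ℤ) (v : (Fin ν → ℤ) → ℂ) (K : ℤ) : ℂ :=
  ∑' n, if idot n p = K then v n else 0

open Classical in
lemma pf_bound (N : ℕ) (p : Fin ν → ℤ) (v : (Fin ν → ℤ) → ℂ) {σ : ℝ} (hσ : 0 ≤ σ) :
    ∑' K, ‖pf p v K‖ₑ * wt (lenL N p) σ K ≤ ∑' n, ‖v n‖ₑ * ENNReal.ofReal (Real.exp (σ * nrm n)) := by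
  have h1 : ∀ K, ‖pf p v K‖ₑ * wt (lenL N p) σ K
      ≤ ∑' n, if idot n p = K then ‖v n‖ₑ * ENNReal.ofReal (Real.exp (σ * nrm n)) else 0 := by
    intro K
    calc ‖pf p v K‖ₑ * wt (lenL N p) σ K
        ≤ (∑' n, ‖if idot n p = K then v n else 0‖ₑ) * wt (lenL N p) σ K := by
          gcongr; exact enorm_tsum_le_tsum_enorm
      _ = ∑' n, ‖if idot n p = K then v n else 0‖ₑ * wt (lenL N p) σ K := by
          rw [ENNReal.tsum_mul_right]
      _ ≤ _ := by
          apply ENNReal.tsum_le_tsum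
          intro n
          split_ifs with h
          · gcongr
            unfold wt
            apply ENNReal.ofReal_le_ofReal
            apply Real.exp_le_exp.mpr
            rw [← h]
            have := len_idot_le N p n
            rw [lenL_ℓ]
            have h2 : (len N p (idot n p) : ℝ) ≤ nrm n := by exact_mod_cast this
            gcongr
          · simp
  refine (ENNReal.tsum_le_tsum h1).trans ?_
  rw [ENNReal.tsum_comm]
  apply ENNReal.tsum_le_tsum
  intro n
  rw [tsum_eq_single (idot n p)]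
  · simp
  · intro K hK; rw [if_neg (fun h => hK h.symm)]

open Classical in
lemma pf_real (p : Fin ν → ℤ) {v : (Fin ν → ℤ) → ℂ} (hv : ∀ n, v (-n) = conj (v n)) (K : ℤ) :
    pf p v (-K) = conj (pf p v K) := by
  unfold pf
  rw [Complex.conj_tsum, ← (Equiv.neg (Fin ν → ℤ)).tsum_eq]
  congr 1; funext n
  simp only [Equiv.neg_apply]
  rw [idot_neg, hv]
  by_cases h : idot n p = K
  · simp [h]
  · rw [if_neg h, if_neg (by omega)]; simp

section seq

variable {ω : Fin ν → ℝ} {a0 : ℝ} {b : ℕ} {N : ℕ → ℕ}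
  (D : ∀ j : ℕ, AppData ω a0 b (N j) ((j + 1 : ℕ) : ℝ))

lemma pf_tendsto (ha0 : 0 < a0) (hω : ∀ n : Fin ν → ℤ, n ≠ 0 → a0 ≤ |dot n ω| * (nrm n : ℝ) ^ b)
    (hN : Tendsto N atTop atTop) {v : (Fin ν → ℤ) → ℂ} (hv : Summable fun n => ‖v n‖) (n : Fin ν → ℤ) :
    Tendsto (fun j => pf (D j).p v (idot n (D j).p)) atTop (𝓝 (v n)) := by
  classical
  have h1 : v n = ∑' m, if m = n then v n else 0 := by rw [tsum_ite_eq]
  rw [h1]
  unfold pf
  apply tendsto_tsum_of_dominated_convergence hv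
  · intro m
    by_cases hm : m = n
    · subst hm; simp
    · rw [if_neg hm]
      apply tendsto_const_nhds.congr'
      filter_upwards [hN.eventually_ge_atTop (nrm (m - n))] with j hj
      rw [if_neg]
      intro h
      have h2 := (D j).idot_ne ha0 hω (sub_ne_zero.mpr hm) hj
      apply h2
      rw [idot_sub, h, sub_self]
  · filter_upwards with j m
    split_ifs
    · exact le_rfl
    · simp

lemma xi_tendsto (n : Fin ν → ℤ) :
    Tendsto (fun j => (D j).modes.ξ (idot n (D j).p)) atTop (𝓝 (dot n ω)) := by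
  rw [tendsto_iff_norm_sub_tendsto_zero]
  have h1 : Tendsto (fun j : ℕ => (nrm n : ℝ) * (1 / ((j : ℝ) + 1))) atTop (𝓝 0) := by
    have := (tendsto_one_div_add_atTop_nhds_zero_nat (𝕜 := ℝ)).const_mul (nrm n : ℝ)
    simpa using this
  refine squeeze_zero (fun _ => norm_nonneg _) (fun j => ?_) h1
  have h2 := (D j).dot_approx n
  have h3 : (D j).modes.ξ (idot n (D j).p) = (idot n (D j).p : ℝ) / (D j).q := by
    show 1 / ((D j).q : ℝ) * (idot n (D j).p : ℝ) = _
    ring
  rw [Real.norm_eq_abs, h3]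
  refine h2.trans ?_
  have hq : (1 : ℝ) ≤ (D j).q := by exact_mod_cast (D j).hq
  gcongr
  push_cast
  have : (0 : ℝ) ≤ (j : ℝ) + 1 := by positivity
  nlinarith

/-- convergence of the convolution along any filter below `atTop` -/
lemma conv_tendsto (ha0 : 0 < a0) (hω : ∀ n : Fin ν → ℤ, n ≠ 0 → a0 ≤ |dot n ω| * (nrm n : ℝ) ^ b)
    (hN : Tendsto N atTop atTop) {F : Filter ℕ} (hF : F ≤ atTop) {A ρ : ℝ} (hA : 0 ≤ A) (hρ : 0 < ρ)
    {v : ℕ → ℤ → ℂ} {C : (Fin ν → ℤ) → ℂ}
    (hv : ∀ᶠ j in F, ∀ K, ‖v j K‖ ≤ A * Real.exp (-(ρ * (D j).modes.ℓ K)))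
    (hC : ∀ n, Tendsto (fun j => v j (idot n (D j).p)) F (𝓝 (C n))) (n : Fin ν → ℤ) :
    Tendsto (fun j => ∑' m, v j m * v j (idot n (D j).p - m)) F (𝓝 (∑' m, C m * C (n - m))) := by
  classical
  set g : ℕ → ℤ → ℂ := fun j m => v j m * v j (idot n (D j).p - m) with hg
  set Fx : ℕ → (Fin ν → ℤ) × ℤ → ℂ := fun j => Function.extend (rep (N j) (D j).p) (g j) 0 with hFx
  have h1 : ∀ j, ∑' m, v j m * v j (idot n (D j).p - m) = ∑' x, Fx j x := fun j =>
    (tsum_extend_zero (rep_inj (N j) (D j).p) (g j)).symm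
  have h2 : ∑' m, C m * C (n - m) = ∑' x : (Fin ν → ℤ) × ℤ, if x.2 = 0 then C x.1 * C (n - x.1) else 0 := by
    have hinj : Function.Injective (fun m : Fin ν → ℤ => ((m, 0) : (Fin ν → ℤ) × ℤ)) := fun a b h => by
      simpa using h
    rw [← hinj.tsum_eq]
    · simp
    · intro x hx
      rw [Function.mem_support] at hx
      have : x.2 = 0 := by
        by_contra h; exact hx (if_neg h)
      exact ⟨x.1, Prod.ext rfl this.symm⟩
  simp only [h1]
  rw [h2]
  have hbd : ∀ᶠ j in F, ∀ x, ‖Fx j x‖ ≤ A * A * Real.exp (-(ρ * (wl (N j) x : ℕ))) := by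
    filter_upwards [hv] with j hj x
    simp only [hFx]
    by_cases hx : ∃ M, rep (N j) (D j).p M = x
    · obtain ⟨M, rfl⟩ := hx
      rw [(rep_inj (N j) (D j).p).extend_apply]
      simp only [hg]
      rw [norm_mul]
      have h3 : ‖v j (idot n (D j).p - M)‖ ≤ A := by
        refine (hj _).trans ?_
        have : Real.exp (-(ρ * (D j).modes.ℓ (idot n (D j).p - M))) ≤ 1 := by
          rw [Real.exp_le_one_iff]
          have : 0 ≤ ρ * (D j).modes.ℓ (idot n (D j).p - M) := by positivity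
          linarith
        nlinarith
      calc ‖v j M‖ * ‖v j (idot n (D j).p - M)‖ ≤ (A * Real.exp (-(ρ * (D j).modes.ℓ M))) * A := by
            gcongr; exact hj M
        _ = A * A * Real.exp (-(ρ * (D j).modes.ℓ M)) := by ring
    · rw [Function.extend_apply' _ _ _ hx]
      simp only [Pi.zero_apply, norm_zero]
      positivity
  apply tendsto_tsum_of_dominated_convergence (bound := fun x : (Fin ν → ℤ) × ℤ =>
    A * A * Real.exp (-(ρ * (nrm x.1 + x.2.natAbs : ℕ)))) ((summ_prod hρ ν).mul_left _)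
  · rintro ⟨m, r⟩
    by_cases hr : r = 0
    · subst hr
      simp only [if_true]
      have h3 := (hC m).mul (hC (n - m))
      refine h3.congr' ?_
      filter_upwards [hF (hN.eventually_ge_atTop (2 * nrm m))] with j hj
      simp only [hFx]
      rw [← (D j).rep_idot ha0 hω hj, (rep_inj (N j) (D j).p).extend_apply, idot_sub]
    · simp only [if_neg hr]
      have h4 : Tendsto (fun j => A * A * Real.exp (-(ρ * (N j : ℝ)))) F (𝓝 0) := by
        have h5 : Tendsto (fun j => (N j : ℝ)) F atTop := (tendsto_natCast_atTop_atTop.comp hN).mono_left hF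
        have h6 : Tendsto (fun j => -(ρ * (N j : ℝ))) F atBot :=
          tendsto_neg_atTop_atBot.comp (h5.const_mul_atTop hρ)
        have := (Real.tendsto_exp_atBot.comp h6).const_mul (A * A)
        simpa using this
      apply squeeze_zero_norm' _ h4
      filter_upwards [hbd] with j hj
      refine (hj (m, r)).trans ?_
      gcongr
      have h7 : N j ≤ wl (N j) (m, r) := by
        unfold wl
        have : 1 ≤ r.natAbs := Int.natAbs_pos.mpr hr
        simp only
        nlinarith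
      exact_mod_cast h7
  · filter_upwards [hbd] with j hj x
    refine (hj x).trans ?_
    gcongr
    unfold wl
    have : x.2.natAbs ≤ (N j + 1) * x.2.natAbs := Nat.le_mul_of_pos_left _ (by omega)
    omega

lemma NL_tendsto (ha0 : 0 < a0) (hω : ∀ n : Fin ν → ℤ, n ≠ 0 → a0 ≤ |dot n ω| * (nrm n : ℝ) ^ b)
    (hN : Tendsto N atTop atTop) {F : Filter ℕ} (hF : F ≤ atTop) {A ρ : ℝ} (hA : 0 ≤ A) (hρ : 0 < ρ)
    {v : ℕ → ℤ → ℂ} {C : (Fin ν → ℤ) → ℂ}
    (hv : ∀ᶠ j in F, ∀ K, ‖v j K‖ ≤ A * Real.exp (-(ρ * (D j).modes.ℓ K)))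
    (hC : ∀ n, Tendsto (fun j => v j (idot n (D j).p)) F (𝓝 (C n))) (n : Fin ν → ℤ) :
    Tendsto (fun j => NL (D j).modes.ξ (v j) (idot n (D j).p)) F (𝓝 (NL (fun n => dot n ω) C n)) := by
  have h1 := (xi_tendsto D n).mono_left hF
  have h2 : Tendsto (fun j => (((D j).modes.ξ (idot n (D j).p) * |(D j).modes.ξ (idot n (D j).p)| : ℝ) : ℂ)) F
      (𝓝 ((dot n ω * |dot n ω| : ℝ) : ℂ)) :=
    (Complex.continuous_ofReal.tendsto _).comp (h1.mul h1.abs)
  have h3 : Tendsto (fun j => (((D j).modes.ξ (idot n (D j).p) : ℝ) : ℂ)) F (𝓝 ((dot n ω : ℝ) : ℂ)) :=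
    (Complex.continuous_ofReal.tendsto _).comp h1
  have h4 := conv_tendsto D ha0 hω hN hF hA hρ hv hC n
  unfold NL
  exact ((h2.const_mul Complex.I).mul (hC n)).sub ((h3.const_mul Complex.I).mul h4)

lemma modes_S_le (j : ℕ) {σ : ℝ} (hσ : 0 < σ) : (D j).modes.S σ ≤ Sb ν σ :=
  (AppData.len_summ hσ (N j) (D j).p).2

theorem limit_sol (ha0 : 0 < a0) (hω : ∀ n : Fin ν → ℤ, n ≠ 0 → a0 ≤ |dot n ω| * (nrm n : ℝ) ^ b)
    (hN : Tendsto N atTop atTop) {A ρ : ℝ} (hA : 0 ≤ A) (hρ : 0 < ρ)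
    {v : ℕ → ℝ → ℤ → ℂ} {v0 : (Fin ν → ℤ) → ℂ}
    (hode : ∀ j : ℕ, ∀ t ∈ Icc (0 : ℝ) j, ∀ K,
      HasDerivWithinAt (fun s => v j s K) (NL (D j).modes.ξ (v j t) K) (Icc (0 : ℝ) j) t)
    (hb : ∀ j : ℕ, ∀ t ∈ Icc (0 : ℝ) j, ∀ K, ‖v j t K‖ ≤ A * Real.exp (-(ρ * (D j).modes.ℓ K)))
    (hreal : ∀ j : ℕ, ∀ t ∈ Icc (0 : ℝ) j, ∀ K, v j t (-K) = conj (v j t K))
    (h0 : ∀ n, Tendsto (fun j => v j 0 (idot n (D j).p)) atTop (𝓝 (v0 n))) :
    ∃ C : ℝ → (Fin ν → ℤ) → ℂ, C 0 = v0 ∧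
      (∀ t, 0 ≤ t → ∀ n, ‖C t n‖ ≤ A * Real.exp (-(ρ * nrm n))) ∧
      (∀ t, 0 ≤ t → ∀ n, C t (-n) = conj (C t n)) ∧
      (∀ t, 0 ≤ t → ∀ n, HasDerivWithinAt (fun s => C s n) (NL (fun n => dot n ω) (C t) n) (Ici 0) t) := by
  classical
  set F : Ultrafilter ℕ := hyperfilter ℕ with hFdef
  have hF : (F : Filter ℕ) ≤ atTop := Nat.hyperfilter_le_atTop
  set x : ℕ → ℝ → (Fin ν → ℤ) → ℂ := fun j t n =>
    if t ∈ Icc (0 : ℝ) j then v j t (idot n (D j).p) else 0 with hx
  have hxb : ∀ j t n, ‖x j t n‖ ≤ A := by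
    intro j t n
    simp only [hx]
    split_ifs with h
    · refine (hb j t h _).trans ?_
      have : Real.exp (-(ρ * (D j).modes.ℓ (idot n (D j).p))) ≤ 1 := by
        rw [Real.exp_le_one_iff]
        have : 0 ≤ ρ * (D j).modes.ℓ (idot n (D j).p) := by positivity
        linarith
      nlinarith
    · simpa using hA
  have hlim : ∀ t n, ∃ z, Tendsto (fun j => x j t n) F (𝓝 z) := by
    intro t n
    obtain ⟨z, -, hz⟩ := (isCompact_closedBall (0 : ℂ) A).ultrafilter_le_nhds' (F.map (fun j => x j t n))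
      (by
        rw [Ultrafilter.mem_map]
        apply Filter.univ_mem'
        intro j
        show x j t n ∈ Metric.closedBall (0 : ℂ) A
        rw [mem_closedBall_zero_iff]; exact hxb j t n)
    exact ⟨z, hz⟩
  choose C hC using hlim
  have hev : ∀ t : ℝ, 0 ≤ t → ∀ᶠ j : ℕ in (F : Filter ℕ), t ∈ Icc (0 : ℝ) (j : ℝ) := by
    intro t ht
    obtain ⟨J, hJ⟩ := exists_nat_ge t
    filter_upwards [hF (eventually_ge_atTop J)] with j hj
    exact ⟨ht, hJ.trans (by exact_mod_cast hj)⟩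
  have hC' : ∀ t : ℝ, 0 ≤ t → ∀ n, Tendsto (fun j => v j t (idot n (D j).p)) F (𝓝 (C t n)) := by
    intro t ht n
    refine (hC t n).congr' ?_
    filter_upwards [hev t ht] with j hj
    simp only [hx, if_pos hj]
  refine ⟨C, ?_, ?_, ?_, ?_⟩
  · funext n
    exact tendsto_nhds_unique (hC' 0 le_rfl n) ((h0 n).mono_left hF)
  · intro t ht n
    apply le_of_tendsto (hC' t ht n).norm
    filter_upwards [hev t ht, hF (hN.eventually_ge_atTop (2 * nrm n))] with j hj hj2
    have h1 := hb j t hj (idot n (D j).p)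
    have h2 : (D j).modes.ℓ (idot n (D j).p) = nrm n := (D j).len_idot ha0 hω hj2
    rw [h2] at h1
    exact h1
  · intro t ht n
    have h1 := hC' t ht (-n)
    have h2 : Tendsto (fun j => conj (v j t (idot n (D j).p))) F (𝓝 (conj (C t n))) :=
      (Complex.continuous_conj.tendsto _).comp (hC' t ht n)
    refine tendsto_nhds_unique h1 (h2.congr' ?_)
    filter_upwards [hev t ht] with j hj
    rw [idot_neg, hreal j t hj]
  · intro s hs n
    set Ω : ℝ := Wsum ω + 1 with hΩ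
    have hΩ0 : 0 ≤ Ω := by rw [hΩ]; unfold Wsum; positivity
    set cb : ℝ := A + Ω ^ 2 * A * (2 * (4 / ρ) ^ 2) + Ω * (4 / ρ) * (A * A * Sb ν (ρ / 2)) with hcb
    set L : ℝ := ((Ω * nrm n) ^ 2 + (Ω * nrm n) * (2 * A * Sb ν (ρ / 4))) * cb with hL
    have hSb2 := Sb_nonneg ν (ρ / 2)
    have hSb4 := Sb_nonneg ν (ρ / 4)
    have hcb0 : 0 ≤ cb := by rw [hcb]; positivity
    have hL0 : 0 ≤ L := by rw [hL]; positivity
    have hNL := NL_tendsto D ha0 hω hN hF hA hρ
      (v := fun j => v j s) (C := C s) (by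
        filter_upwards [hev s hs] with j hj K
        exact hb j s hj K) (hC' s hs) n
    have hest : ∀ t : ℝ, 0 ≤ t →
        ‖C t n - C s n - ((t - s : ℝ) : ℂ) * NL (fun n => dot n ω) (C s) n‖ ≤ L * |t - s| ^ 2 := by
      intro t ht
      have h1 := (((hC' t ht n).sub (hC' s hs n)).sub (hNL.const_mul ((t - s : ℝ) : ℂ))).norm
      apply le_of_tendsto h1
      filter_upwards [hev t ht, hev s hs] with j hjt hjs
      refine ((D j).modes.second hρ hA (convex_Icc (0 : ℝ) j) (hode j) (hb j) hjs hjt _).trans ?_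
      have h2 : |(D j).modes.ξ (idot n (D j).p)| ≤ Ω * nrm n := by
        refine ((D j).modes.hξ _).trans ?_
        have h3 : ((D j).modes.ℓ (idot n (D j).p) : ℝ) ≤ nrm n := by
          exact_mod_cast len_idot_le (N j) (D j).p n
        show Ω * _ ≤ _
        gcongr
      have h4 : (D j).modes.ξ (idot n (D j).p) ^ 2 ≤ (Ω * nrm n) ^ 2 := by
        rw [← sq_abs]; gcongr
      have h5 := modes_S_le D j (σ := ρ / 4) (by positivity)
      have h6 := modes_S_le D j (σ := ρ / 2) (by positivity)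
      have h7 : (D j).modes.cM ρ A ≤ cb := by
        unfold Modes.cM
        rw [hcb]
        have : (D j).modes.Ω = Ω := rfl
        rw [this]
        gcongr
      have h8 := (D j).modes.cM_nonneg hρ hA
      have h9 : 0 ≤ 2 * A * (D j).modes.S (ρ / 4) := by
        have := (D j).modes.S_nonneg (ρ / 4); positivity
      rw [hL]
      gcongr
    rw [hasDerivWithinAt_iff_isLittleO, Asymptotics.isLittleO_iff]
    intro c hc
    have h1 : ∀ᶠ t in 𝓝[Ici 0] s, |t - s| < c / (L + 1) := by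
      apply nhdsWithin_le_nhds
      have h2 : 0 < c / (L + 1) := by positivity
      filter_upwards [Metric.ball_mem_nhds s h2] with t ht
      rwa [Metric.mem_ball, Real.dist_eq] at ht
    filter_upwards [h1, self_mem_nhdsWithin] with t ht1 ht2
    have h3 := hest t ht2
    rw [Complex.real_smul, Real.norm_eq_abs]
    refine h3.trans ?_
    rw [lt_div_iff₀ (by positivity)] at ht1
    have h4 := abs_nonneg (t - s)
    nlinarith

end seq

end BO
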