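import Mathlib

open scoped ENNReal NNReal lp Topology
open Filter Set

set_option linter.unusedSectionVars false

namespace BO

/-- abstract quadratic fixed point -/
theorem quad_fix {X : Type*} [NormedAddCommGroup X] [CompleteSpace X] (B : X → X → X) {C : ℝ}
    (hsub1 : ∀ x x' y, B (x - x') y = B x y - B x' y) (hsub2 : ∀ x y y', B x (y - y') = B x y - B x y')
    (hC : ∀ x y, ‖B x y‖ ≤ C * ‖x‖ * ‖y‖) (hC0 : 0 ≤ C) (a : X) (ha : 8 * C * ‖a‖ ≤ 1)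
    (S : Set X) (hS : IsClosed S) (h0 : 0 ∈ S) (hmap : ∀ x ∈ S, a + B x x ∈ S) :
    ∃ x ∈ S, x = a + B x x ∧ ‖x‖ ≤ 2 * ‖a‖ := by
  set F : X → X := fun x => a + B x x with hF
  set D : Set X := S ∩ Metric.closedBall 0 (2 * ‖a‖) with hD
  have hDc : IsClosed D := hS.inter Metric.isClosed_closedBall
  have h0D : (0 : X) ∈ D := ⟨h0, by rw [Metric.mem_closedBall, dist_self]; positivity⟩
  have hmaps : MapsTo F D D := by
    intro x hx
    refine ⟨hmap x hx.1, ?_⟩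
    have h1 : ‖x‖ ≤ 2 * ‖a‖ := by simpa using hx.2
    rw [Metric.mem_closedBall, dist_zero_right]
    calc ‖a + B x x‖ ≤ ‖a‖ + C * ‖x‖ * ‖x‖ := (norm_add_le _ _).trans (by gcongr; exact hC x x)
      _ ≤ ‖a‖ + C * (2 * ‖a‖) * (2 * ‖a‖) := by gcongr
      _ = ‖a‖ + (8 * C * ‖a‖) * (‖a‖ / 2) := by ring
      _ ≤ ‖a‖ + 1 * (‖a‖ / 2) := by gcongr
      _ ≤ 2 * ‖a‖ := by linarith [norm_nonneg a]
  have hcon : ContractingWith (1 / 2 : ℝ≥0) (hmaps.restrict F D D) := by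
    refine ⟨by norm_num [← NNReal.coe_lt_coe], ?_⟩
    apply LipschitzWith.of_dist_le_mul
    rintro ⟨x, hx⟩ ⟨y, hy⟩
    show dist (F x) (F y) ≤ ((1 / 2 : ℝ≥0) : ℝ) * dist x y
    rw [dist_eq_norm, dist_eq_norm]
    have hx1 : ‖x‖ ≤ 2 * ‖a‖ := by simpa using hx.2
    have hy1 : ‖y‖ ≤ 2 * ‖a‖ := by simpa using hy.2
    have h1 : F x - F y = B (x - y) x + B y (x - y) := by
      simp only [hF]; rw [hsub1, hsub2]; abel
    rw [h1]
    calc ‖B (x - y) x + B y (x - y)‖ ≤ C * ‖x - y‖ * ‖x‖ + C * ‖y‖ * ‖x - y‖ :=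
          (norm_add_le _ _).trans (add_le_add (hC _ _) (hC _ _))
      _ ≤ C * ‖x - y‖ * (2 * ‖a‖) + C * (2 * ‖a‖) * ‖x - y‖ := by gcongr
      _ = (8 * C * ‖a‖) * (‖x - y‖ / 2) := by ring
      _ ≤ 1 * (‖x - y‖ / 2) := by gcongr
      _ = ((1 / 2 : ℝ≥0) : ℝ) * ‖x - y‖ := by push_cast; ring
  obtain ⟨y, hy, hfix, -, -⟩ := ContractingWith.exists_fixedPoint' hDc.isComplete
    hmaps hcon h0D (edist_ne_top _ _)
  exact ⟨y, hy.1, hfix.symm, by simpa using hy.2⟩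

section lp1
variable {G : Type*} [AddCommGroup G] {E : Type*} [NormedCommRing E] [CompleteSpace E]

lemma lp1_summable (x : lp (fun _ : G => E) 1) : Summable fun k => ‖x k‖ := by
  have := (lp.memℓp x).summable (by norm_num)
  simpa using this

lemma lp1_norm (x : lp (fun _ : G => E) 1) : ‖x‖ = ∑' k, ‖x k‖ := by
  have := lp.norm_rpow_eq_tsum (p := 1) (by norm_num) x
  simpa using this

def mk1 (f : G → E) (hf : Summable fun k => ‖f k‖) : lp (fun _ : G => E) 1 :=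
  ⟨f, memℓp_gen (by simpa using hf)⟩

lemma mk1_apply (f : G → E) (hf : Summable fun k => ‖f k‖) (k : G) : mk1 f hf k = f k := rfl

lemma conv_sum (a b : G → ℝ≥0∞) : ∑' k, ∑' m, a m * b (k - m) = (∑' k, a k) * ∑' k, b k := by
  rw [ENNReal.tsum_comm]
  rw [← ENNReal.tsum_mul_right]
  congr 1; funext m
  rw [ENNReal.tsum_mul_left]
  congr 1
  exact (Equiv.subRight m).tsum_eq b

lemma conv_summable {c : G → G → E} (hc : ∀ k m, ‖c k m‖ ≤ 1) (x y : lp (fun _ : G => E) 1) (k : G) :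
    Summable fun m => c k m * x m * y (k - m) := by
  apply Summable.of_norm_bounded ((lp1_summable x).mul_right ‖y‖)
  intro m
  have h1 : ‖y (k - m)‖ ≤ ‖y‖ := lp.norm_apply_le_norm (by norm_num) y _
  calc ‖c k m * x m * y (k - m)‖ ≤ ‖c k m‖ * ‖x m‖ * ‖y (k - m)‖ := by
        refine (norm_mul_le _ _).trans ?_
        gcongr
        exact norm_mul_le _ _
    _ ≤ 1 * ‖x m‖ * ‖y‖ := by gcongr; exact hc k m
    _ = _ := by ring

lemma conv_enorm {c : G → G → E} (hc : ∀ k m, ‖c k m‖ ≤ 1) (x y : lp (fun _ : G => E) 1) (k : G) :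
    ‖∑' m, c k m * x m * y (k - m)‖ₑ ≤ ∑' m, ‖x m‖ₑ * ‖y (k - m)‖ₑ := by
  refine enorm_tsum_le_tsum_enorm.trans ?_
  apply ENNReal.tsum_le_tsum
  intro m
  rw [← ofReal_norm, ← ofReal_norm, ← ofReal_norm, ← ENNReal.ofReal_mul (norm_nonneg _)]
  apply ENNReal.ofReal_le_ofReal
  calc ‖c k m * x m * y (k - m)‖ ≤ ‖c k m‖ * ‖x m‖ * ‖y (k - m)‖ := by
        refine (norm_mul_le _ _).trans ?_
        gcongr
        exact norm_mul_le _ _
    _ ≤ 1 * ‖x m‖ * ‖y (k - m)‖ := by gcongr; exact hc k m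
    _ = _ := by ring

lemma tsum_enorm_lp1 (x : lp (fun _ : G => E) 1) : ∑' k, ‖x k‖ₑ = ENNReal.ofReal ‖x‖ := by
  rw [lp1_norm, ENNReal.ofReal_tsum_of_nonneg (fun _ => norm_nonneg _) (lp1_summable x)]
  congr 1; funext k; rw [ofReal_norm]

variable (c : G → G → E) (J : G → E →+ E) (C : ℝ)

lemma BB_tsum {c : G → G → E} (hc : ∀ k m, ‖c k m‖ ≤ 1) {J : G → E →+ E} {C : ℝ} (hC0 : 0 ≤ C)
    (hJ : ∀ k f, ‖J k f‖ ≤ C * ‖f‖) (x y : lp (fun _ : G => E) 1) :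
    ∑' k, ‖J k (∑' m, c k m * x m * y (k - m))‖ₑ ≤ ENNReal.ofReal (C * ‖x‖ * ‖y‖) := by
  calc ∑' k, ‖J k (∑' m, c k m * x m * y (k - m))‖ₑ
      ≤ ∑' k, ENNReal.ofReal C * ∑' m, ‖x m‖ₑ * ‖y (k - m)‖ₑ := by
        apply ENNReal.tsum_le_tsum
        intro k
        calc ‖J k (∑' m, c k m * x m * y (k - m))‖ₑ
            ≤ ENNReal.ofReal C * ‖∑' m, c k m * x m * y (k - m)‖ₑ := by
              rw [← ofReal_norm, ← ofReal_norm, ← ENNReal.ofReal_mul hC0]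
              exact ENNReal.ofReal_le_ofReal (hJ k _)
          _ ≤ _ := by gcongr; exact conv_enorm hc x y k
    _ = ENNReal.ofReal C * (ENNReal.ofReal ‖x‖ * ENNReal.ofReal ‖y‖) := by
        rw [ENNReal.tsum_mul_left, conv_sum (fun m => ‖x m‖ₑ) (fun m => ‖y m‖ₑ), tsum_enorm_lp1,
          tsum_enorm_lp1]
    _ = _ := by
        rw [ENNReal.ofReal_mul (by positivity), ENNReal.ofReal_mul hC0, mul_assoc]

/-- Fixed points of quadratic convolution equations in `ℓ¹(G; E)`. -/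
theorem conv_fix {c : G → G → E} (hc : ∀ k m, ‖c k m‖ ≤ 1) {J : G → E →+ E} {C : ℝ} (hC0 : 0 ≤ C)
    (hJ : ∀ k f, ‖J k f‖ ≤ C * ‖f‖) (a : G → E) (ha : Summable fun k => ‖a k‖)
    (hsmall : 8 * C * ∑' k, ‖a k‖ ≤ 1) (S : Set (lp (fun _ : G => E) 1)) (hS : IsClosed S) (h0 : 0 ∈ S)
    (hmap : ∀ x ∈ S, ∀ z : lp (fun _ : G => E) 1,
      (∀ k, z k = a k + J k (∑' m, c k m * x m * x (k - m))) → z ∈ S) :
    ∃ x : lp (fun _ : G => E) 1, x ∈ S ∧ (∀ k, x k = a k + J k (∑' m, c k m * x m * x (k - m))) ∧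
      ‖x‖ ≤ 2 * ∑' k, ‖a k‖ := by
  have hsum : ∀ x y : lp (fun _ : G => E) 1,
      Summable fun k => ‖J k (∑' m, c k m * x m * y (k - m))‖ := by
    intro x y
    have h1 : ∑' k, ‖J k (∑' m, c k m * x m * y (k - m))‖ₑ ≠ ∞ :=
      ne_top_of_le_ne_top ENNReal.ofReal_ne_top (BB_tsum hc hC0 hJ x y)
    have h2 := ENNReal.summable_toReal h1
    simpa only [toReal_enorm] using h2
  let B : lp (fun _ : G => E) 1 → lp (fun _ : G => E) 1 → lp (fun _ : G => E) 1 := fun x y =>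
    mk1 (fun k => J k (∑' m, c k m * x m * y (k - m))) (hsum x y)
  have hBapp : ∀ x y k, (B x y) k = J k (∑' m, c k m * x m * y (k - m)) := fun _ _ _ => rfl
  have ha1 : ‖mk1 a ha‖ = ∑' k, ‖a k‖ := lp1_norm _
  have hs1 : ∀ x x' y, B (x - x') y = B x y - B x' y := by
    intro x x' y
    ext k
    rw [lp.coeFn_sub, Pi.sub_apply, hBapp, hBapp, hBapp, ← map_sub]
    congr 1
    rw [← (conv_summable hc x y k).tsum_sub (conv_summable hc x' y k)]
    congr 1; funext m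
    rw [lp.coeFn_sub, Pi.sub_apply]; ring
  have hs2 : ∀ x y y', B x (y - y') = B x y - B x y' := by
    intro x y y'
    ext k
    rw [lp.coeFn_sub, Pi.sub_apply, hBapp, hBapp, hBapp, ← map_sub]
    congr 1
    rw [← (conv_summable hc x y k).tsum_sub (conv_summable hc x y' k)]
    congr 1; funext m
    rw [lp.coeFn_sub, Pi.sub_apply]; ring
  have hs3 : ∀ x y, ‖B x y‖ ≤ C * ‖x‖ * ‖y‖ := by
    intro x y
    have h1 := tsum_enorm_lp1 (B x y)
    have h2 := BB_tsum hc hC0 hJ x y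
    have h3 : ∑' k, ‖(B x y) k‖ₑ ≤ ENNReal.ofReal (C * ‖x‖ * ‖y‖) := h2
    rw [h1] at h3
    exact (ENNReal.ofReal_le_ofReal_iff (by positivity)).mp h3
  obtain ⟨x, hxS, hx, hxn⟩ := quad_fix B (C := C) hs1 hs2 hs3 hC0 (mk1 a ha) (by rw [ha1]; exact hsmall)
    S hS h0 (fun x hx => hmap x hx _ (fun k => rfl))
  refine ⟨x, hxS, ?_, by rw [← ha1]; exact hxn⟩
  intro k
  have := congrArg (fun z : lp (fun _ : G => E) 1 => z k) hx
  exact this

end lp1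

end BO
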