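import Pool.Agent.Helper3.BO.Bound
import Pool.Agent.Helper3.BO.Quad

open scoped ENNReal NNReal Topology ComplexConjugate
open Filter Set MeasureTheory

namespace BO

variable {G : Type*} [AddCommGroup G] (M : Modes G)

namespace Modes

lemma ℓ_zero_ξ {k : G} (h : M.ℓ k = 0) : M.ξ k = 0 := by
  have := M.hξ k
  rw [h] at this
  simpa using this

variable (σ κ T0 : ℝ)

/-- the kernel, as an element of `C([0,T0], ℂ)` -/
noncomputable def cc (k m : G) : C(Icc (0 : ℝ) T0, ℂ) where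
  toFun s := ((Real.exp ((σ - κ * s) * ((M.ℓ k : ℝ) - M.ℓ m - M.ℓ (k - m))) : ℝ) : ℂ) *
    Complex.exp (-Complex.I * ((M.θ k - M.θ m - M.θ (k - m) : ℝ) : ℂ) * ((s : ℝ) : ℂ))
  continuous_toFun := by fun_prop

lemma norm_cc_le (hσ : κ * T0 ≤ σ) (hκ : 0 ≤ κ) (k m : G) : ‖M.cc σ κ T0 k m‖ ≤ 1 := by
  rw [ContinuousMap.norm_le _ (by norm_num)]
  intro s
  show ‖((Real.exp ((σ - κ * s) * ((M.ℓ k : ℝ) - M.ℓ m - M.ℓ (k - m))) : ℝ) : ℂ) *
    Complex.exp (-Complex.I * ((M.θ k - M.θ m - M.θ (k - m) : ℝ) : ℂ) * ((s : ℝ) : ℂ))‖ ≤ 1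
  have h1 : -Complex.I * ((M.θ k - M.θ m - M.θ (k - m) : ℝ) : ℂ) * ((s : ℝ) : ℂ)
      = ((-(M.θ k - M.θ m - M.θ (k - m)) * s : ℝ) : ℂ) * Complex.I := by push_cast; ring
  rw [norm_mul, h1, Complex.norm_exp_ofReal_mul_I, mul_one, Complex.norm_real, Real.norm_eq_abs,
    abs_of_pos (Real.exp_pos _), Real.exp_le_one_iff]
  have h2 : κ * s ≤ κ * T0 := by have := s.2.2; gcongr
  have h3 : (M.ℓ k : ℝ) ≤ M.ℓ m + M.ℓ (k - m) := by exact_mod_cast M.le_add k m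
  have h4 : 0 ≤ σ - κ * s := by linarith
  nlinarith

variable {T0} (hT : 0 ≤ T0)

/-- extension to the real line -/
noncomputable def ext (f : C(Icc (0 : ℝ) T0, ℂ)) (s : ℝ) : ℂ := f (projIcc 0 T0 hT s)

lemma ext_cont (f : C(Icc (0 : ℝ) T0, ℂ)) : Continuous (ext hT f) :=
  f.continuous.comp continuous_projIcc

lemma ext_of_mem (f : C(Icc (0 : ℝ) T0, ℂ)) {s : ℝ} (hs : s ∈ Icc 0 T0) : ext hT f s = f ⟨s, hs⟩ := by
  unfold ext; rw [projIcc_of_mem hT hs]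

lemma norm_ext_le (f : C(Icc (0 : ℝ) T0, ℂ)) (s : ℝ) : ‖ext hT f s‖ ≤ ‖f‖ :=
  f.norm_coe_le_norm _

noncomputable def JF (k : G) (f : C(Icc (0 : ℝ) T0, ℂ)) (t : ℝ) : ℂ :=
  -Complex.I * (M.ξ k : ℂ) * ((Real.exp (-(κ * M.ℓ k * t)) : ℝ) : ℂ) *
    ∫ s in (0 : ℝ)..t, ((Real.exp (κ * M.ℓ k * s) : ℝ) : ℂ) * ext hT f s

lemma intg_cont (k : G) (f : C(Icc (0 : ℝ) T0, ℂ)) :
    Continuous fun s : ℝ => ((Real.exp (κ * M.ℓ k * s) : ℝ) : ℂ) * ext hT f s := by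
  have := ext_cont hT f
  fun_prop

lemma JF_cont (k : G) (f : C(Icc (0 : ℝ) T0, ℂ)) : Continuous (M.JF κ hT k f) := by
  unfold JF
  have h1 : Continuous fun t : ℝ => ∫ s in (0 : ℝ)..t, ((Real.exp (κ * M.ℓ k * s) : ℝ) : ℂ) * ext hT f s := by
    rw [continuous_iff_continuousAt]
    intro t
    exact ((M.intg_cont κ hT k f).integral_hasStrictDerivAt 0 t).hasDerivAt.continuousAt
  fun_prop

noncomputable def JJ (k : G) : C(Icc (0 : ℝ) T0, ℂ) →+ C(Icc (0 : ℝ) T0, ℂ) where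
  toFun f := ⟨fun t => M.JF κ hT k f t, (M.JF_cont κ hT k f).comp continuous_subtype_val⟩
  map_zero' := by
    ext t
    show M.JF κ hT k 0 t = 0
    unfold JF
    have : ∀ s, ext hT (0 : C(Icc (0 : ℝ) T0, ℂ)) s = 0 := fun s => rfl
    simp [this]
  map_add' f g := by
    ext t
    show M.JF κ hT k (f + g) t = M.JF κ hT k f t + M.JF κ hT k g t
    unfold JF
    have h1 : ∀ s, ext hT (f + g) s = ext hT f s + ext hT g s := fun s => rfl
    simp only [h1, mul_add]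
    rw [intervalIntegral.integral_add ((M.intg_cont κ hT k f).intervalIntegrable _ _)
      ((M.intg_cont κ hT k g).intervalIntegrable _ _)]
    ring

lemma exp_int (c t : ℝ) : c * ∫ s in (0 : ℝ)..t, Real.exp (c * s) = Real.exp (c * t) - 1 := by
  rw [← intervalIntegral.integral_const_mul]
  have h1 : ∀ s ∈ uIcc 0 t, HasDerivAt (fun s => Real.exp (c * s)) (c * Real.exp (c * s)) s := by
    intro s _
    have := ((hasDerivAt_id s).const_mul c).exp
    simp only [id, mul_one] at this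
    rw [mul_comm]; exact this
  rw [intervalIntegral.integral_eq_sub_of_hasDerivAt h1 ((by fun_prop : Continuous fun s : ℝ => c * Real.exp (c * s)).intervalIntegrable _ _)]
  simp

lemma JF_bound {κ : ℝ} (hκ : 0 < κ) (k : G) (f : C(Icc (0 : ℝ) T0, ℂ)) {t : ℝ} (ht : 0 ≤ t) :
    ‖M.JF κ hT k f t‖ ≤ M.Ω / κ * ‖f‖ := by
  unfold JF
  rw [norm_mul, norm_mul, norm_mul, norm_neg, Complex.norm_I, one_mul, Complex.norm_real, Complex.norm_real,
    Real.norm_eq_abs, Real.norm_eq_abs, abs_of_pos (Real.exp_pos _)]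
  set c : ℝ := κ * M.ℓ k with hc
  have hc0 : 0 ≤ c := by positivity
  have h1 : ‖∫ s in (0 : ℝ)..t, ((Real.exp (c * s) : ℝ) : ℂ) * ext hT f s‖
      ≤ (∫ s in (0 : ℝ)..t, Real.exp (c * s)) * ‖f‖ := by
    refine (intervalIntegral.norm_integral_le_integral_norm ht).trans ?_
    rw [← intervalIntegral.integral_mul_const]
    apply intervalIntegral.integral_mono_on ht
    · exact (M.intg_cont κ hT k f).norm.intervalIntegrable _ _
    · exact (by fun_prop : Continuous fun s : ℝ => Real.exp (c * s) * ‖f‖).intervalIntegrable _ _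
    · intro s _
      rw [norm_mul, Complex.norm_real, Real.norm_eq_abs, abs_of_pos (Real.exp_pos _)]
      gcongr
      exact norm_ext_le hT f s
  have hI0 : 0 ≤ ∫ s in (0 : ℝ)..t, Real.exp (c * s) :=
    intervalIntegral.integral_nonneg ht fun s _ => (Real.exp_pos _).le
  have h2 : κ * (|M.ξ k| * ∫ s in (0 : ℝ)..t, Real.exp (c * s)) ≤ M.Ω * Real.exp (c * t) := by
    calc κ * (|M.ξ k| * ∫ s in (0 : ℝ)..t, Real.exp (c * s))
        ≤ κ * ((M.Ω * M.ℓ k) * ∫ s in (0 : ℝ)..t, Real.exp (c * s)) := by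
          gcongr; exact M.hξ k
      _ = M.Ω * (c * ∫ s in (0 : ℝ)..t, Real.exp (c * s)) := by rw [hc]; ring
      _ = M.Ω * (Real.exp (c * t) - 1) := by rw [exp_int]
      _ ≤ _ := by have := M.Ω0; nlinarith
  calc |M.ξ k| * Real.exp (-(c * t)) * ‖∫ s in (0 : ℝ)..t, ((Real.exp (c * s) : ℝ) : ℂ) * ext hT f s‖
      ≤ |M.ξ k| * Real.exp (-(c * t)) * ((∫ s in (0 : ℝ)..t, Real.exp (c * s)) * ‖f‖) := by gcongr
    _ = (κ * (|M.ξ k| * ∫ s in (0 : ℝ)..t, Real.exp (c * s))) * (Real.exp (-(c * t)) * ‖f‖ / κ) := by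
        field_simp
    _ ≤ (M.Ω * Real.exp (c * t)) * (Real.exp (-(c * t)) * ‖f‖ / κ) := by gcongr
    _ = M.Ω / κ * ‖f‖ * (Real.exp (c * t) * Real.exp (-(c * t))) := by ring
    _ = M.Ω / κ * ‖f‖ := by rw [← Real.exp_add, add_neg_cancel, Real.exp_zero, mul_one]

lemma JJ_bound {κ : ℝ} (hκ : 0 < κ) (k : G) (f : C(Icc (0 : ℝ) T0, ℂ)) :
    ‖M.JJ κ hT k f‖ ≤ M.Ω / κ * ‖f‖ := by
  have := M.Ω0
  rw [ContinuousMap.norm_le _ (by positivity)]
  intro t
  exact M.JF_bound hT hκ k f t.2.1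

noncomputable def aa (T0 : ℝ) (v0 : G → ℂ) (k : G) : C(Icc (0 : ℝ) T0, ℂ) where
  toFun t := ((Real.exp ((σ - κ * t) * M.ℓ k) : ℝ) : ℂ) * v0 k
  continuous_toFun := by fun_prop

lemma norm_aa_le {κ : ℝ} (hκ : 0 ≤ κ) (v0 : G → ℂ) (k : G) :
    ‖M.aa σ κ T0 v0 k‖ ≤ Real.exp (σ * M.ℓ k) * ‖v0 k‖ := by
  rw [ContinuousMap.norm_le _ (by positivity)]
  intro t
  show ‖((Real.exp ((σ - κ * t) * M.ℓ k) : ℝ) : ℂ) * v0 k‖ ≤ _
  rw [norm_mul, Complex.norm_real, Real.norm_eq_abs, abs_of_pos (Real.exp_pos _)]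
  gcongr
  have := t.2.1
  nlinarith [mul_nonneg hκ this]

lemma exp_alg (θk θm θn s ck cm cn : ℝ) (x y : ℂ) (t : ℝ) :
    Complex.exp (Complex.I * θk * t) * ((Real.exp (-(s * ck)) : ℝ) : ℂ) *
      ((((Real.exp (s * (ck - cm - cn)) : ℝ) : ℂ) * Complex.exp (-Complex.I * ((θk - θm - θn : ℝ) : ℂ) * t)) * x * y)
    = (Complex.exp (Complex.I * θm * t) * ((Real.exp (-(s * cm)) : ℝ) : ℂ) * x) *
      (Complex.exp (Complex.I * θn * t) * ((Real.exp (-(s * cn)) : ℝ) : ℂ) * y) := by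
  have h1 : Complex.exp (Complex.I * θk * t) * ((Real.exp (-(s * ck)) : ℝ) : ℂ) *
      (((Real.exp (s * (ck - cm - cn)) : ℝ) : ℂ) * Complex.exp (-Complex.I * ((θk - θm - θn : ℝ) : ℂ) * t))
    = (Complex.exp (Complex.I * θm * t) * ((Real.exp (-(s * cm)) : ℝ) : ℂ)) *
      (Complex.exp (Complex.I * θn * t) * ((Real.exp (-(s * cn)) : ℝ) : ℂ)) := by
    simp only [Complex.ofReal_exp]
    rw [← Complex.exp_add, ← Complex.exp_add, ← Complex.exp_add, ← Complex.exp_add, ← Complex.exp_add,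
      ← Complex.exp_add]
    congr 1
    push_cast; ring
  linear_combination (x * y) * h1

open Classical in
theorem local_exist {ρ σ σ' A : ℝ} (h1 : 0 < σ') (h2 : σ' < σ) (h3 : σ < ρ) (hA : 0 ≤ A) :
    ∃ T0 > 0, ∃ A' ≥ 0, ∀ v0 : G → ℂ, (∀ k, ‖v0 k‖ ≤ A * Real.exp (-(ρ * M.ℓ k))) →
      (∀ k, v0 (-k) = conj (v0 k)) →
      ∃ v : ℝ → G → ℂ, v 0 = v0 ∧
        (∀ t ∈ Icc 0 T0, ∀ k, HasDerivWithinAt (fun s => v s k) (NL M.ξ (v t) k) (Icc 0 T0) t) ∧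
        (∀ t ∈ Icc 0 T0, ∀ k, ‖v t k‖ ≤ A' * Real.exp (-(σ' * M.ℓ k))) ∧
        (∀ t ∈ Icc 0 T0, ∀ k, v t (-k) = conj (v t k)) := by
  have hΩ := M.Ω0
  have hS := M.S_nonneg (ρ - σ)
  set κ : ℝ := 8 * M.Ω * A * M.S (ρ - σ) + 1 with hκ
  have hκ0 : 0 < κ := by positivity
  set T0 : ℝ := (σ - σ') / κ with hT0
  have hT0' : 0 < T0 := div_pos (by linarith) hκ0
  have hκT : κ * T0 = σ - σ' := by rw [hT0]; field_simp
  have hT : (0 : ℝ) ≤ T0 := hT0'.le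
  refine ⟨T0, hT0', 2 * (A * M.S (ρ - σ)), by positivity, ?_⟩
  intro v0 hv0 hreal
  have hab : ∀ k, ‖M.aa σ κ T0 v0 k‖ ≤ A * Real.exp (-((ρ - σ) * M.ℓ k)) := by
    intro k
    refine (M.norm_aa_le σ hκ0.le v0 k).trans ?_
    calc Real.exp (σ * M.ℓ k) * ‖v0 k‖ ≤ Real.exp (σ * M.ℓ k) * (A * Real.exp (-(ρ * M.ℓ k))) := by
          gcongr; exact hv0 k
      _ = A * (Real.exp (σ * M.ℓ k) * Real.exp (-(ρ * M.ℓ k))) := by ring
      _ = _ := by rw [← Real.exp_add]; congr 2; ring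
  have hsA : Summable fun k => A * Real.exp (-((ρ - σ) * M.ℓ k)) :=
    (M.summ (ρ - σ) (by linarith)).mul_left A
  have ha : Summable fun k => ‖M.aa σ κ T0 v0 k‖ :=
    Summable.of_nonneg_of_le (fun _ => norm_nonneg _) hab hsA
  have haS : ∑' k, ‖M.aa σ κ T0 v0 k‖ ≤ A * M.S (ρ - σ) := by
    refine (ha.tsum_le_tsum hab hsA).trans (le_of_eq ?_)
    rw [tsum_mul_left]; rfl
  have hsmall : 8 * (M.Ω / κ) * ∑' k, ‖M.aa σ κ T0 v0 k‖ ≤ 1 := by
    calc 8 * (M.Ω / κ) * ∑' k, ‖M.aa σ κ T0 v0 k‖ ≤ 8 * (M.Ω / κ) * (A * M.S (ρ - σ)) := by gcongr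
      _ = (8 * M.Ω * A * M.S (ρ - σ)) / κ := by ring
      _ ≤ 1 := by rw [div_le_one hκ0, hκ]; linarith
  have hcc : ∀ k m, ‖M.cc σ κ T0 k m‖ ≤ 1 := M.norm_cc_le σ κ T0 (by rw [hκT]; linarith) hκ0.le
  have hev : ∀ (x : lp (fun _ : G => C(Icc (0 : ℝ) T0, ℂ)) 1) (k : G) (t : Icc (0 : ℝ) T0),
      HasSum (fun m => M.cc σ κ T0 k m t * x m t * x (k - m) t)
        ((∑' m, M.cc σ κ T0 k m * x m * x (k - m)) t) := by
    intro x k t
    exact (BO.conv_summable hcc x x k).hasSum.mapL (ContinuousMap.evalCLM ℂ t)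
  set S : Set (lp (fun _ : G => C(Icc (0 : ℝ) T0, ℂ)) 1) :=
    {x | ∀ k, ∀ t : Icc (0 : ℝ) T0, x (-k) t = conj (x k t)} with hSdef
  have hScl : IsClosed S := by
    have : S = ⋂ k, ⋂ t : Icc (0 : ℝ) T0, {x | x (-k) t = conj (x k t)} := by
      ext x; rw [hSdef]; simp only [mem_iInter]; rfl
    rw [this]
    apply isClosed_iInter; intro k
    apply isClosed_iInter; intro t
    have hc : ∀ k : G, Continuous fun x : lp (fun _ : G => C(Icc (0 : ℝ) T0, ℂ)) 1 => x k t := by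
      intro k
      exact (ContinuousMap.evalCLM ℂ t).continuous.comp (lp.lipschitzWith_one_eval 1 k).continuous
    exact isClosed_eq (hc (-k)) (Complex.continuous_conj.comp (hc k))
  obtain ⟨x, hxS, hx, hxn⟩ := conv_fix (G := G) (E := C(Icc (0 : ℝ) T0, ℂ)) hcc (J := M.JJ κ hT)
    (C := M.Ω / κ) (by positivity) (M.JJ_bound hT hκ0) (M.aa σ κ T0 v0) ha hsmall S hScl
    (by intro k t; simp) (by
      intro x hxS z hz k t
      rw [hz, hz]
      show ((Real.exp ((σ - κ * t) * M.ℓ (-k)) : ℝ) : ℂ) * v0 (-k)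
        + M.JF κ hT (-k) (∑' m, M.cc σ κ T0 (-k) m * x m * x (-k - m)) t
        = conj (((Real.exp ((σ - κ * t) * M.ℓ k) : ℝ) : ℂ) * v0 k
        + M.JF κ hT k (∑' m, M.cc σ κ T0 k m * x m * x (k - m)) t)
      rw [map_add, map_mul, Complex.conj_ofReal, M.neg, hreal]
      congr 1
      have hN : ∀ s, ext hT (∑' m, M.cc σ κ T0 (-k) m * x m * x (-k - m)) s
          = conj (ext hT (∑' m, M.cc σ κ T0 k m * x m * x (k - m)) s) := by
        intro s
        unfold ext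
        set s' := projIcc 0 T0 hT s
        rw [← (hev x (-k) s').tsum_eq, ← (hev x k s').tsum_eq, Complex.conj_tsum]
        rw [← (Equiv.neg G).tsum_eq]
        congr 1; funext m
        simp only [Equiv.neg_apply]
        have e1 : -k - -m = -(k - m) := by abel
        rw [e1, hxS, hxS, map_mul, map_mul]
        congr 2
        show ((Real.exp ((σ - κ * s') * ((M.ℓ (-k) : ℝ) - M.ℓ (-m) - M.ℓ (-k - -m))) : ℝ) : ℂ) *
            Complex.exp (-Complex.I * ((M.θ (-k) - M.θ (-m) - M.θ (-k - -m) : ℝ) : ℂ) * ((s' : ℝ) : ℂ))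
          = conj (((Real.exp ((σ - κ * s') * ((M.ℓ k : ℝ) - M.ℓ m - M.ℓ (k - m))) : ℝ) : ℂ) *
            Complex.exp (-Complex.I * ((M.θ k - M.θ m - M.θ (k - m) : ℝ) : ℂ) * ((s' : ℝ) : ℂ)))
        rw [e1, M.neg, M.neg, M.neg, M.θ_neg, M.θ_neg, M.θ_neg, map_mul, Complex.conj_ofReal,
          ← Complex.exp_conj]
        congr 2
        simp only [map_mul, map_neg, Complex.conj_I, Complex.conj_ofReal]
        push_cast; ring
      unfold JF
      simp only [hN]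
      rw [map_mul, map_mul, map_mul, map_neg, Complex.conj_I, Complex.conj_ofReal, Complex.conj_ofReal,
        ← intervalIntegral.intervalIntegral_conj, M.neg, M.ξ_neg]
      have e2 : ∀ s : ℝ, conj (((Real.exp (κ * M.ℓ k * s) : ℝ) : ℂ) *
          ext hT (∑' m, M.cc σ κ T0 k m * x m * x (k - m)) s)
          = ((Real.exp (κ * M.ℓ k * s) : ℝ) : ℂ) *
          conj (ext hT (∑' m, M.cc σ κ T0 k m * x m * x (k - m)) s) := by
        intro s; rw [map_mul, Complex.conj_ofReal]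
      simp only [e2]
      push_cast; ring)
  -- the solution
  set v : ℝ → G → ℂ := fun t k => Complex.exp (Complex.I * M.θ k * t) *
    ((Real.exp (-((σ - κ * t) * M.ℓ k)) : ℝ) : ℂ) * ext hT (x k) t with hv
  set N : G → C(Icc (0 : ℝ) T0, ℂ) := fun k => ∑' m, M.cc σ κ T0 k m * x m * x (k - m) with hN
  set w : ℝ → G → ℂ := fun t k => Complex.exp (Complex.I * M.θ k * t) *
    (v0 k + -Complex.I * (M.ξ k : ℂ) * ((Real.exp (-(σ * M.ℓ k)) : ℝ) : ℂ) *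
      ∫ s in (0 : ℝ)..t, ((Real.exp (κ * M.ℓ k * s) : ℝ) : ℂ) * ext hT (N k) s) with hw
  have hxe : ∀ t ∈ Icc 0 T0, ∀ k, ext hT (x k) t = ((Real.exp ((σ - κ * t) * M.ℓ k) : ℝ) : ℂ) * v0 k
      + M.JF κ hT k (N k) t := by
    intro t ht k
    rw [ext_of_mem hT _ ht, hx k]
    rfl
  have hvw : ∀ t ∈ Icc 0 T0, ∀ k, v t k = w t k := by
    intro t ht k
    simp only [hv, hw]
    rw [hxe t ht k]
    unfold JF
    have e1 : ((Real.exp (-((σ - κ * t) * M.ℓ k)) : ℝ) : ℂ) * ((Real.exp ((σ - κ * t) * M.ℓ k) : ℝ) : ℂ) = 1 := by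
      rw [← Complex.ofReal_mul, ← Real.exp_add, neg_add_cancel, Real.exp_zero, Complex.ofReal_one]
    have e2 : ((Real.exp (-((σ - κ * t) * M.ℓ k)) : ℝ) : ℂ) * ((Real.exp (-(κ * M.ℓ k * t)) : ℝ) : ℂ)
        = ((Real.exp (-(σ * M.ℓ k)) : ℝ) : ℂ) := by
      rw [← Complex.ofReal_mul, ← Real.exp_add]; congr 2; ring
    linear_combination (Complex.exp (Complex.I * M.θ k * t) * v0 k) * e1 +
      (Complex.exp (Complex.I * M.θ k * t) * (-Complex.I * (M.ξ k : ℂ)) *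
        ∫ s in (0 : ℝ)..t, ((Real.exp (κ * M.ℓ k * s) : ℝ) : ℂ) * ext hT (N k) s) * e2
  have hconv : ∀ t ∈ Icc 0 T0, ∀ k, Complex.exp (Complex.I * M.θ k * t) *
      ((Real.exp (-((σ - κ * t) * M.ℓ k)) : ℝ) : ℂ) * ext hT (N k) t = ∑' m, v t m * v t (k - m) := by
    intro t ht k
    rw [ext_of_mem hT _ ht, ← (hev x k ⟨t, ht⟩).tsum_eq, ← tsum_mul_left]
    congr 1; funext m
    simp only [hv]
    rw [ext_of_mem hT _ ht, ext_of_mem hT _ ht]
    exact exp_alg (M.θ k) (M.θ m) (M.θ (k - m)) (σ - κ * t) (M.ℓ k) (M.ℓ m) (M.ℓ (k - m)) _ _ t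
  have hbound : ∀ t ∈ Icc 0 T0, ∀ k, ‖v t k‖ ≤ 2 * (A * M.S (ρ - σ)) * Real.exp (-(σ' * M.ℓ k)) := by
    intro t ht k
    simp only [hv]
    have e1 : Complex.I * (M.θ k : ℂ) * (t : ℂ) = ((M.θ k * t : ℝ) : ℂ) * Complex.I := by push_cast; ring
    rw [norm_mul, norm_mul, e1, Complex.norm_exp_ofReal_mul_I, one_mul, Complex.norm_real, Real.norm_eq_abs,
      abs_of_pos (Real.exp_pos _), mul_comm]
    have e2 : κ * t ≤ σ - σ' := by rw [← hκT]; have := ht.2; gcongr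
    have e3 : ‖ext hT (x k) t‖ ≤ 2 * (A * M.S (ρ - σ)) := by
      refine (norm_ext_le hT _ t).trans ((lp.norm_apply_le_norm (by norm_num) x k).trans (hxn.trans ?_))
      gcongr
    gcongr
    linarith
  refine ⟨v, ?_, ?_, hbound, ?_⟩
  · funext k
    rw [hvw 0 (left_mem_Icc.mpr hT) k]
    simp only [hw]
    rw [intervalIntegral.integral_same]
    simp
  · intro t ht k
    have d1 : HasDerivAt (fun s => w s k)
        (Complex.exp (Complex.I * M.θ k * t) * (Complex.I * M.θ k) *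
          (v0 k + -Complex.I * (M.ξ k : ℂ) * ((Real.exp (-(σ * M.ℓ k)) : ℝ) : ℂ) *
            ∫ s in (0 : ℝ)..t, ((Real.exp (κ * M.ℓ k * s) : ℝ) : ℂ) * ext hT (N k) s)
        + Complex.exp (Complex.I * M.θ k * t) * (-Complex.I * (M.ξ k : ℂ) * ((Real.exp (-(σ * M.ℓ k)) : ℝ) : ℂ) *
            (((Real.exp (κ * M.ℓ k * t) : ℝ) : ℂ) * ext hT (N k) t))) t := by
      have d2 : HasDerivAt (fun s : ℝ => Complex.exp (Complex.I * M.θ k * s))
          (Complex.exp (Complex.I * M.θ k * t) * (Complex.I * M.θ k)) t := by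
        have d3 : HasDerivAt (fun s : ℝ => Complex.I * (M.θ k : ℂ) * (s : ℂ)) (Complex.I * M.θ k) t := by
          have := (Complex.ofRealCLM.hasDerivAt (x := t)).const_mul (Complex.I * (M.θ k : ℂ))
          simpa using this
        exact d3.cexp
      have d4 := ((M.intg_cont κ hT k (N k)).integral_hasStrictDerivAt 0 t).hasDerivAt
      exact d2.mul ((d4.const_mul _).const_add _)
    have d5 : HasDerivWithinAt (fun s => v s k) _ (Icc 0 T0) t :=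
      d1.hasDerivWithinAt.congr (fun s hs => hvw s hs k) (hvw t ht k)
    refine d5.congr_deriv ?_
    unfold NL
    rw [← hconv t ht k, hvw t ht k]
    simp only [hw]
    have e2 : ((Real.exp (-((σ - κ * t) * M.ℓ k)) : ℝ) : ℂ)
        = ((Real.exp (-(σ * M.ℓ k)) : ℝ) : ℂ) * ((Real.exp (κ * M.ℓ k * t) : ℝ) : ℂ) := by
      rw [← Complex.ofReal_mul, ← Real.exp_add]; congr 2; ring
    have e3 : ((M.ξ k * |M.ξ k| : ℝ) : ℂ) = (M.θ k : ℂ) := rfl
    rw [e2, e3]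
    ring
  · intro t ht k
    simp only [hv]
    rw [ext_of_mem hT _ ht, ext_of_mem hT _ ht, hxS, M.θ_neg, M.neg, map_mul, map_mul, Complex.conj_ofReal,
      ← Complex.exp_conj]
    congr 3
    simp only [map_mul, Complex.conj_I, Complex.conj_ofReal]
    push_cast; ring

end Modes

end BO
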