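import Pool.Agent.Helper3.BO.Op

open scoped ENNReal NNReal lp
open Filter Topology

namespace BO

/-- length functions on `ℤ` -/
structure Len where
  ℓ : ℤ → ℕ
  zero : ℓ 0 = 0
  neg : ∀ k, ℓ (-k) = ℓ k
  add_le : ∀ j k, ℓ (j + k) ≤ ℓ j + ℓ k

noncomputable def wt (L : Len) (ρ : ℝ) (k : ℤ) : ℝ≥0∞ := ENNReal.ofReal (Real.exp (ρ * L.ℓ k))

lemma wt_zero (L : Len) (ρ : ℝ) : wt L ρ 0 = 1 := by
  unfold wt; simp [L.zero]

lemma wt_ne_top (L : Len) (ρ : ℝ) (k : ℤ) : wt L ρ k ≠ ∞ := ENNReal.ofReal_ne_top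

lemma one_le_wt (L : Len) {ρ : ℝ} (hρ : 0 ≤ ρ) (k : ℤ) : 1 ≤ wt L ρ k := by
  unfold wt
  rw [ENNReal.one_le_ofReal]
  exact Real.one_le_exp (by positivity)

lemma wt_mono (L : Len) {ρ ρ' : ℝ} (h : ρ ≤ ρ') (k : ℤ) : wt L ρ k ≤ wt L ρ' k := by
  unfold wt
  apply ENNReal.ofReal_le_ofReal
  apply Real.exp_le_exp.mpr
  gcongr

lemma wt_add_le (L : Len) {ρ : ℝ} (hρ : 0 ≤ ρ) (j k : ℤ) : wt L ρ (j + k) ≤ wt L ρ j * wt L ρ k := by
  unfold wt
  rw [← ENNReal.ofReal_mul (Real.exp_pos _).le, ← Real.exp_add]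
  apply ENNReal.ofReal_le_ofReal
  apply Real.exp_le_exp.mpr
  rw [← mul_add]
  have : (L.ℓ (j + k) : ℝ) ≤ L.ℓ j + L.ℓ k := by exact_mod_cast L.add_le j k
  gcongr

/-- sup over the `k`-th diagonal -/
noncomputable def ds (a : ℕ → ℕ → ℂ) (k : ℤ) : ℝ≥0∞ :=
  ⨆ (Q : ℕ) (P : ℕ) (_ : (Q : ℤ) - P = k), ‖a Q P‖ₑ

noncomputable def Nm (L : Len) (ρ : ℝ) (a : ℕ → ℕ → ℂ) : ℝ≥0∞ := ∑' k, ds a k * wt L ρ k

/-- the weighted norm of an operator -/
noncomputable def Nn (L : Len) (ρ : ℝ) (R : Hs →L[ℂ] Hs) : ℝ≥0∞ := Nm L ρ (ent R)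

lemma le_ds (a : ℕ → ℕ → ℂ) (K P : ℕ) : ‖a K P‖ₑ ≤ ds a ((K : ℤ) - P) := by
  unfold ds
  exact le_iSup_of_le K (le_iSup_of_le P (le_iSup_of_le rfl le_rfl))

lemma ds_le {a : ℕ → ℕ → ℂ} {k : ℤ} {c : ℝ≥0∞} (h : ∀ Q P : ℕ, (Q : ℤ) - P = k → ‖a Q P‖ₑ ≤ c) :
    ds a k ≤ c := iSup_le fun Q => iSup_le fun P => iSup_le fun hk => h Q P hk

lemma Nm_le_of_le (L : Len) (ρ : ℝ) {a b : ℕ → ℕ → ℂ} (h : ∀ K P, ‖a K P‖ₑ ≤ ‖b K P‖ₑ) :
    Nm L ρ a ≤ Nm L ρ b := by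
  apply ENNReal.tsum_le_tsum
  intro k
  gcongr
  apply ds_le
  intro Q P hk
  rw [← hk]
  exact (h Q P).trans (le_ds b Q P)

lemma Nm_add_le (L : Len) (ρ : ℝ) (a b : ℕ → ℕ → ℂ) :
    Nm L ρ (fun K P => a K P + b K P) ≤ Nm L ρ a + Nm L ρ b := by
  unfold Nm
  rw [← ENNReal.tsum_add]
  apply ENNReal.tsum_le_tsum
  intro k
  rw [← add_mul]
  gcongr
  apply ds_le
  intro Q P hk
  rw [← hk]
  exact (enorm_add_le _ _).trans (add_le_add (le_ds a Q P) (le_ds b Q P))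

lemma Nn_add_le (L : Len) (ρ : ℝ) (R T : Hs →L[ℂ] Hs) : Nn L ρ (R + T) ≤ Nn L ρ R + Nn L ρ T :=
  Nm_add_le L ρ (ent R) (ent T)

lemma Nn_neg (L : Len) (ρ : ℝ) (R : Hs →L[ℂ] Hs) : Nn L ρ (-R) = Nn L ρ R := by
  apply le_antisymm <;> apply Nm_le_of_le <;> intro K P <;> rw [ent_neg, enorm_neg]

lemma Nn_sub_le (L : Len) (ρ : ℝ) (R T : Hs →L[ℂ] Hs) : Nn L ρ (R - T) ≤ Nn L ρ R + Nn L ρ T := by
  rw [sub_eq_add_neg, ← Nn_neg L ρ T]; exact Nn_add_le L ρ R (-T)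

lemma Nn_mono (L : Len) {ρ ρ' : ℝ} (h : ρ ≤ ρ') (R : Hs →L[ℂ] Hs) : Nn L ρ R ≤ Nn L ρ' R := by
  apply ENNReal.tsum_le_tsum
  intro k
  gcongr
  exact wt_mono L h k

lemma Nn_zero (L : Len) (ρ : ℝ) : Nn L ρ 0 = 0 := by
  unfold Nn Nm
  rw [ENNReal.tsum_eq_zero]
  intro k
  have : ds (ent 0) k = 0 := by
    apply le_antisymm _ zero_le
    apply ds_le; intro Q P _; rw [ent_zero]; simp
  rw [this, zero_mul]

lemma Nn_dg_le (L : Len) (ρ : ℝ) (d : Linf) : Nn L ρ (dg d) ≤ ENNReal.ofReal ‖d‖ := by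
  unfold Nn Nm
  rw [tsum_eq_single 0]
  · rw [wt_zero, mul_one]
    apply ds_le
    intro Q P hk
    rw [ent_dg]
    split_ifs
    · rw [← ofReal_norm]; exact ENNReal.ofReal_le_ofReal (norm_Linf_apply_le d Q)
    · simp
  · intro k hk
    have : ds (ent (dg d)) k = 0 := by
      apply le_antisymm _ zero_le
      apply ds_le; intro Q P hQ
      rw [ent_dg, if_neg]
      · simp
      · rintro rfl; apply hk; omega
    rw [this, zero_mul]

lemma Nn_one_le (L : Len) (ρ : ℝ) : Nn L ρ 1 ≤ 1 := by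
  unfold Nn Nm
  rw [tsum_eq_single 0]
  · rw [wt_zero, mul_one]
    apply ds_le
    intro Q P hk
    rw [ent_one]
    split_ifs <;> simp
  · intro k hk
    have : ds (ent 1) k = 0 := by
      apply le_antisymm _ zero_le
      apply ds_le; intro Q P hQ
      rw [ent_one, if_neg]
      · simp
      · rintro rfl; apply hk; omega
    rw [this, zero_mul]

lemma Nn_mul_le (L : Len) {ρ : ℝ} (hρ : 0 ≤ ρ) (R T : Hs →L[ℂ] Hs) :
    Nn L ρ (R * T) ≤ Nn L ρ R * Nn L ρ T := by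
  have h1 : ∀ k, ds (ent (R * T)) k ≤ ∑' j : ℤ, ds (ent R) (k - j) * ds (ent T) j := by
    intro k
    apply ds_le
    intro Q P hk
    have h2 := hasSum_ent_mul R T Q P
    rw [← h2.tsum_eq]
    refine enorm_tsum_le_tsum_enorm.trans ?_
    have h3 : ∀ S : ℕ, ‖ent R Q S * ent T S P‖ₑ
        ≤ ds (ent R) (k - ((S : ℤ) - P)) * ds (ent T) ((S : ℤ) - P) := by
      intro S
      rw [enorm_mul]
      have h4 : k - ((S : ℤ) - P) = (Q : ℤ) - S := by omega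
      rw [h4]
      exact mul_le_mul' (le_ds _ _ _) (le_ds _ _ _)
    refine (ENNReal.tsum_le_tsum h3).trans ?_
    exact ENNReal.tsum_comp_le_tsum_of_injective (f := fun S : ℕ => (S : ℤ) - P)
      (by intro a b hab; simp only at hab; omega)
      (fun j => ds (ent R) (k - j) * ds (ent T) j)
  calc Nn L ρ (R * T) ≤ ∑' k, (∑' j : ℤ, ds (ent R) (k - j) * ds (ent T) j) * wt L ρ k := by
        apply ENNReal.tsum_le_tsum; intro k; gcongr; exact h1 k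
    _ = ∑' k, ∑' j : ℤ, (ds (ent R) (k - j) * ds (ent T) j) * wt L ρ k := by
        congr 1; funext k; rw [ENNReal.tsum_mul_right]
    _ ≤ ∑' k, ∑' j : ℤ, (ds (ent R) (k - j) * wt L ρ (k - j)) * (ds (ent T) j * wt L ρ j) := by
        apply ENNReal.tsum_le_tsum; intro k
        apply ENNReal.tsum_le_tsum; intro j
        have h5 := wt_add_le L hρ (k - j) j
        rw [sub_add_cancel] at h5
        calc (ds (ent R) (k - j) * ds (ent T) j) * wt L ρ k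
            ≤ (ds (ent R) (k - j) * ds (ent T) j) * (wt L ρ (k - j) * wt L ρ j) := by gcongr
          _ = _ := by ring
    _ = ∑' j : ℤ, ∑' k, (ds (ent R) (k - j) * wt L ρ (k - j)) * (ds (ent T) j * wt L ρ j) :=
        ENNReal.tsum_comm
    _ = ∑' j : ℤ, Nn L ρ R * (ds (ent T) j * wt L ρ j) := by
        congr 1; funext j
        rw [ENNReal.tsum_mul_right]
        congr 1
        exact (Equiv.subRight j).tsum_eq (fun k => ds (ent R) k * wt L ρ k)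
    _ = Nn L ρ R * Nn L ρ T := by rw [ENNReal.tsum_mul_left]; rfl

/-- construction of an operator from its entries, with norm bound -/
lemma exists_op_of_Nm (L : Len) {ρ : ℝ} (hρ : 0 ≤ ρ) (a : ℕ → ℕ → ℂ) (h : Nm L ρ a ≠ ∞) :
    ∃ R : Hs →L[ℂ] Hs, (∀ K P, ent R K P = a K P) ∧ ‖R‖ₑ ≤ Nm L ρ a := by
  have h0 : ∑' k, ds a k ≤ Nm L ρ a := by
    apply ENNReal.tsum_le_tsum; intro k
    calc ds a k = ds a k * 1 := (mul_one _).symm
      _ ≤ _ := by gcongr; exact one_le_wt L hρ k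
  have h1 : ∑' k, ds a k ≠ ∞ := ne_top_of_le_ne_top h h0
  have h2 : ∀ k, ds a k ≠ ∞ := ENNReal.ne_top_of_tsum_ne_top h1
  have hs : Summable fun k => (ds a k).toReal := ENNReal.summable_toReal h1
  obtain ⟨R, hR, hn⟩ := exists_op a (fun k => (ds a k).toReal) hs (by
    intro K P
    rw [← toReal_enorm]
    exact ENNReal.toReal_mono (h2 _) (le_ds a K P))
  refine ⟨R, hR, ?_⟩
  refine le_trans ?_ h0
  rw [← ofReal_norm]
  rw [← ENNReal.tsum_toReal_eq h2] at hn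
  exact ENNReal.ofReal_le_of_le_toReal hn

lemma enorm_le_Nn (L : Len) {ρ : ℝ} (hρ : 0 ≤ ρ) (R : Hs →L[ℂ] Hs) : ‖R‖ₑ ≤ Nn L ρ R := by
  by_cases h : Nn L ρ R = ∞
  · rw [h]; exact le_top
  · obtain ⟨T, hT, hn⟩ := exists_op_of_Nm L hρ (ent R) h
    have : T = R := ext_ent hT
    rw [← this]; exact hn.trans (by rw [this]; exact le_rfl)

/-- lower semicontinuity -/
lemma Nn_le_of_tendsto (L : Len) (ρ : ℝ) {R : ℕ → Hs →L[ℂ] Hs} {T : Hs →L[ℂ] Hs}
    (h : ∀ K P, Tendsto (fun j => ent (R j) K P) atTop (𝓝 (ent T K P))) {C : ℝ≥0∞}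
    (hC : ∀ j, Nn L ρ (R j) ≤ C) : Nn L ρ T ≤ C := by
  have h1 : ∀ k, ds (ent T) k ≤ liminf (fun j => ds (ent (R j)) k) atTop := by
    intro k
    apply ds_le
    intro Q P hk
    have h2 : Tendsto (fun j => ‖ent (R j) Q P‖ₑ) atTop (𝓝 ‖ent T Q P‖ₑ) := (h Q P).enorm
    rw [← h2.liminf_eq]
    refine liminf_le_liminf (Eventually.of_forall fun j => ?_)
    rw [← hk]
    exact le_ds _ _ _
  calc Nn L ρ T ≤ ∑' k, liminf (fun j => ds (ent (R j)) k * wt L ρ k) atTop := by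
        apply ENNReal.tsum_le_tsum
        intro k
        calc ds (ent T) k * wt L ρ k ≤ liminf (fun j => ds (ent (R j)) k) atTop * wt L ρ k := by
              gcongr; exact h1 k
          _ = liminf (fun j => ds (ent (R j)) k * wt L ρ k) atTop := by
              rw [mul_comm, ← ENNReal.liminf_const_mul_of_ne_top (wt_ne_top L ρ k)]
              congr 1; funext j; rw [mul_comm]
    _ ≤ liminf (fun j => ∑' k, ds (ent (R j)) k * wt L ρ k) atTop := by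
        have := MeasureTheory.lintegral_liminf_le (μ := MeasureTheory.Measure.count) (u := atTop)
          (f := fun (j : ℕ) (k : ℤ) => ds (ent (R j)) k * wt L ρ k) (fun _ => measurable_of_countable _)
        simpa only [MeasureTheory.lintegral_count] using this
    _ ≤ C := by
        refine liminf_le_of_le (by isBoundedDefault) ?_
        intro b hb
        obtain ⟨j, hj⟩ := hb.exists
        exact hj.trans (hC j)

end BO
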