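import Mathlib

open scoped ENNReal NNReal lp

namespace BO

/-- The Hardy space `ℓ²(ℕ)`. -/
noncomputable abbrev Hs := lp (fun _ : ℕ => ℂ) 2

/-- standard basis vector -/
noncomputable def e (K : ℕ) : Hs := lp.single 2 K (1 : ℂ)

lemma e_apply (K n : ℕ) : (e K) n = if n = K then 1 else 0 := by
  unfold e
  by_cases h : n = K
  · subst h; simp
  · rw [lp.single_apply_ne _ _ _ h]; simp [h]

lemma norm_e (K : ℕ) : ‖e K‖ = 1 := by
  unfold e; rw [lp.norm_single (by norm_num)]; simp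

lemma single_eq_smul (K : ℕ) (c : ℂ) : (lp.single 2 K c : Hs) = c • e K := by
  unfold e
  rw [← lp.single_smul]; simp

lemma hasSum_e (f : Hs) : HasSum (fun n => f n • e n) f := by
  have h := lp.hasSum_single (E := fun _ : ℕ => ℂ) (p := 2) (by norm_num) f
  simpa only [single_eq_smul] using h

/-- matrix entries -/
noncomputable def ent (R : Hs →L[ℂ] Hs) (K P : ℕ) : ℂ := (R (e P)) K

noncomputable def ev (K : ℕ) : Hs →L[ℂ] ℂ := lp.evalCLM ℂ (fun _ : ℕ => ℂ) 2 K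

lemma ev_apply (K : ℕ) (f : Hs) : ev K f = f K := rfl

lemma norm_apply_le (f : Hs) (n : ℕ) : ‖f n‖ ≤ ‖f‖ := lp.norm_apply_le_norm (by norm_num) f n

lemma norm_ent_le (R : Hs →L[ℂ] Hs) (K P : ℕ) : ‖ent R K P‖ ≤ ‖R‖ := by
  unfold ent
  calc ‖(R (e P)) K‖ ≤ ‖R (e P)‖ := norm_apply_le _ _
    _ ≤ ‖R‖ * ‖e P‖ := R.le_opNorm _
    _ = ‖R‖ := by rw [norm_e, mul_one]

lemma ent_add (R T : Hs →L[ℂ] Hs) (K P : ℕ) : ent (R + T) K P = ent R K P + ent T K P := rfl
lemma ent_sub (R T : Hs →L[ℂ] Hs) (K P : ℕ) : ent (R - T) K P = ent R K P - ent T K P := rfl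
lemma ent_neg (R : Hs →L[ℂ] Hs) (K P : ℕ) : ent (-R) K P = - ent R K P := rfl
lemma ent_smul (c : ℂ) (R : Hs →L[ℂ] Hs) (K P : ℕ) : ent (c • R) K P = c * ent R K P := rfl
lemma ent_zero (K P : ℕ) : ent 0 K P = 0 := rfl
lemma ent_one (K P : ℕ) : ent 1 K P = if K = P then 1 else 0 := by
  show (e P) K = _
  exact e_apply P K

lemma hasSum_apply (R : Hs →L[ℂ] Hs) (f : Hs) (K : ℕ) :
    HasSum (fun P => ent R K P * f P) ((R f) K) := by
  have h1 := hasSum_e f
  have h2 := h1.mapL ((ev K).comp R)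
  have : (fun P => ent R K P * f P) = fun P => ((ev K).comp R) (f P • e P) := by
    funext P
    simp only [map_smul, smul_eq_mul]
    rw [mul_comm]; rfl
  rw [this]; exact h2

lemma apply_e (R : Hs →L[ℂ] Hs) (P K : ℕ) : (R (e P)) K = ent R K P := rfl

lemma hasSum_ent_mul (R T : Hs →L[ℂ] Hs) (K P : ℕ) :
    HasSum (fun Q => ent R K Q * ent T Q P) (ent (R * T) K P) :=
  hasSum_apply R (T (e P)) K

lemma ext_ent {R T : Hs →L[ℂ] Hs} (h : ∀ K P, ent R K P = ent T K P) : R = T := by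
  ext f n
  have h1 := hasSum_apply R f n
  have h2 := hasSum_apply T f n
  simp only [h] at h1
  exact h1.unique h2

lemma tendsto_ent {ι : Type*} {F : Filter ι} {R : ι → Hs →L[ℂ] Hs} {T : Hs →L[ℂ] Hs}
    (h : Filter.Tendsto R F (nhds T)) (K P : ℕ) :
    Filter.Tendsto (fun i => ent (R i) K P) F (nhds (ent T K P)) := by
  have : Continuous fun S : Hs →L[ℂ] Hs => ent S K P := by
    have : (fun S : Hs →L[ℂ] Hs => ent S K P) = fun S => ev K (S (e P)) := rfl
    rw [this]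
    exact (ev K).continuous.comp (ContinuousLinearMap.apply ℂ Hs (e P)).continuous
  exact (this.tendsto T).comp h

lemma hasSum_ent {ι : Type*} {R : ι → Hs →L[ℂ] Hs} {T : Hs →L[ℂ] Hs}
    (h : HasSum R T) (K P : ℕ) :
    HasSum (fun i => ent (R i) K P) (ent T K P) := by
  have := h.mapL ((ev K).comp (ContinuousLinearMap.apply ℂ Hs (e P)))
  exact this

/-! ### Diagonal operators -/

noncomputable abbrev Linf := lp (fun _ : ℕ => ℂ) ⊤

noncomputable def dg (d : Linf) : Hs →L[ℂ] Hs :=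
  lp.mapCLM 2 (fun i => ContinuousLinearMap.mul ℂ ℂ (d i)) (norm_nonneg d)
    (fun i => by
      simpa using lp.norm_apply_le_norm (by norm_num) d i)

lemma dg_apply (d : Linf) (f : Hs) (n : ℕ) : (dg d f) n = d n * f n := rfl

lemma norm_dg_le (d : Linf) : ‖dg d‖ ≤ ‖d‖ := lp.norm_mapCLM_le _ _ _ _

lemma ent_dg (d : Linf) (K P : ℕ) : ent (dg d) K P = if K = P then d K else 0 := by
  show d K * (e P) K = _
  rw [e_apply]; split_ifs <;> simp

lemma dg_add (d d' : Linf) : dg (d + d') = dg d + dg d' := by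
  apply ext_ent; intro K P
  rw [ent_add, ent_dg, ent_dg, ent_dg]; split_ifs <;> simp

lemma dg_sub (d d' : Linf) : dg (d - d') = dg d - dg d' := by
  apply ext_ent; intro K P
  rw [ent_sub, ent_dg, ent_dg, ent_dg]; split_ifs <;> simp

lemma dg_neg (d : Linf) : dg (-d) = - dg d := by
  apply ext_ent; intro K P
  rw [ent_neg, ent_dg, ent_dg]; split_ifs <;> simp

lemma dg_zero : dg 0 = 0 := by
  apply ext_ent; intro K P
  rw [ent_zero, ent_dg]; split_ifs <;> simp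

/-- build a bounded sequence -/
def mkInf (d : ℕ → ℂ) (C : ℝ) (h : ∀ n, ‖d n‖ ≤ C) : Linf :=
  ⟨d, memℓp_infty ⟨C, by rintro _ ⟨n, rfl⟩; exact h n⟩⟩

lemma mkInf_apply (d : ℕ → ℂ) (C : ℝ) (h : ∀ n, ‖d n‖ ≤ C) (n : ℕ) : mkInf d C h n = d n := rfl

lemma norm_mkInf_le (d : ℕ → ℂ) (C : ℝ) (h : ∀ n, ‖d n‖ ≤ C) : ‖mkInf d C h‖ ≤ C :=
  lp.norm_le_of_forall_le ((norm_nonneg _).trans (h 0)) h

lemma norm_Linf_apply_le (d : Linf) (n : ℕ) : ‖d n‖ ≤ ‖d‖ :=
  lp.norm_apply_le_norm (by norm_num) d n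

/-- the diagonal of an operator -/
noncomputable def dia (R : Hs →L[ℂ] Hs) : Linf :=
  mkInf (fun K => ent R K K) ‖R‖ (fun K => norm_ent_le R K K)

lemma dia_apply (R : Hs →L[ℂ] Hs) (K : ℕ) : dia R K = ent R K K := rfl

/-! ### Partial shifts -/

/-- the function `n ↦ f (n - k)` (zero if `n < k`). -/
def shf (k : ℤ) (f : ℕ → ℂ) (n : ℕ) : ℂ := if 0 ≤ (n : ℤ) - k then f ((n : ℤ) - k).toNat else 0

lemma sum_shf_le (k : ℤ) (f : Hs) (s : Finset ℕ) :
    ∑ i ∈ s, ‖shf k f i‖ ^ (2 : ℝ≥0∞).toReal ≤ ‖f‖ ^ (2 : ℝ≥0∞).toReal := by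
  have h2 : (0:ℝ) < (2 : ℝ≥0∞).toReal := by norm_num
  have h1 : ∑ i ∈ s, ‖shf k f i‖ ^ (2 : ℝ≥0∞).toReal
      = ∑ i ∈ s.filter (fun n : ℕ => 0 ≤ (n : ℤ) - k), ‖f ((i : ℤ) - k).toNat‖ ^ (2 : ℝ≥0∞).toReal := by
    rw [Finset.sum_filter]
    apply Finset.sum_congr rfl
    intro i _
    unfold shf
    split_ifs with h
    · rfl
    · rw [norm_zero, Real.zero_rpow h2.ne']
  rw [h1]
  have hinj : Set.InjOn (fun i : ℕ => ((i : ℤ) - k).toNat)
      (s.filter (fun n : ℕ => 0 ≤ (n : ℤ) - k)) := by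
    intro a ha b hb hab
    simp only [Finset.coe_filter, Set.mem_ofPred_eq] at ha hb
    have := ha.2; have := hb.2
    simp only at hab
    omega
  have h3 := Finset.sum_image (f := fun j : ℕ => ‖f j‖ ^ (2 : ℝ≥0∞).toReal) hinj
  rw [← h3]
  exact lp.sum_rpow_le_norm_rpow h2 f _

noncomputable def shLin (k : ℤ) : Hs →ₗ[ℂ] Hs where
  toFun f := ⟨shf k f, memℓp_gen' (C := ‖f‖ ^ (2 : ℝ≥0∞).toReal) (sum_shf_le k f)⟩
  map_add' f g := by
    ext n
    show shf k (f + g : Hs) n = shf k f n + shf k g n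
    unfold shf; split_ifs <;> simp
  map_smul' c f := by
    ext n
    show shf k (c • f : Hs) n = c * shf k f n
    unfold shf; split_ifs <;> simp

noncomputable def Sh (k : ℤ) : Hs →L[ℂ] Hs :=
  (shLin k).mkContinuous 1 (fun f => by
    rw [one_mul]
    apply lp.norm_le_of_forall_sum_le (by norm_num) (norm_nonneg _)
    intro s
    exact sum_shf_le k f s)

lemma Sh_apply (k : ℤ) (f : Hs) (n : ℕ) : (Sh k f) n = if 0 ≤ (n : ℤ) - k then f ((n : ℤ) - k).toNat else 0 :=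
  rfl

lemma norm_Sh_le (k : ℤ) : ‖Sh k‖ ≤ 1 := LinearMap.mkContinuous_norm_le _ (by norm_num) _

lemma ent_Sh (k : ℤ) (K P : ℕ) : ent (Sh k) K P = if (K : ℤ) - P = k then 1 else 0 := by
  unfold ent
  rw [Sh_apply]
  split_ifs with h1 h2 h2
  · rw [e_apply, if_pos]; omega
  · rw [e_apply, if_neg]; omega
  · omega
  · rfl

/-! ### Operators from matrices -/

lemma exists_op (a : ℕ → ℕ → ℂ) (u : ℤ → ℝ) (hu : Summable u) (h : ∀ K P : ℕ, ‖a K P‖ ≤ u ((K : ℤ) - P)) :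
    ∃ R : Hs →L[ℂ] Hs, (∀ K P, ent R K P = a K P) ∧ ‖R‖ ≤ ∑' k, u k := by
  have hu0 : ∀ k, 0 ≤ u k := by
    intro k
    rcases le_total 0 k with hk | hk
    · have := h k.toNat 0
      have h2 : ((k.toNat : ℤ) - ((0 : ℕ) : ℤ)) = k := by omega
      rw [h2] at this
      exact (norm_nonneg _).trans this
    · have := h 0 (-k).toNat
      have h2 : (((0 : ℕ) : ℤ) - ((-k).toNat : ℤ)) = k := by omega
      rw [h2] at this
      exact (norm_nonneg _).trans this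
  let d : ℤ → ℕ → ℂ := fun k n => if 0 ≤ (n : ℤ) - k then a n ((n : ℤ) - k).toNat else 0
  have hd : ∀ k n, ‖d k n‖ ≤ u k := by
    intro k n
    simp only [d]
    split_ifs with h1
    · have := h n ((n : ℤ) - k).toNat
      have h2 : ((n : ℤ) - (((n : ℤ) - k).toNat : ℤ)) = k := by omega
      rw [h2] at this
      exact this
    · rw [norm_zero]; exact hu0 k
  let M : ℤ → Hs →L[ℂ] Hs := fun k => (dg (mkInf (d k) (u k) (hd k))).comp (Sh k)
  have hM : ∀ k, ‖M k‖ ≤ u k := by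
    intro k
    calc ‖M k‖ ≤ ‖dg (mkInf (d k) (u k) (hd k))‖ * ‖Sh k‖ := ContinuousLinearMap.opNorm_comp_le _ _
      _ ≤ u k * 1 := by
        apply mul_le_mul ((norm_dg_le _).trans (norm_mkInf_le _ _ _)) (norm_Sh_le k)
          (norm_nonneg _) (hu0 k)
      _ = u k := mul_one _
  have hMs : Summable fun k => ‖M k‖ := Summable.of_nonneg_of_le (fun _ => norm_nonneg _) hM hu
  refine ⟨∑' k, M k, ?_, ?_⟩
  · intro K P
    have h1 := hasSum_ent hMs.of_norm.hasSum K P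
    have h2 : ∀ k, ent (M k) K P = if k = (K : ℤ) - P then a K P else 0 := by
      intro k
      show (d k K) * (ent (Sh k) K P) = _
      rw [ent_Sh]
      simp only [d]
      split_ifs with h3 h4 h5 h6 h7
      · have h8 : ((K : ℤ) - k).toNat = P := by omega
        rw [h8]; ring
      all_goals first | omega | simp
    simp only [h2] at h1
    have h3 := hasSum_ite_eq ((K : ℤ) - P) (a K P)
    exact h1.unique h3
  · exact tsum_of_norm_bounded hu.hasSum hM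

end BO
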