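import Pool.Agent.Helper3.BO.Cons

open scoped ENNReal NNReal lp ComplexConjugate Topology
open Filter Set

namespace BO

open scoped ComplexInnerProductSpace

lemma wt_neg (L : Len) (ρ : ℝ) (k : ℤ) : wt L ρ (-k) = wt L ρ k := by
  unfold wt; rw [L.neg]

/-- the off-resonant transition weight -/
noncomputable def GG (L : Len) (ρ : ℝ) (m : ℕ → ℕ → ℝ) (K P : ℕ) : ℝ≥0∞ :=
  if K + 1 = P then 0 else ENNReal.ofReal (m K P) * wt L ρ ((K : ℤ) + 1 - P)

structure PathHyp (L : Len) (ρ : ℝ) (lam w : ℕ → ℝ) (m : ℕ → ℕ → ℝ) (E1 E2 : ℝ≥0∞) : Prop where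
  m_le : ∀ N P, m N P ≤ 1
  θ : ∑' P, ∑' K, GG L ρ m K P ≤ 1 / 2
  sw : ∑' N : ℕ, ENNReal.ofReal (w N) * wt L ρ N ≤ E1
  sp : ∑' P : ℕ, ENNReal.ofReal (|lam P| * w P) * wt L ρ P ≤ E2

noncomputable def cP (L : Len) (ρ : ℝ) (m : ℕ → ℕ → ℝ) (P : ℕ) : ℝ≥0∞ :=
  1 + 2 * ∑ j ∈ Finset.range (P + 1), ∑' K, GG L ρ m K j

lemma cP_le_two {L : Len} {ρ : ℝ} {m : ℕ → ℕ → ℝ} (h : ∑' P, ∑' K, GG L ρ m K P ≤ 1 / 2) (P : ℕ) :
    cP L ρ m P ≤ 2 := by
  unfold cP
  have h1 : ∑ j ∈ Finset.range (P + 1), ∑' K, GG L ρ m K j ≤ 1 / 2 :=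
    (ENNReal.sum_le_tsum _).trans h
  calc _ ≤ 1 + 2 * (1 / 2 : ℝ≥0∞) := by gcongr
    _ = 2 := by
      rw [one_div, ENNReal.mul_inv_cancel (by norm_num) (by norm_num)]; norm_num

lemma path_bound {L : Len} {ρ : ℝ} (hρ : 0 ≤ ρ) {m : ℕ → ℕ → ℝ} (hm1 : ∀ N P, m N P ≤ 1)
    (hθ : ∑' P, ∑' K, GG L ρ m K P ≤ 1 / 2) (b : HilbertBasis ℕ ℂ Hs)
    (hm : ∀ N P, ‖⟪b N, Sh (-1) (b P)⟫‖ = m N P) (k : ℕ) :
    ∀ N P : ℕ, ‖⟪b N, (Sh (-1) ^ k) (b P)⟫‖ₑ * wt L ρ ((N : ℤ) - P + k) ≤ cP L ρ m P := by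
  induction k with
  | zero =>
    intro N P
    have h1 : (1 : ℝ≥0∞) ≤ cP L ρ m P := by unfold cP; exact le_self_add
    refine le_trans ?_ h1
    rw [pow_zero]
    have h2 : (1 : Hs →L[ℂ] Hs) (b P) = b P := rfl
    rw [h2, orthonormal_iff_ite.mp b.orthonormal N P]
    split_ifs with h
    · subst h; simp [wt_zero]
    · simp
  | succ k ih =>
    intro N P
    -- expansion
    have h1 : HasSum (fun K => ⟪b K, Sh (-1) (b P)⟫ * ⟪b N, (Sh (-1) ^ k) (b K)⟫)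
        ⟪b N, (Sh (-1) ^ (k + 1)) (b P)⟫ := by
      have h2 := b.hasSum_repr (Sh (-1) (b P))
      have h3 := h2.mapL ((innerSL ℂ (b N)).comp (Sh (-1) ^ k))
      have h4 : (fun K => ((innerSL ℂ (b N)).comp (Sh (-1) ^ k)) (b.repr (Sh (-1) (b P)) K • b K))
          = fun K => ⟪b K, Sh (-1) (b P)⟫ * ⟪b N, (Sh (-1) ^ k) (b K)⟫ := by
        funext K
        rw [map_smul, b.repr_apply_apply]
        rfl
      rw [h4] at h3
      have h5 : ((innerSL ℂ (b N)).comp (Sh (-1) ^ k)) (Sh (-1) (b P)) = ⟪b N, (Sh (-1) ^ (k + 1)) (b P)⟫ := by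
        rw [pow_succ]; rfl
      rw [h5] at h3
      exact h3
    have h6 : ‖⟪b N, (Sh (-1) ^ (k + 1)) (b P)⟫‖ₑ
        ≤ ∑' K, ENNReal.ofReal (m K P) * ‖⟪b N, (Sh (-1) ^ k) (b K)⟫‖ₑ := by
      rw [← h1.tsum_eq]
      refine enorm_tsum_le_tsum_enorm.trans ?_
      apply ENNReal.tsum_le_tsum
      intro K
      rw [enorm_mul, ← ofReal_norm, hm]
    have h7 : ∀ K : ℕ, ENNReal.ofReal (m K P) * ‖⟪b N, (Sh (-1) ^ k) (b K)⟫‖ₑ * wt L ρ ((N : ℤ) - P + (k + 1 : ℕ))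
        ≤ (if K + 1 = P then cP L ρ m K else 0) + GG L ρ m K P * 2 := by
      intro K
      have h8 : wt L ρ ((N : ℤ) - P + (k + 1 : ℕ)) ≤ wt L ρ ((N : ℤ) - K + k) * wt L ρ ((K : ℤ) + 1 - P) := by
        have h9 : (N : ℤ) - P + (k + 1 : ℕ) = ((N : ℤ) - K + k) + ((K : ℤ) + 1 - P) := by push_cast; ring
        rw [h9]; exact wt_add_le L hρ _ _
      have h10 : ENNReal.ofReal (m K P) * ‖⟪b N, (Sh (-1) ^ k) (b K)⟫‖ₑ * wt L ρ ((N : ℤ) - P + (k + 1 : ℕ))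
          ≤ (ENNReal.ofReal (m K P) * wt L ρ ((K : ℤ) + 1 - P)) * cP L ρ m K := by
        calc _ ≤ ENNReal.ofReal (m K P) * ‖⟪b N, (Sh (-1) ^ k) (b K)⟫‖ₑ
              * (wt L ρ ((N : ℤ) - K + k) * wt L ρ ((K : ℤ) + 1 - P)) := by gcongr
          _ = (ENNReal.ofReal (m K P) * wt L ρ ((K : ℤ) + 1 - P)) *
              (‖⟪b N, (Sh (-1) ^ k) (b K)⟫‖ₑ * wt L ρ ((N : ℤ) - K + k)) := by ring
          _ ≤ _ := by gcongr; exact ih N K
      refine h10.trans ?_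
      unfold GG
      split_ifs with h
      · have h11 : (K : ℤ) + 1 - P = 0 := by omega
        rw [h11, wt_zero, mul_one, zero_mul, add_zero]
        calc _ ≤ 1 * cP L ρ m K := by
              gcongr
              exact ENNReal.ofReal_le_one.mpr (hm1 K P)
          _ = _ := one_mul _
      · rw [zero_add]
        gcongr
        exact cP_le_two hθ K
    calc ‖⟪b N, (Sh (-1) ^ (k + 1)) (b P)⟫‖ₑ * wt L ρ ((N : ℤ) - P + (k + 1 : ℕ))
        ≤ (∑' K, ENNReal.ofReal (m K P) * ‖⟪b N, (Sh (-1) ^ k) (b K)⟫‖ₑ) * wt L ρ ((N : ℤ) - P + (k + 1 : ℕ)) := by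
          gcongr
      _ = ∑' K, ENNReal.ofReal (m K P) * ‖⟪b N, (Sh (-1) ^ k) (b K)⟫‖ₑ * wt L ρ ((N : ℤ) - P + (k + 1 : ℕ)) := by
          rw [ENNReal.tsum_mul_right]
      _ ≤ ∑' K, ((if K + 1 = P then cP L ρ m K else 0) + GG L ρ m K P * 2) := ENNReal.tsum_le_tsum h7
      _ = (∑' K, if K + 1 = P then cP L ρ m K else 0) + (∑' K, GG L ρ m K P) * 2 := by
          rw [ENNReal.tsum_add, ENNReal.tsum_mul_right]
      _ ≤ cP L ρ m P := by
          rcases Nat.eq_zero_or_pos P with hP | hP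
          · subst hP
            have h12 : (∑' K : ℕ, if K + 1 = 0 then cP L ρ m K else 0) = 0 := by
              simp
            rw [h12, zero_add]
            unfold cP
            simp only [zero_add, Finset.range_one, Finset.sum_singleton]
            rw [mul_comm]
            exact le_add_self
          · obtain ⟨P', rfl⟩ : ∃ P', P = P' + 1 := ⟨P - 1, by omega⟩
            have h12 : (∑' K : ℕ, if K + 1 = P' + 1 then cP L ρ m K else 0) = cP L ρ m P' := by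
              rw [tsum_eq_single P']
              · simp
              · intro K hK
                rw [if_neg]; omega
            rw [h12]
            unfold cP
            rw [Finset.sum_range_succ (fun j => ∑' K, GG L ρ m K j) (P' + 1), mul_add, mul_comm (∑' K, _) 2, add_assoc]

/-- the a priori bound -/
theorem apriori {L : Len} {ρ : ℝ} (hρ : 0 ≤ ρ) {h : ℝ} {v : ℤ → ℂ} (hv : Sm h v)
    (hr : ∀ k, v (-k) = conj (v k)) {lam w : ℕ → ℝ} {m : ℕ → ℕ → ℝ} {E1 E2 : ℝ≥0∞}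
    (hp : PathHyp L ρ lam w m E1 E2) {b : HilbertBasis ℕ ℂ Hs} (hb : Spec h v lam w m b) (k : ℤ) :
    ‖v k‖ₑ * wt L ρ k ≤ 2 * E1 * E2 := by
  have main : ∀ k : ℕ, ‖v k‖ₑ * wt L ρ k ≤ 2 * E1 * E2 := by
    intro k
    set p : Hs := Tp v (e 0) with hpdef
    have hpw : ∀ j : ℕ, ∀ f : Hs, ((Sh (-1) ^ j) f) 0 = f j := by
      intro j
      induction j with
      | zero => intro f; rfl
      | succ j ih =>
        intro f
        have : (Sh (-1) ^ (j + 1)) f = (Sh (-1) ^ j) (Sh (-1) f) := by rw [pow_succ]; rfl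
        rw [this, ih, Sh_neg_apply]
    have h0 : v k = ⟪e 0, (Sh (-1) ^ k) p⟫ := by
      rw [inner_e, hpw, hpdef, apply_e, ent_Tp hv.s0]
      congr 1
    have hX : ∀ N P : ℕ, ‖⟪b N, (Sh (-1) ^ k) (b P)⟫‖ₑ * wt L ρ ((N : ℤ) - P + k) ≤ 2 := fun N P =>
      (path_bound hρ hp.m_le hp.θ b hb.hm k N P).trans (cP_le_two hp.θ P)
    have h1 : HasSum (fun P => ⟪b P, p⟫ * ⟪e 0, (Sh (-1) ^ k) (b P)⟫) (v k) := by
      rw [h0]
      have h2 := b.hasSum_repr p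
      have h3 := h2.mapL ((innerSL ℂ (e 0)).comp (Sh (-1) ^ k))
      have h4 : (fun K => ((innerSL ℂ (e 0)).comp (Sh (-1) ^ k)) (b.repr p K • b K))
          = fun K => ⟪b K, p⟫ * ⟪e 0, (Sh (-1) ^ k) (b K)⟫ := by
        funext K
        rw [map_smul, b.repr_apply_apply]
        rfl
      rw [h4] at h3
      exact h3
    have hbp : ∀ P, ‖⟪b P, p⟫‖ₑ = ENNReal.ofReal (|lam P| * w P) := by
      intro P
      rw [hpdef, ← Tp_sym hv.s0 hr, inner_e_right, eig_zero (hb.eig P), ← ofReal_norm]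
      congr 1
      rw [RCLike.norm_conj, norm_neg, norm_mul, Complex.norm_real, Real.norm_eq_abs, hb.hw]
    have hw0 : ∀ N, ‖⟪e 0, b N⟫‖ₑ = ENNReal.ofReal (w N) := by
      intro N
      rw [inner_e, ← ofReal_norm, hb.hw]
    have h5 : ∀ P, ‖⟪e 0, (Sh (-1) ^ k) (b P)⟫‖ₑ ≤ ∑' N, ENNReal.ofReal (w N) * ‖⟪b N, (Sh (-1) ^ k) (b P)⟫‖ₑ := by
      intro P
      rw [← (b.hasSum_inner_mul_inner (e 0) ((Sh (-1) ^ k) (b P))).tsum_eq]
      refine enorm_tsum_le_tsum_enorm.trans ?_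
      apply ENNReal.tsum_le_tsum
      intro N
      rw [enorm_mul, hw0]
    have hW : ∀ N P : ℕ, wt L ρ k ≤ wt L ρ ((N : ℤ) - P + k) * (wt L ρ N * wt L ρ P) := by
      intro N P
      have e1 : (k : ℤ) = ((N : ℤ) - P + k) + (-(N : ℤ) + P) := by ring
      calc wt L ρ k = wt L ρ (((N : ℤ) - P + k) + (-(N : ℤ) + P)) := by rw [← e1]
        _ ≤ wt L ρ ((N : ℤ) - P + k) * wt L ρ (-(N : ℤ) + P) := wt_add_le L hρ _ _
        _ ≤ wt L ρ ((N : ℤ) - P + k) * (wt L ρ (-(N : ℤ)) * wt L ρ P) := by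
            gcongr; exact wt_add_le L hρ _ _
        _ = _ := by rw [wt_neg]
    calc ‖v k‖ₑ * wt L ρ k
        ≤ (∑' P, ∑' N, ENNReal.ofReal (|lam P| * w P) * (ENNReal.ofReal (w N) * ‖⟪b N, (Sh (-1) ^ k) (b P)⟫‖ₑ))
          * wt L ρ k := by
          gcongr
          rw [← h1.tsum_eq]
          refine enorm_tsum_le_tsum_enorm.trans ?_
          apply ENNReal.tsum_le_tsum
          intro P
          rw [enorm_mul, hbp, ENNReal.tsum_mul_left]
          gcongr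
          exact h5 P
      _ = ∑' P, ∑' N, ENNReal.ofReal (|lam P| * w P) * (ENNReal.ofReal (w N) * ‖⟪b N, (Sh (-1) ^ k) (b P)⟫‖ₑ)
          * wt L ρ k := by
          rw [← ENNReal.tsum_mul_right]
          congr 1; funext P
          rw [ENNReal.tsum_mul_right]
      _ ≤ ∑' P, ∑' N, (ENNReal.ofReal (|lam P| * w P) * wt L ρ P) * ((ENNReal.ofReal (w N) * wt L ρ N) * 2) := by
          apply ENNReal.tsum_le_tsum; intro P
          apply ENNReal.tsum_le_tsum; intro N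
          calc _ ≤ ENNReal.ofReal (|lam P| * w P) * (ENNReal.ofReal (w N) * ‖⟪b N, (Sh (-1) ^ k) (b P)⟫‖ₑ)
                * (wt L ρ ((N : ℤ) - P + k) * (wt L ρ N * wt L ρ P)) := by gcongr; exact hW N P
            _ = (ENNReal.ofReal (|lam P| * w P) * wt L ρ P) * ((ENNReal.ofReal (w N) * wt L ρ N) *
                (‖⟪b N, (Sh (-1) ^ k) (b P)⟫‖ₑ * wt L ρ ((N : ℤ) - P + k))) := by ring
            _ ≤ _ := by gcongr; exact hX N P
      _ = (∑' P : ℕ, ENNReal.ofReal (|lam P| * w P) * wt L ρ P) * ((∑' N : ℕ, ENNReal.ofReal (w N) * wt L ρ N) * 2) := by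
          rw [← ENNReal.tsum_mul_right]
          congr 1; funext P
          rw [ENNReal.tsum_mul_left, ENNReal.tsum_mul_right]
      _ ≤ E2 * (E1 * 2) := by gcongr; exacts [hp.sp, hp.sw]
      _ = 2 * E1 * E2 := by ring
  rcases le_total 0 k with hk | hk
  · have := main k.toNat
    rw [Int.toNat_of_nonneg hk] at this
    exact this
  · have := main (-k).toNat
    rw [Int.toNat_of_nonneg (by omega), wt_neg, hr] at this
    rwa [← ofReal_norm, RCLike.norm_conj, ofReal_norm] at this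

end BO
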