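import Pool.Agent.Helper3.BO.Qp
import Pool.Agent.Helper3.BO.Bound

open scoped ENNReal NNReal Topology ComplexConjugate
open Filter Set MeasureTheory

set_option linter.unusedSectionVars false

namespace BO

lemma hasDerivWithin_tsum {ι E : Type*} [NormedAddCommGroup E] [NormedSpace ℝ E] [CompleteSpace E]
    {I : Set ℝ} (hI : Convex ℝ I) {f f' : ι → ℝ → E} {u : ι → ℝ} (hu : Summable u)
    (hf : ∀ i, ∀ t ∈ I, HasDerivWithinAt (f i) (f' i t) I t) (hf' : ∀ i, ∀ t ∈ I, ‖f' i t‖ ≤ u i)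
    (hs : ∀ t ∈ I, Summable fun i => f i t) {t : ℝ} (ht : t ∈ I) :
    HasDerivWithinAt (fun s => ∑' i, f i s) (∑' i, f' i t) I t := by
  rw [hasDerivWithinAt_iff_tendsto_slope]
  have h1 : ∀ s ∈ I, slope (fun s => ∑' i, f i s) t s = ∑' i, slope (f i) t s := by
    intro s hsI
    rw [slope_def_module, ← (hs s hsI).tsum_sub (hs t ht), ← Summable.tsum_const_smul]
    · congr 1
    · exact (hs s hsI).sub (hs t ht)
  have h2 : Tendsto (fun s => ∑' i, slope (f i) t s) (𝓝[I \ {t}] t) (𝓝 (∑' i, f' i t)) := by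
    apply tendsto_tsum_of_dominated_convergence hu
    · intro i
      exact hasDerivWithinAt_iff_tendsto_slope.mp (hf i t ht)
    · filter_upwards [self_mem_nhdsWithin] with s hs i
      rw [slope_def_module, norm_smul, norm_inv]
      have h4 := hI.norm_image_sub_le_of_norm_hasDerivWithin_le (f := f i)
        (f' := fun t => f' i t) (C := u i) (fun x hx => hf i x hx) (fun x hx => hf' i x hx) ht hs.1
      have h5 : 0 < ‖s - t‖ := by
        rw [norm_pos_iff, sub_ne_zero]; exact hs.2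
      rw [inv_mul_le_iff₀ h5]
      linarith
  refine h2.congr' ?_
  filter_upwards [self_mem_nhdsWithin] with s hs
  exact (h1 s hs.1).symm

variable {G : Type*} [AddCommGroup G]

/-- Hilbert transform on coefficients -/
noncomputable def hbc (ξ : G → ℝ) (c : G → ℂ) (n : G) : ℂ := -Complex.I * ((SignType.sign (ξ n) : ℝ) : ℂ) * c n

/-- coefficients of `-H u_xx - u u_x` -/
noncomputable def boc (ξ : G → ℝ) (c : G → ℂ) (n : G) : ℂ :=
  -Complex.I * ((ξ n * |ξ n| : ℝ) : ℂ) * c n - Complex.I / 2 * (ξ n : ℂ) * ∑' m, c m * c (n - m)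

lemma boc_NL (ξ : G → ℝ) (c : G → ℂ) (n : G) :
    NL ξ (fun n => -(1 / 2 : ℂ) * conj (c n)) n = -(1 / 2 : ℂ) * conj (boc ξ c n) := by
  unfold NL boc
  rw [map_sub, map_mul, map_mul, map_mul, map_mul, Complex.conj_ofReal, Complex.conj_ofReal, Complex.conj_tsum,
    map_neg, map_div₀, Complex.conj_I]
  have h1 : ∀ m, -(1 / 2 : ℂ) * conj (c m) * (-(1 / 2 : ℂ) * conj (c (n - m)))
      = (1 / 4 : ℂ) * conj (c m * c (n - m)) := by
    intro m; rw [map_mul]; ring
  simp only [h1]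
  rw [tsum_mul_left]
  have h2 : (starRingEnd ℂ) 2 = 2 := Complex.conj_ofNat 2
  rw [h2]
  ring

lemma norm_boc (ξ : G → ℝ) (c : G → ℂ) (n : G) :
    ‖boc ξ c n‖ = 2 * ‖NL ξ (fun n => -(1 / 2 : ℂ) * conj (c n)) n‖ := by
  rw [boc_NL, norm_mul, RCLike.norm_conj, norm_neg]
  norm_num
  ring

namespace Modes

variable (M : Modes G)

lemma summ_of_dec {σ A : ℝ} (hσ : 0 < σ) {c : G → ℂ}
    (hc : ∀ k, ‖c k‖ ≤ A * Real.exp (-(σ * M.ℓ k))) : Summable fun n => ‖c n‖ :=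
  Summable.of_nonneg_of_le (fun _ => norm_nonneg _) hc ((M.summ σ hσ).mul_left A)

lemma boc_bound {σ A : ℝ} (hσ : 0 < σ) (hA : 0 ≤ A) {c : G → ℂ}
    (hc : ∀ k, ‖c k‖ ≤ A * Real.exp (-(σ * M.ℓ k))) (k : G) :
    ‖boc M.ξ c k‖ ≤ 2 * M.cM σ A * Real.exp (-(σ / 4 * M.ℓ k)) := by
  rw [norm_boc]
  have h1 : ∀ k, ‖-(1 / 2 : ℂ) * conj (c k)‖ ≤ A * Real.exp (-(σ * M.ℓ k)) := by
    intro k
    rw [norm_mul, RCLike.norm_conj, norm_neg]
    have h2 : ‖(1 / 2 : ℂ)‖ = 1 / 2 := by norm_num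
    rw [h2]
    have := hc k
    have := norm_nonneg (c k)
    linarith
  have := (M.NL_bound hσ hA h1 k).2.2
  calc _ ≤ 2 * (M.cM σ A * Real.exp (-(σ / 4 * M.ℓ k))) := by gcongr
    _ = _ := by ring

lemma dxc_dec {σ A : ℝ} (hσ : 0 < σ) (hA : 0 ≤ A) {c : G → ℂ}
    (hc : ∀ k, ‖c k‖ ≤ A * Real.exp (-(σ * M.ℓ k))) (k : G) :
    ‖dxc M.ξ c k‖ ≤ (M.Ω * A * (2 / σ)) * Real.exp (-(σ / 2 * M.ℓ k)) := by
  have hΩ := M.Ω0
  unfold dxc
  rw [norm_mul, norm_mul, Complex.norm_I, one_mul, Complex.norm_real, Real.norm_eq_abs]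
  have h1 := lin_exp (σ := 2 * σ) (by positivity) (M.ℓ k)
  have e1 : 2 * σ / 2 = σ := by ring
  have e2 : 2 * σ / 4 = σ / 2 := by ring
  have e3 : 4 / (2 * σ) = 2 / σ := by field_simp; norm_num
  rw [e1, e2, e3] at h1
  calc |M.ξ k| * ‖c k‖ ≤ (M.Ω * M.ℓ k) * (A * Real.exp (-(σ * M.ℓ k))) := by
        gcongr
        · exact M.hξ k
        · exact hc k
    _ = M.Ω * A * ((M.ℓ k : ℝ) * Real.exp (-(σ * M.ℓ k))) := by ring
    _ ≤ M.Ω * A * (2 / σ * Real.exp (-(σ / 2 * M.ℓ k))) := mul_le_mul_of_nonneg_left h1 (by positivity)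
    _ = _ := by ring

lemma norm_hbc_le (ξ : G → ℝ) (c : G → ℂ) (k : G) : ‖hbc ξ c k‖ ≤ ‖c k‖ := by
  unfold hbc
  rw [norm_mul, norm_mul, norm_neg, Complex.norm_I, one_mul, Complex.norm_real, Real.norm_eq_abs]
  have h1 : |((SignType.sign (ξ k) : SignType) : ℝ)| ≤ 1 := by
    rcases lt_trichotomy (ξ k) 0 with h | h | h
    · simp [sign_neg h]
    · simp [h]
    · simp [sign_pos h]
  calc _ ≤ 1 * ‖c k‖ := by gcongr
    _ = _ := one_mul _

/-- the right-hand side of the equation, on coefficients -/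
lemma rhs_eq (hadd : ∀ n m, M.ξ (n - m) = M.ξ n - M.ξ m) {σ A : ℝ} (hσ : 0 < σ) (hA : 0 ≤ A) {c : G → ℂ}
    (hc : ∀ k, ‖c k‖ ≤ A * Real.exp (-(σ * M.ℓ k))) (x : ℝ) :
    -(qpf M.ξ (hbc M.ξ (dxc M.ξ (dxc M.ξ c))) x) - qpf M.ξ c x * qpf M.ξ (dxc M.ξ c) x
      = qpf M.ξ (boc M.ξ c) x := by
  have hs := M.summ_of_dec hσ hc
  have hd := M.dxc_dec hσ hA hc
  have hΩ := M.Ω0
  have hsd := M.summ_of_dec (by positivity) hd
  have hdd := M.dxc_dec (by positivity) (by positivity) hd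
  have hsdd := M.summ_of_dec (by positivity) hdd
  have hsh : Summable fun n => ‖hbc M.ξ (dxc M.ξ (dxc M.ξ c)) n‖ :=
    Summable.of_nonneg_of_le (fun _ => norm_nonneg _) (norm_hbc_le _ _) hsdd
  obtain ⟨hp, hps⟩ := qpf_mul M.ξ hadd hs hsd x
  have hsc : Summable fun n => ‖boc M.ξ c n‖ := M.summ_of_dec (by positivity) (M.boc_bound hσ hA hc)
  rw [hp]
  have hc2 := fun n => (M.conv_summable hσ hA hc hc n).of_norm
  have key : ∀ n, boc M.ξ c n = -(hbc M.ξ (dxc M.ξ (dxc M.ξ c)) n) - ∑' m, c m * dxc M.ξ c (n - m) := by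
    intro n
    have h1 : ∑' m, c m * dxc M.ξ c (n - m) = Complex.I / 2 * (M.ξ n : ℂ) * ∑' m, c m * c (n - m) := by
      have hA' : 0 ≤ M.Ω * A * (2 / σ) := by positivity
      set A2 := max A (M.Ω * A * (2 / σ)) with hA2
      have hA20 : 0 ≤ A2 := hA.trans (le_max_left _ _)
      have b1 : ∀ k, ‖c k‖ ≤ A2 * Real.exp (-(σ / 2 * M.ℓ k)) := by
        intro k
        refine (hc k).trans ?_
        have : A ≤ A2 := le_max_left _ _
        gcongr
        linarith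
      have b2 : ∀ k, ‖dxc M.ξ c k‖ ≤ A2 * Real.exp (-(σ / 2 * M.ℓ k)) := by
        intro k
        refine (hd k).trans ?_
        have : M.Ω * A * (2 / σ) ≤ A2 := le_max_right _ _
        gcongr
      have s1 := (M.conv_summable (by positivity) hA20 b1 b2 n).of_norm
      have s2 := (M.conv_summable (by positivity) hA20 b2 b1 n).of_norm
      have h2 : ∑' m, c m * dxc M.ξ c (n - m) = ∑' m, dxc M.ξ c m * c (n - m) := by
        rw [← (Equiv.subLeft n).tsum_eq]
        congr 1; funext m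
        simp only [Equiv.subLeft_apply, sub_sub_cancel]
        ring
      have h3 : ∑' m, c m * dxc M.ξ c (n - m) + ∑' m, dxc M.ξ c m * c (n - m)
          = Complex.I * (M.ξ n : ℂ) * ∑' m, c m * c (n - m) := by
        rw [← s1.tsum_add s2, ← tsum_mul_left]
        congr 1; funext m
        unfold dxc
        rw [hadd]; push_cast; ring
      rw [← h2] at h3
      linear_combination (1 / 2 : ℂ) * h3
    rw [h1]
    unfold boc hbc dxc
    have h4 : (SignType.sign (M.ξ n) : ℝ) * M.ξ n = |M.ξ n| := sign_mul_self (M.ξ n)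
    have h5 : (((SignType.sign (M.ξ n) : ℝ) : ℂ)) * (M.ξ n : ℂ) = ((|M.ξ n| : ℝ) : ℂ) := by
      rw [← Complex.ofReal_mul, h4]
    rw [Complex.ofReal_mul, ← h5]
    linear_combination (-Complex.I * ((SignType.sign (M.ξ n) : ℝ) : ℂ) * (M.ξ n : ℂ) ^ 2 * c n) * Complex.I_sq
  have h6 : qpf M.ξ (boc M.ξ c) x = qpf M.ξ (fun n => (fun n => (-1 : ℂ) * hbc M.ξ (dxc M.ξ (dxc M.ξ c)) n) n
      - (fun n => ∑' m, c m * dxc M.ξ c (n - m)) n) x := by
    congr 1; funext n; rw [key]; ring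
  rw [h6, qpf_sub M.ξ (by simpa using hsh) hps, qpf_smul]
  ring

/-- from the coefficient equation to the pointwise equation -/
lemma pde_of_ode {σ A : ℝ} (hσ : 0 < σ) (hA : 0 ≤ A) {C : ℝ → G → ℂ}
    (hC : ∀ t, 0 ≤ t → ∀ k, ‖C t k‖ ≤ A * Real.exp (-(σ * M.ℓ k)))
    (hode : ∀ t, 0 ≤ t → ∀ k, HasDerivWithinAt (fun s => C s k) (boc M.ξ (C t) k) (Ici 0) t) {t : ℝ}
    (ht : 0 ≤ t) (x : ℝ) :
    HasDerivWithinAt (fun s => qpf M.ξ (C s) x) (qpf M.ξ (boc M.ξ (C t)) x) (Ici 0) t := by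
  unfold qpf
  apply hasDerivWithin_tsum (convex_Ici 0) (u := fun k => 2 * M.cM σ A * Real.exp (-(σ / 4 * M.ℓ k)))
    (f := fun k s => C s k * Complex.exp (Complex.I * (M.ξ k : ℂ) * (x : ℂ)))
    (f' := fun k s => boc M.ξ (C s) k * Complex.exp (Complex.I * (M.ξ k : ℂ) * (x : ℂ)))
    ((M.summ (σ / 4) (by positivity)).mul_left _)
  · intro k s hs
    exact (hode s hs k).mul_const _
  · intro k s hs
    rw [norm_term M.ξ (boc M.ξ (C s)) k x]
    exact M.boc_bound hσ hA (hC s hs) k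
  · intro s hs
    exact summ_term M.ξ (M.summ_of_dec hσ (hC s hs)) x
  · exact ht

/-- from the pointwise equation to the coefficient equation -/
lemma ode_of_pde [Countable G] (hinj : Function.Injective M.ξ) {σ A : ℝ} (hσ : 0 < σ) (hA : 0 ≤ A) {C : ℝ → G → ℂ}
    (hC : ∀ t, 0 ≤ t → ∀ k, ‖C t k‖ ≤ A * Real.exp (-(σ * M.ℓ k)))
    (hpde : ∀ t, 0 ≤ t → ∀ x,
      HasDerivWithinAt (fun s => qpf M.ξ (C s) x) (qpf M.ξ (boc M.ξ (C t)) x) (Ici 0) t) {s : ℝ}
    (hs : 0 ≤ s) (n : G) : HasDerivWithinAt (fun r => C r n) (boc M.ξ (C s) n) (Ici 0) s := by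
  set u : G → ℝ := fun k => 2 * M.cM σ A * Real.exp (-(σ / 4 * M.ℓ k)) with hu
  have hus : Summable u := (M.summ (σ / 4) (by positivity)).mul_left _
  have hub : ∀ t, 0 ≤ t → ∀ k, ‖boc M.ξ (C t) k‖ ≤ u k := fun t ht => M.boc_bound hσ hA (hC t ht)
  have hbs : ∀ t, 0 ≤ t → Summable fun k => ‖boc M.ξ (C t) k‖ := fun t ht =>
    Summable.of_nonneg_of_le (fun _ => norm_nonneg _) (hub t ht) hus
  have hCs : ∀ t, 0 ≤ t → Summable fun k => ‖C t k‖ := fun t ht => M.summ_of_dec hσ (hC t ht)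
  set C1 : ℝ := ∑' k, u k with hC1
  have hC10 : 0 ≤ C1 := tsum_nonneg fun k => (norm_nonneg _).trans (hub s hs k)
  -- Lipschitz
  have hlip : ∀ t, 0 ≤ t → ∀ r, 0 ≤ r → ∀ m, ‖C t m - C r m‖ ≤ C1 * |t - r| := by
    intro t ht r hr m
    have hsum : Summable fun n => ‖C t n - C r n‖ :=
      Summable.of_nonneg_of_le (fun _ => norm_nonneg _) (fun n => norm_sub_le _ _) ((hCs t ht).add (hCs r hr))
    apply extract hinj hsum
    intro x
    rw [qpf_sub M.ξ (hCs t ht) (hCs r hr)]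
    have h1 := (convex_Ici (0 : ℝ)).norm_image_sub_le_of_norm_hasDerivWithin_le
      (f := fun s => qpf M.ξ (C s) x) (f' := fun t => qpf M.ξ (boc M.ξ (C t)) x) (C := C1)
      (fun y hy => hpde y hy x) (fun y hy => (norm_qpf_le M.ξ (hbs y hy) x).trans
        ((hbs y hy).tsum_le_tsum (hub y hy) hus)) hr ht
    rw [Real.norm_eq_abs] at h1
    exact h1
  have hcont : ∀ m, Tendsto (fun r => C r m) (𝓝[Ici 0] s) (𝓝 (C s m)) := by
    intro m
    rw [tendsto_iff_norm_sub_tendsto_zero]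
    have h1 : Tendsto (fun r : ℝ => C1 * |r - s|) (𝓝[Ici 0] s) (𝓝 0) := by
      have h2 : Continuous fun r : ℝ => C1 * |r - s| := by fun_prop
      have h3 := h2.tendsto s
      simp only [sub_self, abs_zero, mul_zero] at h3
      exact h3.mono_left nhdsWithin_le_nhds
    apply squeeze_zero_norm' _ h1
    filter_upwards [self_mem_nhdsWithin] with r hr
    rw [norm_norm]
    exact hlip r hr s hs m
  have hcont2 : ∀ k, Tendsto (fun r => boc M.ξ (C r) k) (𝓝[Ici 0] s) (𝓝 (boc M.ξ (C s) k)) := by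
    intro k
    have h1 : Tendsto (fun r => ∑' m, C r m * C r (k - m)) (𝓝[Ici 0] s) (𝓝 (∑' m, C s m * C s (k - m))) := by
      apply tendsto_tsum_of_dominated_convergence (bound := fun m => A * A * Real.exp (-(σ * M.ℓ m)))
        ((M.summ σ hσ).mul_left _)
      · intro m
        exact (hcont m).mul (hcont (k - m))
      · filter_upwards [self_mem_nhdsWithin] with r hr m
        rw [norm_mul]
        have h2 : ‖C r (k - m)‖ ≤ A := by
          refine (hC r hr _).trans ?_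
          have : Real.exp (-(σ * M.ℓ (k - m))) ≤ 1 := by
            rw [Real.exp_le_one_iff]
            have : 0 ≤ σ * M.ℓ (k - m) := by positivity
            linarith
          nlinarith
        calc ‖C r m‖ * ‖C r (k - m)‖ ≤ (A * Real.exp (-(σ * M.ℓ m))) * A := by gcongr; exact hC r hr m
          _ = _ := by ring
    unfold boc
    exact ((hcont k).const_mul _).sub (h1.const_mul _)
  have hsmall : Tendsto (fun r => ∑' k, ‖boc M.ξ (C r) k - boc M.ξ (C s) k‖) (𝓝[Ici 0] s) (𝓝 0) := by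
    have h0 : Tendsto (fun r => ∑' k, ‖boc M.ξ (C r) k - boc M.ξ (C s) k‖) (𝓝[Ici 0] s)
        (𝓝 (∑' _ : G, (0 : ℝ))) := by
      apply tendsto_tsum_of_dominated_convergence (bound := fun k => u k + u k) (hus.add hus)
      · intro k
        exact tendsto_iff_norm_sub_tendsto_zero.mp (hcont2 k)
      · filter_upwards [self_mem_nhdsWithin] with r hr k
        rw [norm_norm]
        exact (norm_sub_le _ _).trans (add_le_add (hub r hr k) (hub s hs k))
    rwa [tsum_zero] at h0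
  rw [hasDerivWithinAt_iff_isLittleO, Asymptotics.isLittleO_iff]
  intro c hc
  have h1 : ∀ᶠ r in 𝓝[Ici 0] s, ∑' k, ‖boc M.ξ (C r) k - boc M.ξ (C s) k‖ < c :=
    hsmall.eventually (gt_mem_nhds hc)
  rw [eventually_nhdsWithin_iff, Metric.eventually_nhds_iff] at h1
  obtain ⟨δ, hδ, h2⟩ := h1
  have h3 : ∀ᶠ t in 𝓝[Ici 0] s, |t - s| < δ := by
    apply nhdsWithin_le_nhds
    filter_upwards [Metric.ball_mem_nhds s hδ] with t ht
    rwa [Metric.mem_ball, Real.dist_eq] at ht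
  filter_upwards [h3, self_mem_nhdsWithin] with t ht1 ht2
  rw [Complex.real_smul, Real.norm_eq_abs]
  have hsum : Summable fun n => ‖C t n - C s n‖ :=
    Summable.of_nonneg_of_le (fun _ => norm_nonneg _) (fun n => norm_sub_le _ _) ((hCs t ht2).add (hCs s hs))
  have hsum2 : Summable fun n => ‖((t - s : ℝ) : ℂ) * boc M.ξ (C s) n‖ := by
    simp only [norm_mul]
    exact (hbs s hs).mul_left _
  have hsum3 : Summable fun n => ‖(C t n - C s n) - ((t - s : ℝ) : ℂ) * boc M.ξ (C s) n‖ :=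
    Summable.of_nonneg_of_le (fun _ => norm_nonneg _) (fun n => norm_sub_le _ _) (hsum.add hsum2)
  apply extract hinj hsum3
  intro x
  rw [qpf_sub M.ξ hsum hsum2, qpf_sub M.ξ (hCs t ht2) (hCs s hs), qpf_smul]
  -- mean value inequality on the segment
  set J : Set ℝ := uIcc s t with hJ
  have hJI : J ⊆ Ici 0 := (convex_Ici (0 : ℝ)).ordConnected.uIcc_subset hs ht2
  set f : ℝ → ℂ := fun r => qpf M.ξ (C r) x - ((r - s : ℝ) : ℂ) * qpf M.ξ (boc M.ξ (C s)) x with hf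
  have hderiv : ∀ y ∈ J, HasDerivWithinAt f (qpf M.ξ (boc M.ξ (C y)) x - qpf M.ξ (boc M.ξ (C s)) x) J y := by
    intro y hy
    have d1 := (hpde y (hJI hy) x).mono hJI
    have d2 : HasDerivWithinAt (fun r : ℝ => ((r - s : ℝ) : ℂ) * qpf M.ξ (boc M.ξ (C s)) x)
        (1 * qpf M.ξ (boc M.ξ (C s)) x) J y := by
      apply HasDerivWithinAt.mul_const
      have : HasDerivAt (fun r : ℝ => ((r - s : ℝ) : ℂ)) 1 y := by
        have := ((hasDerivAt_id y).sub_const s).ofReal_comp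
        simpa using this
      exact this.hasDerivWithinAt
    rw [one_mul] at d2
    exact d1.sub d2
  have hbound : ∀ y ∈ J, ‖qpf M.ξ (boc M.ξ (C y)) x - qpf M.ξ (boc M.ξ (C s)) x‖ ≤ c := by
    intro y hy
    have h4 : dist y s < δ := by
      rw [Real.dist_eq]
      refine lt_of_le_of_lt ?_ ht1
      rcases le_total s t with h | h
      · rw [hJ, uIcc_of_le h] at hy
        rw [abs_of_nonneg (by linarith [hy.1]), abs_of_nonneg (by linarith)]; linarith [hy.2]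
      · rw [hJ, uIcc_of_ge h] at hy
        rw [abs_of_nonpos (by linarith [hy.2]), abs_of_nonpos (by linarith)]; linarith [hy.1]
    have h5 := h2 h4 (hJI hy)
    rw [← qpf_sub M.ξ (hbs y (hJI hy)) (hbs s hs)]
    have h6 : Summable fun n => ‖boc M.ξ (C y) n - boc M.ξ (C s) n‖ :=
      Summable.of_nonneg_of_le (fun _ => norm_nonneg _) (fun n => norm_sub_le _ _)
        ((hbs y (hJI hy)).add (hbs s hs))
    exact (norm_qpf_le M.ξ h6 x).trans h5.le
  have h7 := (convex_uIcc s t).norm_image_sub_le_of_norm_hasDerivWithin_le hderiv hbound left_mem_uIcc right_mem_uIcc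
  have h8 : f t - f s = qpf M.ξ (C t) x - qpf M.ξ (C s) x - ((t - s : ℝ) : ℂ) * qpf M.ξ (boc M.ξ (C s)) x := by
    simp only [hf, sub_self, Complex.ofReal_zero, zero_mul, sub_zero]; ring
  rw [h8, Real.norm_eq_abs] at h7
  exact h7

end Modes

end BO
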