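import Mathlib

open scoped ENNReal NNReal Topology ComplexConjugate
open Filter Set MeasureTheory

set_option linter.unusedSectionVars false

namespace BO

variable {G : Type*} [AddCommGroup G]

/-- the almost periodic function with coefficients `c` and frequencies `ξ` -/
noncomputable def qpf (ξ : G → ℝ) (c : G → ℂ) (x : ℝ) : ℂ :=
  ∑' n, c n * Complex.exp (Complex.I * (ξ n : ℂ) * (x : ℂ))

noncomputable def dxc (ξ : G → ℝ) (c : G → ℂ) (n : G) : ℂ := Complex.I * (ξ n : ℂ) * c n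

lemma norm_ex (a x : ℝ) : ‖Complex.exp (Complex.I * (a : ℂ) * (x : ℂ))‖ = 1 := by
  have : Complex.I * (a : ℂ) * (x : ℂ) = ((a * x : ℝ) : ℂ) * Complex.I := by push_cast; ring
  rw [this, Complex.norm_exp_ofReal_mul_I]

lemma norm_term (ξ : G → ℝ) (c : G → ℂ) (n : G) (x : ℝ) :
    ‖c n * Complex.exp (Complex.I * (ξ n : ℂ) * (x : ℂ))‖ = ‖c n‖ := by
  rw [norm_mul, norm_ex, mul_one]

lemma summ_term (ξ : G → ℝ) {c : G → ℂ} (hc : Summable fun n => ‖c n‖) (x : ℝ) :
    Summable fun n => c n * Complex.exp (Complex.I * (ξ n : ℂ) * (x : ℂ)) := by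
  apply Summable.of_norm
  simp only [norm_term ξ c]
  exact hc

lemma norm_qpf_le (ξ : G → ℝ) {c : G → ℂ} (hc : Summable fun n => ‖c n‖) (x : ℝ) :
    ‖qpf ξ c x‖ ≤ ∑' n, ‖c n‖ := by
  unfold qpf
  refine (norm_tsum_le_tsum_norm (summ_term ξ hc x).norm).trans (le_of_eq ?_)
  simp only [norm_term ξ c]

lemma qpf_sub (ξ : G → ℝ) {c d : G → ℂ} (hc : Summable fun n => ‖c n‖) (hd : Summable fun n => ‖d n‖) (x : ℝ) :
    qpf ξ (fun n => c n - d n) x = qpf ξ c x - qpf ξ d x := by
  unfold qpf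
  rw [← (summ_term ξ hc x).tsum_sub (summ_term ξ hd x)]
  congr 1; funext n; ring

lemma qpf_smul (ξ : G → ℝ) (a : ℂ) (c : G → ℂ) (x : ℝ) :
    qpf ξ (fun n => a * c n) x = a * qpf ξ c x := by
  unfold qpf
  rw [← tsum_mul_left]
  congr 1; funext n; ring

lemma qpf_hasDeriv (ξ : G → ℝ) {c : G → ℂ} (hc : Summable fun n => ‖c n‖) (hd : Summable fun n => ‖dxc ξ c n‖)
    (x : ℝ) : HasDerivAt (qpf ξ c) (qpf ξ (dxc ξ c) x) x := by
  refine hasDerivAt_tsum (u := fun n => ‖dxc ξ c n‖)
    (g := fun n (x : ℝ) => c n * Complex.exp (Complex.I * (ξ n : ℂ) * (x : ℂ)))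
    (g' := fun n (x : ℝ) => dxc ξ c n * Complex.exp (Complex.I * (ξ n : ℂ) * (x : ℂ))) (y₀ := 0) hd ?_ ?_ ?_ x
  · intro n y
    have d3 : HasDerivAt (fun s : ℝ => Complex.I * (ξ n : ℂ) * (s : ℂ)) (Complex.I * ξ n) y := by
      have := (Complex.ofRealCLM.hasDerivAt (x := y)).const_mul (Complex.I * (ξ n : ℂ))
      simpa using this
    refine (d3.cexp.const_mul (c n)).congr_deriv ?_
    unfold dxc; ring
  · intro n y
    rw [norm_term ξ (dxc ξ c)]
  · exact summ_term ξ hc 0

/-- product formula -/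
lemma qpf_mul (ξ : G → ℝ) (hξ : ∀ n m, ξ (n - m) = ξ n - ξ m) {c d : G → ℂ} (hc : Summable fun n => ‖c n‖)
    (hd : Summable fun n => ‖d n‖) (x : ℝ) :
    qpf ξ c x * qpf ξ d x = qpf ξ (fun n => ∑' m, c m * d (n - m)) x ∧
      Summable fun n => ‖∑' m, c m * d (n - m)‖ := by
  let e : G × G ≃ G × G :=
    { toFun := fun x => (x.2, x.1 - x.2)
      invFun := fun x => (x.1 + x.2, x.1)
      left_inv := fun x => by simp
      right_inv := fun x => by simp }
  have hprod : Summable fun p : G × G => ‖c p.1‖ * ‖d p.2‖ :=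
    hc.mul_of_nonneg hd (fun _ => norm_nonneg _) (fun _ => norm_nonneg _)
  have hprod' : Summable fun p : G × G => ‖c p.2‖ * ‖d (p.1 - p.2)‖ := (e.summable_iff).mpr hprod
  constructor
  · unfold qpf
    rw [tsum_mul_tsum_of_summable_norm (summ_term ξ hc x).norm (summ_term ξ hd x).norm]
    rw [← e.tsum_eq]
    have h1 : Summable fun p : G × G => c (e p).1 * Complex.exp (Complex.I * (ξ (e p).1 : ℂ) * (x : ℂ)) *
        (d (e p).2 * Complex.exp (Complex.I * (ξ (e p).2 : ℂ) * (x : ℂ))) := by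
      apply Summable.of_norm
      refine hprod'.congr fun p => ?_
      rw [norm_mul, norm_term ξ c, norm_term ξ d]; rfl
    rw [h1.tsum_prod]
    congr 1; funext n
    rw [← tsum_mul_right]
    congr 1; funext m
    show c m * Complex.exp (Complex.I * (ξ m : ℂ) * (x : ℂ)) *
        (d (n - m) * Complex.exp (Complex.I * (ξ (n - m) : ℂ) * (x : ℂ))) = _
    have h2 : Complex.exp (Complex.I * (ξ n : ℂ) * (x : ℂ)) = Complex.exp (Complex.I * (ξ m : ℂ) * (x : ℂ)) *
        Complex.exp (Complex.I * (ξ (n - m) : ℂ) * (x : ℂ)) := by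
      rw [← Complex.exp_add, hξ]; congr 1; push_cast; ring
    rw [h2]; ring
  · have h3 : Summable fun n => ∑' m, ‖c m‖ * ‖d (n - m)‖ := hprod'.prod
    apply Summable.of_nonneg_of_le (fun _ => norm_nonneg _) (fun n => _) h3
    intro n
    have h4 : Summable fun m => ‖c m * d (n - m)‖ := by
      refine (hprod'.prod_factor n).congr fun m => ?_
      rw [norm_mul]
    refine (norm_tsum_le_tsum_norm h4).trans (le_of_eq ?_)
    congr 1; funext m; rw [norm_mul]

/-! ### extraction of coefficients -/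

/-- mean value of an exponential over `[0,X]` -/
noncomputable def mu (a X : ℝ) : ℂ := (X : ℂ)⁻¹ * ∫ x in (0 : ℝ)..X, Complex.exp (Complex.I * (a : ℂ) * (x : ℂ))

lemma mu_zero {X : ℝ} (hX : 0 < X) : mu 0 X = 1 := by
  unfold mu
  have : (X : ℂ) ≠ 0 := by exact_mod_cast hX.ne'
  simp [this]

lemma norm_mu_le (a : ℝ) {X : ℝ} (hX : 0 < X) : ‖mu a X‖ ≤ 1 := by
  unfold mu
  rw [norm_mul, norm_inv, Complex.norm_real, Real.norm_eq_abs, abs_of_pos hX]
  have h1 : ‖∫ x in (0 : ℝ)..X, Complex.exp (Complex.I * (a : ℂ) * (x : ℂ))‖ ≤ 1 * |X - 0| :=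
    intervalIntegral.norm_integral_le_of_norm_le_const fun x _ => (norm_ex a x).le
  rw [sub_zero, abs_of_pos hX, one_mul] at h1
  rw [inv_mul_le_iff₀ hX, mul_one]
  exact h1

lemma mu_tendsto {a : ℝ} (ha : a ≠ 0) : Tendsto (fun X : ℝ => mu a X) atTop (𝓝 0) := by
  have hc : Complex.I * (a : ℂ) ≠ 0 := mul_ne_zero Complex.I_ne_zero (by exact_mod_cast ha)
  have h1 : ∀ X : ℝ, 0 < X → ‖mu a X‖ ≤ (2 / |a|) * X⁻¹ := by
    intro X hX
    unfold mu
    rw [integral_exp_mul_complex hc, norm_mul, norm_inv, Complex.norm_real, Real.norm_eq_abs, abs_of_pos hX,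
      norm_div, norm_mul, Complex.norm_I, one_mul, Complex.norm_real, Real.norm_eq_abs, mul_comm]
    gcongr
    refine (norm_sub_le _ _).trans ?_
    rw [norm_ex, norm_ex]; norm_num
  have h2 : Tendsto (fun X : ℝ => (2 / |a|) * X⁻¹) atTop (𝓝 0) := by
    have := (tendsto_inv_atTop_zero (𝕜 := ℝ)).const_mul (2 / |a|)
    simpa using this
  apply squeeze_zero_norm' _ h2
  filter_upwards [eventually_gt_atTop 0] with X hX using h1 X hX

variable [Countable G]

lemma extract {ξ : G → ℝ} (hinj : Function.Injective ξ) {c : G → ℂ} (hc : Summable fun n => ‖c n‖) {B : ℝ}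
    (hB : ∀ x, ‖qpf ξ c x‖ ≤ B) (n : G) : ‖c n‖ ≤ B := by
  classical
  have hmean : ∀ X : ℝ, 0 < X → (X : ℂ)⁻¹ * ∫ x in (0 : ℝ)..X, qpf ξ c x * Complex.exp (-(Complex.I * (ξ n : ℂ) * (x : ℂ)))
      = ∑' m, c m * mu (ξ m - ξ n) X := by
    intro X hX
    have h1 : HasSum (fun m => ∫ x in (0 : ℝ)..X, c m * Complex.exp (Complex.I * ((ξ m - ξ n : ℝ) : ℂ) * (x : ℂ)))
        (∫ x in (0 : ℝ)..X, qpf ξ c x * Complex.exp (-(Complex.I * (ξ n : ℂ) * (x : ℂ)))) := by
      apply intervalIntegral.hasSum_integral_of_dominated_convergence (fun m _ => ‖c m‖)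
      · intro m
        exact (by fun_prop : Continuous fun x : ℝ =>
          c m * Complex.exp (Complex.I * ((ξ m - ξ n : ℝ) : ℂ) * (x : ℂ))).aestronglyMeasurable
      · intro m
        filter_upwards with x _
        rw [norm_mul, norm_ex, mul_one]
      · filter_upwards with x _ using hc
      · exact intervalIntegrable_const
      · filter_upwards with x _
        have h2 := (summ_term ξ hc x).hasSum.mul_right (Complex.exp (-(Complex.I * (ξ n : ℂ) * (x : ℂ))))
        refine h2.congr_fun ?_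
        intro m
        rw [mul_assoc (c m) (Complex.exp (Complex.I * (ξ m : ℂ) * (x : ℂ))), ← Complex.exp_add]
        congr 2; push_cast; ring
    rw [← h1.tsum_eq, ← tsum_mul_left]
    congr 1; funext m
    rw [intervalIntegral.integral_const_mul]
    unfold mu
    push_cast; ring
  have hlim : Tendsto (fun X : ℝ => ∑' m, c m * mu (ξ m - ξ n) X) atTop (𝓝 (∑' m, if m = n then c n else 0)) := by
    apply tendsto_tsum_of_dominated_convergence hc
    · intro m
      by_cases hm : m = n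
      · subst hm
        rw [if_pos rfl]
        apply tendsto_const_nhds.congr'
        filter_upwards [eventually_gt_atTop 0] with X hX
        rw [sub_self, mu_zero hX, mul_one]
      · rw [if_neg hm]
        have := (mu_tendsto (sub_ne_zero.mpr (fun h => hm (hinj h)))).const_mul (c m)
        rwa [mul_zero] at this
    · filter_upwards [eventually_gt_atTop 0] with X hX m
      rw [norm_mul]
      calc ‖c m‖ * ‖mu (ξ m - ξ n) X‖ ≤ ‖c m‖ * 1 := by gcongr; exact norm_mu_le _ hX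
        _ = _ := mul_one _
  rw [tsum_ite_eq] at hlim
  apply le_of_tendsto hlim.norm
  filter_upwards [eventually_gt_atTop 0] with X hX
  rw [← hmean X hX, norm_mul, norm_inv, Complex.norm_real, Real.norm_eq_abs, abs_of_pos hX]
  have h1 : ‖∫ x in (0 : ℝ)..X, qpf ξ c x * Complex.exp (-(Complex.I * (ξ n : ℂ) * (x : ℂ)))‖ ≤ B * |X - 0| := by
    apply intervalIntegral.norm_integral_le_of_norm_le_const
    intro x _
    rw [norm_mul]
    have : -(Complex.I * (ξ n : ℂ) * (x : ℂ)) = Complex.I * ((-ξ n : ℝ) : ℂ) * (x : ℂ) := by push_cast; ring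
    rw [this, norm_ex, mul_one]
    exact hB x
  rw [sub_zero, abs_of_pos hX] at h1
  rw [inv_mul_le_iff₀ hX]
  linarith

lemma coeff_unique {ξ : G → ℝ} (hinj : Function.Injective ξ) {c d : G → ℂ} (hc : Summable fun n => ‖c n‖)
    (hd : Summable fun n => ‖d n‖) (h : ∀ x, qpf ξ c x = qpf ξ d x) : c = d := by
  funext n
  have hcd : Summable fun n => ‖c n - d n‖ :=
    Summable.of_nonneg_of_le (fun _ => norm_nonneg _) (fun n => norm_sub_le _ _) (hc.add hd)
  have := extract hinj hcd (B := 0) (by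
    intro x
    rw [qpf_sub ξ hc hd, h x, sub_self, norm_zero]) n
  exact sub_eq_zero.mp (norm_le_zero_iff.mp this)

end BO
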