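import Pool.Agent.Helper3.BO.Eigen
import Pool.Agent.Helper3.BO.Ad

open scoped ENNReal NNReal lp ComplexConjugate
open Filter Topology

namespace BO

open scoped ComplexInnerProductSpace

lemma inner_e (K : ℕ) (f : Hs) : ⟪e K, f⟫ = f K := by
  unfold e
  rw [lp.inner_single_left]
  simp

lemma inner_e_right (K : ℕ) (f : Hs) : ⟪f, e K⟫ = conj (f K) := by
  rw [← inner_conj_symm, inner_e]

lemma ent_eq_inner (R : Hs →L[ℂ] Hs) (K P : ℕ) : ent R K P = ⟪e K, R (e P)⟫ := by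
  rw [inner_e]; rfl

lemma ent_adjoint (R : Hs →L[ℂ] Hs) (K P : ℕ) :
    ent (ContinuousLinearMap.adjoint R) K P = conj (ent R P K) := by
  rw [ent_eq_inner, ContinuousLinearMap.adjoint_inner_right, inner_e_right]; rfl

lemma symOp_of_ent {A : Hs →L[ℂ] Hs} (h : ∀ K P, ent A K P = conj (ent A P K)) : SymOp A := by
  have h1 : ContinuousLinearMap.adjoint A = A := by
    apply ext_ent; intro K P
    rw [ent_adjoint, ← h]
  intro f g
  conv_lhs => rw [← h1]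
  exact ContinuousLinearMap.adjoint_inner_left A g f

/-- Toeplitz operator with symbol `g`. -/
noncomputable def Tp (g : ℤ → ℂ) : Hs →L[ℂ] Hs := ∑' k, g k • Sh k

lemma summable_Tp {g : ℤ → ℂ} (hg : Summable fun k => ‖g k‖) : Summable fun k => ‖g k • Sh k‖ := by
  apply Summable.of_nonneg_of_le (fun _ => norm_nonneg _) _ hg
  intro k
  rw [norm_smul]
  calc ‖g k‖ * ‖Sh k‖ ≤ ‖g k‖ * 1 := by gcongr; exact norm_Sh_le k
    _ = _ := mul_one _

lemma ent_Tp {g : ℤ → ℂ} (hg : Summable fun k => ‖g k‖) (K P : ℕ) :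
    ent (Tp g) K P = g ((K : ℤ) - P) := by
  have h1 := hasSum_ent (summable_Tp hg).of_norm.hasSum K P
  have h2 : ∀ k, ent (g k • Sh k) K P = if k = (K : ℤ) - P then g ((K : ℤ) - P) else 0 := by
    intro k
    rw [ent_smul, ent_Sh]
    split_ifs with h3 h4 h4
    · rw [h4]; ring
    · omega
    · omega
    · ring
  simp only [h2] at h1
  exact h1.unique (hasSum_ite_eq _ _)

lemma norm_Tp_le {g : ℤ → ℂ} (hg : Summable fun k => ‖g k‖) : ‖Tp g‖ ≤ ∑' k, ‖g k‖ := by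
  apply tsum_of_norm_bounded hg.hasSum
  intro k
  rw [norm_smul]
  calc ‖g k‖ * ‖Sh k‖ ≤ ‖g k‖ * 1 := by gcongr; exact norm_Sh_le k
    _ = _ := mul_one _

lemma Nn_Tp_le (L : Len) (ρ : ℝ) {g : ℤ → ℂ} (hg : Summable fun k => ‖g k‖) :
    Nn L ρ (Tp g) ≤ ∑' k, ‖g k‖ₑ * wt L ρ k := by
  apply ENNReal.tsum_le_tsum
  intro k
  gcongr
  apply ds_le
  intro Q P hk
  rw [ent_Tp hg, hk]

lemma Tp_sym {g : ℤ → ℂ} (hg : Summable fun k => ‖g k‖) (hr : ∀ k, g (-k) = conj (g k)) :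
    SymOp (Tp g) := by
  apply symOp_of_ent
  intro K P
  rw [ent_Tp hg, ent_Tp hg, ← hr]
  congr 1; ring

lemma Tp_toep {g : ℤ → ℂ} (hg : Summable fun k => ‖g k‖) (K P : ℕ) :
    ent (Tp g) (K + 1) (P + 1) = ent (Tp g) K P := by
  rw [ent_Tp hg, ent_Tp hg]
  congr 1; push_cast; ring

/-- Localised orthonormal eigenbasis. -/
structure LocBasis (T : Tor) (ρ : ℝ) (A : Hs →L[ℂ] Hs) (b : HilbertBasis ℕ ℂ Hs) (lam : ℕ → ℝ) : Prop where
  eig : ∀ P, IsEig T.h A (lam P) (b P)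
  gap : ∀ K, lam K + T.h ≤ lam (K + 1)
  loc : ∀ P, ∑' n : ℕ, ‖b P n‖ₑ * wt T.toLen ρ ((n : ℤ) - P) ≤ 2

end BO
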