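import Pool.Agent.Helper3.BO.Second

open scoped ENNReal NNReal Topology ComplexConjugate
open Filter Set

namespace BO

namespace Modes
variable {G : Type*} [AddCommGroup G] (M : Modes G)

/-- symmetrised difference of convolutions -/
lemma conv_diff {σ A : ℝ} (hσ : 0 < σ) (hA : 0 ≤ A) {v w : G → ℂ}
    (hv : ∀ k, ‖v k‖ ≤ A * Real.exp (-(σ * M.ℓ k))) (hw : ∀ k, ‖w k‖ ≤ A * Real.exp (-(σ * M.ℓ k))) (k : G) :
    ∑' m, v m * v (k - m) - ∑' m, w m * w (k - m) = ∑' m, (v m - w m) * (v (k - m) + w (k - m)) := by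
  have h1 := (M.conv_summable hσ hA hv hv k).of_norm
  have h2 := (M.conv_summable hσ hA hw hw k).of_norm
  have h3 := (M.conv_summable hσ hA hv hw k).of_norm
  have h4 := (M.conv_summable hσ hA hw hv k).of_norm
  have h5 : ∑' m, v m * w (k - m) = ∑' m, w m * v (k - m) := by
    rw [← (Equiv.subLeft k).tsum_eq]
    congr 1; funext m
    simp only [Equiv.subLeft_apply, sub_sub_cancel]
    ring
  have h6 : (fun m => (v m - w m) * (v (k - m) + w (k - m)))
      = fun m => (v m * v (k - m) + v m * w (k - m)) - (w m * v (k - m) + w m * w (k - m)) := by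
    funext m; ring
  rw [h6, (h1.add h3).tsum_sub (h4.add h2), h1.tsum_add h3, h4.tsum_add h2, h5]
  ring

/-- bound of a weighted convolution, `β` summable -/
lemma beta_step {τ κ σ1 : ℝ} (hσ1 : 0 < σ1) (hκ : 0 < κ) (hκτ : κ * τ ≤ σ1) {A : ℝ} (hA : 0 ≤ A)
    {v w : ℝ → G → ℂ}
    (hvo : ∀ t ∈ Icc 0 τ, ∀ k, HasDerivWithinAt (fun s => v s k) (NL M.ξ (v t) k) (Icc 0 τ) t)
    (hwo : ∀ t ∈ Icc 0 τ, ∀ k, HasDerivWithinAt (fun s => w s k) (NL M.ξ (w t) k) (Icc 0 τ) t)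
    (hv : ∀ t ∈ Icc 0 τ, ∀ k, ‖v t k‖ ≤ A * Real.exp (-(2 * σ1 * M.ℓ k)))
    (hw : ∀ t ∈ Icc 0 τ, ∀ k, ‖w t k‖ ≤ A * Real.exp (-(2 * σ1 * M.ℓ k)))
    (h0 : v 0 = w 0) {β : G → ℝ} (hβ0 : ∀ k, 0 ≤ β k) (hβ : Summable β)
    (hd : ∀ t ∈ Icc 0 τ, ∀ k, ‖v t k - w t k‖ ≤ β k * Real.exp (-((σ1 - κ * t) * M.ℓ k))) :
    ∀ t ∈ Icc 0 τ, ∀ k, ‖v t k - w t k‖ ≤
      (M.Ω / κ * ∑' m, β m * (2 * A * Real.exp (-(σ1 * M.ℓ (k - m))))) * Real.exp (-((σ1 - κ * t) * M.ℓ k)) := by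
  have hΩ := M.Ω0
  intro t ht k
  have hκt : ∀ s ∈ Icc 0 τ, 0 ≤ σ1 - κ * s := by
    intro s hs
    have : κ * s ≤ κ * τ := by gcongr; exact hs.2
    linarith
  have hsum : Summable fun m => β m * (2 * A * Real.exp (-(σ1 * M.ℓ (k - m)))) := by
    apply Summable.of_nonneg_of_le (fun m => by have := hβ0 m; positivity) (fun m => _) (hβ.mul_right (2 * A))
    intro m
    have h1 := hβ0 m
    have h2 : Real.exp (-(σ1 * M.ℓ (k - m))) ≤ 1 := by
      rw [Real.exp_le_one_iff]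
      have : 0 ≤ σ1 * M.ℓ (k - m) := by positivity
      linarith
    calc β m * (2 * A * Real.exp (-(σ1 * M.ℓ (k - m)))) ≤ β m * (2 * A * 1) := by gcongr
      _ = _ := by ring
  set γ : ℝ := ∑' m, β m * (2 * A * Real.exp (-(σ1 * M.ℓ (k - m)))) with hγ
  have hγ0 : 0 ≤ γ := tsum_nonneg fun m => by have := hβ0 m; positivity
  -- the rotated difference
  set y : ℝ → ℂ := fun s => Complex.exp (-Complex.I * M.θ k * s) * (v s k - w s k) with hy
  set y' : ℝ → ℂ := fun s => Complex.exp (-Complex.I * M.θ k * s) *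
    (-Complex.I * (M.ξ k : ℂ) * ∑' m, (v s m - w s m) * (v s (k - m) + w s (k - m))) with hy'
  have hexp : ∀ s : ℝ, ‖Complex.exp (-Complex.I * M.θ k * s)‖ = 1 := by
    intro s
    have : -Complex.I * (M.θ k : ℂ) * (s : ℂ) = ((-(M.θ k * s) : ℝ) : ℂ) * Complex.I := by push_cast; ring
    rw [this, Complex.norm_exp_ofReal_mul_I]
  have hder : ∀ s ∈ Icc 0 τ, HasDerivWithinAt y (y' s) (Icc 0 τ) s := by
    intro s hs
    have d1 : HasDerivAt (fun s : ℝ => Complex.exp (-Complex.I * M.θ k * s))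
        (Complex.exp (-Complex.I * M.θ k * s) * (-Complex.I * M.θ k)) s := by
      have d3 : HasDerivAt (fun s : ℝ => -Complex.I * (M.θ k : ℂ) * (s : ℂ)) (-Complex.I * M.θ k) s := by
        have := (Complex.ofRealCLM.hasDerivAt (x := s)).const_mul (-Complex.I * (M.θ k : ℂ))
        simpa using this
      exact d3.cexp
    have d2 := d1.hasDerivWithinAt.mul ((hvo s hs k).sub (hwo s hs k))
    refine d2.congr_deriv ?_
    simp only [hy']
    rw [← M.conv_diff (by positivity : 0 < 2 * σ1) hA (hv s hs) (hw s hs) k]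
    unfold NL
    have e3 : ((M.ξ k * |M.ξ k| : ℝ) : ℂ) = (M.θ k : ℂ) := rfl
    rw [e3]
    simp only [Pi.sub_apply]
    ring
  have hbd : ∀ s ∈ Icc 0 τ, ‖y' s‖ ≤ M.Ω * M.ℓ k * γ * Real.exp (-((σ1 - κ * s) * M.ℓ k)) := by
    intro s hs
    simp only [hy']
    rw [norm_mul, hexp, one_mul, norm_mul, norm_mul, norm_neg, Complex.norm_I, one_mul, Complex.norm_real,
      Real.norm_eq_abs]
    have h1 : ∀ m, ‖(v s m - w s m) * (v s (k - m) + w s (k - m))‖
        ≤ (β m * (2 * A * Real.exp (-(σ1 * M.ℓ (k - m))))) * Real.exp (-((σ1 - κ * s) * M.ℓ k)) := by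
      intro m
      rw [norm_mul]
      have h2 : ‖v s (k - m) + w s (k - m)‖ ≤ 2 * A * Real.exp (-(2 * σ1 * M.ℓ (k - m))) := by
        refine (norm_add_le _ _).trans ?_
        have := hv s hs (k - m); have := hw s hs (k - m); linarith
      have h3 : Real.exp (-((σ1 - κ * s) * M.ℓ m)) * Real.exp (-(2 * σ1 * M.ℓ (k - m)))
          ≤ Real.exp (-(σ1 * M.ℓ (k - m))) * Real.exp (-((σ1 - κ * s) * M.ℓ k)) := by
        rw [← Real.exp_add, ← Real.exp_add]
        apply Real.exp_le_exp.mpr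
        have h4 : (M.ℓ k : ℝ) ≤ M.ℓ m + M.ℓ (k - m) := by exact_mod_cast M.le_add k m
        have h5 := mul_le_mul_of_nonneg_left h4 (hκt s hs)
        have h6 : (σ1 - κ * s) * M.ℓ (k - m) ≤ σ1 * M.ℓ (k - m) := by
          have : 0 ≤ κ * s := mul_nonneg hκ.le hs.1
          gcongr; linarith
        linarith
      have h7 := hβ0 m
      calc ‖v s m - w s m‖ * ‖v s (k - m) + w s (k - m)‖
          ≤ (β m * Real.exp (-((σ1 - κ * s) * M.ℓ m))) * (2 * A * Real.exp (-(2 * σ1 * M.ℓ (k - m)))) := by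
            gcongr; exact hd s hs m
        _ = β m * (2 * A) * (Real.exp (-((σ1 - κ * s) * M.ℓ m)) * Real.exp (-(2 * σ1 * M.ℓ (k - m)))) := by ring
        _ ≤ β m * (2 * A) * (Real.exp (-(σ1 * M.ℓ (k - m))) * Real.exp (-((σ1 - κ * s) * M.ℓ k))) :=
            mul_le_mul_of_nonneg_left h3 (by positivity)
        _ = _ := by ring
    have h8 : ‖∑' m, (v s m - w s m) * (v s (k - m) + w s (k - m))‖
        ≤ γ * Real.exp (-((σ1 - κ * s) * M.ℓ k)) := by
      refine (tsum_of_norm_bounded (hsum.mul_right _).hasSum h1).trans (le_of_eq ?_)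
      rw [tsum_mul_right]
    calc |M.ξ k| * ‖∑' m, (v s m - w s m) * (v s (k - m) + w s (k - m))‖
        ≤ (M.Ω * M.ℓ k) * (γ * Real.exp (-((σ1 - κ * s) * M.ℓ k))) := by
          gcongr; exact M.hξ k
      _ = _ := by ring
  have hB : ∀ s : ℝ, HasDerivAt (fun s => (M.Ω / κ * γ) * Real.exp (-((σ1 - κ * s) * M.ℓ k)))
      (M.Ω * M.ℓ k * γ * Real.exp (-((σ1 - κ * s) * M.ℓ k))) s := by
    intro s
    have d1 : HasDerivAt (fun s : ℝ => -((σ1 - κ * s) * M.ℓ k)) (κ * M.ℓ k) s := by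
      have := (((hasDerivAt_id s).const_mul κ).const_sub σ1).mul_const (M.ℓ k : ℝ)
      have := this.neg
      simp only [id, mul_one] at this
      refine this.congr_deriv ?_
      ring
    have d2 := (d1.exp).const_mul (M.Ω / κ * γ)
    refine d2.congr_deriv ?_
    field_simp
  have hfin := image_norm_le_of_norm_deriv_right_le_deriv_boundary' (f := y) (f' := y') (a := 0) (b := τ)
    (fun s hs => (hder s hs).continuousWithinAt)
    (fun s hs => deriv_Ici hs (hder s (Ico_subset_Icc_self hs)))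
    (B := fun s => (M.Ω / κ * γ) * Real.exp (-((σ1 - κ * s) * M.ℓ k)))
    (B' := fun s => M.Ω * M.ℓ k * γ * Real.exp (-((σ1 - κ * s) * M.ℓ k)))
    (by simp only [hy]; rw [h0, sub_self, mul_zero, norm_zero]; positivity)
    (fun s _ => (hB s).continuousAt.continuousWithinAt)
    (fun s _ => (hB s).hasDerivWithinAt)
    (fun s hs => hbd s (Ico_subset_Icc_self hs)) ht
  simp only [hy] at hfin
  rw [norm_mul, hexp, one_mul] at hfin
  exact hfin

lemma uniq_step {σ1 A : ℝ} (hσ1 : 0 < σ1) (hA : 0 ≤ A) :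
    ∃ τ > 0, ∀ v w : ℝ → G → ℂ,
    (∀ t ∈ Icc 0 τ, ∀ k, HasDerivWithinAt (fun s => v s k) (NL M.ξ (v t) k) (Icc 0 τ) t) →
    (∀ t ∈ Icc 0 τ, ∀ k, HasDerivWithinAt (fun s => w s k) (NL M.ξ (w t) k) (Icc 0 τ) t) →
    (∀ t ∈ Icc 0 τ, ∀ k, ‖v t k‖ ≤ A * Real.exp (-(2 * σ1 * M.ℓ k))) →
    (∀ t ∈ Icc 0 τ, ∀ k, ‖w t k‖ ≤ A * Real.exp (-(2 * σ1 * M.ℓ k))) → v 0 = w 0 →
    ∀ t ∈ Icc 0 τ, v t = w t := by
  have hΩ := M.Ω0
  have hS := M.S_nonneg σ1
  set κ : ℝ := 4 * M.Ω * A * M.S σ1 + 1 with hκ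
  have hκ0 : 0 < κ := by positivity
  set τ : ℝ := σ1 / κ with hτ
  have hτ0 : 0 < τ := by positivity
  have hκτ : κ * τ ≤ σ1 := by rw [hτ]; field_simp; exact le_rfl
  refine ⟨τ, hτ0, ?_⟩
  intro v w hvo hwo hv hw h0
  have hind : ∀ j : ℕ, ∃ β : G → ℝ, (∀ k, 0 ≤ β k) ∧ Summable β ∧ (∑' k, β k) ≤ (1 / 2) ^ j * (2 * A * M.S σ1) ∧
      ∀ t ∈ Icc 0 τ, ∀ k, ‖v t k - w t k‖ ≤ β k * Real.exp (-((σ1 - κ * t) * M.ℓ k)) := by
    intro j
    induction j with
    | zero =>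
      refine ⟨fun k => 2 * A * Real.exp (-(σ1 * M.ℓ k)), fun k => by positivity,
        (M.summ σ1 hσ1).mul_left _, ?_, ?_⟩
      · rw [tsum_mul_left]; unfold S; simp
      · intro t ht k
        have h1 := hv t ht k; have h2 := hw t ht k
        have h3 : Real.exp (-(2 * σ1 * M.ℓ k)) ≤ Real.exp (-(σ1 * M.ℓ k)) * Real.exp (-((σ1 - κ * t) * M.ℓ k)) := by
          rw [← Real.exp_add]
          apply Real.exp_le_exp.mpr
          have : 0 ≤ κ * t * M.ℓ k := by have := ht.1; positivity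
          nlinarith
        calc ‖v t k - w t k‖ ≤ ‖v t k‖ + ‖w t k‖ := norm_sub_le _ _
          _ ≤ 2 * A * Real.exp (-(2 * σ1 * M.ℓ k)) := by linarith
          _ ≤ 2 * A * (Real.exp (-(σ1 * M.ℓ k)) * Real.exp (-((σ1 - κ * t) * M.ℓ k))) := by gcongr
          _ = _ := by ring
    | succ j ih =>
      obtain ⟨β, hβ0, hβ, hβs, hd⟩ := ih
      have hstep := M.beta_step hσ1 hκ0 hκτ hA hvo hwo hv hw h0 hβ0 hβ hd
      set β' : G → ℝ := fun k => M.Ω / κ * ∑' m, β m * (2 * A * Real.exp (-(σ1 * M.ℓ (k - m)))) with hβ'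
      -- summability over the product
      have hprod : Summable fun x : G × G => β x.1 * (2 * A * Real.exp (-(σ1 * M.ℓ x.2))) :=
        hβ.mul_of_nonneg ((M.summ σ1 hσ1).mul_left (2 * A)) hβ0 (fun _ => by positivity)
      let e : G × G ≃ G × G :=
        { toFun := fun x => (x.2, x.1 - x.2)
          invFun := fun x => (x.1 + x.2, x.1)
          left_inv := fun x => by simp
          right_inv := fun x => by simp }
      have hprod' : Summable fun x : G × G => β x.2 * (2 * A * Real.exp (-(σ1 * M.ℓ (x.1 - x.2)))) := by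
        have := (e.summable_iff).mpr hprod
        exact this
      have hs1 : Summable fun k => ∑' m, β m * (2 * A * Real.exp (-(σ1 * M.ℓ (k - m)))) := hprod'.prod
      have hs2 : ∑' k, ∑' m, β m * (2 * A * Real.exp (-(σ1 * M.ℓ (k - m)))) = (∑' m, β m) * (2 * A * M.S σ1) := by
        rw [← hprod'.tsum_prod]
        have h1 := e.tsum_eq (fun x : G × G => β x.1 * (2 * A * Real.exp (-(σ1 * M.ℓ x.2))))
        have h2 : (fun x : G × G => β (e x).1 * (2 * A * Real.exp (-(σ1 * M.ℓ (e x).2))))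
            = fun x : G × G => β x.2 * (2 * A * Real.exp (-(σ1 * M.ℓ (x.1 - x.2)))) := rfl
        rw [← h2, h1, hprod.tsum_prod]
        have h3 : ∀ a, ∑' c, β a * (2 * A * Real.exp (-(σ1 * M.ℓ c))) = β a * (2 * A * M.S σ1) := by
          intro a
          rw [tsum_mul_left, tsum_mul_left]; rfl
        simp only [h3]
        rw [tsum_mul_right]
      refine ⟨β', ?_, hs1.mul_left _, ?_, hstep⟩
      · intro k
        have : 0 ≤ ∑' m, β m * (2 * A * Real.exp (-(σ1 * M.ℓ (k - m)))) :=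
          tsum_nonneg fun m => by have := hβ0 m; positivity
        positivity
      · rw [hβ', tsum_mul_left, hs2]
        have h1 : 0 ≤ ∑' m, β m := tsum_nonneg hβ0
        have h2 : M.Ω / κ * (2 * A * M.S σ1) ≤ 1 / 2 := by
          rw [div_mul_eq_mul_div, div_le_iff₀ hκ0, hκ]; nlinarith
        calc M.Ω / κ * ((∑' m, β m) * (2 * A * M.S σ1)) = (M.Ω / κ * (2 * A * M.S σ1)) * ∑' m, β m := by ring
          _ ≤ 1 / 2 * ((1 / 2) ^ j * (2 * A * M.S σ1)) := by gcongr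
          _ = _ := by rw [pow_succ]; ring
  intro t ht
  funext k
  have hzero : ‖v t k - w t k‖ ≤ 0 := by
    have hlim : Tendsto (fun j : ℕ => (1 / 2 : ℝ) ^ j * (2 * A * M.S σ1)) atTop (𝓝 0) := by
      have := (tendsto_pow_atTop_nhds_zero_of_lt_one (r := (1 / 2 : ℝ)) (by norm_num) (by norm_num)).mul_const
        (2 * A * M.S σ1)
      simpa using this
    apply ge_of_tendsto' hlim
    intro j
    obtain ⟨β, hβ0, hβ, hβs, hd⟩ := hind j
    have h1 : Real.exp (-((σ1 - κ * t) * M.ℓ k)) ≤ 1 := by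
      rw [Real.exp_le_one_iff]
      have h2 : κ * t ≤ κ * τ := by gcongr; exact ht.2
      have : 0 ≤ (σ1 - κ * t) * M.ℓ k := mul_nonneg (by linarith) (by positivity)
      linarith
    calc ‖v t k - w t k‖ ≤ β k * Real.exp (-((σ1 - κ * t) * M.ℓ k)) := hd t ht k
      _ ≤ β k * 1 := by have := hβ0 k; gcongr
      _ ≤ ∑' k, β k := by rw [mul_one]; exact hβ.le_tsum k (fun j _ => hβ0 j)
      _ ≤ _ := hβs
  exact sub_eq_zero.mp (norm_le_zero_iff.mp hzero)

/-- uniqueness on the half line -/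
theorem uniq {σ A : ℝ} (hσ : 0 < σ) (hA : 0 ≤ A) {v w : ℝ → G → ℂ}
    (hvo : ∀ t, 0 ≤ t → ∀ k, HasDerivWithinAt (fun s => v s k) (NL M.ξ (v t) k) (Ici 0) t)
    (hwo : ∀ t, 0 ≤ t → ∀ k, HasDerivWithinAt (fun s => w s k) (NL M.ξ (w t) k) (Ici 0) t)
    (hv : ∀ t, 0 ≤ t → ∀ k, ‖v t k‖ ≤ A * Real.exp (-(σ * M.ℓ k)))
    (hw : ∀ t, 0 ≤ t → ∀ k, ‖w t k‖ ≤ A * Real.exp (-(σ * M.ℓ k))) (h0 : v 0 = w 0) :
    ∀ t, 0 ≤ t → v t = w t := by
  obtain ⟨τ, hτ, hstep⟩ := M.uniq_step (σ1 := σ / 2) (A := A) (by positivity) hA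
  have h2 : 2 * (σ / 2) = σ := by ring
  rw [h2] at hstep
  have hshift : ∀ (u : ℝ → G → ℂ), (∀ t, 0 ≤ t → ∀ k, HasDerivWithinAt (fun s => u s k) (NL M.ξ (u t) k) (Ici 0) t) →
      ∀ a, 0 ≤ a → ∀ t ∈ Icc 0 τ, ∀ k,
        HasDerivWithinAt (fun s => u (s + a) k) (NL M.ξ (u (t + a)) k) (Icc 0 τ) t := by
    intro u hu a ha t ht k
    have h3 : HasDerivWithinAt (fun s : ℝ => s + a) 1 (Icc 0 τ) t := (hasDerivWithinAt_id t _).add_const a
    have h4 := HasDerivWithinAt.scomp t (hu (t + a) (by linarith [ht.1]) k) h3 (fun s hs => by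
      show 0 ≤ s + a
      linarith [hs.1])
    rw [one_smul] at h4
    exact h4
  have hind : ∀ n : ℕ, v (n * τ) = w (n * τ) ∧ ∀ t ∈ Icc 0 τ, v (t + n * τ) = w (t + n * τ) := by
    intro n
    induction n with
    | zero =>
      refine ⟨by simpa using h0, ?_⟩
      intro t ht
      have := hstep (fun s => v (s + 0)) (fun s => w (s + 0)) (hshift v hvo 0 le_rfl) (hshift w hwo 0 le_rfl)
        (fun t ht k => hv _ (by linarith [ht.1]) k) (fun t ht k => hw _ (by linarith [ht.1]) k)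
        (by simpa using h0) t ht
      simpa using this
    | succ n ih =>
      have e1 : ((n + 1 : ℕ) : ℝ) * τ = τ + n * τ := by push_cast; ring
      have h3 : v ((n + 1 : ℕ) * τ) = w ((n + 1 : ℕ) * τ) := by
        rw [e1]; exact ih.2 τ (right_mem_Icc.mpr hτ.le)
      refine ⟨h3, ?_⟩
      intro t ht
      have ha : 0 ≤ ((n + 1 : ℕ) : ℝ) * τ := by positivity
      exact hstep (fun s => v (s + (n + 1 : ℕ) * τ)) (fun s => w (s + (n + 1 : ℕ) * τ)) (hshift v hvo _ ha)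
        (hshift w hwo _ ha)
        (fun t ht k => hv _ (by linarith [ht.1]) k) (fun t ht k => hw _ (by linarith [ht.1]) k)
        (by simp only [zero_add]; exact h3) t ht
  intro t ht
  set n : ℕ := ⌊t / τ⌋₊ with hn
  have h3 : (n : ℝ) * τ ≤ t := by
    have := Nat.floor_le (div_nonneg ht hτ.le)
    rwa [le_div_iff₀ hτ] at this
  have h4 : t < ((n : ℝ) + 1) * τ := by
    have := Nat.lt_floor_add_one (t / τ)
    rwa [div_lt_iff₀ hτ] at this
  have h5 := (hind n).2 (t - n * τ) ⟨by linarith, by linarith⟩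
  rwa [sub_add_cancel] at h5

end Modes

end BO
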